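import Mathlib

set_option autoImplicit false
set_option linter.unusedSectionVars false

/-!
Cycles of permutations: removing a letter, multiplying by a transposition.
-/

namespace Pool.Agent.W604

open Equiv

/-- number of cycles (fixed points included) -/
noncomputable def cyc {α : Type*} (π : Perm α) : ℕ := Nat.card (Quotient (Perm.SameCycle.setoid π))

section letters

variable {L L' : Type*}

/-- the letter removed -/
def hole (E : L ≃ Option L') : L := E.symm none

/-- the inclusion of the other letters -/
def lft (E : L ≃ Option L') (v : L') : L := E.symm (some v)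

/-- extend a permutation by fixing the hole -/
def fx (E : L ≃ Option L') (ρ : Perm L') : Perm L := E.symm.permCongr (optionCongr ρ)

/-- remove the letter `hole E` from the cycles -/
def rm (E : L ≃ Option L') (ψ : Perm L) : Perm L' := removeNone (E.permCongr ψ)

theorem lft_ne_hole (E : L ≃ Option L') (v : L') : lft E v ≠ hole E := by
  simp [lft, hole]

theorem hole_ne_lft (E : L ≃ Option L') (v : L') : hole E ≠ lft E v := by
  simp [lft, hole]

theorem lft_inj (E : L ≃ Option L') {v w : L'} : lft E v = lft E w ↔ v = w := by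
  simp [lft]

theorem eq_hole_or_lft (E : L ≃ Option L') (h : L) : h = hole E ∨ ∃ v, h = lft E v := by
  rcases h' : E h with _ | v
  · left; rw [hole, ← h']; simp
  · right; exact ⟨v, by rw [lft, ← h']; simp⟩

@[simp] theorem fx_hole (E : L ≃ Option L') (ρ : Perm L') : fx E ρ (hole E) = hole E := by
  simp [fx, hole]

@[simp] theorem fx_lft (E : L ≃ Option L') (ρ : Perm L') (v : L') :
    fx E ρ (lft E v) = lft E (ρ v) := by
  simp [fx, lft]

theorem fx_injective (E : L ≃ Option L') : Function.Injective (fx E) := by
  intro ρ σ h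
  ext v
  have := congrArg (fun p : Perm L => p (lft E v)) h
  simp only [fx_lft] at this
  rw [(lft_inj E).1 this]

theorem ext_fx (E : L ≃ Option L') {ψ : Perm L} {ρ : Perm L'} (h0 : ψ (hole E) = hole E)
    (h : ∀ v, ψ (lft E v) = lft E (ρ v)) : ψ = fx E ρ := by
  ext x
  rcases eq_hole_or_lft E x with rfl | ⟨v, rfl⟩
  · rw [h0, fx_hole]
  · rw [h, fx_lft]

@[simp] theorem fx_one (E : L ≃ Option L') : fx E 1 = 1 :=
  (ext_fx E (by simp) (by simp)).symm

theorem fx_mul (E : L ≃ Option L') (ρ σ : Perm L') : fx E (ρ * σ) = fx E ρ * fx E σ :=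
  (ext_fx E (by simp) (by simp)).symm

theorem fx_inv (E : L ≃ Option L') (ρ : Perm L') : fx E ρ⁻¹ = (fx E ρ)⁻¹ := by
  rw [eq_inv_iff_mul_eq_one, ← fx_mul]; simp

variable [DecidableEq L] [DecidableEq L']

theorem fx_swap (E : L ≃ Option L') (v w : L') : fx E (swap v w) = swap (lft E v) (lft E w) := by
  symm
  apply ext_fx
  · rw [swap_apply_of_ne_of_ne (hole_ne_lft E v) (hole_ne_lft E w)]
  · intro x
    by_cases hv : x = v
    · subst hv; simp
    by_cases hw : x = w
    · subst hw; simp
    rw [swap_apply_of_ne_of_ne hv hw, swap_apply_of_ne_of_ne] <;> simpa [lft_inj]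

/-- normal form -/
theorem fx_rm (E : L ≃ Option L') (ψ : Perm L) :
    fx E (rm E ψ) = ψ * swap (hole E) (ψ⁻¹ (hole E)) := by
  unfold fx rm
  rw [map_equiv_removeNone]
  ext x
  simp only [permCongr_apply, symm_symm, Perm.mul_apply, symm_apply_apply]
  have key : ∀ y : L, E.symm ((swap none (E (ψ (E.symm none)))) (E y))
      = swap (hole E) (ψ (hole E)) y := by
    intro y
    unfold hole
    rw [← Equiv.symm_apply_apply E (swap (E.symm none) (ψ (E.symm none)) y)]
    congr 1
    by_cases h1 : y = E.symm none
    · subst h1; simp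
    by_cases h2 : y = ψ (E.symm none)
    · subst h2; simp
    rw [swap_apply_of_ne_of_ne h1 h2, swap_apply_of_ne_of_ne]
    · intro h; apply h1; rw [← h]; simp
    · intro h; apply h2; exact E.injective h
  rw [key]
  have : (ψ * swap (hole E) (ψ⁻¹ (hole E))) x = (swap (ψ (hole E)) (hole E) * ψ) x := by
    rw [Equiv.mul_swap_eq_swap_mul]; simp
  rw [← Perm.mul_apply, ← Perm.mul_apply] at *
  rw [this, swap_comm]

theorem nf (E : L ≃ Option L') (ψ : Perm L) :
    ψ = fx E (rm E ψ) * swap (hole E) (ψ⁻¹ (hole E)) := by
  rw [fx_rm, mul_assoc, swap_mul_self, mul_one]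

theorem rm_fx (E : L ≃ Option L') (ρ : Perm L') : rm E (fx E ρ) = ρ := by
  apply fx_injective E
  rw [fx_rm]
  have : (fx E ρ)⁻¹ (hole E) = hole E := by rw [Perm.inv_eq_iff_eq]; simp
  rw [this, swap_self, ← Perm.one_def, mul_one]

theorem rm_unique (E : L ≃ Option L') {ψ : Perm L} {ρ : Perm L'} {p : L}
    (h : ψ = fx E ρ * swap (hole E) p) : rm E ψ = ρ := by
  apply fx_injective E
  rw [fx_rm]
  have : ψ⁻¹ (hole E) = p := by
    rw [Perm.inv_eq_iff_eq, h]; simp
  rw [this, h, mul_assoc, swap_mul_self, mul_one]

theorem rm_mul_fx (E : L ≃ Option L') (ψ : Perm L) (σ : Perm L') :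
    rm E (ψ * fx E σ) = rm E ψ * σ := by
  apply rm_unique E (p := (fx E σ)⁻¹ (ψ⁻¹ (hole E)))
  conv_lhs => rw [nf E ψ]
  rw [fx_mul, mul_assoc, mul_assoc, Equiv.swap_mul_eq_mul_swap]
  congr 3
  rw [Perm.inv_eq_iff_eq]; simp

theorem rm_fx_mul (E : L ≃ Option L') (ψ : Perm L) (σ : Perm L') :
    rm E (fx E σ * ψ) = σ * rm E ψ := by
  apply rm_unique E (p := ψ⁻¹ (hole E))
  conv_lhs => rw [nf E ψ]
  rw [fx_mul, mul_assoc]

theorem rm_conj (E : L ≃ Option L') (ψ : Perm L) (σ : Perm L') :
    rm E (fx E σ * ψ * (fx E σ)⁻¹) = σ * rm E ψ * σ⁻¹ := by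
  rw [← fx_inv, rm_mul_fx, rm_fx_mul]

/-- insert the letter `hole E` after `v` -/
def ins (E : L ≃ Option L') (ρ : Perm L') (v : L') : Perm L := fx E ρ * swap (hole E) (lft E v)

theorem rm_ins (E : L ≃ Option L') (ρ : Perm L') (v : L') : rm E (ins E ρ v) = ρ :=
  rm_unique E rfl

@[simp] theorem ins_at (E : L ≃ Option L') (ρ : Perm L') (v : L') :
    ins E ρ v (lft E v) = hole E := by simp [ins]

@[simp] theorem ins_hole (E : L ≃ Option L') (ρ : Perm L') (v : L') :
    ins E ρ v (hole E) = lft E (ρ v) := by simp [ins]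

theorem ins_lft (E : L ≃ Option L') (ρ : Perm L') (v w : L') (h : w ≠ v) :
    ins E ρ v (lft E w) = lft E (ρ w) := by
  simp only [ins, Perm.mul_apply]
  rw [swap_apply_of_ne_of_ne (lft_ne_hole E w) (by simpa [lft_inj] using h), fx_lft]

theorem ins_rm (E : L ≃ Option L') (ψ : Perm L) (v : L') (h : ψ (lft E v) = hole E) :
    ins E (rm E ψ) v = ψ := by
  conv_rhs => rw [nf E ψ]
  have : ψ⁻¹ (hole E) = lft E v := by rw [Perm.inv_eq_iff_eq, h]
  rw [this, ins]

theorem fx_rm_fixed (E : L ≃ Option L') (ψ : Perm L) (h : ψ (hole E) = hole E) :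
    fx E (rm E ψ) = ψ := by
  conv_rhs => rw [nf E ψ]
  have : ψ⁻¹ (hole E) = hole E := by rw [Perm.inv_eq_iff_eq, h]
  rw [this, swap_self, ← Perm.one_def, mul_one]

/-- values of the permutation with a letter removed -/
theorem rm_apply (E : L ≃ Option L') (ψ : Perm L) (v : L') :
    lft E (rm E ψ v) = if ψ (lft E v) = hole E then ψ (hole E) else ψ (lft E v) := by
  have h1 : lft E (rm E ψ v) = fx E (rm E ψ) (lft E v) := by simp
  rw [h1, fx_rm, Perm.mul_apply]
  split_ifs with h
  · have : ψ⁻¹ (hole E) = lft E v := by rw [Perm.inv_eq_iff_eq, h]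
    rw [this]; simp
  · rw [swap_apply_of_ne_of_ne (lft_ne_hole E v)]
    intro h2
    apply h; rw [h2]; simp

/-! ### cycles -/

theorem sameCycle_ind {α : Type*} {π : Perm α} {r : α → α → Prop} (hr : Equivalence r)
    (h : ∀ x, r x (π x)) {a b : α} (hab : π.SameCycle a b) : r a b := by
  obtain ⟨n, rfl⟩ := hab
  have hpos : ∀ (n : ℕ) (x : α), r x ((π ^ n) x) := by
    intro n
    induction n with
    | zero => intro x; simpa using hr.refl x
    | succ n ih => intro x; rw [pow_succ', Perm.mul_apply]; exact hr.trans (ih x) (h _)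
  cases n with
  | ofNat n => simpa using hpos n a
  | negSucc n =>
    have := hpos (n + 1) ((π ^ (-(n + 1 : ℤ))) a)
    have h2 : (π ^ (n + 1)) ((π ^ (-(n + 1 : ℤ))) a) = a := by
      rw [← Perm.mul_apply, ← zpow_natCast, ← zpow_add]; simp
    rw [h2] at this
    rw [Int.negSucc_eq]
    exact hr.symm this

theorem sameCycle_apply {α : Type*} (π : Perm α) (x : α) : π.SameCycle x (π x) :=
  ⟨1, by simp⟩

theorem sameCycle_rm (E : L ≃ Option L') (ψ : Perm L) (v w : L') :
    (rm E ψ).SameCycle v w ↔ ψ.SameCycle (lft E v) (lft E w) := by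
  constructor
  · intro h
    refine sameCycle_ind (r := fun a b => ψ.SameCycle (lft E a) (lft E b))
      ⟨fun x => Perm.SameCycle.refl _ _, fun h => h.symm, fun h1 h2 => h1.trans h2⟩ ?_ h
    intro x
    rw [rm_apply]
    split_ifs with h
    · have h1 := sameCycle_apply ψ (lft E x)
      rw [h] at h1
      exact h1.trans (sameCycle_apply ψ _)
    · exact sameCycle_apply ψ _
  · intro h
    -- representative map
    let q : L → L' := fun x => match E x with
      | some v => v
      | none => match E (ψ (hole E)) with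
        | some v => v
        | none => v
    have hq : ∀ v, q (lft E v) = v := by intro v; simp [q, lft]
    have hq0 : ∀ u, ψ (hole E) = lft E u → q (hole E) = u := by
      intro u hu
      simp only [q, hu]
      simp [hole, lft]
    have := sameCycle_ind (π := ψ) (r := fun a b => (rm E ψ).SameCycle (q a) (q b))
      ⟨fun x => Perm.SameCycle.refl _ _, fun h => h.symm, fun h1 h2 => h1.trans h2⟩ ?_ h
    · simpa [hq] using this
    · intro x
      rcases eq_hole_or_lft E x with rfl | ⟨u, rfl⟩
      · rcases eq_hole_or_lft E (ψ (hole E)) with h0 | ⟨u, hu⟩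
        · simp only [h0]; exact Perm.SameCycle.refl _ _
        · rw [hq0 u hu, hu, hq]
      · rw [hq]
        have h1 := rm_apply E ψ u
        split_ifs at h1 with h2
        · rw [h2]
          rw [hq0 _ h1.symm]
          exact sameCycle_apply _ _
        · rw [← h1, hq]
          exact sameCycle_apply _ _

theorem cyc_rm_of_ne [Finite L] (E : L ≃ Option L') (ψ : Perm L) (h : ψ (hole E) ≠ hole E) :
    cyc (rm E ψ) = cyc ψ := by
  unfold cyc
  refine Nat.card_congr (Equiv.ofBijective
    (Quotient.map' (lft E) (fun a b hab => (sameCycle_rm E ψ a b).1 hab)) ⟨?_, ?_⟩)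
  · intro a b
    induction a using Quotient.inductionOn
    induction b using Quotient.inductionOn
    rename_i a b
    intro hab
    apply Quotient.sound
    exact (sameCycle_rm E ψ a b).2 (Quotient.exact hab)
  · intro a
    induction a using Quotient.inductionOn
    rename_i a
    rcases eq_hole_or_lft E a with rfl | ⟨u, rfl⟩
    · rcases eq_hole_or_lft E (ψ (hole E)) with h0 | ⟨u, hu⟩
      · exact absurd h0 h
      · refine ⟨Quotient.mk'' u, ?_⟩
        apply Quotient.sound
        rw [← hu]
        exact (sameCycle_apply ψ _).symm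
    · exact ⟨Quotient.mk'' u, rfl⟩

theorem cyc_fx [Finite L] (E : L ≃ Option L') (ρ : Perm L') :
    cyc (fx E ρ) = cyc ρ + 1 := by
  unfold cyc
  have hfin : Finite L' := by
    have : Finite (Option L') := Finite.of_equiv L E
    exact Finite.of_injective (some : L' → Option L') (Option.some_injective _)
  have : Finite (Quotient (Perm.SameCycle.setoid ρ)) := Quotient.finite _
  rw [← Finite.card_option]
  symm
  have h0 : ∀ u, ¬ (fx E ρ).SameCycle (hole E) (lft E u) := by
    intro u ⟨n, hn⟩
    have : ((fx E ρ) ^ n) (hole E) = hole E := by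
      have := Perm.zpow_apply_eq_self_of_apply_eq_self (f := fx E ρ) (fx_hole E ρ) n
      exact this
    rw [this] at hn
    exact hole_ne_lft E u hn
  have h1 : ∀ a b, ρ.SameCycle a b ↔ (fx E ρ).SameCycle (lft E a) (lft E b) := by
    intro a b
    have := sameCycle_rm E (fx E ρ) a b
    rwa [rm_fx] at this
  refine Nat.card_congr (Equiv.ofBijective
    (fun x : Option (Quotient (Perm.SameCycle.setoid ρ)) => match x with
      | none => (Quotient.mk'' (hole E) : Quotient (Perm.SameCycle.setoid (fx E ρ)))
      | some q => Quotient.map' (lft E) (fun a b hab => (h1 a b).1 hab) q) ⟨?_, ?_⟩)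
  · rintro (_ | a) (_ | b) hab
    · rfl
    · induction b using Quotient.inductionOn
      exact absurd (Quotient.exact hab) (h0 _)
    · induction a using Quotient.inductionOn
      exact absurd (Quotient.exact hab).symm (h0 _)
    · induction a using Quotient.inductionOn
      induction b using Quotient.inductionOn
      rename_i a b
      congr 1
      apply Quotient.sound
      exact (h1 a b).2 (Quotient.exact hab)
  · intro a
    induction a using Quotient.inductionOn
    rename_i a
    rcases eq_hole_or_lft E a with rfl | ⟨u, rfl⟩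
    · exact ⟨none, rfl⟩
    · exact ⟨some (Quotient.mk'' u), rfl⟩

theorem cyc_ins [Finite L] (E : L ≃ Option L') (ρ : Perm L') (v : L') :
    cyc (ins E ρ v) = cyc ρ := by
  rw [← cyc_rm_of_ne E (ins E ρ v), rm_ins]
  rw [ins_hole]; exact lft_ne_hole E _

theorem sameCycle_ins (E : L ≃ Option L') (ρ : Perm L') (v a b : L') :
    (ins E ρ v).SameCycle (lft E a) (lft E b) ↔ ρ.SameCycle a b := by
  rw [← sameCycle_rm, rm_ins]

theorem sameCycle_fx (E : L ≃ Option L') (ρ : Perm L') (a b : L') :
    (fx E ρ).SameCycle (lft E a) (lft E b) ↔ ρ.SameCycle a b := by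
  rw [← sameCycle_rm, rm_fx]

theorem sameCycle_ins_hole (E : L ≃ Option L') (ρ : Perm L') (v a : L') :
    (ins E ρ v).SameCycle (hole E) (lft E a) ↔ ρ.SameCycle v a := by
  rw [← sameCycle_ins E ρ v]
  have : (ins E ρ v).SameCycle (lft E v) (hole E) := by
    have := sameCycle_apply (ins E ρ v) (lft E v)
    rwa [ins_at] at this
  exact ⟨fun h => this.trans h, fun h => this.symm.trans h⟩

end letters

section swaps

variable {α : Type*} [DecidableEq α] [Finite α]

theorem exists_pow_of_sameCycle {π : Perm α} {x y : α} (h : π.SameCycle x y) :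
    ∃ n : ℕ, 0 < n ∧ (π ^ n) x = y := by
  obtain ⟨n, hn, hn2⟩ := h.exists_pow_eq'
  obtain ⟨m, hm, hm2, hm3⟩ := h.exists_pow_eq''
  exact ⟨m, hm, hm3⟩

/-- following the cycle of `y` -/
theorem swap_follow {π : Perm α} {x y : α} (n : ℕ) (hn : ∀ j, 0 < j → j < n →
    (π ^ j) y ≠ x ∧ (π ^ j) y ≠ y) (h0 : 0 < n) :
    ((π * swap x y) ^ n) x = (π ^ n) y := by
  induction n with
  | zero => omega
  | succ n ih =>
    rcases Nat.eq_zero_or_pos n with rfl | hpos
    · simp
    · rw [pow_succ', Perm.mul_apply, ih (fun j h1 h2 => hn j h1 (by omega)) hpos]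
      obtain ⟨h1, h2⟩ := hn n hpos (by omega)
      rw [Perm.mul_apply, swap_apply_of_ne_of_ne h1 h2, pow_succ', Perm.mul_apply]

theorem sameCycle_swap_of_not {π : Perm α} {x y : α} (h : ¬ π.SameCycle x y) :
    (π * swap x y).SameCycle x y := by
  classical
  obtain ⟨n, hn0, hn⟩ : ∃ n : ℕ, 0 < n ∧ (π ^ n) y = y :=
    exists_pow_of_sameCycle (Perm.SameCycle.refl π y)
  have hex : ∃ n : ℕ, 0 < n ∧ (π ^ n) y = y := ⟨n, hn0, hn⟩
  set m := Nat.find hex with hm
  obtain ⟨hm0, hm1⟩ := Nat.find_spec hex
  rw [← hm] at hm0 hm1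
  refine ⟨m, ?_⟩
  rw [zpow_natCast, swap_follow m _ hm0, hm1]
  intro j hj1 hj2
  refine ⟨?_, ?_⟩
  · intro hj
    exact h (Perm.SameCycle.symm ⟨j, by rw [zpow_natCast]; exact hj⟩)
  · intro hj
    have := Nat.find_min hex (m := j) (by rw [← hm]; exact hj2)
    exact this ⟨hj1, hj⟩

theorem not_sameCycle_swap_of {π : Perm α} {x y : α} (hxy : x ≠ y) (h : π.SameCycle x y) :
    ¬ (π * swap x y).SameCycle x y := by
  classical
  have hex : ∃ n : ℕ, 0 < n ∧ (π ^ n) y = x := exists_pow_of_sameCycle h.symm
  set m := Nat.find hex with hm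
  obtain ⟨hm0, hm1⟩ := Nat.find_spec hex
  rw [← hm] at hm0 hm1
  have hne : ∀ j, 0 < j → j < m → (π ^ j) y ≠ x ∧ (π ^ j) y ≠ y := by
    intro j hj1 hj2
    refine ⟨?_, ?_⟩
    · intro hj
      exact Nat.find_min hex (m := j) (by rw [← hm]; exact hj2) ⟨hj1, hj⟩
    · intro hj
      have h3 : (π ^ (m - j)) y = x := by
        rw [← hm1]
        conv_rhs => rw [show m = (m - j) + j by omega, pow_add, Perm.mul_apply, hj]
      exact Nat.find_min hex (m := m - j) (by rw [← hm]; omega) ⟨by omega, h3⟩
  intro hs
  -- the cycle of x under π * swap x y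
  have hper : ((π * swap x y) ^ m) x = x := by rw [swap_follow m hne hm0, hm1]
  obtain ⟨n, hn⟩ := exists_pow_of_sameCycle hs
  obtain ⟨hn0, hn1⟩ := hn
  have hmod : ((π * swap x y) ^ (n % m)) x = y := by
    have hpow : ∀ t : ℕ, (((π * swap x y) ^ m) ^ t) x = x := by
      intro t
      induction t with
      | zero => simp
      | succ t ih => rw [pow_succ, Perm.mul_apply, hper, ih]
    have h5 : ((π * swap x y) ^ (n % m + m * (n / m))) x = y := by rw [Nat.mod_add_div, hn1]
    rwa [pow_add, Perm.mul_apply, pow_mul, hpow] at h5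
  rcases Nat.eq_zero_or_pos (n % m) with h0 | hpos
  · rw [h0] at hmod; simp at hmod; exact hxy hmod
  · have hlt := Nat.mod_lt n hm0
    rw [swap_follow (n % m) (fun j h1 h2 => hne j h1 (by omega)) hpos] at hmod
    exact (hne _ hpos hlt).2 hmod

theorem sameCycle_swap_iff {π : Perm α} {x y : α} (hxy : x ≠ y) :
    (π * swap x y).SameCycle x y ↔ ¬ π.SameCycle x y :=
  ⟨fun h h2 => not_sameCycle_swap_of hxy h2 h, sameCycle_swap_of_not⟩

/-- the cycles are merged by a transposition of letters of two cycles -/
theorem sameCycle_merge {π : Perm α} {x y : α} (h : ¬ π.SameCycle x y) (a b : α) :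
    (π * swap x y).SameCycle a b ↔ π.SameCycle a b ∨
      ((π.SameCycle x a ∨ π.SameCycle y a) ∧ (π.SameCycle x b ∨ π.SameCycle y b)) := by
  constructor
  · intro hab
    refine sameCycle_ind (r := fun a b => π.SameCycle a b ∨
      ((π.SameCycle x a ∨ π.SameCycle y a) ∧ (π.SameCycle x b ∨ π.SameCycle y b)))
      ⟨fun _ => Or.inl (Perm.SameCycle.refl _ _), ?_, ?_⟩ ?_ hab
    · rintro a b (h | ⟨h1, h2⟩)
      · exact Or.inl h.symm
      · exact Or.inr ⟨h2, h1⟩
    · rintro a b c (h | ⟨h1, h2⟩) (h' | ⟨h1', h2'⟩)
      · exact Or.inl (h.trans h')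
      · refine Or.inr ⟨?_, h2'⟩
        rcases h1' with h1' | h1'
        · exact Or.inl (h1'.trans h.symm)
        · exact Or.inr (h1'.trans h.symm)
      · refine Or.inr ⟨h1, ?_⟩
        rcases h2 with h2 | h2
        · exact Or.inl (h2.trans h')
        · exact Or.inr (h2.trans h')
      · exact Or.inr ⟨h1, h2'⟩
    · intro z
      by_cases hx : z = x
      · subst hx
        simp only [Perm.mul_apply, swap_apply_left]
        exact Or.inr ⟨Or.inl (Perm.SameCycle.refl _ _), Or.inr (sameCycle_apply _ _)⟩
      by_cases hy : z = y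
      · subst hy
        simp only [Perm.mul_apply, swap_apply_right]
        exact Or.inr ⟨Or.inr (Perm.SameCycle.refl _ _), Or.inl (sameCycle_apply _ _)⟩
      · rw [Perm.mul_apply, swap_apply_of_ne_of_ne hx hy]
        exact Or.inl (sameCycle_apply _ _)
  · have hxy := sameCycle_swap_of_not h
    have key : ∀ z, (π * swap x y).SameCycle z (π z) := by
      intro z
      by_cases hx : z = x
      · subst hx
        have := sameCycle_apply (π * swap z y) y
        simp only [Perm.mul_apply, swap_apply_right] at this
        exact hxy.trans this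
      by_cases hy : z = y
      · subst hy
        have := sameCycle_apply (π * swap x z) x
        simp only [Perm.mul_apply, swap_apply_left] at this
        exact hxy.symm.trans this
      · have := sameCycle_apply (π * swap x y) z
        rwa [Perm.mul_apply, swap_apply_of_ne_of_ne hx hy] at this
    have key2 : ∀ a b, π.SameCycle a b → (π * swap x y).SameCycle a b := by
      intro a b hab
      exact sameCycle_ind (r := fun a b => (π * swap x y).SameCycle a b)
        ⟨fun _ => Perm.SameCycle.refl _ _, fun h => h.symm, fun h1 h2 => h1.trans h2⟩ key hab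
    rintro (h1 | ⟨h1, h2⟩)
    · exact key2 _ _ h1
    · have e1 : (π * swap x y).SameCycle x a := by
        rcases h1 with h1 | h1
        · exact key2 _ _ h1
        · exact hxy.trans (key2 _ _ h1)
      have e2 : (π * swap x y).SameCycle x b := by
        rcases h2 with h2 | h2
        · exact key2 _ _ h2
        · exact hxy.trans (key2 _ _ h2)
      exact e1.symm.trans e2

theorem cyc_merge {π : Perm α} {x y : α} (h : ¬ π.SameCycle x y) :
    cyc π = cyc (π * swap x y) + 1 := by
  classical
  unfold cyc
  set s := Perm.SameCycle.setoid π with hs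
  set s' := Perm.SameCycle.setoid (π * swap x y) with hs'
  have : Finite (Quotient s) := Quotient.finite _
  have : Finite (Quotient s') := Quotient.finite _
  have hxy : (Quotient.mk s x) ≠ Quotient.mk s y := fun h' => h (Quotient.exact h')
  -- Quotient s' ≃ {q : Quotient s // q ≠ [y]}
  let f : Quotient s → Quotient s := fun q => if q = Quotient.mk s y then Quotient.mk s x else q
  have hf : ∀ a b, s' a b ↔ f (Quotient.mk s a) = f (Quotient.mk s b) := by
    intro a b
    change (π * swap x y).SameCycle a b ↔ _
    rw [sameCycle_merge h]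
    have e1 : ∀ a b, Quotient.mk s a = Quotient.mk s b ↔ π.SameCycle a b :=
      fun a b => ⟨fun h => Quotient.exact h, fun h => Quotient.sound h⟩
    simp only [f]
    by_cases ha : Quotient.mk s a = Quotient.mk s y
    · by_cases hb : Quotient.mk s b = Quotient.mk s y
      · simp only [ha, hb, if_true]
        simp only [iff_true]
        left
        exact (e1 _ _).1 (ha.trans hb.symm)
      · simp only [ha, hb, if_true, if_false]
        rw [e1] at ha hb ⊢
        constructor
        · rintro (h1 | ⟨_, h2⟩)
          · exact absurd (h1.symm.trans ha) hb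
          · rcases h2 with h2 | h2
            · exact h2
            · exact absurd h2.symm hb
        · intro h1
          exact Or.inr ⟨Or.inr ha.symm, Or.inl h1⟩
    · by_cases hb : Quotient.mk s b = Quotient.mk s y
      · simp only [ha, hb, if_true, if_false]
        rw [e1] at ha hb ⊢
        constructor
        · rintro (h1 | ⟨h1, _⟩)
          · exact absurd (h1.trans hb) ha
          · rcases h1 with h1 | h1
            · exact h1.symm
            · exact absurd h1.symm ha
        · intro h1
          exact Or.inr ⟨Or.inl h1.symm, Or.inr hb.symm⟩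
      · simp only [ha, hb, if_false]
        rw [e1] at ha hb ⊢
        constructor
        · rintro (h1 | ⟨h1, h2⟩)
          · exact h1
          · rcases h1 with h1 | h1
            · rcases h2 with h2 | h2
              · exact h1.symm.trans h2
              · exact absurd h2.symm hb
            · exact absurd h1.symm ha
        · intro h1
          exact Or.inl h1
  have hrange : ∀ q, f q ≠ Quotient.mk s y := by
    intro q
    simp only [f]
    split_ifs with h1
    · exact hxy
    · exact h1
  have e : Quotient s' ≃ {q : Quotient s // q ≠ Quotient.mk s y} := by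
    refine Equiv.ofBijective (Quotient.lift (fun a => ⟨f (Quotient.mk s a), hrange _⟩) ?_) ⟨?_, ?_⟩
    · intro a b hab
      apply Subtype.ext
      exact (hf a b).1 hab
    · intro a b
      induction a using Quotient.inductionOn
      induction b using Quotient.inductionOn
      intro hab
      apply Quotient.sound
      exact (hf _ _).2 (Subtype.ext_iff.1 hab)
    · rintro ⟨q, hq⟩
      induction q using Quotient.inductionOn
      rename_i a
      refine ⟨Quotient.mk s' a, ?_⟩
      apply Subtype.ext
      simp only [Quotient.lift_mk, f]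
      rw [if_neg hq]
  have hcard : Nat.card (Quotient s) = Nat.card {q : Quotient s // q ≠ Quotient.mk s y} + 1 := by
    have e2 : Option {q : Quotient s // q ≠ Quotient.mk s y} ≃ Quotient s :=
      { toFun := fun o => match o with
          | none => Quotient.mk s y
          | some q => q.1
        invFun := fun q => if h : q = Quotient.mk s y then none else some ⟨q, h⟩
        left_inv := by
          rintro (_ | ⟨q, hq⟩)
          · simp
          · simp [hq]
        right_inv := by
          intro q
          by_cases h : q = Quotient.mk s y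
          · simp [h]
          · simp [h] }
    rw [← Nat.card_congr e2, Finite.card_option]
  rw [hcard, Nat.card_congr e]

theorem cyc_split {π : Perm α} {x y : α} (hxy : x ≠ y) (h : π.SameCycle x y) :
    cyc (π * swap x y) = cyc π + 1 := by
  have h1 := not_sameCycle_swap_of hxy h
  have := cyc_merge h1
  rwa [mul_assoc, swap_mul_self, mul_one] at this

/-- after splitting, the cycles are contained in the old ones -/
theorem sameCycle_of_split {π : Perm α} {x y : α} (hxy : x ≠ y) (h : π.SameCycle x y) {a b : α}
    (hab : (π * swap x y).SameCycle a b) : π.SameCycle a b := by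
  have h1 := not_sameCycle_swap_of hxy h
  have := (sameCycle_merge h1 a b).2 (Or.inl hab)
  rwa [mul_assoc, swap_mul_self, mul_one] at this

end swaps

end Pool.Agent.W604
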