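import Mathlib
import Pool.Agent.W604.Cyc

set_option autoImplicit false
set_option linter.unusedSectionVars false

/-!
Labelled chord systems as permutations of letters; deletion of a chord; cochains.
-/

namespace Pool.Agent.W604

open Equiv

/-! ### induced permutations (first return) -/

section ind

variable {L L' L'' : Type*}

/-- starting from `x`, the first letter in the range of `j` is `j w` -/
inductive Next (j : L' → L) (ψ : Perm L) : L → L' → Prop
  | base (w : L') : Next j ψ (j w) w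
  | step (x : L) (w : L') (h : x ∉ Set.range j) (h2 : Next j ψ (ψ x) w) : Next j ψ x w

/-- `ρ` is the permutation induced by `ψ` on the range of `j` -/
def Ind (j : L' → L) (ψ : Perm L) (ρ : Perm L') : Prop := ∀ v, Next j ψ (ψ (j v)) (ρ v)

theorem Next.unique {j : L' → L} (hj : Function.Injective j) {ψ : Perm L} {x : L} {w w' : L'}
    (h : Next j ψ x w) (h' : Next j ψ x w') : w = w' := by
  induction h with
  | base w =>
    generalize hx : j w = x at h'
    cases h' with
    | base w' => exact hj hx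
    | step _ _ h _ => exact absurd ⟨w, hx⟩ h
  | step x w h h2 ih =>
    cases h' with
    | base w' => exact absurd ⟨w', rfl⟩ h
    | step _ _ h3 h4 => exact ih h4

theorem Ind.unique {j : L' → L} (hj : Function.Injective j) {ψ : Perm L} {ρ ρ' : Perm L'}
    (h : Ind j ψ ρ) (h' : Ind j ψ ρ') : ρ = ρ' := by
  ext v
  exact (h v).unique hj (h' v)

theorem ind_rm [DecidableEq L] [DecidableEq L'] (E : L ≃ Option L') (ψ : Perm L) :
    Ind (lft E) ψ (rm E ψ) := by
  intro v
  have h := rm_apply E ψ v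
  split_ifs at h with h1
  · rw [h1]
    refine Next.step _ _ ?_ ?_
    · rintro ⟨w, hw⟩
      exact lft_ne_hole E w hw
    · rw [← h]; exact Next.base _
  · rw [← h]; exact Next.base _

theorem Ind.comp {j : L' → L} (hj : Function.Injective j) {j' : L'' → L'} {ψ : Perm L}
    {ρ : Perm L'} {σ : Perm L''} (h : Ind j ψ ρ) (h' : Ind j' ρ σ) :
    Ind (j ∘ j') ψ σ := by
  have hA : ∀ y x', Next j ψ y x' → ∀ w, Next (j ∘ j') ψ (j x') w → Next (j ∘ j') ψ y w := by
    intro y x' hy
    induction hy with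
    | base w => intro w' h; exact h
    | step x w h h2 ih =>
      intro w' h'
      refine Next.step _ _ ?_ (ih w' h')
      rintro ⟨a, ha⟩
      exact h ⟨j' a, ha⟩
  have hB : ∀ x' w, Next j' ρ x' w → Next (j ∘ j') ψ (j x') w := by
    intro x' w hx
    induction hx with
    | base w => exact Next.base (j := j ∘ j') w
    | step x w h3 h2 ih =>
      refine Next.step _ _ ?_ ?_
      · rintro ⟨a, ha⟩
        exact h3 ⟨a, hj ha⟩
      · exact hA _ _ (h x) _ ih
  intro v
  exact hA _ _ (h (j' v)) _ (hB _ _ (h' v))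

theorem Ind.mul {j : L' → L} {ψ : Perm L} {ρ : Perm L'} (h : Ind j ψ ρ) {s : Perm L}
    {σ : Perm L'} (h1 : ∀ v, s (j v) = j (σ v)) (h2 : ∀ x, x ∉ Set.range j → s x = x) :
    Ind j (ψ * s) (ρ * σ) := by
  have hN : ∀ x w, Next j ψ x w → Next j (ψ * s) x w := by
    intro x w hx
    induction hx with
    | base w => exact Next.base w
    | step x w h3 h4 ih =>
      refine Next.step _ _ h3 ?_
      rw [Perm.mul_apply, h2 x h3]; exact ih
  intro v
  rw [Perm.mul_apply, Perm.mul_apply, h1]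
  exact hN _ _ (h (σ v))

theorem Ind.conj {j : L' → L} {ψ : Perm L} {ρ : Perm L'} (h : Ind j ψ ρ) {s : Perm L}
    {t : Perm L'} (h1 : ∀ v, s (j v) = j (t v)) :
    Ind j (s * ψ * s⁻¹) (t * ρ * t⁻¹) := by
  have hN : ∀ x w, Next j ψ x w → Next j (s * ψ * s⁻¹) (s x) (t w) := by
    intro x w hx
    induction hx with
    | base w => rw [h1]; exact Next.base _
    | step x w h3 h4 ih =>
      refine Next.step _ _ ?_ ?_
      · rintro ⟨a, ha⟩
        apply h3
        refine ⟨t⁻¹ a, ?_⟩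
        apply s.injective
        rw [h1, ← ha]; simp
      · simpa using ih
  intro v
  have := hN _ _ (h (t⁻¹ v))
  have h3 : j v = s (j (t⁻¹ v)) := by rw [h1]; simp
  rw [h3]
  simpa using this

theorem Ind.fx {M M' : Type*} {j : M' → M} {ρ : Perm M} {ρ' : Perm M'} (h : Ind j ρ ρ')
    (E : L ≃ Option M) (E' : L' ≃ Option M') {j2 : L' → L} (h0 : j2 (hole E') = hole E)
    (h1 : ∀ v, j2 (lft E' v) = lft E (j v)) : Ind j2 (fx E ρ) (fx E' ρ') := by
  have hN : ∀ x w, Next j ρ x w → Next j2 (Pool.Agent.W604.fx E ρ) (lft E x) (lft E' w) := by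
    intro x w hx
    induction hx with
    | base w => rw [← h1]; exact Next.base _
    | step x w h3 h4 ih =>
      refine Next.step _ _ ?_ ?_
      · rintro ⟨a, ha⟩
        rcases eq_hole_or_lft E' a with rfl | ⟨b, rfl⟩
        · rw [h0] at ha; exact hole_ne_lft _ _ ha
        · rw [h1] at ha
          exact h3 ⟨b, (lft_inj E).1 ha⟩
      · rw [fx_lft]; exact ih
  intro v
  rcases eq_hole_or_lft E' v with rfl | ⟨b, rfl⟩
  · rw [h0]
    have : Pool.Agent.W604.fx E ρ (hole E) = j2 (hole E') := by rw [fx_hole, h0]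
    rw [this, fx_hole]; exact Next.base _
  · rw [h1, fx_lft, fx_lft]
    exact hN _ _ (h b)

theorem Ind.sameCycle {j : L' → L} {ψ : Perm L} {ρ : Perm L'} (h : Ind j ψ ρ) {v w : L'}
    (hvw : ρ.SameCycle v w) : ψ.SameCycle (j v) (j w) := by
  have hN : ∀ x w, Next j ψ x w → ψ.SameCycle x (j w) := by
    intro x w hx
    induction hx with
    | base w => exact Perm.SameCycle.refl _ _
    | step x w h3 h4 ih => exact (sameCycle_apply ψ x).trans ih
  exact sameCycle_ind (r := fun a b => ψ.SameCycle (j a) (j b))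
    ⟨fun _ => Perm.SameCycle.refl _ _, fun h => h.symm, fun h1 h2 => h1.trans h2⟩
    (fun x => (sameCycle_apply ψ _).trans (hN _ _ (h x))) hvw

end ind

/-! ### letters -/

/-- letters: sides and the two sides of each of `k` chords -/
abbrev LL (B : Type) (k : ℕ) : Type := B ⊕ (Fin k × Bool)

variable {B : Type} {k : ℕ}

/-- relabelling of the chords, and exchange of the two sides of chords -/
def W (π : Perm (Fin k)) (e : Fin k → Bool) : Perm (LL B k) where
  toFun h := match h with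
    | Sum.inl b => Sum.inl b
    | Sum.inr (i, ε) => Sum.inr (π i, xor ε (e i))
  invFun h := match h with
    | Sum.inl b => Sum.inl b
    | Sum.inr (i, ε) => Sum.inr (π⁻¹ i, xor ε (e (π⁻¹ i)))
  left_inv := by
    rintro (b | ⟨i, ε⟩) <;> simp
  right_inv := by
    rintro (b | ⟨i, ε⟩) <;> simp

@[simp] theorem W_inl (π : Perm (Fin k)) (e : Fin k → Bool) (b : B) :
    W (B := B) π e (Sum.inl b) = Sum.inl b := rfl

@[simp] theorem W_inr (π : Perm (Fin k)) (e : Fin k → Bool) (i : Fin k) (ε : Bool) :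
    W (B := B) π e (Sum.inr (i, ε)) = Sum.inr (π i, xor ε (e i)) := rfl

theorem W_mul (π π' : Perm (Fin k)) (e e' : Fin k → Bool) :
    W (B := B) π e * W π' e' = W (π * π') (fun i => xor (e' i) (e (π' i))) := by
  ext x
  rcases x with b | ⟨i, ε⟩
  · rfl
  · simp

theorem W_one : W (B := B) (1 : Perm (Fin k)) (fun _ => false) = 1 := by
  ext x
  rcases x with b | ⟨i, ε⟩ <;> simp

/-- the involution exchanging the two sides of each chord -/
def bar : Perm (LL B k) := W 1 (fun _ => true)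

@[simp] theorem bar_inl (b : B) : bar (k := k) (Sum.inl b : LL B k) = Sum.inl b := rfl
@[simp] theorem bar_inr (i : Fin k) (ε : Bool) :
    bar (Sum.inr (i, ε) : LL B k) = Sum.inr (i, !ε) := by simp [bar]

theorem bar_mul_bar : bar * bar = (1 : Perm (LL B k)) := by
  ext x
  rcases x with b | ⟨i, ε⟩ <;> simp

theorem bar_comm_W (π : Perm (Fin k)) (e : Fin k → Bool) :
    W (B := B) π e * bar = bar * W π e := by
  ext x
  rcases x with b | ⟨i, ε⟩
  · simp
  · simp

/-- first letter of the first chord is the hole; the second becomes the side `none` -/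
def E1 (B : Type) (k : ℕ) : LL B (k + 1) ≃ Option (LL (Option B) k) where
  toFun h := match h with
    | Sum.inl b => some (Sum.inl (some b))
    | Sum.inr (i, ε) => Fin.cases (motive := fun _ => Option (LL (Option B) k))
        (if ε then none else some (Sum.inl none)) (fun j => some (Sum.inr (j, ε))) i
  invFun h := match h with
    | none => Sum.inr (0, true)
    | some (Sum.inl none) => Sum.inr (0, false)
    | some (Sum.inl (some b)) => Sum.inl b
    | some (Sum.inr (i, ε)) => Sum.inr (i.succ, ε)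
  left_inv := by
    rintro (b | ⟨i, ε⟩)
    · rfl
    · refine Fin.cases ?_ (fun j => ?_) i
      · cases ε <;> simp
      · simp
  right_inv := by
    rintro (_ | (_ | b) | ⟨i, ε⟩) <;> simp

theorem hole_E1 : hole (E1 B k) = Sum.inr (0, true) := rfl
theorem lft_E1_none : lft (E1 B k) (Sum.inl none) = Sum.inr (0, false) := rfl
theorem lft_E1_some (b : B) : lft (E1 B k) (Sum.inl (some b)) = Sum.inl b := rfl
theorem lft_E1_inr (i : Fin k) (ε : Bool) : lft (E1 B k) (Sum.inr (i, ε)) = Sum.inr (i.succ, ε) :=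
  rfl

/-- a side is the hole -/
def E2 {B B' : Type} (e : B ≃ Option B') (k : ℕ) : LL B k ≃ Option (LL B' k) where
  toFun h := match h with
    | Sum.inl b => (e b).map Sum.inl
    | Sum.inr p => some (Sum.inr p)
  invFun h := match h with
    | none => Sum.inl (e.symm none)
    | some (Sum.inl b) => Sum.inl (e.symm (some b))
    | some (Sum.inr p) => Sum.inr p
  left_inv := by
    rintro (b | p)
    · rcases h : e b with _ | b'
      · have hb : e.symm none = b := by rw [← h, symm_apply_apply]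
        simp only [h, Option.map_none, hb]
      · have hb : e.symm (some b') = b := by rw [← h, symm_apply_apply]
        simp only [h, Option.map_some, hb]
    · rfl
  right_inv := by
    rintro (_ | b | p) <;> simp

theorem hole_E2 {B B' : Type} (e : B ≃ Option B') : hole (E2 e k) = Sum.inl (e.symm none) := rfl
theorem lft_E2_inl {B B' : Type} (e : B ≃ Option B') (b : B') :
    lft (E2 e k) (Sum.inl b) = Sum.inl (e.symm (some b)) := rfl
theorem lft_E2_inr {B B' : Type} (e : B ≃ Option B') (p : Fin k × Bool) :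
    lft (E2 e k) (Sum.inr p) = Sum.inr p := rfl

/-- lift of a relabelling to one more chord, with label `0` -/
def lp (π : Perm (Fin k)) : Perm (Fin (k + 1)) := Perm.decomposeFin.symm (0, π)

@[simp] theorem lp_zero (π : Perm (Fin k)) : lp π 0 = 0 := by simp [lp]
@[simp] theorem lp_succ (π : Perm (Fin k)) (i : Fin k) : lp π i.succ = (π i).succ := by
  simp [lp]
@[simp] theorem lp_sign (π : Perm (Fin k)) : Perm.sign (lp π) = Perm.sign π := by
  simp [lp]

theorem exists_lp {π : Perm (Fin (k + 1))} (h : π 0 = 0) : ∃ π', π = lp π' := by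
  refine ⟨(Perm.decomposeFin π).2, ?_⟩
  have h1 : (Perm.decomposeFin π).1 = 0 := by
    have : Perm.decomposeFin.symm (Perm.decomposeFin π) 0 = π 0 := by simp
    rw [h] at this
    rw [← this]
    rcases hp : Perm.decomposeFin π with ⟨p, e⟩
    simp
  rw [lp, ← h1]; simp

theorem fx_E1_W (π : Perm (Fin k)) (e : Fin k → Bool) :
    fx (E1 B k) (W π e) = W (lp π) (Fin.cons false e) := by
  symm
  apply ext_fx
  · simp [hole_E1]
  · rintro ((_ | b) | ⟨i, ε⟩)
    · simp [lft_E1_none]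
    · simp [lft_E1_some]
    · simp [lft_E1_inr]

theorem fx_E2_W {B B' : Type} (e' : B ≃ Option B') (π : Perm (Fin k)) (e : Fin k → Bool) :
    fx (E2 e' k) (W π e) = W π e := by
  symm
  apply ext_fx
  · simp [hole_E2]
  · rintro (b | ⟨i, ε⟩)
    · simp [lft_E2_inl]
    · simp [lft_E2_inr]

variable [DecidableEq B]

/-- deletion of the chord with label `0` -/
def d (ψ : Perm (LL B (k + 1))) : Perm (LL B k) :=
  rm (E2 (Equiv.refl (Option B)) k) (rm (E1 B k) ψ)

/-- the letters that remain -/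
def j0 : LL B k → LL B (k + 1)
  | Sum.inl b => Sum.inl b
  | Sum.inr (i, ε) => Sum.inr (i.succ, ε)

theorem j0_inj : Function.Injective (j0 : LL B k → LL B (k + 1)) := by
  rintro (b | ⟨i, ε⟩) (b' | ⟨i', ε'⟩) h <;> simp [j0] at h ⊢
  · exact h
  · exact h

theorem j0_eq : (j0 : LL B k → LL B (k + 1)) =
    lft (E1 B k) ∘ lft (E2 (Equiv.refl (Option B)) k) := by
  funext x
  rcases x with b | ⟨i, ε⟩ <;> rfl

theorem lft_inj' {L L' : Type*} (E : L ≃ Option L') : Function.Injective (lft E) :=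
  fun _ _ h => (lft_inj E).1 h

theorem ind_d (ψ : Perm (LL B (k + 1))) : Ind j0 ψ (d ψ) := by
  rw [j0_eq]
  exact (ind_rm _ ψ).comp (lft_inj' _) (ind_rm _ _)

/-- the action of relabellings -/
def act (π : Perm (Fin k)) (e : Fin k → Bool) (ψ : Perm (LL B k)) : Perm (LL B k) :=
  W π e * ψ * (W π e)⁻¹

theorem act_act (π π' : Perm (Fin k)) (e e' : Fin k → Bool) (ψ : Perm (LL B k)) :
    act π e (act π' e' ψ) = act (π * π') (fun i => xor (e' i) (e (π' i))) ψ := by
  unfold act
  rw [← W_mul]; group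

theorem act_one (ψ : Perm (LL B k)) : act 1 (fun _ => false) ψ = ψ := by
  unfold act; rw [W_one]; simp

theorem d_act (π : Perm (Fin k)) (e : Fin (k + 1) → Bool) (ψ : Perm (LL B (k + 1))) :
    d (act (lp π) e ψ) = act π (fun i => e i.succ) (d ψ) := by
  refine Ind.unique j0_inj (ind_d _) ?_
  refine (ind_d ψ).conj ?_
  rintro (b | ⟨i, ε⟩) <;> simp [j0]

/-! ### cochains -/

variable {A : Type} [AddCommGroup A]

/-- antisymmetric cochains -/
def AS (c : Perm (LL B k) → A) : Prop :=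
  ∀ (π : Perm (Fin k)) (e : Fin k → Bool) (ψ : Perm (LL B k)),
    c (act π e ψ) = Perm.sign π • c ψ

/-- the coboundary -/
def dl (c : Perm (LL B k) → A) (ψ : Perm (LL B (k + 1))) : A :=
  ∑ i : Fin (k + 1), Perm.sign (swap 0 i) • c (d (act (swap 0 i) (fun _ => false) ψ))

theorem term_indep {c : Perm (LL B k) → A} (hc : AS c) (ψ : Perm (LL B (k + 1)))
    (i : Fin (k + 1)) (π : Perm (Fin (k + 1))) (e : Fin (k + 1) → Bool) (h : π i = 0) :
    Perm.sign (swap 0 i) • c (d (act (swap 0 i) (fun _ => false) ψ)) =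
      Perm.sign π • c (d (act π e ψ)) := by
  obtain ⟨σ, hσ⟩ : ∃ σ, π * swap 0 i = lp σ := exists_lp (by simp [h])
  have h1 : act π e ψ = act (lp σ) (fun j => e (swap 0 i j)) (act (swap 0 i) (fun _ => false) ψ) := by
    rw [act_act, ← hσ, mul_assoc, swap_mul_self, mul_one]
    congr 1
    funext j
    simp
  rw [h1, d_act, hc]
  have h2 : Perm.sign π = Perm.sign σ * Perm.sign (swap 0 i) := by
    have : π = lp σ * swap 0 i := by rw [← hσ, mul_assoc, swap_mul_self, mul_one]
    rw [this, Perm.sign_mul, lp_sign]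
  rw [h2, smul_smul]
  congr 1
  rw [mul_right_comm, Int.units_mul_self, one_mul]

theorem AS.dl {c : Perm (LL B k) → A} (hc : AS c) : AS (dl c) := by
  intro π e ψ
  unfold Pool.Agent.W604.dl
  rw [Finset.smul_sum]
  refine Finset.sum_bij' (fun i _ => π⁻¹ i) (fun i _ => π i) (by simp) (by simp) (by simp)
    (by simp) ?_
  intro i _
  rw [term_indep hc ψ (π⁻¹ i) (swap 0 i * π) (fun j => e j) (by simp)]
  rw [act_act, smul_smul, Perm.sign_mul]
  congr 1
  · rw [mul_left_comm, Int.units_mul_self, mul_one]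
  · congr 3
    funext j
    simp

/-- term of the double coboundary -/
def SS (c : Perm (LL B k) → A) (ψ : Perm (LL B (k + 2))) (π : Perm (Fin (k + 2))) : A :=
  Perm.sign π • c (d (d (act π (fun _ => false) ψ)))

theorem SS_indep {c : Perm (LL B k) → A} (hc : AS c) (ψ : Perm (LL B (k + 2)))
    (π π' : Perm (Fin (k + 2))) (a b : Fin (k + 2)) (h1 : π a = 0) (h2 : π b = 1)
    (h1' : π' a = 0) (h2' : π' b = 1) : SS c ψ π = SS c ψ π' := by
  obtain ⟨τ, hτ⟩ : ∃ τ, π' * π⁻¹ = lp τ := exists_lp (by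
    have : π⁻¹ 0 = a := by rw [Perm.inv_eq_iff_eq, h1]
    rw [Perm.mul_apply, this, h1'])
  have hτ1 : τ 0 = 0 := by
    have : (π' * π⁻¹) (Fin.succ 0) = (τ 0).succ := by rw [hτ, lp_succ]
    have h3 : π⁻¹ (Fin.succ 0) = b := by rw [Perm.inv_eq_iff_eq, h2]; rfl
    rw [Perm.mul_apply, h3, h2'] at this
    exact (Fin.succ_injective _ (by rw [← this]; rfl))
  obtain ⟨σ, rfl⟩ := exists_lp hτ1
  have hπ : π' = lp (lp σ) * π := by rw [← hτ]; group
  unfold SS
  have h3 : act π' (fun _ => false) ψ = act (lp (lp σ)) (fun _ => false) (act π (fun _ => false) ψ) := by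
    rw [act_act, hπ]; congr 1
  rw [h3, d_act, d_act, hc, smul_smul, hπ, Perm.sign_mul, lp_sign, lp_sign]
  congr 1
  rw [mul_comm (Perm.sign σ), mul_assoc, Int.units_mul_self, mul_one]

theorem SS_swap {c : Perm (LL B k) → A} (ψ : Perm (LL B (k + 2)))
    (π : Perm (Fin (k + 2))) : SS c ψ (swap 0 1 * π) = - SS c ψ π := by
  unfold SS
  have h1 : act (swap 0 1 * π) (fun _ => false) ψ =
      act (swap 0 1) (fun _ => false) (act π (fun _ => false) ψ) := by
    rw [act_act]; congr 1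
  have h2 : ∀ X : Perm (LL B (k + 2)), d (d (act (swap 0 1) (fun _ => false) X)) = d (d X) := by
    intro X
    refine Ind.unique (j := j0 ∘ j0) (j0_inj.comp j0_inj)
      ((ind_d _).comp j0_inj (ind_d _)) ?_
    have h := ((ind_d X).comp j0_inj (ind_d (d X))).conj
      (s := W (swap 0 1) (fun _ => false)) (t := 1) (by
        rintro (b | ⟨i, ε⟩)
        · simp [j0]
        · simp only [Function.comp, j0, W_inr, Bool.xor_false, Perm.one_apply]
          rw [swap_apply_of_ne_of_ne]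
          · exact Fin.succ_ne_zero _
          · intro h
            have h1 : (i.succ.succ : Fin (k + 2)) = Fin.succ 0 := by rw [h]; rfl
            exact Fin.succ_ne_zero _ (Fin.succ_injective _ h1))
    simpa [act] using h
  have h3 : (0 : Fin (k + 2)) ≠ 1 := by
    intro h
    have : ((0 : Fin (k + 2)) : ℕ) = ((1 : Fin (k + 2)) : ℕ) := by rw [← h]
    simp at this
  rw [h1, h2, Perm.sign_mul, Perm.sign_swap h3]
  simp

theorem dl_dl {c : Perm (LL B k) → A} (hc : AS c) (ψ : Perm (LL B (k + 2))) :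
    dl (dl c) ψ = 0 := by
  have h01 : (0 : Fin (k + 2)) ≠ 1 := by
    intro h
    have : ((0 : Fin (k + 2)) : ℕ) = ((1 : Fin (k + 2)) : ℕ) := by rw [← h]
    simp at this
  let p : Fin (k + 2) → Fin (k + 2) → Perm (Fin (k + 2)) := fun a b =>
    swap 1 (swap 0 a b) * swap 0 a
  have hp0 : ∀ a b, a ≠ b → p a b a = 0 := by
    intro a b hab
    simp only [p, Perm.mul_apply, swap_apply_right]
    rw [swap_apply_of_ne_of_ne h01]
    intro h
    have : swap 0 a b = swap 0 a a := by rw [← h]; simp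
    exact hab ((swap 0 a).injective this).symm
  have hp1 : ∀ a b, p a b b = 1 := by
    intro a b
    simp [p]
  let T : Fin (k + 2) → Fin (k + 2) → A := fun a b => if a = b then 0 else SS c ψ (p a b)
  have hT : ∀ a b, T a b + T b a = 0 := by
    intro a b
    by_cases hab : a = b
    · subst hab; simp [T]
    · simp only [T, hab, Ne.symm hab, if_false]
      have : SS c ψ (p b a) = SS c ψ (swap 0 1 * p a b) :=
        SS_indep hc ψ _ _ b a (hp0 b a (Ne.symm hab)) (hp1 b a)
          (by simp [hp1]) (by simp [hp0 a b hab])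
      rw [this, SS_swap]; simp
  have hsum : dl (dl c) ψ = ∑ a, ∑ b, T a b := by
    unfold dl
    refine Finset.sum_congr rfl fun i _ => ?_
    have h0 : T i (swap 0 i 0) = 0 := by simp [T]
    rw [Finset.smul_sum, ← Equiv.sum_comp (swap 0 i) (T i),
      Fin.sum_univ_succ (fun j => T i (swap 0 i j)), h0, zero_add]
    refine Finset.sum_congr rfl fun j _ => ?_
    have hne : i ≠ swap 0 i j.succ := by
      intro h
      have h2 : swap 0 i 0 = swap 0 i j.succ := by rw [← h]; simp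
      exact Fin.succ_ne_zero _ ((swap 0 i).injective h2).symm
    simp only [T, hne, if_false]
    rw [SS_indep hc ψ (p i (swap 0 i j.succ)) (lp (swap 0 j) * swap 0 i) i (swap 0 i j.succ)
      (hp0 _ _ hne) (hp1 _ _) (by simp) (by simp)]
    unfold SS
    have h4 : act (lp (swap 0 j) * swap 0 i) (fun _ => false) ψ =
        act (lp (swap 0 j)) (fun _ => false) (act (swap 0 i) (fun _ => false) ψ) := by
      rw [act_act]; congr 1
    rw [h4, d_act, smul_smul, Perm.sign_mul, lp_sign, mul_comm]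
  rw [hsum, ← Finset.sum_product']
  refine Finset.sum_involution (fun x _ => (x.2, x.1)) (fun x _ => hT _ _) ?_ (by simp) (by simp)
  intro x _ hx h
  apply hx
  have : x.1 = x.2 := (congrArg Prod.fst h).symm
  simp [T, this]

/-! ### families of systems -/

/-- a family of labelled chord systems -/
abbrev Fam (B : Type) : Type := ∀ k : ℕ, Perm (LL B k) → Prop

/-- invariance under relabelling -/
def Inv (S : Fam B) : Prop := ∀ k (π : Perm (Fin k)) (e : Fin k → Bool) (ψ : Perm (LL B k)),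
  S k (act π e ψ) ↔ S k ψ

/-- convexity -/
def Conv (S : Fam B) : Prop := ∀ k (ψ : Perm (LL B (k + 2))), S _ ψ → S _ (d (d ψ)) → S _ (d ψ)

/-- supported on a family -/
def Supp (S : Fam B) (c : Perm (LL B k) → A) : Prop := ∀ ψ, ¬ S k ψ → c ψ = 0

/-- coboundary in the complex of the family -/
def Cob (S : Fam B) : ∀ {k : ℕ}, (Perm (LL B k) → A) → Prop
  | 0, c => ∀ ψ, c ψ = 0
  | k + 1, c => ∃ w : Perm (LL B k) → A, AS w ∧ Supp S w ∧ ∀ ψ, S (k + 1) ψ → c ψ = dl w ψ

/-- cocycle in the complex of the family -/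
structure Coc (S : Fam B) (c : Perm (LL B k) → A) : Prop where
  as : AS c
  supp : Supp S c
  dl : ∀ ψ, S (k + 1) ψ → Pool.Agent.W604.dl c ψ = 0

/-- exactness with all coefficient groups -/
def Ex (S : Fam B) (k : ℕ) : Prop := ∀ (A : Type) [AddCommGroup A] (c : Perm (LL B k) → A),
  Coc S c → Cob S c

open Classical in
/-- restriction to a family -/
noncomputable def cut (S : Fam B) (c : Perm (LL B k) → A) : Perm (LL B k) → A :=
  fun ψ => if S k ψ then c ψ else 0

theorem cut_of {S : Fam B} {c : Perm (LL B k) → A} {ψ : Perm (LL B k)} (h : S k ψ) :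
    cut S c ψ = c ψ := by simp [cut, h]

theorem cut_of_not {S : Fam B} {c : Perm (LL B k) → A} {ψ : Perm (LL B k)} (h : ¬ S k ψ) :
    cut S c ψ = 0 := by simp [cut, h]

theorem supp_cut (S : Fam B) (c : Perm (LL B k) → A) : Supp S (cut S c) :=
  fun _ h => cut_of_not h

theorem AS.cut {S : Fam B} (hS : Inv S) {c : Perm (LL B k) → A} (hc : AS c) : AS (cut S c) := by
  intro π e ψ
  by_cases h : S k ψ
  · rw [cut_of h, cut_of ((hS k π e ψ).2 h), hc]
  · rw [cut_of_not h, cut_of_not (fun h' => h ((hS k π e ψ).1 h')), smul_zero]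

theorem AS.sub {c c' : Perm (LL B k) → A} (hc : AS c) (hc' : AS c') :
    AS (fun ψ => c ψ - c' ψ) := by
  intro π e ψ
  simp only [hc π e ψ, hc' π e ψ, smul_sub]

theorem AS.add {c c' : Perm (LL B k) → A} (hc : AS c) (hc' : AS c') :
    AS (fun ψ => c ψ + c' ψ) := by
  intro π e ψ
  simp only [hc π e ψ, hc' π e ψ, smul_add]

theorem AS.neg {c : Perm (LL B k) → A} (hc : AS c) : AS (fun ψ => - c ψ) := by
  intro π e ψ
  simp only [hc π e ψ, smul_neg]

theorem AS.zero : AS (fun _ : Perm (LL B k) => (0 : A)) := by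
  intro π e ψ
  simp

theorem dl_sub (c c' : Perm (LL B k) → A) (ψ : Perm (LL B (k + 1))) :
    dl (fun ψ => c ψ - c' ψ) ψ = dl c ψ - dl c' ψ := by
  simp [dl, smul_sub]

theorem dl_add (c c' : Perm (LL B k) → A) (ψ : Perm (LL B (k + 1))) :
    dl (fun ψ => c ψ + c' ψ) ψ = dl c ψ + dl c' ψ := by
  simp [dl, smul_add, Finset.sum_add_distrib]

theorem dl_neg (c : Perm (LL B k) → A) (ψ : Perm (LL B (k + 1))) :
    dl (fun ψ => - c ψ) ψ = - dl c ψ := by
  simp [dl, smul_neg]

theorem dl_eq_zero {c : Perm (LL B k) → A} {ψ : Perm (LL B (k + 1))}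
    (h : ∀ π e, c (d (act π e ψ)) = 0) : dl c ψ = 0 := by
  unfold dl
  refine Finset.sum_eq_zero fun i _ => ?_
  rw [h, smul_zero]

theorem dl_congr {c c' : Perm (LL B k) → A} {ψ : Perm (LL B (k + 1))}
    (h : ∀ π e, c (d (act π e ψ)) = c' (d (act π e ψ))) : dl c ψ = dl c' ψ := by
  unfold dl
  refine Finset.sum_congr rfl fun i _ => ?_
  rw [h]

/-- `dl (cut (dl w))` vanishes on the family -/
theorem dl_cut_dl {S : Fam B} (hS : Inv S) (hC : Conv S) {w : Perm (LL B k) → A} (hw : AS w)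
    (hs : Supp S w) {ψ : Perm (LL B (k + 2))} (h : S _ ψ) : dl (cut S (dl w)) ψ = 0 := by
  have h1 := dl_dl hw ψ
  have h2 : dl (fun ψ' => dl w ψ' - cut S (dl w) ψ') ψ = 0 := by
    apply dl_eq_zero
    intro π e
    by_cases h3 : S _ (d (act π e ψ))
    · rw [cut_of h3, sub_self]
    · rw [cut_of_not h3, sub_zero]
      apply dl_eq_zero
      intro π' e'
      apply hs
      intro h4
      apply h3
      have h5 : d (act π' e' (d (act π e ψ))) = d (d (act (lp π') (Fin.cons false e') (act π e ψ))) := by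
        rw [d_act]; rfl
      rw [h5] at h4
      have h6 := hC _ (act (lp π') (Fin.cons false e') (act π e ψ))
        ((hS _ _ _ _).2 ((hS _ _ _ _).2 h)) h4
      rw [d_act] at h6
      exact (hS _ _ _ _).1 h6
  rw [dl_sub, h1, zero_sub, neg_eq_zero] at h2
  exact h2

/-- kill a cocycle on `C1`, given that it vanishes on `C0` -/
def KillFrom (S : Fam B) (C0 C1 : Fam B) (k : ℕ) : Prop :=
  ∀ (A : Type) [AddCommGroup A] (c : Perm (LL B k) → A), Coc S c → (∀ ψ, C0 k ψ → c ψ = 0) →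
    ∃ c' : Perm (LL B k) → A, Coc S c' ∧ (∀ ψ, C1 k ψ → c' ψ = 0) ∧ (Cob S c' → Cob S c)

theorem KillFrom.trans {S C0 C1 C2 : Fam B} {k : ℕ} (h1 : KillFrom S C0 C1 k)
    (h2 : KillFrom S C1 C2 k) : KillFrom S C0 C2 k := by
  intro A _ c hc h0
  obtain ⟨c', hc', h3, h4⟩ := h1 A c hc h0
  obtain ⟨c'', hc'', h5, h6⟩ := h2 A c' hc' h3
  exact ⟨c'', hc'', h5, fun h => h4 (h6 h)⟩

theorem KillFrom.mono {S C0 C1 C0' C1' : Fam B} {k : ℕ} (h : KillFrom S C0 C1 k)
    (h0 : ∀ ψ, C0 k ψ → C0' k ψ) (h1 : ∀ ψ, S k ψ → C1' k ψ → C1 k ψ) : KillFrom S C0' C1' k := by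
  intro A _ c hc h2
  obtain ⟨c', hc', h3, h4⟩ := h A c hc (fun ψ hψ => h2 ψ (h0 ψ hψ))
  refine ⟨c', hc', fun ψ hψ => ?_, h4⟩
  by_cases h5 : S k ψ
  · exact h3 ψ (h1 ψ h5 hψ)
  · exact hc'.supp ψ h5

theorem Ex.of_kill {S C0 : Fam B} {k : ℕ} (h : KillFrom S C0 S k) (h0 : ∀ ψ, ¬ C0 k ψ) :
    Ex S k := by
  intro A _ c hc
  obtain ⟨c', hc', h1, h2⟩ := h A c hc (fun ψ hψ => absurd hψ (h0 ψ))
  apply h2
  have h3 : ∀ ψ, c' ψ = 0 := by
    intro ψ
    by_cases h : S k ψ
    · exact h1 ψ h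
    · exact hc'.supp ψ h
  cases k with
  | zero => exact h3
  | succ k =>
    refine ⟨fun _ => 0, AS.zero, fun _ _ => rfl, fun ψ _ => ?_⟩
    rw [h3, dl_eq_zero]; intros; rfl

/-- closed under the deletions inside the family -/
def Closed (S C : Fam B) : Prop := ∀ k (ψ : Perm (LL B (k + 1))), S _ ψ → C _ ψ → S _ (d ψ) →
  C _ (d ψ)

/-- basic step: if the part `T = C1 \ C0` of the cocycle is a coboundary, kill it -/
theorem KillFrom.step' {S C0 C1 T : Fam B} {k : ℕ} (hS : Inv S) (hC : Conv S)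
    (hI0 : Inv C0)
    (hT : ∀ k ψ, T k ψ → S k ψ)
    (hT0 : ∀ k ψ, T k ψ → ¬ C0 k ψ)
    (hC1 : ∀ ψ, S k ψ → C1 k ψ → C0 k ψ ∨ T k ψ)
    (cl0 : Closed S C0)
    (hex : ∀ (A : Type) [AddCommGroup A] (c : Perm (LL B k) → A), Coc S c →
      (∀ ψ, C0 k ψ → c ψ = 0) → Cob T (cut T c)) : KillFrom S C0 C1 k := by
  intro A _ c hc h0
  have hcob := hex A c hc h0
  cases k with
  | zero =>
    refine ⟨c, hc, fun ψ hψ => ?_, id⟩
    by_cases h2 : S _ ψ
    · rcases hC1 ψ h2 hψ with h3 | h3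
      · exact h0 _ h3
      · have := hcob ψ
        rwa [cut_of h3] at this
    · exact hc.supp _ h2
  | succ k =>
    obtain ⟨w, hw, hws, hw2⟩ := hcob
    have hwS : Supp S w := fun ψ hψ => hws ψ (fun h => hψ (hT _ _ h))
    refine ⟨fun ψ => c ψ - cut S (dl w) ψ, ⟨hc.as.sub (hw.dl.cut hS), ?_, ?_⟩, ?_, ?_⟩
    · intro ψ hψ
      show c ψ - cut S (dl w) ψ = 0
      rw [hc.supp _ hψ, cut_of_not hψ, sub_zero]
    · intro ψ hψ
      rw [dl_sub, hc.dl _ hψ, dl_cut_dl hS hC hw hwS hψ, sub_zero]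
    · intro ψ hψ
      by_cases h2 : S _ ψ
      · simp only [cut_of h2]
        rcases hC1 ψ h2 hψ with h3 | h3
        · rw [h0 _ h3, zero_sub, neg_eq_zero]
          apply dl_eq_zero
          intro π e
          by_cases h4 : S _ (d (act π e ψ))
          · have h5 := cl0 _ _ ((hS _ _ _ _).2 h2) ((hI0 _ _ _ _).2 h3) h4
            apply hws
            intro h6
            exact hT0 _ _ h6 h5
          · exact hwS _ h4
        · have := hw2 ψ h3
          rw [cut_of h3] at this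
          rw [this, sub_self]
      · simp only [cut_of_not h2, hc.supp _ h2, sub_zero]
    · rintro ⟨w', hw', hws', hw2'⟩
      refine ⟨fun ψ => w' ψ + w ψ, hw'.add hw, ?_, ?_⟩
      · intro ψ hψ
        show w' ψ + w ψ = 0
        rw [hws' _ hψ, hwS _ hψ, add_zero]
      · intro ψ hψ
        rw [dl_add, ← hw2' ψ hψ]
        show c ψ = c ψ - cut S (dl w) ψ + dl w ψ
        rw [cut_of hψ, sub_add_cancel]

/-- the part of a cocycle on the quotient -/
theorem Coc.part {S C0 T : Fam B} {k : ℕ} (hIT : Inv T)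
    (hT : ∀ k ψ, T k ψ → S k ψ)
    (clT : ∀ k (ψ : Perm (LL B (k + 1))), T _ ψ → S _ (d ψ) → C0 _ (d ψ) ∨ T _ (d ψ))
    {c : Perm (LL B k) → A} (hc : Coc S c) (h0 : ∀ ψ, C0 k ψ → c ψ = 0) : Coc T (cut T c) := by
  refine ⟨hc.as.cut hIT, supp_cut _ _, fun ψ hψ => ?_⟩
  rw [← hc.dl ψ (hT _ _ hψ)]
  apply dl_congr
  intro π e
  by_cases h1 : T _ (Pool.Agent.W604.d (act π e ψ))
  · rw [cut_of h1]
  · rw [cut_of_not h1]
    by_cases h2 : S _ (Pool.Agent.W604.d (act π e ψ))
    · rcases clT _ _ ((hIT _ _ _ _).2 hψ) h2 with h3 | h3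
      · rw [h0 _ h3]
      · exact absurd h3 h1
    · rw [hc.supp _ h2]

/-- basic step: exactness of the part `T = C1 \ C0` kills the cocycle on `C1` -/
theorem KillFrom.step {S C0 C1 T : Fam B} {k : ℕ} (hS : Inv S) (hC : Conv S)
    (hI0 : Inv C0) (hIT : Inv T)
    (hT : ∀ k ψ, T k ψ → S k ψ)
    (hT0 : ∀ k ψ, T k ψ → ¬ C0 k ψ)
    (hC1 : ∀ ψ, S k ψ → C1 k ψ → C0 k ψ ∨ T k ψ)
    (cl0 : Closed S C0)
    (clT : ∀ k (ψ : Perm (LL B (k + 1))), T _ ψ → S _ (d ψ) → C0 _ (d ψ) ∨ T _ (d ψ))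
    (hex : Ex T k) : KillFrom S C0 C1 k :=
  KillFrom.step' hS hC hI0 hT hT0 hC1 cl0
    (fun A _ _ hc h0 => hex A _ (Coc.part hIT hT clT hc h0))

theorem KillFrom.refl (S C : Fam B) (k : ℕ) : KillFrom S C C k :=
  fun _ _ c hc h0 => ⟨c, hc, h0, id⟩

/-- the part of the family where an index has a given value -/
def At (S : Fam B) (τ : ∀ k, Perm (LL B k) → ℕ) (r : ℕ) : Fam B := fun k ψ => S k ψ ∧ τ k ψ = r

theorem killFrom_index {S : Fam B} {k : ℕ} (hS : Inv S) (hC : Conv S)
    (τ : ∀ k, Perm (LL B k) → ℕ)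
    (hτ : ∀ k (π : Perm (Fin k)) (e : Fin k → Bool) (ψ : Perm (LL B k)), τ k (act π e ψ) = τ k ψ)
    (hd : ∀ k (ψ : Perm (LL B (k + 1))), S _ ψ → S _ (d ψ) → τ _ (d ψ) ≤ τ _ ψ)
    (r0 M : ℕ) (hex : ∀ r, r0 ≤ r → r < M → Ex (At S τ r) k) :
    KillFrom S (fun k ψ => τ k ψ < r0) (fun k ψ => τ k ψ < M) k := by
  induction M with
  | zero =>
    intro A _ c hc _
    exact ⟨c, hc, fun ψ hψ => absurd hψ (Nat.not_lt_zero _), id⟩
  | succ M ih =>
    by_cases hM : M < r0
    · intro A _ c hc h0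
      exact ⟨c, hc, fun ψ hψ => h0 ψ (by omega), id⟩
    refine (ih (fun r h1 h2 => hex r h1 (by omega))).trans
      (KillFrom.step (T := At S τ M) hS hC ?_ ?_ ?_ ?_ ?_ ?_ ?_
        (hex M (by omega) (by omega)))
    · intro k π e ψ; simp only [hτ]
    · intro k π e ψ; unfold At; rw [hτ, hS]
    · intro k ψ h; exact h.1
    · rintro k ψ ⟨_, h⟩ h2; omega
    · intro ψ h1 h2
      rcases Nat.lt_succ_iff_lt_or_eq.1 h2 with h3 | h3
      · exact Or.inl h3
      · exact Or.inr ⟨h1, h3⟩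
    · intro k ψ h1 h2 h3
      have := hd k ψ h1 h3
      omega
    · intro k ψ h1 h2
      have := hd k ψ h1.1 h2
      have h3 := h1.2
      rcases Nat.lt_or_ge (τ k (d ψ)) M with h4 | h4
      · exact Or.inl h4
      · exact Or.inr ⟨h2, by omega⟩

/-- exactness from exactness of all parts -/
theorem Ex.of_index {S : Fam B} {k : ℕ} (hS : Inv S) (hC : Conv S)
    (τ : ∀ k, Perm (LL B k) → ℕ)
    (hτ : ∀ k (π : Perm (Fin k)) (e : Fin k → Bool) (ψ : Perm (LL B k)), τ k (act π e ψ) = τ k ψ)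
    (hd : ∀ k (ψ : Perm (LL B (k + 1))), S _ ψ → S _ (d ψ) → τ _ (d ψ) ≤ τ _ ψ)
    (M : ℕ) (hM : ∀ ψ, S k ψ → τ k ψ < M) (hex : ∀ r, r < M → Ex (At S τ r) k) : Ex S k := by
  refine Ex.of_kill (C0 := fun k ψ => τ k ψ < 0) ?_ (fun ψ h => Nat.not_lt_zero _ h)
  exact (killFrom_index hS hC τ hτ hd 0 M (fun r _ h => hex r h)).mono (fun ψ h => h)
    (fun ψ h _ => hM ψ h)

theorem Ex.empty {S : Fam B} {k : ℕ} (h : ∀ ψ, ¬ S k ψ) : Ex S k := by
  intro A _ c hc
  have h3 : ∀ ψ, c ψ = 0 := fun ψ => hc.supp ψ (h ψ)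
  cases k with
  | zero => exact h3
  | succ k =>
    refine ⟨fun _ => 0, AS.zero, fun _ _ => rfl, fun ψ _ => ?_⟩
    rw [h3, dl_eq_zero]; intros; rfl

theorem Ex.congr {S T : Fam B} {k : ℕ} (h : ∀ k ψ, S k ψ ↔ T k ψ) (hex : Ex T k) : Ex S k := by
  have : S = T := by
    funext k ψ
    exact propext (h k ψ)
  rw [this]; exact hex

end Pool.Agent.W604
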