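import Mathlib
import Pool.Agent.W604.Sys

set_option autoImplicit false
set_option linter.unusedSectionVars false

/-!
Transport of exactness: removing the first chord at a side, removing a side.
-/

namespace Pool.Agent.W604

open Equiv

variable {B : Type} {k : ℕ} [DecidableEq B] {A : Type} [AddCommGroup A]

theorem Ind.precomp {L L' : Type*} {j : L' → L} {ψ : Perm L} {ρ : Perm L'} (h : Ind j ψ ρ)
    (s : Perm L) : Ind (fun v => s (j v)) (s * ψ * s⁻¹) ρ := by
  have hN : ∀ x w, Next j ψ x w → Next (fun v => s (j v)) (s * ψ * s⁻¹) (s x) w := by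
    intro x w hx
    induction hx with
    | base w => exact Next.base (j := fun v => s (j v)) w
    | step x w h3 h4 ih =>
      refine Next.step _ _ ?_ ?_
      · rintro ⟨a, ha⟩
        exact h3 ⟨a, s.injective ha⟩
      · simpa using ih
  intro v
  simpa using hN _ _ (h v)

/-- permutation of the sides -/
def SB (κ : Perm B) : Perm (LL B k) := Equiv.sumCongr κ (Equiv.refl _)

@[simp] theorem SB_inl (κ : Perm B) (b : B) : SB (k := k) κ (Sum.inl b) = Sum.inl (κ b) := rfl
@[simp] theorem SB_inr (κ : Perm B) (p : Fin k × Bool) :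
    SB (k := k) κ (Sum.inr p : LL B k) = Sum.inr p := rfl

theorem SB_one : SB (k := k) (1 : Perm B) = 1 := by
  ext x; rcases x with b | p <;> rfl

theorem SB_mul (κ κ' : Perm B) : SB (k := k) (κ * κ') = SB κ * SB κ' := by
  ext x; rcases x with b | p <;> rfl

theorem SB_inv (κ : Perm B) : SB (k := k) κ⁻¹ = (SB κ)⁻¹ := by
  rw [eq_inv_iff_mul_eq_one, ← SB_mul]; simp [SB_one]

theorem SB_swap (x y : B) : SB (k := k) (swap x y) = swap (Sum.inl x) (Sum.inl y) := by
  ext z
  rcases z with b | p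
  · simp only [SB_inl]
    by_cases h1 : b = x
    · subst h1; simp
    by_cases h2 : b = y
    · subst h2; simp
    rw [swap_apply_of_ne_of_ne h1 h2, swap_apply_of_ne_of_ne] <;> simpa
  · rw [SB_inr, swap_apply_of_ne_of_ne] <;> simp

theorem W_comm_SB (π : Perm (Fin k)) (e : Fin k → Bool) (κ : Perm B) :
    W π e * SB κ = SB κ * W π e := by
  ext x; rcases x with b | p <;> rfl

theorem act_mul_SB (π : Perm (Fin k)) (e : Fin k → Bool) (κ : Perm B) (ψ : Perm (LL B k)) :
    act π e (ψ * SB κ) = act π e ψ * SB κ := by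
  unfold act
  have h : (W π e)⁻¹ * SB κ = SB κ * (W π e)⁻¹ :=
    (show Commute (W π e) (SB κ) from W_comm_SB π e κ).inv_left.eq
  rw [mul_assoc (W π e * ψ), h, ← mul_assoc, ← mul_assoc]

theorem d_mul_SB (κ : Perm B) (ψ : Perm (LL B (k + 1))) : d (ψ * SB κ) = d ψ * SB κ := by
  refine Ind.unique j0_inj (ind_d _) ?_
  refine (ind_d ψ).mul ?_ ?_
  · rintro (b | ⟨i, ε⟩) <;> rfl
  · rintro (b | ⟨i, ε⟩) h
    · exact absurd ⟨Sum.inl b, rfl⟩ h
    · rfl

/-- insertion of a chord: its first letter is put after the side `u`, the second is at the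
side `none` of the given system -/
def ins1 (u : B) (ρ : Perm (LL (Option B) k)) : Perm (LL B (k + 1)) :=
  ins (E1 B k) ρ (Sum.inl (some u))

theorem ins1_eq (u : B) (ρ : Perm (LL (Option B) k)) :
    ins1 u ρ = fx (E1 B k) ρ * swap (Sum.inr (0, true)) (Sum.inl u) := rfl

theorem act_ins1 (π : Perm (Fin k)) (e : Fin k → Bool) (u : B) (ρ : Perm (LL (Option B) k)) :
    act (lp π) (Fin.cons false e) (ins1 u ρ) = ins1 u (act π e ρ) := by
  unfold act
  rw [ins1_eq, ins1_eq, fx_mul, fx_mul, fx_inv, fx_E1_W]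
  set s : Perm (LL B (k + 1)) := W (lp π) (Fin.cons false e) with hs
  have h1 : s (Sum.inr (0, true)) = Sum.inr (0, true) := by simp [hs]
  have h2 : s (Sum.inl u) = Sum.inl u := by simp [hs]
  have h3 : s * swap (Sum.inr (0, true)) (Sum.inl u) * s⁻¹ =
      swap (Sum.inr (0, true)) (Sum.inl u) := by
    rw [Equiv.mul_swap_eq_swap_mul, h1, h2]; group
  calc s * (fx (E1 B k) ρ * swap (Sum.inr (0, true)) (Sum.inl u)) * s⁻¹
      = s * fx (E1 B k) ρ * s⁻¹ * (s * swap (Sum.inr (0, true)) (Sum.inl u) * s⁻¹) := by group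
    _ = _ := by rw [h3]

/-- the embedding of letters skipping the chord with label `1` -/
def j1 : LL B (k + 1) → LL B (k + 2)
  | Sum.inl b => Sum.inl b
  | Sum.inr (i, ε) => Sum.inr (Fin.cases 0 (fun j => j.succ.succ) i, ε)

theorem j1_inj : Function.Injective (j1 : LL B (k + 1) → LL B (k + 2)) := by
  rintro (b | ⟨i, ε⟩) (b' | ⟨i', ε'⟩) h
  · simpa [j1] using h
  · simp [j1] at h
  · simp [j1] at h
  · simp only [j1, Sum.inr.injEq, Prod.mk.injEq] at h ⊢
    refine ⟨?_, h.2⟩
    have h1 := h.1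
    clear h
    revert h1
    refine Fin.cases ?_ (fun j => ?_) i
    · refine Fin.cases ?_ (fun j' => ?_) i'
      · simp
      · intro h; simp at h; exact absurd h.symm (Fin.succ_ne_zero _)
    · refine Fin.cases ?_ (fun j' => ?_) i'
      · intro h; simp at h
      · intro h; simp at h; rw [h]

theorem ind_j1 (u : B) (ρ : Perm (LL (Option B) (k + 1))) : Ind j1 (ins1 u ρ) (ins1 u (d ρ)) := by
  rw [ins1_eq, ins1_eq]
  refine Ind.mul (Ind.fx (ind_d ρ) (E1 B (k + 1)) (E1 B k) (j2 := j1) ?_ ?_) ?_ ?_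
  · simp [hole_E1, j1]
  · rintro ((_ | b) | ⟨i, ε⟩)
    · simp [lft_E1_none, j0, j1]
    · simp [lft_E1_some, j0, j1]
    · simp [lft_E1_inr, j0, j1]
  · intro v
    have h1 : (Sum.inr (0, true) : LL B (k + 2)) = j1 (Sum.inr (0, true)) := by simp [j1]
    have h2 : (Sum.inl u : LL B (k + 2)) = j1 (Sum.inl u) := by simp [j1]
    rw [h1, h2]
    exact j1_inj.swap_apply _ _ _
  · intro x hx
    rw [swap_apply_of_ne_of_ne]
    · rintro rfl; exact hx ⟨Sum.inr (0, true), by simp [j1]⟩
    · rintro rfl; exact hx ⟨Sum.inl u, by simp [j1]⟩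

theorem fin_zero_ne_one : (0 : Fin (k + 2)) ≠ 1 := by
  intro h
  have : ((0 : Fin (k + 2)) : ℕ) = ((1 : Fin (k + 2)) : ℕ) := by rw [← h]
  simp at this

theorem swap01_succ_succ (i : Fin k) : swap (0 : Fin (k + 2)) 1 i.succ.succ = i.succ.succ := by
  rw [swap_apply_of_ne_of_ne (Fin.succ_ne_zero _)]
  intro h
  exact Fin.succ_ne_zero i (Fin.succ_injective _ h)

theorem d_swap_ins1 (u : B) (ρ : Perm (LL (Option B) (k + 1))) :
    d (act (swap 0 1) (fun _ => false) (ins1 u ρ)) = ins1 u (d ρ) := by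
  refine Ind.unique j0_inj (ind_d _) ?_
  have h := (ind_j1 u ρ).precomp (W (swap 0 1) (fun _ => false))
  have h2 : (fun v => W (B := B) (swap (0 : Fin (k + 2)) 1) (fun _ => false) (j1 v)) = j0 := by
    funext v
    rcases v with b | ⟨i, ε⟩
    · rfl
    · refine Fin.cases ?_ (fun i => ?_) i
      · simp [j1, j0]
      · simp only [j1, j0, W_inr, Bool.xor_false, Fin.cases_succ]
        rw [swap01_succ_succ]
  rw [h2] at h
  exact h

/-- insertion twisted by a permutation of the sides -/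
def insK (u : B) (κ : Perm (Option B)) (ρ : Perm (LL (Option B) k)) : Perm (LL B (k + 1)) :=
  ins1 u (ρ * SB κ)

theorem act_insK (π : Perm (Fin k)) (e : Fin k → Bool) (u : B) (κ : Perm (Option B))
    (ρ : Perm (LL (Option B) k)) :
    act (lp π) (Fin.cons false e) (insK u κ ρ) = insK u κ (act π e ρ) := by
  unfold insK; rw [act_ins1, act_mul_SB]

theorem d_swap_insK (u : B) (κ : Perm (Option B)) (ρ : Perm (LL (Option B) (k + 1))) :
    d (act (swap 0 1) (fun _ => false) (insK u κ ρ)) = insK u κ (d ρ) := by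
  unfold insK; rw [d_swap_ins1, d_mul_SB]

theorem cons_false : (Fin.cons false (fun _ => false) : Fin (k + 1) → Bool) = fun _ => false := by
  funext i
  refine Fin.cases ?_ (fun i => ?_) i <;> simp

theorem dl_insK {c : Perm (LL B (k + 1)) → A} (hc : AS c) (u : B) (κ : Perm (Option B))
    (ρ : Perm (LL (Option B) (k + 1))) :
    dl c (insK u κ ρ) = c (d (insK u κ ρ)) - dl (fun ρ' => c (insK u κ ρ')) ρ := by
  conv_lhs => unfold dl
  rw [Fin.sum_univ_succ, sub_eq_add_neg]
  congr 1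
  · have : act (swap 0 0) (fun _ => false) (insK u κ ρ) = insK u κ ρ := by
      rw [swap_self]; exact act_one _
    rw [this]; simp
  · unfold dl
    rw [← Finset.sum_neg_distrib]
    refine Finset.sum_congr rfl fun j _ => ?_
    rw [term_indep hc _ j.succ (swap 0 1 * lp (swap 0 j)) (fun _ => false) (by simp)]
    rw [Perm.sign_mul, Perm.sign_swap fin_zero_ne_one, lp_sign]
    have h1 : act (swap 0 1 * lp (swap 0 j)) (fun _ => false) (insK u κ ρ) =
        act (swap 0 1) (fun _ => false) (insK u κ (act (swap 0 j) (fun _ => false) ρ)) := by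
      rw [← act_insK, act_act, cons_false]; congr 1
    rw [h1, d_swap_insK, neg_one_mul, Units.neg_smul]

/-- the normalising relabelling -/
def nrm (i : Fin (k + 1)) (ε : Bool) (ψ : Perm (LL B (k + 1))) : Perm (LL B (k + 1)) :=
  act (swap 0 i) (fun j => if j = i then !ε else false) ψ

theorem ins1_rm_nrm (u : B) (ψ : Perm (LL B (k + 1))) (i : Fin (k + 1)) (ε : Bool)
    (h : ψ (Sum.inl u) = Sum.inr (i, ε)) :
    ins1 u (rm (E1 B k) (nrm i ε ψ)) = nrm i ε ψ := by
  refine ins_rm _ _ _ ?_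
  rw [lft_E1_some, hole_E1]
  unfold nrm act
  have h1 : (W (B := B) (swap 0 i) (fun j => if j = i then !ε else false))⁻¹ (Sum.inl u) =
      Sum.inl u := by rw [Perm.inv_eq_iff_eq]; rfl
  rw [Perm.mul_apply, Perm.mul_apply, h1, h]
  simp

/-- extension of a cochain -/
def ext (u : B) (w : Perm (LL (Option B) k) → A) (ψ : Perm (LL B (k + 1))) : A :=
  match ψ (Sum.inl u) with
  | Sum.inl _ => 0
  | Sum.inr (i, ε) => Perm.sign (swap 0 i) • w (rm (E1 B k) (nrm i ε ψ))

theorem ext_of {u : B} (w : Perm (LL (Option B) k) → A) {ψ : Perm (LL B (k + 1))}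
    {i : Fin (k + 1)} {ε : Bool} (h : ψ (Sum.inl u) = Sum.inr (i, ε)) :
    ext u w ψ = Perm.sign (swap 0 i) • w (rm (E1 B k) (nrm i ε ψ)) := by
  unfold ext; rw [h]

theorem ext_of_inl {u : B} (w : Perm (LL (Option B) k) → A) {ψ : Perm (LL B (k + 1))}
    {b : B} (h : ψ (Sum.inl u) = Sum.inl b) :
    ext u w ψ = 0 := by
  unfold ext; rw [h]

theorem ins1_u (u : B) (ρ : Perm (LL (Option B) k)) : ins1 u ρ (Sum.inl u) = Sum.inr (0, true) :=
  ins_at _ _ _

theorem ext_ins1 (u : B) (w : Perm (LL (Option B) k) → A) (ρ : Perm (LL (Option B) k)) :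
    ext u w (ins1 u ρ) = w ρ := by
  rw [ext_of w (ins1_u u ρ)]
  have : nrm 0 true (ins1 u ρ) = ins1 u ρ := by
    unfold nrm
    have h : (fun j : Fin (k + 1) => if j = 0 then !true else false) = fun _ => false := by
      funext j; simp
    rw [h, swap_self]; exact act_one _
  rw [this]
  unfold ins1
  rw [rm_ins]; simp

theorem act_inl (π : Perm (Fin k)) (e : Fin k → Bool) (ψ : Perm (LL B k)) (b : B) :
    act π e ψ (Sum.inl b) = W π e (ψ (Sum.inl b)) := by
  unfold act
  have h1 : (W (B := B) π e)⁻¹ (Sum.inl b) = Sum.inl b := by rw [Perm.inv_eq_iff_eq]; rfl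
  rw [Perm.mul_apply, Perm.mul_apply, h1]

theorem AS.ext {u : B} {w : Perm (LL (Option B) k) → A} (hw : AS w) : AS (ext u w) := by
  intro π e ψ
  rcases h : ψ (Sum.inl u) with b | ⟨i, ε⟩
  · rw [ext_of_inl w h, ext_of_inl w (b := b), smul_zero]
    rw [act_inl, h]; rfl
  · have h' : act π e ψ (Sum.inl u) = Sum.inr (π i, xor ε (e i)) := by
      rw [act_inl, h]; rfl
    rw [ext_of w h, ext_of w h']
    obtain ⟨σ, hσ⟩ : ∃ σ, swap 0 (π i) * π * swap 0 i = lp σ := exists_lp (by simp)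
    -- the two normal forms
    have h1 : nrm (π i) (xor ε (e i)) (act π e ψ) =
        act (lp σ) (Fin.cons false (fun j => e (swap 0 i j.succ))) (nrm i ε ψ) := by
      unfold nrm
      rw [act_act, act_act, ← hσ]
      have e1 : swap 0 (π i) * π * swap 0 i * swap 0 i = swap 0 (π i) * π := by
        rw [mul_assoc, swap_mul_self, mul_one]
      rw [e1]
      congr 1
      funext j
      by_cases hj : j = i
      · subst hj
        simp
        cases ε <;> cases e j <;> rfl
      · have hj2 : π j ≠ π i := fun h => hj (π.injective h)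
        simp only [hj, hj2, if_false, Bool.xor_false, Bool.false_xor]
        obtain ⟨m, hm⟩ : ∃ m : Fin k, m.succ = swap 0 i j := by
          apply Fin.exists_succ_eq_of_ne_zero
          intro h0
          apply hj
          have : swap 0 i j = swap 0 i i := by rw [h0]; simp
          exact (swap 0 i).injective this
        rw [← hm]
        simp only [Fin.cons_succ]
        rw [hm]; simp
    have h2 := ins1_rm_nrm u ψ i ε h
    rw [h1, ← h2, act_ins1]
    unfold ins1
    rw [rm_ins, rm_ins, hw, smul_smul, smul_smul]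
    congr 1
    have h3 : Perm.sign σ = Perm.sign (swap 0 (π i)) * Perm.sign π * Perm.sign (swap 0 i) := by
      rw [← lp_sign, ← hσ, Perm.sign_mul, Perm.sign_mul]
    rw [h3, ← mul_assoc, ← mul_assoc, Int.units_mul_self, one_mul]

theorem chordIso (u : B) (κ : Perm (Option B)) (T : Fam B) (T' : Fam (Option B)) (k : ℕ)
    (hT : Inv T)
    (h1 : ∀ k (ψ : Perm (LL B (k + 1))), T (k + 1) ψ → ∃ i ε, ψ (Sum.inl u) = Sum.inr (i, ε))
    (hI : Inv T')
    (h3 : ∀ k (ρ : Perm (LL (Option B) k)), T (k + 1) (insK u κ ρ) → T' k ρ)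
    (h4 : ∀ k (ρ : Perm (LL (Option B) (k + 1))), T' (k + 1) ρ → T' k (d ρ) →
      T (k + 1) (insK u κ (d ρ)) → T (k + 2) (insK u κ ρ))
    (h4' : ∀ k (ρ : Perm (LL (Option B) (k + 1))), T (k + 2) (insK u κ ρ) → T' k (d ρ) →
      T (k + 1) (insK u κ (d ρ)))
    (h5 : ∀ k (ρ : Perm (LL (Option B) (k + 1))), T (k + 2) (insK u κ ρ) →
      ¬ T (k + 1) (d (insK u κ ρ)))
    (hex : Ex T' k) : Ex T (k + 1) := by
  intro A _ c hc
  have hnorm : ∀ {k' : ℕ} (ψ : Perm (LL B (k' + 1))), T (k' + 1) ψ → ∃ π e ρ,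
      act π e ψ = insK u κ ρ ∧ T (k' + 1) (insK u κ ρ) := by
    intro k' ψ hψ
    obtain ⟨i, ε, h⟩ := h1 _ ψ hψ
    refine ⟨swap 0 i, (fun j => if j = i then !ε else false),
      rm (E1 B k') (nrm i ε ψ) * SB κ⁻¹, ?_, ?_⟩
    · unfold insK
      rw [mul_assoc, ← SB_mul, inv_mul_cancel, SB_one, mul_one, ins1_rm_nrm u ψ i ε h]
      rfl
    · unfold insK
      rw [mul_assoc, ← SB_mul, inv_mul_cancel, SB_one, mul_one, ins1_rm_nrm u ψ i ε h]
      exact (hT _ _ _ _).2 hψ
  have hc' : Coc T' (fun ρ => c (insK u κ ρ)) := by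
    refine ⟨?_, ?_, ?_⟩
    · intro π e ρ
      show c (insK u κ (act π e ρ)) = _
      rw [← act_insK, hc.as, lp_sign]
    · intro ρ hρ
      exact hc.supp _ (fun h => hρ (h3 _ _ h))
    · intro ρ hρ
      by_cases h : T (k + 2) (insK u κ ρ)
      · have h6 := dl_insK hc.as u κ ρ
        rw [hc.dl _ h, hc.supp _ (h5 _ _ h), zero_sub, zero_eq_neg] at h6
        exact h6
      · apply dl_eq_zero
        intro π e
        apply hc.supp
        intro h7
        apply h
        have h8 := h4 _ (act π e ρ) ((hI _ _ _ _).2 hρ) (h3 _ _ h7) h7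
        rw [← act_insK] at h8
        exact (hT _ _ _ _).1 h8
  have hcob := hex A _ hc'
  cases k with
  | zero =>
    refine ⟨fun _ => 0, AS.zero, fun _ _ => rfl, fun ψ hψ => ?_⟩
    obtain ⟨π, e, ρ, h2, _⟩ := hnorm ψ hψ
    have h9 := hc.as π e ψ
    rw [h2] at h9
    have h10 := hcob ρ
    simp only at h10
    rw [h10] at h9
    rw [dl_eq_zero (by intros; rfl)]
    have h11 : Perm.sign π • (Perm.sign π • c ψ) = 0 := by rw [← h9, smul_zero]
    rwa [smul_smul, Int.units_mul_self, one_smul] at h11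
  | succ k =>
    obtain ⟨w, hw, hws, hw2⟩ := hcob
    have hw' : AS (fun ρ : Perm (LL (Option B) k) => - w (ρ * SB κ⁻¹)) := by
      intro π e ρ
      show - w (act π e ρ * SB κ⁻¹) = _
      rw [← act_mul_SB, hw, smul_neg]
    refine ⟨cut T (ext u (fun ρ => - w (ρ * SB κ⁻¹))), hw'.ext.cut hT, supp_cut _ _, ?_⟩
    have hval : ∀ ρ : Perm (LL (Option B) k), ext u (fun ρ => - w (ρ * SB κ⁻¹)) (insK u κ ρ) =
        - w ρ := by
      intro ρ
      unfold insK
      rw [ext_ins1, mul_assoc, ← SB_mul, mul_inv_cancel, SB_one, mul_one]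
    have hAS := (hw'.ext (u := u)).cut hT
    intro ψ hψ
    obtain ⟨π, e, ρ, h2, h3'⟩ := hnorm ψ hψ
    have e1 := hc.as π e ψ
    have e2 := hAS.dl π e ψ
    rw [h2] at e1 e2
    have key : c (insK u κ ρ) = dl (cut T (ext u (fun ρ => - w (ρ * SB κ⁻¹)))) (insK u κ ρ) := by
      have hw3 := hw2 ρ (h3 _ _ h3')
      simp only at hw3
      rw [dl_insK hAS, cut_of_not (h5 _ _ h3'), zero_sub, hw3, ← dl_neg]
      apply dl_congr
      intro π' e'
      by_cases h6 : T (k + 1) (insK u κ (d (act π' e' ρ)))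
      · rw [cut_of h6, hval, neg_neg]
      · rw [cut_of_not h6, neg_zero]
        apply hws
        intro h7
        apply h6
        apply h4' _ _ _ h7
        rw [← act_insK]
        exact (hT _ _ _ _).2 h3'
    rw [key, e2] at e1
    have h12 := congrArg (fun x => Perm.sign π • x) e1
    simp only [smul_smul, Int.units_mul_self, one_smul] at h12
    exact h12.symm

/-- transport along a map which does not change the chords -/
theorem sideIso {B' : Type} [DecidableEq B'] (m : ∀ k, Perm (LL B' k) → Perm (LL B k))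
    (m' : ∀ k, Perm (LL B k) → Perm (LL B' k)) (T : Fam B) (T' : Fam B') (k : ℕ)
    (hT : Inv T) (hI : Inv T')
    (hact : ∀ k π e (ρ : Perm (LL B' k)), m k (act π e ρ) = act π e (m k ρ))
    (hd : ∀ k (ρ : Perm (LL B' (k + 1))), m k (d ρ) = d (m (k + 1) ρ))
    (hmm : ∀ k ρ, m' k (m k ρ) = ρ)
    (s1 : ∀ k ψ, T k ψ → m k (m' k ψ) = ψ)
    (s2 : ∀ k ρ, T k (m k ρ) → T' k ρ)
    (s3 : ∀ k (ρ : Perm (LL B' (k + 1))), T' _ ρ → T' _ (d ρ) → T _ (m _ (d ρ)) → T _ (m _ ρ))
    (s3' : ∀ k (ρ : Perm (LL B' (k + 1))), T _ (m _ ρ) → T' _ (d ρ) → T _ (m _ (d ρ)))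
    (hex : Ex T' k) : Ex T k := by
  intro A _ c hc
  have hdl : ∀ {k : ℕ} (c : Perm (LL B k) → A) (ρ : Perm (LL B' (k + 1))),
      dl c (m _ ρ) = dl (fun ρ' => c (m _ ρ')) ρ := by
    intro k c ρ
    unfold dl
    refine Finset.sum_congr rfl fun i _ => ?_
    simp only [hd, hact]
  have hc' : Coc T' (fun ρ => c (m k ρ)) := by
    refine ⟨?_, ?_, ?_⟩
    · intro π e ρ
      show c (m k (act π e ρ)) = _
      rw [hact, hc.as]
    · intro ρ hρ
      exact hc.supp _ (fun h => hρ (s2 _ _ h))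
    · intro ρ hρ
      by_cases h : T (k + 1) (m _ ρ)
      · rw [← hdl, hc.dl _ h]
      · apply dl_eq_zero
        intro π e
        apply hc.supp
        intro h7
        apply h
        have h8 := s3 _ (act π e ρ) ((hI _ _ _ _).2 hρ) (s2 _ _ h7) h7
        rw [hact] at h8
        exact (hT _ _ _ _).1 h8
  have hcob := hex A _ hc'
  cases k with
  | zero =>
    intro ψ
    by_cases h : T 0 ψ
    · have := hcob (m' 0 ψ)
      simp only at this
      rwa [s1 _ _ h] at this
    · exact hc.supp _ h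
  | succ k =>
    obtain ⟨w, hw, hws, hw2⟩ := hcob
    refine ⟨cut T (fun ψ => w (m' k ψ)), ?_, supp_cut _ _, ?_⟩
    · intro π e ψ
      by_cases h : T k ψ
      · rw [cut_of h, cut_of ((hT _ _ _ _).2 h)]
        obtain ⟨ρ, rfl⟩ : ∃ ρ, ψ = m k ρ := ⟨_, (s1 _ _ h).symm⟩
        rw [← hact, hmm, hmm, hw]
      · rw [cut_of_not h, cut_of_not (fun h' => h ((hT _ _ _ _).1 h')), smul_zero]
    · intro ψ hψ
      obtain ⟨ρ, rfl⟩ : ∃ ρ, ψ = m (k + 1) ρ := ⟨_, (s1 _ _ hψ).symm⟩
      have hw3 := hw2 ρ (s2 _ _ hψ)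
      simp only at hw3
      rw [hdl, hw3]
      apply dl_congr
      intro π e
      by_cases h6 : T k (m k (d (act π e ρ)))
      · rw [cut_of h6, hmm]
      · rw [cut_of_not h6]
        apply hws
        intro h7
        apply h6
        apply s3' _ _ _ h7
        rw [hact]
        exact (hT _ _ _ _).2 hψ

end Pool.Agent.W604
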