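import Mathlib
import Pool.Agent.W604.Iso

set_option autoImplicit false
set_option linter.unusedSectionVars false

/-!
Faces of a labelled chord system.
-/

namespace Pool.Agent.W604

open Equiv

variable {B : Type} {k : ℕ} [DecidableEq B]

/-- the number of faces -/
noncomputable def fc (ψ : Perm (LL B k)) : ℕ := cyc (ψ * bar)

/-- two letters are on the same face -/
def SF (ψ : Perm (LL B k)) (a b : LL B k) : Prop := (ψ * bar).SameCycle a b

/-- every vertex has a side -/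
def Good (ψ : Perm (LL B k)) : Prop := ∀ h, ∃ b : B, ψ.SameCycle h (Sum.inl b)

theorem SF.symm {ψ : Perm (LL B k)} {a b : LL B k} (h : SF ψ a b) : SF ψ b a :=
  Perm.SameCycle.symm h
theorem SF.trans {ψ : Perm (LL B k)} {a b c : LL B k} (h : SF ψ a b) (h' : SF ψ b c) : SF ψ a c :=
  Perm.SameCycle.trans h h'
theorem SF.refl (ψ : Perm (LL B k)) (a : LL B k) : SF ψ a a := Perm.SameCycle.refl _ _

theorem cyc_conj {α : Type*} (s π : Perm α) : cyc (s * π * s⁻¹) = cyc π := by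
  unfold cyc
  refine Nat.card_congr (Quotient.congr s⁻¹ ?_)
  intro a b
  exact Perm.sameCycle_conj

theorem act_mul_bar (π : Perm (Fin k)) (e : Fin k → Bool) (ψ : Perm (LL B k)) :
    act π e ψ * bar = act π e (ψ * bar) := by
  unfold act
  have h : (W (B := B) π e)⁻¹ * bar = bar * (W π e)⁻¹ :=
    (show Commute (W π e) bar from bar_comm_W π e).inv_left.eq
  rw [mul_assoc (W π e * ψ), h, ← mul_assoc, ← mul_assoc]

theorem fc_act (π : Perm (Fin k)) (e : Fin k → Bool) (ψ : Perm (LL B k)) :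
    fc (act π e ψ) = fc ψ := by
  unfold fc
  rw [act_mul_bar]
  exact cyc_conj _ _

theorem SF_act (π : Perm (Fin k)) (e : Fin k → Bool) (ψ : Perm (LL B k)) (a b : LL B k) :
    SF (act π e ψ) (W π e a) (W π e b) ↔ SF ψ a b := by
  unfold SF
  rw [act_mul_bar]
  unfold act
  rw [Perm.sameCycle_conj]; simp

theorem SF_act_inl (π : Perm (Fin k)) (e : Fin k → Bool) (ψ : Perm (LL B k)) (a b : B) :
    SF (act π e ψ) (Sum.inl a) (Sum.inl b) ↔ SF ψ (Sum.inl a) (Sum.inl b) :=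
  SF_act π e ψ (Sum.inl a) (Sum.inl b)

theorem good_act (π : Perm (Fin k)) (e : Fin k → Bool) (ψ : Perm (LL B k)) :
    Good (act π e ψ) ↔ Good ψ := by
  unfold Good
  constructor
  · intro h x
    obtain ⟨b, hb⟩ := h (W π e x)
    refine ⟨b, ?_⟩
    have := (Perm.sameCycle_conj (f := ψ) (g := W π e) (x := W π e x) (y := Sum.inl b)).1 hb
    have h1 : (W (B := B) π e)⁻¹ (Sum.inl b) = Sum.inl b := by rw [Perm.inv_eq_iff_eq]; rfl
    rw [h1] at this
    simpa using this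
  · intro h x
    obtain ⟨b, hb⟩ := h ((W π e)⁻¹ x)
    refine ⟨b, ?_⟩
    apply (Perm.sameCycle_conj (f := ψ) (g := W π e) (x := x) (y := Sum.inl b)).2
    have h1 : (W (B := B) π e)⁻¹ (Sum.inl b) = Sum.inl b := by rw [Perm.inv_eq_iff_eq]; rfl
    rw [h1]
    exact hb

/-! ### insertion of a chord -/

theorem bar_E1 : (bar : Perm (LL B (k + 1))) =
    fx (E1 B k) bar * swap (Sum.inr (0, true)) (Sum.inr (0, false)) := by
  ext x
  rcases x with b | ⟨i, ε⟩
  · rw [Perm.mul_apply, swap_apply_of_ne_of_ne (by simp) (by simp)]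
    have : (Sum.inl b : LL B (k + 1)) = lft (E1 B k) (Sum.inl (some b)) := rfl
    rw [this, fx_lft]; rfl
  · refine Fin.cases ?_ (fun i => ?_) i
    · cases ε
      · rw [Perm.mul_apply, swap_apply_right]
        have : (Sum.inr (0, true) : LL B (k + 1)) = hole (E1 B k) := rfl
        rw [this, fx_hole]; simp [hole_E1]
      · rw [Perm.mul_apply, swap_apply_left]
        have : (Sum.inr (0, false) : LL B (k + 1)) = lft (E1 B k) (Sum.inl none) := rfl
        rw [this, fx_lft]; simp [lft_E1_none]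
    · rw [Perm.mul_apply, swap_apply_of_ne_of_ne (by simp) (by simp)]
      have : (Sum.inr (i.succ, ε) : LL B (k + 1)) = lft (E1 B k) (Sum.inr (i, ε)) := rfl
      rw [this, fx_lft, bar_inr, lft_E1_inr, lft_E1_inr, bar_inr]

theorem bar_comm_SB (κ : Perm B) : (bar : Perm (LL B k)) * SB κ = SB κ * bar := W_comm_SB _ _ _

theorem ins1_mul_bar (u : B) (ρ : Perm (LL (Option B) k)) :
    ins1 u ρ * bar = ins1 u (ρ * bar * SB (swap (some u) none)) := by
  rw [ins1_eq, ins1_eq, bar_E1, fx_mul, fx_mul, SB_swap, fx_swap, lft_E1_none, lft_E1_some]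
  have hc : swap (Sum.inr (0, true)) (Sum.inl u) * fx (E1 B k) bar =
      fx (E1 B k) bar * swap (Sum.inr (0, true)) (Sum.inl u) := by
    have h1 : fx (E1 B k) bar (Sum.inr (0, true)) = Sum.inr (0, true) := fx_hole _ _
    have h2 : fx (E1 B k) bar (Sum.inl u) = Sum.inl u := fx_lft (E1 B k) bar (Sum.inl (some u))
    rw [Equiv.mul_swap_eq_swap_mul, h1, h2]
  have hs : swap (Sum.inr (0, true) : LL B (k + 1)) (Sum.inl u) *
      swap (Sum.inr (0, true)) (Sum.inr (0, false)) =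
      swap (Sum.inl u) (Sum.inr (0, false)) * swap (Sum.inr (0, true)) (Sum.inl u) := by
    rw [Equiv.mul_swap_eq_swap_mul, swap_apply_left,
      swap_apply_of_ne_of_ne (by simp) (by simp)]
  calc fx (E1 B k) ρ * swap (Sum.inr (0, true)) (Sum.inl u) *
        (fx (E1 B k) bar * swap (Sum.inr (0, true)) (Sum.inr (0, false)))
      = fx (E1 B k) ρ * (swap (Sum.inr (0, true)) (Sum.inl u) * fx (E1 B k) bar) *
          swap (Sum.inr (0, true)) (Sum.inr (0, false)) := by group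
    _ = fx (E1 B k) ρ * fx (E1 B k) bar * (swap (Sum.inr (0, true)) (Sum.inl u) *
          swap (Sum.inr (0, true)) (Sum.inr (0, false))) := by rw [hc]; group
    _ = _ := by rw [hs]; group

theorem ins1_mul_bar' (u : B) (ρ : Perm (LL (Option B) k)) :
    ins1 u ρ * bar = ins1 u (ρ * SB (swap (some u) none) * bar) := by
  rw [ins1_mul_bar, mul_assoc, bar_comm_SB, ← mul_assoc]

variable [Finite B]

theorem fc_ins1 (u : B) (ρ : Perm (LL (Option B) k)) :
    fc (ins1 u ρ) = fc (ρ * SB (swap (some u) none)) := by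
  unfold fc
  rw [ins1_mul_bar']
  exact cyc_ins _ _ _

theorem SF_ins1 (u : B) (ρ : Perm (LL (Option B) k)) (a b : LL (Option B) k) :
    SF (ins1 u ρ) (lft (E1 B k) a) (lft (E1 B k) b) ↔ SF (ρ * SB (swap (some u) none)) a b := by
  unfold SF
  rw [ins1_mul_bar']
  exact sameCycle_ins _ _ _ _ _

theorem SF_ins1_hole (u : B) (ρ : Perm (LL (Option B) k)) (b : LL (Option B) k) :
    SF (ins1 u ρ) (Sum.inr (0, true)) (lft (E1 B k) b) ↔
      SF (ρ * SB (swap (some u) none)) (Sum.inl (some u)) b := by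
  unfold SF
  rw [ins1_mul_bar']
  exact sameCycle_ins_hole _ _ _ _

theorem SF_ins1_01 (u : B) (ρ : Perm (LL (Option B) k)) :
    SF (ins1 u ρ) (Sum.inr (0, true)) (Sum.inr (0, false)) ↔
      SF (ρ * SB (swap (some u) none)) (Sum.inl (some u)) (Sum.inl none) :=
  SF_ins1_hole u ρ (Sum.inl none)

/-! ### exchanging two sides -/

theorem mul_SB_mul_bar (κ : Perm B) (ψ : Perm (LL B k)) : ψ * SB κ * bar = ψ * bar * SB κ := by
  rw [mul_assoc, ← bar_comm_SB, ← mul_assoc]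

theorem SF_swap_iff {x y : B} (h : x ≠ y) (ψ : Perm (LL B k)) :
    SF (ψ * SB (swap x y)) (Sum.inl x) (Sum.inl y) ↔ ¬ SF ψ (Sum.inl x) (Sum.inl y) := by
  unfold SF
  rw [mul_SB_mul_bar, SB_swap]
  exact sameCycle_swap_iff (by simpa using h)

theorem SF_merge {x y : B} {ψ : Perm (LL B k)} (h : ¬ SF ψ (Sum.inl x) (Sum.inl y))
    (a b : LL B k) : SF (ψ * SB (swap x y)) a b ↔ SF ψ a b ∨
      ((SF ψ (Sum.inl x) a ∨ SF ψ (Sum.inl y) a) ∧ (SF ψ (Sum.inl x) b ∨ SF ψ (Sum.inl y) b)) := by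
  unfold SF at *
  rw [mul_SB_mul_bar, SB_swap]
  exact sameCycle_merge h a b

theorem fc_merge {x y : B} {ψ : Perm (LL B k)} (h : ¬ SF ψ (Sum.inl x) (Sum.inl y)) :
    fc ψ = fc (ψ * SB (swap x y)) + 1 := by
  unfold fc
  rw [mul_SB_mul_bar, SB_swap]
  exact cyc_merge h

theorem fc_split {x y : B} (hxy : x ≠ y) {ψ : Perm (LL B k)}
    (h : SF ψ (Sum.inl x) (Sum.inl y)) : fc (ψ * SB (swap x y)) = fc ψ + 1 := by
  unfold fc
  rw [mul_SB_mul_bar, SB_swap]
  exact cyc_split (by simpa using hxy) h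

theorem good_mul_swap (x y : B) (ψ : Perm (LL B k)) (h : Good ψ) : Good (ψ * SB (swap x y)) := by
  by_cases hxy : x = y
  · subst hxy; rw [swap_self]
    have : SB (k := k) (Equiv.refl B) = 1 := SB_one
    rw [this, mul_one]; exact h
  have hne : (Sum.inl x : LL B k) ≠ Sum.inl y := by simpa using hxy
  by_cases hs : ψ.SameCycle (Sum.inl x) (Sum.inl y)
  · -- split
    have hn := not_sameCycle_swap_of hne hs
    intro a
    have hm := sameCycle_merge hn a
    rw [mul_assoc, swap_mul_self, mul_one] at hm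
    obtain ⟨b, hb⟩ := h a
    rw [SB_swap]
    rcases (hm _).1 hb with h1 | ⟨h1 | h1, _⟩
    · exact ⟨b, h1⟩
    · exact ⟨x, h1.symm⟩
    · exact ⟨y, h1.symm⟩
  · intro a
    obtain ⟨b, hb⟩ := h a
    refine ⟨b, ?_⟩
    rw [SB_swap]
    exact (sameCycle_merge hs a _).2 (Or.inl hb)

theorem good_mul_swap_iff (x y : B) (ψ : Perm (LL B k)) : Good (ψ * SB (swap x y)) ↔ Good ψ := by
  refine ⟨fun h => ?_, good_mul_swap x y ψ⟩
  have := good_mul_swap x y _ h
  rwa [mul_assoc, ← SB_mul, swap_mul_self, SB_one, mul_one] at this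

/-! ### removing a side -/

section side

variable {B' : Type} [DecidableEq B'] (e : B ≃ Option B')

theorem bar_E2 : (bar : Perm (LL B k)) = fx (E2 e k) bar := (fx_E2_W e _ _).symm

/-- side `e.symm none` inserted after the side `b` -/
def insS (b : B') (ρ : Perm (LL B' k)) : Perm (LL B k) := ins (E2 e k) ρ (Sum.inl b)

theorem insS_mul_bar (b : B') (ρ : Perm (LL B' k)) :
    insS e b ρ * bar = insS e b (ρ * bar) := by
  unfold insS ins
  rw [bar_E2 e, fx_mul]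
  have h1 : fx (E2 e k) bar (hole (E2 e k)) = hole (E2 e k) := fx_hole _ _
  have h2 : fx (E2 e k) bar (lft (E2 e k) (Sum.inl b)) = lft (E2 e k) (Sum.inl b) := by
    rw [fx_lft]; rfl
  have hc : swap (hole (E2 e k)) (lft (E2 e k) (Sum.inl b)) * fx (E2 e k) bar =
      fx (E2 e k) bar * swap (hole (E2 e k)) (lft (E2 e k) (Sum.inl b)) := by
    rw [Equiv.mul_swap_eq_swap_mul, h1, h2]
  rw [mul_assoc, hc, ← mul_assoc]

theorem fxS_mul_bar (ρ : Perm (LL B' k)) :
    fx (E2 e k) ρ * bar = fx (E2 e k) (ρ * bar) := by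
  rw [bar_E2 e, fx_mul]

theorem rmS_mul_bar (ψ : Perm (LL B k)) :
    rm (E2 e k) ψ * bar = rm (E2 e k) (ψ * bar) := by
  conv_rhs => rw [bar_E2 e]
  rw [rm_mul_fx]

theorem fc_insS (b : B') (ρ : Perm (LL B' k)) : fc (insS e b ρ) = fc ρ := by
  unfold fc; rw [insS_mul_bar]; exact cyc_ins _ _ _

theorem fc_fxS (ρ : Perm (LL B' k)) : fc (fx (E2 e k) ρ) = fc ρ + 1 := by
  unfold fc; rw [fxS_mul_bar]; exact cyc_fx _ _

theorem SF_insS (b : B') (ρ : Perm (LL B' k)) (x y : LL B' k) :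
    SF (insS e b ρ) (lft (E2 e k) x) (lft (E2 e k) y) ↔ SF ρ x y := by
  unfold SF; rw [insS_mul_bar]; exact sameCycle_ins _ _ _ _ _

theorem SF_insS_hole (b : B') (ρ : Perm (LL B' k)) (y : LL B' k) :
    SF (insS e b ρ) (Sum.inl (e.symm none)) (lft (E2 e k) y) ↔ SF ρ (Sum.inl b) y := by
  unfold SF; rw [insS_mul_bar]; exact sameCycle_ins_hole _ _ _ _

theorem SF_fxS (ρ : Perm (LL B' k)) (x y : LL B' k) :
    SF (fx (E2 e k) ρ) (lft (E2 e k) x) (lft (E2 e k) y) ↔ SF ρ x y := by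
  unfold SF; rw [fxS_mul_bar]; exact sameCycle_fx _ _ _ _

theorem SF_rmS (ψ : Perm (LL B k)) (x y : LL B' k) :
    SF (rm (E2 e k) ψ) x y ↔ SF ψ (lft (E2 e k) x) (lft (E2 e k) y) := by
  unfold SF; rw [rmS_mul_bar]; exact sameCycle_rm _ _ _ _

theorem fc_rmS (ψ : Perm (LL B k)) (h : ψ (Sum.inl (e.symm none)) ≠ Sum.inl (e.symm none)) :
    fc (rm (E2 e k) ψ) = fc ψ := by
  unfold fc; rw [rmS_mul_bar]
  apply cyc_rm_of_ne
  rw [hole_E2]
  simpa using h

theorem act_insS (π : Perm (Fin k)) (e' : Fin k → Bool) (b : B') (ρ : Perm (LL B' k)) :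
    insS e b (act π e' ρ) = act π e' (insS e b ρ) := by
  unfold act insS ins
  rw [fx_mul, fx_mul, fx_inv, fx_E2_W]
  set s : Perm (LL B k) := W π e' with hs
  have h1 : s (hole (E2 e k)) = hole (E2 e k) := rfl
  have h2 : s (lft (E2 e k) (Sum.inl b)) = lft (E2 e k) (Sum.inl b) := rfl
  have h3 : s * swap (hole (E2 e k)) (lft (E2 e k) (Sum.inl b)) * s⁻¹ =
      swap (hole (E2 e k)) (lft (E2 e k) (Sum.inl b)) := by
    rw [Equiv.mul_swap_eq_swap_mul, h1, h2]; group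
  calc s * fx (E2 e k) ρ * s⁻¹ * swap (hole (E2 e k)) (lft (E2 e k) (Sum.inl b))
      = s * fx (E2 e k) ρ * s⁻¹ * (s * swap (hole (E2 e k)) (lft (E2 e k) (Sum.inl b)) * s⁻¹) := by
        rw [h3]
    _ = _ := by group

theorem act_fxS (π : Perm (Fin k)) (e' : Fin k → Bool) (ρ : Perm (LL B' k)) :
    fx (E2 e k) (act π e' ρ) = act π e' (fx (E2 e k) ρ) := by
  unfold act
  rw [fx_mul, fx_mul, fx_inv, fx_E2_W]

theorem act_rmS (π : Perm (Fin k)) (e' : Fin k → Bool) (ψ : Perm (LL B k)) :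
    rm (E2 e k) (act π e' ψ) = act π e' (rm (E2 e k) ψ) := by
  unfold act
  rw [← rm_conj, fx_E2_W]

theorem d_fxS (ρ : Perm (LL B' (k + 1))) : fx (E2 e k) (d ρ) = d (fx (E2 e (k + 1)) ρ) := by
  refine Ind.unique j0_inj ?_ (ind_d _)
  refine Ind.fx (ind_d ρ) _ _ ?_ ?_
  · rfl
  · rintro (b | ⟨i, ε⟩) <;> rfl

theorem d_insS (b : B') (ρ : Perm (LL B' (k + 1))) : insS e b (d ρ) = d (insS e b ρ) := by
  refine Ind.unique j0_inj ?_ (ind_d _)
  refine Ind.mul (Ind.fx (ind_d ρ) _ _ ?_ ?_) ?_ ?_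
  · rfl
  · rintro (b | ⟨i, ε⟩) <;> rfl
  · intro v
    have h1 : hole (E2 e (k + 1)) = j0 (hole (E2 e k)) := rfl
    have h2 : lft (E2 e (k + 1)) (Sum.inl b) = j0 (lft (E2 e k) (Sum.inl b)) := rfl
    rw [h1, h2]
    exact j0_inj.swap_apply _ _ _
  · intro x hx
    rw [swap_apply_of_ne_of_ne]
    · rintro rfl; exact hx ⟨hole (E2 e k), rfl⟩
    · rintro rfl; exact hx ⟨lft (E2 e k) (Sum.inl b), rfl⟩

theorem d_rmS (ψ : Perm (LL B (k + 1))) : rm (E2 e k) (d ψ) = d (rm (E2 e (k + 1)) ψ) := by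
  have h1 : Ind (j0 ∘ lft (E2 e k)) ψ (rm (E2 e k) (d ψ)) := (ind_d ψ).comp j0_inj (ind_rm _ _)
  have h2 : Ind (lft (E2 e (k + 1)) ∘ j0) ψ (d (rm (E2 e (k + 1)) ψ)) :=
    (ind_rm _ _).comp (lft_inj' _) (ind_d _)
  have h3 : (j0 ∘ lft (E2 e k)) = (lft (E2 e (k + 1)) ∘ j0) := by
    funext x
    rcases x with b | ⟨i, ε⟩ <;> rfl
  rw [h3] at h1
  exact Ind.unique ((lft_inj' _).comp j0_inj) h1 h2

theorem good_insS (b : B') (ρ : Perm (LL B' k)) : Good (insS e b ρ) ↔ Good ρ := by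
  constructor
  · intro h x
    obtain ⟨b', hb'⟩ := h (lft (E2 e k) x)
    rcases h1 : e b' with _ | b''
    · have h2 : (Sum.inl b' : LL B k) = hole (E2 e k) := by
        rw [hole_E2, ← h1]; simp
      rw [h2] at hb'
      exact ⟨b, ((sameCycle_ins_hole (E2 e k) ρ (Sum.inl b) x).1 hb'.symm).symm⟩
    · have h2 : (Sum.inl b' : LL B k) = lft (E2 e k) (Sum.inl b'') := by
        rw [lft_E2_inl, ← h1]; simp
      rw [h2] at hb'
      exact ⟨b'', (sameCycle_ins (E2 e k) ρ (Sum.inl b) _ _).1 hb'⟩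
  · intro h x
    rcases eq_hole_or_lft (E2 e k) x with rfl | ⟨v, rfl⟩
    · exact ⟨_, Perm.SameCycle.refl _ _⟩
    · obtain ⟨b', hb'⟩ := h v
      exact ⟨e.symm (some b'), (sameCycle_ins (E2 e k) ρ (Sum.inl b) _ _).2 hb'⟩

theorem good_fxS (ρ : Perm (LL B' k)) : Good (fx (E2 e k) ρ) ↔ Good ρ := by
  constructor
  · intro h x
    obtain ⟨b', hb'⟩ := h (lft (E2 e k) x)
    rcases h1 : e b' with _ | b''
    · exfalso
      have h2 : (Sum.inl b' : LL B k) = hole (E2 e k) := by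
        rw [hole_E2, ← h1]; simp
      rw [h2] at hb'
      obtain ⟨n, hn⟩ := hb'.symm
      rw [Perm.zpow_apply_eq_self_of_apply_eq_self (fx_hole _ _)] at hn
      exact hole_ne_lft _ _ hn
    · have h2 : (Sum.inl b' : LL B k) = lft (E2 e k) (Sum.inl b'') := by
        rw [lft_E2_inl, ← h1]; simp
      rw [h2] at hb'
      exact ⟨b'', (sameCycle_fx (E2 e k) ρ _ _).1 hb'⟩
  · intro h x
    rcases eq_hole_or_lft (E2 e k) x with rfl | ⟨v, rfl⟩
    · exact ⟨_, Perm.SameCycle.refl _ _⟩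
    · obtain ⟨b', hb'⟩ := h v
      exact ⟨e.symm (some b'), (sameCycle_fx (E2 e k) ρ _ _).2 hb'⟩

end side

/-! ### deletion -/

theorem sameCycle_d (ψ : Perm (LL B (k + 1))) (a b : LL B k) :
    (d ψ).SameCycle a b ↔ ψ.SameCycle (j0 a) (j0 b) := by
  unfold d
  rw [sameCycle_rm, sameCycle_rm, j0_eq]; rfl

theorem d_mul_bar (ψ : Perm (LL B (k + 1))) :
    d ψ * bar = d (ψ * bar * swap (Sum.inr (0, true)) (Sum.inr (0, false))) := by
  have h1 : ψ * bar * swap (Sum.inr (0, true)) (Sum.inr (0, false)) = ψ * fx (E1 B k) bar := by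
    rw [bar_E1, mul_assoc, mul_assoc, swap_mul_self, mul_one]
  rw [h1]
  unfold d
  rw [rm_mul_fx, ← rmS_mul_bar]

theorem SF_d (ψ : Perm (LL B (k + 1))) (a b : LL B k) :
    SF (d ψ) a b ↔
      (ψ * bar * swap (Sum.inr (0, true)) (Sum.inr (0, false))).SameCycle (j0 a) (j0 b) := by
  unfold SF
  rw [d_mul_bar, sameCycle_d]

theorem T_ne_F : (Sum.inr (0, true) : LL B (k + 1)) ≠ Sum.inr (0, false) := by simp

/-- the chord with label `0` has both sides on one face -/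
def Sp (ψ : Perm (LL B (k + 1))) : Prop := SF ψ (Sum.inr (0, true)) (Sum.inr (0, false))

theorem SF_of_d {ψ : Perm (LL B (k + 1))} (h : Sp ψ) {a b : LL B k} (hab : SF (d ψ) a b) :
    SF ψ (j0 a) (j0 b) := by
  rw [SF_d] at hab
  exact sameCycle_of_split T_ne_F h hab

theorem SF_d_of {ψ : Perm (LL B (k + 1))} (h : ¬ Sp ψ) {a b : LL B k}
    (hab : SF ψ (j0 a) (j0 b)) : SF (d ψ) a b := by
  rw [SF_d]
  exact (sameCycle_merge h _ _).2 (Or.inl hab)

/-- no vertex consists of letters of the chord `0` only -/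
def NI (ψ : Perm (LL B (k + 1))) : Prop :=
  ∀ ε, ∃ v : LL B k, ψ.SameCycle (Sum.inr (0, ε)) (j0 v)

theorem Good.ni {ψ : Perm (LL B (k + 1))} (h : Good ψ) : NI ψ := by
  intro ε
  obtain ⟨b, hb⟩ := h (Sum.inr (0, ε))
  exact ⟨Sum.inl b, hb⟩

theorem j0_cases (x : LL B (k + 1)) : (∃ ε, x = Sum.inr (0, ε)) ∨ ∃ v, x = j0 v := by
  rcases x with b | ⟨i, ε⟩
  · exact Or.inr ⟨Sum.inl b, rfl⟩
  · refine Fin.cases ?_ (fun i => ?_) i
    · exact Or.inl ⟨ε, rfl⟩
    · exact Or.inr ⟨Sum.inr (i, ε), rfl⟩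

theorem good_d_iff {ψ : Perm (LL B (k + 1))} (h : NI ψ) : Good (d ψ) ↔ Good ψ := by
  constructor
  · intro hg x
    rcases j0_cases x with ⟨ε, rfl⟩ | ⟨v, rfl⟩
    · obtain ⟨v, hv⟩ := h ε
      obtain ⟨b, hb⟩ := hg v
      exact ⟨b, hv.trans ((sameCycle_d _ _ _).1 hb)⟩
    · obtain ⟨b, hb⟩ := hg v
      exact ⟨b, (sameCycle_d _ _ _).1 hb⟩
  · intro hg v
    obtain ⟨b, hb⟩ := hg (j0 v)
    exact ⟨b, (sameCycle_d _ _ _).2 hb⟩

theorem Good.d {ψ : Perm (LL B (k + 1))} (h : Good ψ) : Good (d ψ) := (good_d_iff h.ni).2 h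

theorem fc_d_aux {ψ : Perm (LL B (k + 1))} (h : NI ψ) :
    fc (d ψ) = cyc (ψ * bar * swap (Sum.inr (0, true)) (Sum.inr (0, false))) := by
  unfold fc
  rw [d_mul_bar]
  have h1 : ψ * bar * swap (Sum.inr (0, true)) (Sum.inr (0, false)) = ψ * fx (E1 B k) bar := by
    rw [bar_E1, mul_assoc, mul_assoc, swap_mul_self, mul_one]
  rw [h1]
  unfold Pool.Agent.W604.d
  have hfix : ∀ {L : Type} (π : Perm L) (x y : L), π x = x → π.SameCycle x y → x = y := by
    intro L π x y hx ⟨n, hn⟩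
    rw [Perm.zpow_apply_eq_self_of_apply_eq_self hx] at hn
    exact hn
  have hT : (ψ * fx (E1 B k) bar) (hole (E1 B k)) ≠ hole (E1 B k) := by
    rw [Perm.mul_apply, fx_hole, hole_E1]
    intro h2
    obtain ⟨v, hv⟩ := h true
    have := hfix ψ _ _ h2 hv
    rcases v with b | ⟨i, ε⟩
    · simp [j0] at this
    · simp only [j0, Sum.inr.injEq, Prod.mk.injEq] at this
      exact Fin.succ_ne_zero _ this.1.symm
  rw [cyc_rm_of_ne, cyc_rm_of_ne _ _ hT]
  · rw [rm_mul_fx, hole_E2]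
    have hb : (bar : Perm (LL (Option B) k)) (Sum.inl ((Equiv.refl (Option B)).symm none)) =
      Sum.inl none := rfl
    rw [Perm.mul_apply, hb]
    intro h2
    change rm (E1 B k) ψ (Sum.inl none) = Sum.inl none at h2
    obtain ⟨v, hv⟩ := h false
    have h3 : (rm (E1 B k) ψ).SameCycle (Sum.inl none)
        (lft (E2 (Equiv.refl (Option B)) k) v) := by
      rw [sameCycle_rm]
      rw [j0_eq] at hv
      exact hv
    have := hfix _ _ _ h2 h3
    rcases v with b | p <;> simp [lft_E2_inl, lft_E2_inr] at this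

theorem fc_d_of_Sp {ψ : Perm (LL B (k + 1))} (h : NI ψ) (hs : Sp ψ) : fc (d ψ) = fc ψ + 1 := by
  rw [fc_d_aux h]
  exact cyc_split T_ne_F hs

theorem fc_d_of_not_Sp {ψ : Perm (LL B (k + 1))} (h : NI ψ) (hs : ¬ Sp ψ) :
    fc ψ = fc (d ψ) + 1 := by
  rw [fc_d_aux h]
  exact cyc_merge hs

end Pool.Agent.W604
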