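import Mathlib
import Pool.Agent.W604.Face

set_option autoImplicit false
set_option linter.unusedSectionVars false

/-!
Planar families with separation conditions; reading a face from a side.
-/

namespace Pool.Agent.W604

open Equiv

variable {B : Type} {k : ℕ} [DecidableEq B]

/-- chord systems with `k` chords and `n - k` faces; adjacent sides are on different faces -/
def GG (Γ : SimpleGraph B) (n : ℕ) : Fam B := fun k ψ =>
  Good ψ ∧ k + fc ψ = n ∧ ∀ a b, Γ.Adj a b → ¬ SF ψ (Sum.inl a) (Sum.inl b)

theorem GG_inv (Γ : SimpleGraph B) (n : ℕ) : Inv (GG Γ n) := by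
  intro k π e ψ
  unfold GG
  rw [good_act, fc_act]
  simp only [SF_act_inl]

variable [Finite B]

theorem GG_sp {Γ : SimpleGraph B} {n : ℕ} {ψ : Perm (LL B (k + 1))} (h : GG Γ n _ ψ)
    (h' : GG Γ n _ (d ψ)) : Sp ψ := by
  by_contra hs
  have h1 := fc_d_of_not_Sp h.1.ni hs
  have h2 := h.2.1
  have h3 := h'.2.1
  omega

theorem GG_d {Γ : SimpleGraph B} {n : ℕ} {ψ : Perm (LL B (k + 1))} (h : GG Γ n _ ψ)
    (hs : Sp ψ) : GG Γ n _ (d ψ) := by
  refine ⟨h.1.d, ?_, ?_⟩
  · have h1 := fc_d_of_Sp h.1.ni hs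
    have h2 := h.2.1
    omega
  · intro a b hab h3
    exact h.2.2 a b hab (SF_of_d hs h3)

theorem fc_d_le {ψ : Perm (LL B (k + 1))} (h : Good ψ) : fc (d ψ) ≤ fc ψ + 1 := by
  by_cases hs : Sp ψ
  · rw [fc_d_of_Sp h.ni hs]
  · have := fc_d_of_not_Sp h.ni hs
    omega

theorem Sp_of_fc {ψ : Perm (LL B (k + 1))} (h : Good ψ) (h2 : fc (d ψ) = fc ψ + 1) : Sp ψ := by
  by_contra hs
  have := fc_d_of_not_Sp h.ni hs
  omega

theorem GG_conv (Γ : SimpleGraph B) (n : ℕ) : Conv (GG Γ n) := by
  intro k ψ h h'
  apply GG_d h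
  apply Sp_of_fc h.1
  have h1 := fc_d_le h.1
  have h2 := fc_d_le h.1.d
  have h3 := h.2.1
  have h4 := h'.2.1
  omega

/-! ### reading -/

theorem nrm_act (i : Fin (k + 1)) (ε : Bool) (π : Perm (Fin (k + 1))) (e : Fin (k + 1) → Bool)
    (ψ : Perm (LL B (k + 1))) : ∃ σ e', nrm (π i) (xor ε (e i)) (act π e ψ) =
        act (lp σ) (Fin.cons false e') (nrm i ε ψ) := by
  obtain ⟨σ, hσ⟩ : ∃ σ, swap 0 (π i) * π * swap 0 i = lp σ := exists_lp (by simp)
  refine ⟨σ, fun j => e (swap 0 i j.succ), ?_⟩
  unfold nrm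
  rw [act_act, act_act, ← hσ]
  have e1 : swap 0 (π i) * π * swap 0 i * swap 0 i = swap 0 (π i) * π := by
    rw [mul_assoc, swap_mul_self, mul_one]
  rw [e1]
  congr 1
  funext j
  by_cases hj : j = i
  · subst hj
    simp
    cases ε <;> cases e j <;> rfl
  · have hj2 : π j ≠ π i := fun h => hj (π.injective h)
    simp only [hj, hj2, if_false, Bool.xor_false, Bool.false_xor]
    obtain ⟨m, hm⟩ : ∃ m : Fin k, m.succ = swap 0 i j := by
      apply Fin.exists_succ_eq_of_ne_zero
      intro h0
      apply hj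
      have : swap 0 i j = swap 0 i i := by rw [h0]; simp
      exact (swap 0 i).injective this
    rw [← hm]
    simp only [Fin.cons_succ]
    rw [hm]; simp

theorem Sp_act (π : Perm (Fin k)) (e : Fin (k + 1) → Bool) (ψ : Perm (LL B (k + 1))) :
    Sp (act (lp π) e ψ) ↔ Sp ψ := by
  unfold Sp
  rw [← SF_act (lp π) e ψ]
  rcases h : e 0
  · simp [h]
  · simp only [W_inr, lp_zero, h]
    exact ⟨fun h => h.symm, fun h => h.symm⟩

theorem Sp_nrm (i : Fin (k + 1)) (ε : Bool) (ψ : Perm (LL B (k + 1))) :
    Sp (nrm i ε ψ) ↔ SF ψ (Sum.inr (i, true)) (Sum.inr (i, false)) := by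
  unfold Sp nrm
  rw [← SF_act (swap 0 i) (fun j => if j = i then !ε else false) ψ]
  simp only [W_inr, swap_apply_right, if_true]
  cases ε
  · exact ⟨fun h => h.symm, fun h => h.symm⟩
  · simp

open Classical in
/-- number of leading letters at `u` whose chords come back to the same face -/
noncomputable def rr (u : B) : ∀ k, Perm (LL B k) → ℕ
  | 0, _ => 0
  | k + 1, ψ => match ψ (Sum.inl u) with
    | Sum.inl _ => 0
    | Sum.inr (i, ε) => if Sp (nrm i ε ψ) then 1 + rr u k (d (nrm i ε ψ)) else 0

theorem rr_inl {u : B} {ψ : Perm (LL B k)} {s : B} (h : ψ (Sum.inl u) = Sum.inl s) :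
    rr u k ψ = 0 := by
  cases k with
  | zero => rfl
  | succ k => unfold rr; rw [h]

theorem rr_sp {u : B} {ψ : Perm (LL B (k + 1))} {i : Fin (k + 1)} {ε : Bool}
    (h : ψ (Sum.inl u) = Sum.inr (i, ε)) (hs : Sp (nrm i ε ψ)) :
    rr u (k + 1) ψ = 1 + rr u k (d (nrm i ε ψ)) := by
  rw [rr, h]; simp [hs]

theorem rr_not_sp {u : B} {ψ : Perm (LL B (k + 1))} {i : Fin (k + 1)} {ε : Bool}
    (h : ψ (Sum.inl u) = Sum.inr (i, ε)) (hs : ¬ Sp (nrm i ε ψ)) :
    rr u (k + 1) ψ = 0 := by
  rw [rr, h]; simp [hs]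

theorem rr_act (u : B) (k : ℕ) (π : Perm (Fin k)) (e : Fin k → Bool) (ψ : Perm (LL B k)) :
    rr u k (act π e ψ) = rr u k ψ := by
  induction k with
  | zero => rfl
  | succ k ih =>
    rcases h : ψ (Sum.inl u) with b | ⟨i, ε⟩
    · rw [rr_inl h, rr_inl (s := b)]
      rw [act_inl, h]; rfl
    · have h' : act π e ψ (Sum.inl u) = Sum.inr (π i, xor ε (e i)) := by
        rw [act_inl, h]; rfl
      obtain ⟨σ, e', hσ⟩ := nrm_act i ε π e ψ
      by_cases hs : Sp (nrm i ε ψ)
      · have hs' : Sp (nrm (π i) (xor ε (e i)) (act π e ψ)) := by rw [hσ, Sp_act]; exact hs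
        rw [rr_sp h hs, rr_sp h' hs', hσ, d_act, ih]
      · have hs' : ¬ Sp (nrm (π i) (xor ε (e i)) (act π e ψ)) := by rw [hσ, Sp_act]; exact hs
        rw [rr_not_sp h hs, rr_not_sp h' hs']

theorem nrm_zero_true (ψ : Perm (LL B (k + 1))) : nrm 0 true ψ = ψ := by
  unfold nrm
  have h : (fun j : Fin (k + 1) => if j = 0 then !true else false) = fun _ => false := by
    funext j; simp
  rw [h, swap_self]; exact act_one _

theorem d_ins1 (u : B) (ρ : Perm (LL (Option B) k)) :
    d (ins1 u ρ) = rm (E2 (Equiv.refl (Option B)) k) ρ := by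
  unfold d ins1; rw [rm_ins]

theorem rr_rmS {B' : Type} [DecidableEq B'] [Finite B'] (e : B ≃ Option B') (b' : B')
    (ψ : Perm (LL B k))
    (h : ¬ SF ψ (Sum.inl (e.symm (some b'))) (Sum.inl (e.symm none))) :
    rr b' k (rm (E2 e k) ψ) = rr (e.symm (some b')) k ψ := by
  induction k with
  | zero => rfl
  | succ k ih =>
    have hval := rm_apply (E2 e (k + 1)) ψ (Sum.inl b')
    rw [lft_E2_inl] at hval
    have hb : (bar : Perm (LL B (k + 1))) (Sum.inl (e.symm (some b'))) =
      Sum.inl (e.symm (some b')) := rfl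
    have hne : ψ (Sum.inl (e.symm (some b'))) ≠ hole (E2 e (k + 1)) := by
      intro h1
      apply h
      have := sameCycle_apply (ψ * bar) (Sum.inl (e.symm (some b')))
      rw [Perm.mul_apply, hb, h1] at this
      exact this
    rw [if_neg hne] at hval
    rcases h1 : ψ (Sum.inl (e.symm (some b'))) with s | ⟨i, ε⟩
    · rw [rr_inl h1]
      rw [h1] at hval
      rcases h2 : rm (E2 e (k + 1)) ψ (Sum.inl b') with s' | ⟨i, ε⟩
      · exact rr_inl h2
      · rw [h2, lft_E2_inr] at hval
        simp at hval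
    · rw [h1] at hval
      have h2 : rm (E2 e (k + 1)) ψ (Sum.inl b') = Sum.inr (i, ε) := by
        rcases h2 : rm (E2 e (k + 1)) ψ (Sum.inl b') with s' | p
        · rw [h2, lft_E2_inl] at hval
          simp at hval
        · rw [h2, lft_E2_inr] at hval
          exact congrArg Sum.inr (Sum.inr_injective hval)
      have h3 : nrm i ε (rm (E2 e (k + 1)) ψ) = rm (E2 e (k + 1)) (nrm i ε ψ) := by
        unfold nrm; rw [act_rmS]
      have h4 : Sp (nrm i ε (rm (E2 e (k + 1)) ψ)) ↔ Sp (nrm i ε ψ) := by
        rw [h3]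
        unfold Sp
        rw [SF_rmS]; rfl
      by_cases hs : Sp (nrm i ε ψ)
      · rw [rr_sp h1 hs, rr_sp h2 (h4.2 hs), h3, ← d_rmS, ih]
        intro h5
        have h6 := SF_of_d hs h5
        apply h
        exact (SF_act_inl _ _ ψ _ _).1 h6
      · rw [rr_not_sp h1 hs, rr_not_sp h2 (fun h => hs (h4.1 h))]

theorem d_apply_inl {ψ : Perm (LL B (k + 1))} {u : B} {v : LL B k}
    (h : ψ (Sum.inl u) = j0 v) : d ψ (Sum.inl u) = v := by
  have h1 := ind_d ψ (Sum.inl u)
  have h2 : ψ (j0 (Sum.inl u)) = j0 v := h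
  rw [h2] at h1
  exact h1.unique j0_inj (Next.base v)

theorem rr_d_le (u : B) (k : ℕ) (ψ : Perm (LL B (k + 1))) (hg : Good ψ) (hs : Sp ψ) :
    rr u k (d ψ) ≤ rr u (k + 1) ψ := by
  induction k with
  | zero => simp [rr]
  | succ k ih =>
    rcases h : ψ (Sum.inl u) with b | ⟨i, ε⟩
    · rw [rr_inl h, rr_inl (d_apply_inl (v := Sum.inl b) h)]
    · revert h
      refine Fin.cases ?_ (fun i => ?_) i
      · intro h
        have h1 : nrm 0 ε ψ = act (lp 1) (fun j => if j = 0 then !ε else false) ψ := by
          unfold nrm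
          congr 1
          rw [swap_self]
          ext j
          refine Fin.cases ?_ (fun j => ?_) j <;> simp
        have hs' : Sp (nrm 0 ε ψ) := by rw [h1, Sp_act]; exact hs
        rw [rr_sp h hs', h1, d_act, rr_act]
        omega
      · intro h
        have hd : d ψ (Sum.inl u) = Sum.inr (i, ε) := d_apply_inl (v := Sum.inr (i, ε)) h
        by_cases hs1 : Sp (nrm i ε (d ψ))
        · have hs2 : Sp (nrm i.succ ε ψ) := by
            rw [Sp_nrm] at hs1 ⊢
            exact SF_of_d hs hs1
          rw [rr_sp hd hs1, rr_sp h hs2]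
          -- X : relabelled ψ with chord 0 at 0 and chord i.succ at 1
          set f : Fin (k + 1) → Bool := fun j => if j = i then !ε else false with hf
          set X := act (lp (swap 0 i)) (Fin.cons false f) ψ with hX
          have hX1 : nrm i ε (d ψ) = d X := by
            rw [hX, d_act]; rfl
          have hdd : d (d (act (swap 0 1) (fun _ => false) X)) = d (d X) := by
            refine Ind.unique (j := j0 ∘ j0) (j0_inj.comp j0_inj)
              ((ind_d _).comp j0_inj (ind_d _)) ?_
            have h := ((ind_d X).comp j0_inj (ind_d (d X))).conj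
              (s := W (swap 0 1) (fun _ => false)) (t := 1) (by
                rintro (b | ⟨i, ε⟩)
                · simp [j0]
                · simp only [Function.comp, j0, W_inr, Bool.xor_false, Perm.one_apply]
                  rw [swap01_succ_succ])
            simpa [act] using h
          -- the other order
          obtain ⟨σ, e', hσ⟩ : ∃ σ e', act (swap 0 1) (fun _ => false) X =
              act (lp σ) (Fin.cons false e') (nrm i.succ ε ψ) := by
            have h7 : act (swap 0 1) (fun _ => false) X (Sum.inl u) = Sum.inr (0, true) := by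
              rw [act_inl, hX, act_inl, h]
              simp [hf]
            obtain ⟨σ, e', h8⟩ := nrm_act i.succ ε (swap 0 1 * lp (swap 0 i))
              (fun j => (Fin.cons false f : Fin (k + 2) → Bool) j) ψ
            have h9 : act (swap 0 1 * lp (swap 0 i)) (fun j => (Fin.cons false f : Fin (k + 2) → Bool) j) ψ
                = act (swap 0 1) (fun _ => false) X := by
              rw [hX, act_act]; congr 1
              funext j; simp
            rw [h9] at h8
            refine ⟨σ, e', ?_⟩
            rw [← h8]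
            have h10 : ((swap 0 1 * lp (swap 0 i) : Perm (Fin (k + 2))) i.succ = 0) := by simp
            have h11 : xor ε ((Fin.cons false f : Fin (k + 2) → Bool) i.succ) = true := by
              simp [hf]
            rw [h10, h11, nrm_zero_true]
          have hY : d (act (swap 0 1) (fun _ => false) X) = act σ e' (d (nrm i.succ ε ψ)) := by
            rw [hσ, d_act]; congr 1
          have hgX : Good X := (good_act _ _ _).2 hg
          have hgn : Good (nrm i.succ ε ψ) := (good_act _ _ _).2 hg
          have hY2 : Sp (d (act (swap 0 1) (fun _ => false) X)) := by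
            apply Sp_of_fc
            · exact ((good_act _ _ _).2 hgX).d
            · rw [hdd, hY, fc_act, fc_d_of_Sp hgn.ni hs2]
              have h12 : Sp X := by rw [hX, Sp_act]; exact hs
              rw [fc_d_of_Sp hgX.d.ni (by rw [← hX1]; exact hs1), fc_d_of_Sp hgX.ni h12]
              unfold nrm
              rw [hX, fc_act, fc_act]
          have h13 := ih (d (act (swap 0 1) (fun _ => false) X))
            ((good_act _ _ _).2 hgX).d hY2
          rw [hdd, hY, rr_act] at h13
          rw [hX1]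
          omega
        · rw [rr_not_sp hd hs1]; omega

end Pool.Agent.W604
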