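import Mathlib

set_option autoImplicit false
set_option linter.unusedSectionVars false

/-!
Threshold graphs.
-/

namespace Pool.Agent.W604

open Equiv

variable {B : Type}

/-- the neighbourhoods are nested -/
def Thr (Γ : SimpleGraph B) : Prop :=
  ∀ a b, (∀ x, Γ.Adj a x → x ≠ b → Γ.Adj b x) ∨ (∀ x, Γ.Adj b x → x ≠ a → Γ.Adj a x)

/-- `u` is adjacent to all vertices that are not isolated -/
def Dom (Γ : SimpleGraph B) (u : B) : Prop := ∀ a b, Γ.Adj a b → a ≠ u → Γ.Adj u a

theorem Thr.exists_dom [Finite B] [Nonempty B] {Γ : SimpleGraph B} (h : Thr Γ) :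
    ∃ u, Dom Γ u := by
  obtain ⟨u, hu⟩ := Finite.exists_max (fun u => (Γ.neighborSet u).ncard)
  refine ⟨u, ?_⟩
  intro a b hab ha
  by_contra hua
  have hub : Γ.Adj u b := by
    rcases h a u with h1 | h1
    · by_cases hb : b = u
      · subst hb; exact absurd hab.symm hua
      · exact h1 b hab hb
    · -- N(u) ⊆ N(a)
      have hsub : Γ.neighborSet u ⊆ Γ.neighborSet a := by
        intro x hx
        apply h1 x hx
        rintro rfl
        exact hua hx
      have heq : Γ.neighborSet u = Γ.neighborSet a :=
        Set.eq_of_subset_of_ncard_le hsub (hu a) (Set.toFinite _)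
      have : b ∈ Γ.neighborSet a := hab
      rw [← heq] at this
      exact this
  rcases h u b with h1 | h1
  · have hsub : insert u (insert a (Γ.neighborSet u \ {b})) ⊆ Γ.neighborSet b := by
      intro x hx
      rcases hx with rfl | rfl | ⟨hx, hx2⟩
      · exact hub.symm
      · exact hab.symm
      · exact h1 x hx hx2
    have h2 : (insert u (insert a (Γ.neighborSet u \ {b}))).ncard ≤ (Γ.neighborSet b).ncard :=
      Set.ncard_le_ncard hsub (Set.toFinite _)
    have h3 := hu b
    have h4 : (insert a (Γ.neighborSet u \ {b})).ncard = (Γ.neighborSet u \ {b}).ncard + 1 := by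
      apply Set.ncard_insert_of_notMem
      · rintro ⟨h, _⟩; exact hua h
      · exact Set.toFinite _
    have h5 : (insert u (insert a (Γ.neighborSet u \ {b}))).ncard =
        (insert a (Γ.neighborSet u \ {b})).ncard + 1 := by
      apply Set.ncard_insert_of_notMem
      · rintro (h | ⟨h, _⟩)
        · exact ha h.symm
        · exact Γ.loopless.irrefl _ h
      · exact Set.toFinite _
    have h6 : (Γ.neighborSet u \ {b}).ncard + 1 = (Γ.neighborSet u).ncard :=
      Set.ncard_sdiff_singleton_add_one (show b ∈ Γ.neighborSet u from hub) (Set.toFinite _)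
    omega
  · exact hua (h1 a hab.symm ha)

/-- `none` is adjacent to `some u` only -/
def GN (Γ : SimpleGraph B) (u : B) : SimpleGraph (Option B) where
  Adj a b := match a, b with
    | some a, some b => Γ.Adj a b
    | some a, none => a = u
    | none, some b => b = u
    | none, none => False
  symm := by
    constructor
    rintro (_ | a) (_ | b) h
    · exact h
    · exact h
    · exact h
    · exact SimpleGraph.Adj.symm (G := Γ) h
  loopless := by
    constructor
    rintro (_ | a) h
    · exact h
    · exact Γ.loopless.irrefl _ h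

/-- `none` is a twin of `some u` -/
def GC (Γ : SimpleGraph B) (u : B) : SimpleGraph (Option B) where
  Adj a b := match a, b with
    | some a, some b => Γ.Adj a b
    | some a, none => a = u ∨ Γ.Adj u a
    | none, some b => b = u ∨ Γ.Adj u b
    | none, none => False
  symm := by
    constructor
    rintro (_ | a) (_ | b) h
    · exact h
    · exact h
    · exact h
    · exact SimpleGraph.Adj.symm (G := Γ) h
  loopless := by
    constructor
    rintro (_ | a) h
    · exact h
    · exact Γ.loopless.irrefl _ h

@[simp] theorem GN_ss (Γ : SimpleGraph B) (u a b : B) :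
    (GN Γ u).Adj (some a) (some b) ↔ Γ.Adj a b := Iff.rfl
@[simp] theorem GN_ns (Γ : SimpleGraph B) (u b : B) :
    (GN Γ u).Adj none (some b) ↔ b = u := Iff.rfl
@[simp] theorem GN_sn (Γ : SimpleGraph B) (u a : B) :
    (GN Γ u).Adj (some a) none ↔ a = u := Iff.rfl
@[simp] theorem GN_nn (Γ : SimpleGraph B) (u : B) : ¬ (GN Γ u).Adj none none := id
@[simp] theorem GC_ss (Γ : SimpleGraph B) (u a b : B) :
    (GC Γ u).Adj (some a) (some b) ↔ Γ.Adj a b := Iff.rfl
@[simp] theorem GC_ns (Γ : SimpleGraph B) (u b : B) :
    (GC Γ u).Adj none (some b) ↔ b = u ∨ Γ.Adj u b := Iff.rfl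
@[simp] theorem GC_sn (Γ : SimpleGraph B) (u a : B) :
    (GC Γ u).Adj (some a) none ↔ a = u ∨ Γ.Adj u a := Iff.rfl
@[simp] theorem GC_nn (Γ : SimpleGraph B) (u : B) : ¬ (GC Γ u).Adj none none := id

theorem Dom.sub {Γ : SimpleGraph B} {u : B} (h : Dom Γ u) {b x : B} (h1 : Γ.Adj b x)
    (h2 : x ≠ u) : Γ.Adj u x := h x b h1.symm h2

theorem Thr.gn {Γ : SimpleGraph B} {u : B} (h : Thr Γ) (hu : Dom Γ u) : Thr (GN Γ u) := by
  classical
  have hL : ∀ a : Option B, ∀ x, (GN Γ u).Adj a x → x ≠ some u → (GN Γ u).Adj (some u) x := by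
    rintro (_ | a) (_ | x) h1 h2
    · exact absurd h1 (by simp)
    · simp only [GN_ns] at h1
      subst h1; exact absurd rfl h2
    · simp
    · simp only [GN_ss] at h1 ⊢
      exact hu.sub h1 (by simpa using h2)
  have hN : ∀ b : B, (∀ x, (GN Γ u).Adj none x → x ≠ some b → (GN Γ u).Adj (some b) x) ∨
      (∀ x, (GN Γ u).Adj (some b) x → x ≠ none → (GN Γ u).Adj none x) := by
    intro b
    by_cases hb : b = u
    · subst hb
      left
      exact hL none
    by_cases hiso : ∃ y, Γ.Adj b y
    · left
      obtain ⟨y, hy⟩ := hiso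
      rintro (_ | x) h1 h2
      · exact absurd h1 (by simp)
      · simp only [GN_ns] at h1
        subst h1
        exact (hu b y hy hb).symm
    · right
      rintro (_ | x) h1 h2
      · exact absurd rfl h2
      · exact absurd ⟨x, h1⟩ hiso
  rintro (_ | a) (_ | b)
  · left; intro x h1 h2; exact h1
  · exact hN b
  · exact (hN a).symm
  · by_cases ha : a = u
    · subst ha
      right
      exact hL _
    by_cases hb : b = u
    · subst hb
      left
      exact hL _
    rcases h a b with h1 | h1
    · left
      rintro (_ | x) h2 h3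
      · simp only [GN_sn] at h2; exact absurd h2 ha
      · exact h1 x h2 (by simpa using h3)
    · right
      rintro (_ | x) h2 h3
      · simp only [GN_sn] at h2; exact absurd h2 hb
      · exact h1 x h2 (by simpa using h3)

theorem Dom.gc {Γ : SimpleGraph B} {u : B} (hu : Dom Γ u) : Dom (GC Γ u) (some u) := by
  rintro (_ | a) b h1 h2
  · simp
  · rcases b with _ | b
    · simp only [GC_sn] at h1
      rcases h1 with rfl | h1
      · exact absurd rfl h2
      · exact h1
    · exact hu a b h1 (by simpa using h2)

theorem Thr.gc {Γ : SimpleGraph B} {u : B} (h : Thr Γ) (hu : Dom Γ u) : Thr (GC Γ u) := by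
  classical
  have hd := hu.gc
  have hL : ∀ a : Option B, ∀ x, (GC Γ u).Adj a x → x ≠ some u → (GC Γ u).Adj (some u) x := by
    intro a x h1 h2
    exact hd.sub h1 h2
  have hN : ∀ b : B, (∀ x, (GC Γ u).Adj none x → x ≠ some b → (GC Γ u).Adj (some b) x) ∨
      (∀ x, (GC Γ u).Adj (some b) x → x ≠ none → (GC Γ u).Adj none x) := by
    intro b
    by_cases hb : b = u
    · subst hb
      left
      exact hL none
    right
    rintro (_ | x) h1 h2
    · exact absurd rfl h2
    · simp only [GC_ss] at h1
      simp only [GC_ns]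
      by_cases hx : x = u
      · exact Or.inl hx
      · exact Or.inr (hu.sub h1 hx)
  rintro (_ | a) (_ | b)
  · left; intro x h1 h2; exact h1
  · exact hN b
  · exact (hN a).symm
  · by_cases ha : a = u
    · subst ha
      right
      exact hL _
    by_cases hb : b = u
    · subst hb
      left
      exact hL _
    rcases h a b with h1 | h1
    · left
      rintro (_ | x) h2 h3
      · simp only [GC_sn] at h2 ⊢
        right
        rcases h2 with h2 | h2
        · exact absurd h2 ha
        · exact (h1 u h2.symm (Ne.symm hb)).symm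
      · exact h1 x h2 (by simpa using h3)
    · right
      rintro (_ | x) h2 h3
      · simp only [GC_sn] at h2 ⊢
        right
        rcases h2 with h2 | h2
        · exact absurd h2 hb
        · exact (h1 u h2.symm (Ne.symm ha)).symm
      · exact h1 x h2 (by simpa using h3)

theorem clique_some {Γ : SimpleGraph B} {Γ' : SimpleGraph (Option B)}
    (h : ∀ a b, Γ'.Adj (some a) (some b) ↔ Γ.Adj a b) [DecidableEq B] {t : ℕ}
    {s : Finset (Option B)} (hs : Γ'.IsNClique t s) (hn : none ∉ s) :
    ∃ s' : Finset B, Γ.IsNClique t s' := by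
  refine ⟨s.preimage some (Option.some_injective B).injOn, ?_⟩
  constructor
  · intro a ha b hb hab
    rw [← h]
    apply hs.1
    · simpa using ha
    · simpa using hb
    · simpa using hab
  · rw [← hs.2]
    have : s = (s.preimage some (Option.some_injective B).injOn).map Function.Embedding.some := by
      ext x
      rcases x with _ | x
      · simp [hn]
      · simp
    conv_rhs => rw [this]
    rw [Finset.card_map]

theorem GN_cliqueFree {Γ : SimpleGraph B} {u : B} {w : ℕ} (hw : 2 ≤ w)
    (h : Γ.CliqueFree (w + 1)) : (GN Γ u).CliqueFree (w + 1) := by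
  classical
  intro s hs
  by_cases hn : none ∈ s
  · -- the other vertices are some u
    have hsub : s ⊆ {none, some u} := by
      intro x hx
      rcases x with _ | x
      · simp
      · have := hs.1 hn hx (by simp)
        simp only [GN_ns] at this
        subst this; simp
    have h1 := Finset.card_le_card hsub
    rw [hs.2] at h1
    have h2 : ({none, some u} : Finset (Option B)).card ≤ 2 := Finset.card_le_two
    omega
  · obtain ⟨s', hs'⟩ := clique_some (Γ := Γ) (fun a b => Iff.rfl) hs hn
    exact h s' hs'

theorem GC_cliqueFree {Γ : SimpleGraph B} {u : B} {w : ℕ}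
    (h : Γ.CliqueFree (w + 1)) : (GC Γ u).CliqueFree (w + 2) := by
  classical
  intro s hs
  by_cases hn : none ∈ s
  · have hs2 : (GC Γ u).IsNClique (w + 1) (s.erase none) := by
      constructor
      · exact hs.1.subset (by simp)
      · rw [Finset.card_erase_of_mem hn, hs.2]; rfl
    obtain ⟨s', hs'⟩ := clique_some (Γ := Γ) (fun a b => Iff.rfl) hs2 (by simp)
    exact h s' hs'
  · obtain ⟨s', hs'⟩ := clique_some (Γ := Γ) (fun a b => Iff.rfl) hs hn
    exact (h.mono (by omega)) s' hs'

/-- restriction of the graph after removal of a side -/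
def GR {B' : Type} (e : B ≃ Option B') (Γ : SimpleGraph B) : SimpleGraph B' :=
  Γ.comap (fun b => e.symm (some b))

@[simp] theorem GR_adj {B' : Type} (e : B ≃ Option B') (Γ : SimpleGraph B) (a b : B') :
    (GR e Γ).Adj a b ↔ Γ.Adj (e.symm (some a)) (e.symm (some b)) := Iff.rfl

theorem Thr.gr {B' : Type} (e : B ≃ Option B') {Γ : SimpleGraph B} (h : Thr Γ) :
    Thr (GR e Γ) := by
  intro a b
  rcases h (e.symm (some a)) (e.symm (some b)) with h1 | h1
  · left
    intro x h2 h3
    exact h1 _ h2 (by simpa using h3)
  · right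
    intro x h2 h3
    exact h1 _ h2 (by simpa using h3)

theorem GR_cliqueFree' {B' : Type} (e : B ≃ Option B') {Γ : SimpleGraph B} {t : ℕ}
    (h : Γ.CliqueFree t) : (GR e Γ).CliqueFree t := by
  classical
  intro s hs
  apply h (s.map ⟨fun b => e.symm (some b), fun a b hab => by simpa using hab⟩)
  constructor
  · intro a ha b hb hab
    simp only [Finset.coe_map, Set.mem_image, Function.Embedding.coeFn_mk] at ha hb
    obtain ⟨a, ha, rfl⟩ := ha
    obtain ⟨b, hb, rfl⟩ := hb
    apply hs.1 ha hb
    rintro rfl; exact hab rfl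
  · rw [Finset.card_map, hs.2]

theorem GR_cliqueFree {B' : Type} (e : B ≃ Option B') {Γ : SimpleGraph B} {w : ℕ} (hw : 2 ≤ w)
    (h : Γ.CliqueFree (w + 1)) (hu : Dom Γ (e.symm none)) : (GR e Γ).CliqueFree w := by
  classical
  intro s hs
  set f : B' ↪ B := ⟨fun b => e.symm (some b), fun a b hab => by simpa using hab⟩ with hf
  have hadj : ∀ a ∈ s, Γ.Adj (e.symm none) (e.symm (some a)) := by
    intro a ha
    have h1 : 1 < s.card := by rw [hs.2]; omega
    obtain ⟨b, hb, hba⟩ := Finset.exists_mem_ne h1 a
    have h2 := hs.1 ha hb (Ne.symm hba)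
    exact hu _ _ h2 (by simp)
  have hs2 : Γ.IsNClique w (s.map f) := by
    constructor
    · intro a ha b hb hab
      simp only [Finset.coe_map, Set.mem_image, Function.Embedding.coeFn_mk, hf] at ha hb
      obtain ⟨a, ha, rfl⟩ := ha
      obtain ⟨b, hb, rfl⟩ := hb
      apply hs.1 ha hb
      rintro rfl; exact hab rfl
    · rw [Finset.card_map, hs.2]
  refine h _ (hs2.insert (a := e.symm none) ?_)
  intro b hb
  rw [Finset.mem_map] at hb
  obtain ⟨a, ha, rfl⟩ := hb
  exact hadj a ha

end Pool.Agent.W604
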