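import Mathlib
import Pool.Agent.W604.Reading
import Pool.Agent.W604.Thr

set_option autoImplicit false
set_option linter.unusedSectionVars false

/-!
The parts of a planar family, read from a side.
-/

namespace Pool.Agent.W604

open Equiv

variable {B : Type} {k : ℕ} [DecidableEq B]

theorem sameCycle_act (π : Perm (Fin k)) (e : Fin k → Bool) (ψ : Perm (LL B k)) (a b : LL B k) :
    (act π e ψ).SameCycle (W π e a) (W π e b) ↔ ψ.SameCycle a b := by
  unfold act
  rw [Perm.sameCycle_conj]; simp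

theorem At.inv {S : Fam B} (hS : Inv S) (τ : ∀ k, Perm (LL B k) → ℕ)
    (hτ : ∀ k (π : Perm (Fin k)) (e : Fin k → Bool) (ψ : Perm (LL B k)), τ k (act π e ψ) = τ k ψ)
    (r : ℕ) : Inv (At S τ r) := by
  intro k π e ψ; unfold At; rw [hτ, hS]

theorem At.conv {S : Fam B} (hC : Conv S) (τ : ∀ k, Perm (LL B k) → ℕ)
    (hd : ∀ k (ψ : Perm (LL B (k + 1))), S _ ψ → S _ (d ψ) → τ _ (d ψ) ≤ τ _ ψ)
    (r : ℕ) : Conv (At S τ r) := by
  intro k ψ h h'
  have h1 := hC k ψ h.1 h'.1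
  refine ⟨h1, ?_⟩
  have h2 := hd _ _ h.1 h1
  have h3 := hd _ _ h1 h'.1
  have h4 : τ (k + 1 + 1) ψ = r := h.2
  have h5 : τ k (d (d ψ)) = r := h'.2
  omega

section ins

variable {u : B}

theorem good_of_ins1 {ρ : Perm (LL (Option B) k)} (h : Good (ins1 u ρ)) : Good ρ := by
  intro v
  obtain ⟨b, hb⟩ := h (lft (E1 B k) v)
  exact ⟨some b, (sameCycle_ins (E1 B k) ρ _ _ _).1 hb⟩

theorem good_ins1_of {ρ : Perm (LL (Option B) k)} (h : Good ρ) (b : B)
    (h2 : ρ.SameCycle (Sum.inl none) (Sum.inl (some b))) : Good (ins1 u ρ) := by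
  have key : ∀ v, ∃ b : B, (ins1 u ρ).SameCycle (lft (E1 B k) v) (Sum.inl b) := by
    intro v
    obtain ⟨b', hb'⟩ := h v
    rcases b' with _ | b'
    · exact ⟨b, (sameCycle_ins (E1 B k) ρ _ _ _).2 (hb'.trans h2)⟩
    · exact ⟨b', (sameCycle_ins (E1 B k) ρ _ _ _).2 hb'⟩
  intro v
  rcases eq_hole_or_lft (E1 B k) v with rfl | ⟨v, rfl⟩
  · exact ⟨u, (sameCycle_ins_hole (E1 B k) ρ _ (Sum.inl (some u))).2 (Perm.SameCycle.refl _ _)⟩
  · exact key v

theorem ni_ins1 {ρ : Perm (LL (Option B) (k + 1))} (h : Good ρ) :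
    NI (act (swap 0 1) (fun _ => false) (ins1 u ρ)) := by
  intro ε
  have h0 : (Sum.inr (0, ε) : LL B (k + 2)) =
      W (swap 0 1) (fun _ => false) (lft (E1 B (k + 1)) (Sum.inr (0, ε))) := by
    rw [lft_E1_inr, W_inr]
    congr 1
    simp
  obtain ⟨b, hb⟩ := h (Sum.inr (0, ε))
  have h1 := (sameCycle_ins (E1 B (k + 1)) ρ (Sum.inl (some u)) _ _).2 hb
  rw [h0]
  rcases b with _ | b
  · refine ⟨Sum.inr (0, false), ?_⟩
    have h2 : (j0 (Sum.inr (0, false)) : LL B (k + 2)) =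
        W (swap 0 1) (fun _ => false) (Sum.inr (0, false)) := by
      rw [W_inr]; simp [j0]
    rw [h2, sameCycle_act]
    exact h1
  · refine ⟨Sum.inl b, ?_⟩
    have h2 : (j0 (Sum.inl b) : LL B (k + 2)) =
        W (swap 0 1) (fun _ => false) (Sum.inl b) := rfl
    rw [h2, sameCycle_act]
    exact h1

theorem good_ins1_iff [Finite B] {ρ : Perm (LL (Option B) (k + 1))} (h : Good ρ) :
    Good (ins1 u (d ρ)) ↔ Good (ins1 u ρ) := by
  rw [← d_swap_ins1, good_d_iff (ni_ins1 h), good_act]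

theorem insK_u (κ : Perm (Option B)) (ρ : Perm (LL (Option B) k)) :
    insK u κ ρ (Sum.inl u) = Sum.inr (0, true) := ins1_u _ _

theorem insK_one (ρ : Perm (LL (Option B) k)) : insK u 1 ρ = ins1 u ρ := by
  unfold insK; rw [SB_one, mul_one]

variable [Finite B]

theorem rr_ins1_not {ρ : Perm (LL (Option B) k)} (h : ¬ Sp (ins1 u ρ)) :
    rr u (k + 1) (ins1 u ρ) = 0 := by
  apply rr_not_sp (ins1_u u ρ)
  rwa [nrm_zero_true]

theorem Sp_ins1 (ρ : Perm (LL (Option B) k)) :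
    Sp (ins1 u ρ) ↔ ¬ SF ρ (Sum.inl (some u)) (Sum.inl none) := by
  unfold Sp
  rw [SF_ins1_01, SF_swap_iff (by simp)]

theorem rr_ins1 {ρ : Perm (LL (Option B) k)} (h : Sp (ins1 u ρ)) :
    rr u (k + 1) (ins1 u ρ) = 1 + rr (some u) k ρ := by
  rw [rr_sp (ins1_u u ρ) (by rwa [nrm_zero_true]), nrm_zero_true, d_ins1]
  rw [Sp_ins1] at h
  rw [rr_rmS (Equiv.refl (Option B)) u ρ]
  · rfl
  · exact h

theorem SF_insK_swap (ρ : Perm (LL (Option B) k)) (a b : LL (Option B) k) :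
    SF (insK u (swap (some u) none) ρ) (lft (E1 B k) a) (lft (E1 B k) b) ↔ SF ρ a b := by
  unfold insK
  rw [SF_ins1, mul_assoc, ← SB_mul, swap_mul_self, SB_one, mul_one]

theorem fc_insK_swap (ρ : Perm (LL (Option B) k)) :
    fc (insK u (swap (some u) none) ρ) = fc ρ := by
  unfold insK
  rw [fc_ins1, mul_assoc, ← SB_mul, swap_mul_self, SB_one, mul_one]

theorem Sp_insK_swap (ρ : Perm (LL (Option B) k)) :
    Sp (insK u (swap (some u) none) ρ) ↔ SF ρ (Sum.inl (some u)) (Sum.inl none) := by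
  unfold insK
  rw [Sp_ins1, SF_swap_iff (by simp), not_not]

theorem good_insK_swap_iff {ρ : Perm (LL (Option B) (k + 1))} (h : Good ρ) :
    Good (insK u (swap (some u) none) (d ρ)) ↔ Good (insK u (swap (some u) none) ρ) := by
  unfold insK
  rw [← d_mul_SB]
  exact good_ins1_iff ((good_mul_swap_iff _ _ _).2 h)

/-! ### the part where the first letter leads to another face -/

/-- first letter is a chord whose other side is on another face -/
def TN (Γ : SimpleGraph B) (n : ℕ) (u : B) : Fam B := fun k ψ =>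
  GG Γ n k ψ ∧ rr u k ψ = 0 ∧ ∃ i ε, ψ (Sum.inl u) = Sum.inr (i, ε)

theorem exists_chord_act (u : B) (π : Perm (Fin k)) (e : Fin k → Bool) (ψ : Perm (LL B k)) :
    (∃ i ε, act π e ψ (Sum.inl u) = Sum.inr (i, ε)) ↔ ∃ i ε, ψ (Sum.inl u) = Sum.inr (i, ε) := by
  rw [act_inl]
  rcases ψ (Sum.inl u) with b | ⟨i, ε⟩
  · simp
  · simp

theorem TN_inv (Γ : SimpleGraph B) (n : ℕ) (u : B) : Inv (TN Γ n u) := by
  intro k π e ψ
  unfold TN
  rw [rr_act, GG_inv, exists_chord_act]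

theorem TN_insK (Γ : SimpleGraph B) (m : ℕ) (ρ : Perm (LL (Option B) k)) :
    TN Γ (m + 1) u (k + 1) (insK u (swap (some u) none) ρ) ↔
      Good (insK u (swap (some u) none) ρ) ∧ GG (GN Γ u) m k ρ := by
  constructor
  · rintro ⟨⟨h1, h2, h3⟩, h4, _⟩
    refine ⟨h1, (good_mul_swap_iff _ _ _).1 (good_of_ins1 h1), ?_, ?_⟩
    · rw [fc_insK_swap] at h2; omega
    · have hns : ¬ SF ρ (Sum.inl (some u)) (Sum.inl none) := by
        rw [← Sp_insK_swap]
        intro hs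
        have := rr_ins1 (u := u) (ρ := ρ * SB (swap (some u) none)) hs
        unfold insK at h4
        omega
      rintro (_ | a) (_ | b) hab
      · exact absurd hab (by simp)
      · simp only [GN_ns] at hab
        subst hab
        exact fun h => hns h.symm
      · simp only [GN_sn] at hab
        subst hab
        exact hns
      · intro h
        exact h3 a b hab ((SF_insK_swap ρ _ _).2 h)
  · rintro ⟨h1, h2, h3, h4⟩
    refine ⟨⟨h1, ?_, ?_⟩, ?_, 0, true, insK_u _ _⟩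
    · rw [fc_insK_swap]; omega
    · intro a b hab h
      exact h4 (some a) (some b) hab ((SF_insK_swap ρ (Sum.inl (some a)) (Sum.inl (some b))).1 h)
    · apply rr_ins1_not
      have h5 := Sp_insK_swap (u := u) ρ
      unfold insK at h5
      rw [h5]
      exact h4 _ _ (by simp)

theorem TN_ex {Γ : SimpleGraph B} {n : ℕ} {u : B} {k : ℕ}
    (hex : ∀ k' n', k = k' + 1 → n = n' + 1 → Ex (GG (GN Γ u) n') k') : Ex (TN Γ n u) k := by
  cases k with
  | zero =>
    apply Ex.empty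
    rintro ψ ⟨_, _, i, _⟩
    exact i.elim0
  | succ k =>
    cases n with
    | zero =>
      apply Ex.empty
      rintro ψ ⟨h, _⟩
      have := h.2.1
      omega
    | succ n =>
      refine chordIso u (swap (some u) none) _ (GG (GN Γ u) n) k (TN_inv _ _ _) ?_ (GG_inv _ _)
        ?_ ?_ ?_ ?_ (hex k n rfl rfl)
      · rintro k ψ ⟨_, _, h⟩; exact h
      · intro k ρ h; exact ((TN_insK Γ n ρ).1 h).2
      · intro k ρ h1 h2 h3
        rw [TN_insK] at h3 ⊢
        exact ⟨(good_insK_swap_iff h1.1).1 h3.1, h1⟩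
      · intro k ρ h1 h2
        rw [TN_insK] at h1 ⊢
        exact ⟨(good_insK_swap_iff h1.2.1).2 h1.1, h2⟩
      · intro k ρ h1 h2
        have h3 := GG_sp h1.1 h2.1
        have h4 := h1.2.1
        unfold insK at h3 h4
        rw [rr_ins1 h3] at h4
        omega

/-! ### the part where the first letter comes back -/

theorem TR_ins1 {Γ : SimpleGraph B} (hu : Dom Γ u) (n r : ℕ) (ρ : Perm (LL (Option B) k)) :
    At (GG Γ n) (rr u) (r + 1) (k + 1) (ins1 u ρ) ↔
      Good (ins1 u ρ) ∧ At (GG (GC Γ u) n) (rr (some u)) r k ρ := by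
  constructor
  · rintro ⟨⟨h1, h2, h3⟩, h4⟩
    have hs : Sp (ins1 u ρ) := by
      by_contra hs
      rw [rr_ins1_not hs] at h4
      omega
    have hns := (Sp_ins1 ρ).1 hs
    refine ⟨h1, ⟨good_of_ins1 h1, ?_, ?_⟩, ?_⟩
    · rw [fc_ins1] at h2
      have := fc_merge hns
      omega
    · have h5 : ∀ a b, Γ.Adj a b → ¬ SF (ρ * SB (swap (some u) none)) (Sum.inl (some a))
          (Sum.inl (some b)) := by
        intro a b hab h
        exact h3 a b hab ((SF_ins1 u ρ _ _).2 h)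
      have h6 : ∀ b, b = u ∨ Γ.Adj u b → ¬ SF ρ (Sum.inl none) (Sum.inl (some b)) := by
        rintro b (rfl | hb) h
        · exact hns h.symm
        · apply h5 u b hb
          rw [SF_merge hns]
          exact Or.inr ⟨Or.inl (SF.refl _ _), Or.inr h⟩
      rintro (_ | a) (_ | b) hab
      · exact absurd hab (by simp)
      · exact h6 b hab
      · exact fun h => h6 a hab h.symm
      · intro h
        apply h5 a b hab
        rw [SF_merge hns]
        exact Or.inl h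
    · rw [rr_ins1 hs] at h4; omega
  · rintro ⟨h1, ⟨h2, h3, h4⟩, h5⟩
    have hns : ¬ SF ρ (Sum.inl (some u)) (Sum.inl none) := h4 _ _ (by simp)
    refine ⟨⟨h1, ?_, ?_⟩, ?_⟩
    · rw [fc_ins1]
      have := fc_merge hns
      omega
    · intro a b hab h
      have h6 := (SF_ins1 u ρ (Sum.inl (some a)) (Sum.inl (some b))).1 h
      rw [SF_merge hns] at h6
      rcases h6 with h6 | ⟨h6, h7⟩
      · exact h4 (some a) (some b) hab h6
      · -- one of a, b is not u
        have key : ∀ c, Γ.Adj u c → ¬ (SF ρ (Sum.inl (some u)) (Sum.inl (some c)) ∨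
            SF ρ (Sum.inl none) (Sum.inl (some c))) := by
          rintro c hc (h8 | h8)
          · exact h4 (some u) (some c) hc h8
          · exact h4 none (some c) (by simp [hc]) h8
        by_cases ha : a = u
        · subst ha
          exact key b hab h7
        · exact key a (hu a b hab ha) h6
    · rw [rr_ins1 ((Sp_ins1 ρ).2 hns), h5]; omega

theorem rr_zero (u : B) (ψ : Perm (LL B 0)) : rr u 0 ψ = 0 := rfl

theorem TR_inv (Γ : SimpleGraph B) (n : ℕ) (u : B) (r : ℕ) : Inv (At (GG Γ n) (rr u) r) :=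
  At.inv (GG_inv _ _) _ (fun k π e ψ => rr_act u k π e ψ) r

theorem rr_mono (Γ : SimpleGraph B) (n : ℕ) (u : B) (k : ℕ) (ψ : Perm (LL B (k + 1)))
    (h : GG Γ n _ ψ) (h' : GG Γ n _ (d ψ)) : rr u k (d ψ) ≤ rr u (k + 1) ψ :=
  rr_d_le u k ψ h.1 (GG_sp h h')

/-- transfer of the part which comes back to a family over one more side -/
theorem TR_ex' {Γ : SimpleGraph B} (hu : Dom Γ u) {n r k : ℕ} (T' : Fam (Option B))
    (hI : Inv T')
    (hT' : ∀ k (ρ : Perm (LL (Option B) k)), T' k ρ → At (GG (GC Γ u) n) (rr (some u)) r k ρ)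
    (h3 : ∀ k (ρ : Perm (LL (Option B) k)), Good (ins1 u ρ) →
      At (GG (GC Γ u) n) (rr (some u)) r k ρ → T' k ρ)
    (hex : ∀ k', k = k' + 1 → Ex T' k') :
    Ex (At (GG Γ n) (rr u) (r + 1)) k := by
  cases k with
  | zero =>
    apply Ex.empty
    rintro ψ ⟨_, h⟩
    rw [rr_zero] at h
    omega
  | succ k =>
    refine chordIso u 1 _ T' k (TR_inv _ _ _ _) ?_ hI ?_ ?_ ?_ ?_ (hex k rfl)
    · rintro k ψ ⟨_, h⟩
      rcases h1 : ψ (Sum.inl u) with s | ⟨i, ε⟩
      · rw [rr_inl h1] at h; omega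
      · exact ⟨i, ε, rfl⟩
    · intro k ρ h
      rw [insK_one, TR_ins1 hu] at h
      exact h3 _ _ h.1 h.2
    · intro k ρ h1 h2 h3'
      rw [insK_one, TR_ins1 hu] at h3' ⊢
      exact ⟨(good_ins1_iff (hT' _ _ h1).1.1).1 h3'.1, hT' _ _ h1⟩
    · intro k ρ h1 h2
      rw [insK_one, TR_ins1 hu] at h1 ⊢
      exact ⟨(good_ins1_iff h1.2.1.1).2 h1.1, hT' _ _ h2⟩
    · intro k ρ h1 h2
      rw [insK_one] at h1 h2
      have h6 : rr u (k + 2) (ins1 u ρ) = 1 + rr (some u) (k + 1) ρ :=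
        rr_ins1 (GG_sp h1.1 h2.1)
      have h4 := h1.2
      have h5 := h2.2
      rw [d_ins1] at h5
      have hns := (Sp_ins1 ρ).1 (GG_sp h1.1 h2.1)
      have h7 := rr_rmS (Equiv.refl (Option B)) u ρ hns
      simp only [Equiv.refl_symm, Equiv.refl_apply] at h7
      omega

theorem TR_ex {Γ : SimpleGraph B} (hu : Dom Γ u) {n r k : ℕ}
    (hex : ∀ k', k = k' + 1 → Ex (At (GG (GC Γ u) n) (rr (some u)) r) k') :
    Ex (At (GG Γ n) (rr u) (r + 1)) k :=
  TR_ex' hu _ (TR_inv _ _ _ _) (fun _ _ h => h) (fun _ _ _ h => h) hex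

end ins

/-! ### the parts where the first letter is a side -/

section sides

variable [Finite B] {B' : Type} [DecidableEq B'] (e : B ≃ Option B')

/-- the side is alone on its face and vertex -/
def TF (Γ : SimpleGraph B) (n : ℕ) (u : B) : Fam B := fun k ψ =>
  GG Γ n k ψ ∧ ψ (Sum.inl u) = Sum.inl u

theorem eq_inl_act (u s : B) (π : Perm (Fin k)) (e : Fin k → Bool) (ψ : Perm (LL B k)) :
    act π e ψ (Sum.inl u) = Sum.inl s ↔ ψ (Sum.inl u) = Sum.inl s := by
  rw [act_inl]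
  rcases ψ (Sum.inl u) with b | ⟨i, ε⟩
  · simp
  · simp

theorem TF_inv (Γ : SimpleGraph B) (n : ℕ) (u : B) : Inv (TF Γ n u) := by
  intro k π e ψ
  unfold TF
  rw [GG_inv, eq_inl_act]

theorem SF_of_fixed {u : B} {ψ : Perm (LL B k)} (h : ψ (Sum.inl u) = Sum.inl u) {x : LL B k}
    (h2 : SF ψ (Sum.inl u) x) : x = Sum.inl u := by
  obtain ⟨n, hn⟩ := h2
  rw [Perm.zpow_apply_eq_self_of_apply_eq_self (by rw [Perm.mul_apply]; exact h)] at hn
  exact hn.symm

theorem side_cases (a : B) : a = e.symm none ∨ ∃ a', a = e.symm (some a') := by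
  rcases h : e a with _ | a'
  · left; rw [← h]; simp
  · right; exact ⟨a', by rw [← h]; simp⟩

theorem TF_fx (Γ : SimpleGraph B) (n : ℕ) (ρ : Perm (LL B' k)) :
    TF Γ (n + 1) (e.symm none) k (fx (E2 e k) ρ) ↔ GG (GR e Γ) n k ρ := by
  have h0 : fx (E2 e k) ρ (Sum.inl (e.symm none)) = Sum.inl (e.symm none) := fx_hole _ _
  constructor
  · rintro ⟨⟨h1, h2, h3⟩, _⟩
    refine ⟨(good_fxS e ρ).1 h1, ?_, ?_⟩
    · rw [fc_fxS] at h2; omega
    · intro a b hab h
      exact h3 _ _ hab ((SF_fxS e ρ (Sum.inl a) (Sum.inl b)).2 h)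
  · rintro ⟨h1, h2, h3⟩
    refine ⟨⟨(good_fxS e ρ).2 h1, ?_, ?_⟩, h0⟩
    · rw [fc_fxS]; omega
    · intro a b hab h
      rcases side_cases e a with rfl | ⟨a', rfl⟩
      · have := SF_of_fixed h0 h
        simp only [Sum.inl.injEq] at this
        subst this
        exact Γ.loopless.irrefl _ hab
      · rcases side_cases e b with rfl | ⟨b', rfl⟩
        · have := SF_of_fixed h0 h.symm
          simp at this
        · exact h3 a' b' hab ((SF_fxS e ρ (Sum.inl a') (Sum.inl b')).1 h)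

theorem TF_ex {Γ : SimpleGraph B} {n k : ℕ} (hex : Ex (GG (GR e Γ) n) k) :
    Ex (TF Γ (n + 1) (e.symm none)) k := by
  refine sideIso (fun k ρ => fx (E2 e k) ρ) (fun k ψ => rm (E2 e k) ψ) _ (GG (GR e Γ) n) k
    (TF_inv _ _ _) (GG_inv _ _) ?_ ?_ ?_ ?_ ?_ ?_ ?_ hex
  · intro k π e' ρ; exact act_fxS e π e' ρ
  · intro k ρ; exact d_fxS e ρ
  · intro k ρ; exact rm_fx _ _
  · intro k ψ h; exact fx_rm_fixed _ _ h.2
  · intro k ρ h; exact (TF_fx e Γ n ρ).1 h
  · intro k ρ h _ _; exact (TF_fx e Γ n ρ).2 h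
  · intro k ρ _ h; exact (TF_fx e Γ n (d ρ)).2 h

/-- the side `s` follows the side `u` -/
def TS (Γ : SimpleGraph B) (n : ℕ) (u s : B) : Fam B := fun k ψ =>
  GG Γ n k ψ ∧ ψ (Sum.inl u) = Sum.inl s

theorem TS_inv (Γ : SimpleGraph B) (n : ℕ) (u s : B) : Inv (TS Γ n u s) := by
  intro k π e ψ
  unfold TS
  rw [GG_inv, eq_inl_act]

theorem TS_ins (Γ : SimpleGraph B) (n : ℕ) (hs : ∀ a, ¬ Γ.Adj (e.symm none) a) (b : B')
    (ρ : Perm (LL B' k)) :
    TS Γ n (e.symm (some b)) (e.symm none) k (insS e b ρ) ↔ GG (GR e Γ) n k ρ := by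
  have h0 : insS e b ρ (Sum.inl (e.symm (some b))) = Sum.inl (e.symm none) := ins_at _ _ _
  constructor
  · rintro ⟨⟨h1, h2, h3⟩, _⟩
    refine ⟨(good_insS e b ρ).1 h1, ?_, ?_⟩
    · rw [fc_insS] at h2; omega
    · intro a b' hab h
      exact h3 _ _ hab ((SF_insS e b ρ (Sum.inl a) (Sum.inl b')).2 h)
  · rintro ⟨h1, h2, h3⟩
    refine ⟨⟨(good_insS e b ρ).2 h1, ?_, ?_⟩, h0⟩
    · rw [fc_insS]; omega
    · intro a c hab h
      rcases side_cases e a with rfl | ⟨a', rfl⟩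
      · exact hs _ hab
      · rcases side_cases e c with rfl | ⟨c', rfl⟩
        · exact hs _ hab.symm
        · exact h3 a' c' hab ((SF_insS e b ρ (Sum.inl a') (Sum.inl c')).1 h)

theorem TS_ex {Γ : SimpleGraph B} {n k : ℕ} (hs : ∀ a, ¬ Γ.Adj (e.symm none) a) (b : B')
    (hex : Ex (GG (GR e Γ) n) k) :
    Ex (TS Γ n (e.symm (some b)) (e.symm none)) k := by
  refine sideIso (fun k ρ => insS e b ρ) (fun k ψ => rm (E2 e k) ψ) _ (GG (GR e Γ) n) k
    (TS_inv _ _ _ _) (GG_inv _ _) ?_ ?_ ?_ ?_ ?_ ?_ ?_ hex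
  · intro k π e' ρ; exact act_insS e π e' b ρ
  · intro k ρ; exact d_insS e b ρ
  · intro k ρ; exact rm_ins _ _ _
  · intro k ψ h; exact ins_rm _ _ _ h.2
  · intro k ρ h; exact (TS_ins e Γ n hs b ρ).1 h
  · intro k ρ h _ _; exact (TS_ins e Γ n hs b ρ).2 h
  · intro k ρ _ h; exact (TS_ins e Γ n hs b (d ρ)).2 h

theorem TS_empty {Γ : SimpleGraph B} {n : ℕ} {u s : B} (h : Γ.Adj u s) (ψ : Perm (LL B k)) :
    ¬ TS Γ n u s k ψ := by
  rintro ⟨h1, h2⟩
  apply h1.2.2 u s h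
  have := sameCycle_apply (ψ * bar) (Sum.inl u)
  rw [Perm.mul_apply, bar_inl, h2] at this
  exact this

end sides

/-! ### types -/

section types

variable [Finite B]

/-- index of the type of the first letter -/
noncomputable def ty (u : B) (k : ℕ) (ψ : Perm (LL B k)) : ℕ :=
  match ψ (Sum.inl u) with
  | Sum.inl s => (Finite.equivFin B s).val + 1
  | Sum.inr _ => 0

theorem ty_inl {u s : B} {ψ : Perm (LL B k)} (h : ψ (Sum.inl u) = Sum.inl s) :
    ty u k ψ = (Finite.equivFin B s).val + 1 := by unfold ty; rw [h]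

theorem ty_inr {u : B} {p : Fin k × Bool} {ψ : Perm (LL B k)} (h : ψ (Sum.inl u) = Sum.inr p) :
    ty u k ψ = 0 := by unfold ty; rw [h]

theorem ty_act (u : B) (k : ℕ) (π : Perm (Fin k)) (e : Fin k → Bool) (ψ : Perm (LL B k)) :
    ty u k (act π e ψ) = ty u k ψ := by
  unfold ty
  rw [act_inl]
  rcases ψ (Sum.inl u) with b | ⟨i, ε⟩
  · rfl
  · rfl

theorem ty_lt (u : B) (k : ℕ) (ψ : Perm (LL B k)) : ty u k ψ < Nat.card B + 1 := by
  unfold ty
  rcases ψ (Sum.inl u) with b | ⟨i, ε⟩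
  · simp only
    exact Nat.succ_lt_succ (Finite.equivFin B b).isLt
  · simp

theorem chord_of_ty {u : B} {ψ : Perm (LL B k)} (h : ty u k ψ = 0) :
    ∃ i ε, ψ (Sum.inl u) = Sum.inr (i, ε) := by
  rcases h1 : ψ (Sum.inl u) with b | ⟨i, ε⟩
  · rw [ty_inl h1] at h; omega
  · exact ⟨i, ε, rfl⟩

theorem side_of_ty {u : B} {ψ : Perm (LL B k)} (h : ty u k ψ ≠ 0) :
    ∃ s, ψ (Sum.inl u) = Sum.inl s := by
  rcases h1 : ψ (Sum.inl u) with b | ⟨i, ε⟩
  · exact ⟨b, rfl⟩
  · rw [ty_inr h1] at h; omega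

/-- deletion keeps the first letter in the part that does not come back -/
theorem first_d {Γ : SimpleGraph B} {n : ℕ} {u : B} {ψ : Perm (LL B (k + 1))}
    (h : GG Γ n _ ψ) (h' : GG Γ n _ (d ψ)) (h0 : rr u _ ψ = 0) {i : Fin (k + 1)} {ε : Bool}
    (h1 : ψ (Sum.inl u) = Sum.inr (i, ε)) : ∃ i' : Fin k, i = i'.succ := by
  revert h1
  refine Fin.cases ?_ (fun i => ?_) i
  · intro h1
    exfalso
    have hs : Sp (nrm 0 ε ψ) := by
      rw [Sp_nrm]
      exact GG_sp h h'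
    rw [rr_sp h1 hs] at h0
    omega
  · intro _; exact ⟨i, rfl⟩

theorem ty_d {Γ : SimpleGraph B} {n : ℕ} {u : B} {ψ : Perm (LL B (k + 1))}
    (h : GG Γ n _ ψ) (h' : GG Γ n _ (d ψ)) (h0 : rr u _ ψ = 0) :
    ty u k (d ψ) = ty u (k + 1) ψ := by
  rcases h1 : ψ (Sum.inl u) with b | ⟨i, ε⟩
  · rw [ty_inl h1, ty_inl (d_apply_inl (v := Sum.inl b) h1)]
  · obtain ⟨i', rfl⟩ := first_d h h' h0 h1
    rw [ty_inr h1, ty_inr (d_apply_inl (v := Sum.inr (i', ε)) h1)]

/-- the part that does not come back splits -/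
theorem T0_ex {Γ : SimpleGraph B} {n : ℕ} {u : B} {k : ℕ} (hN : Ex (TN Γ n u) k)
    (hS : ∀ s, Ex (TS Γ n u s) k) : Ex (At (GG Γ n) (rr u) 0) k := by
  refine Ex.of_index (TR_inv _ _ _ _) (At.conv (GG_conv _ _) _ (rr_mono Γ n u) 0) (ty u)
    (ty_act u) ?_ (Nat.card B + 1) (fun ψ _ => ty_lt u k ψ) ?_
  · intro k ψ h1 h2
    exact (ty_d h1.1 h2.1 h1.2).le
  · intro r hr
    rcases Nat.eq_zero_or_pos r with rfl | hpos
    · refine Ex.congr (T := TN Γ n u) ?_ hN
      intro k ψ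
      constructor
      · rintro ⟨⟨h1, h2⟩, h3⟩
        exact ⟨h1, h2, chord_of_ty h3⟩
      · rintro ⟨h1, h2, i, ε, h3⟩
        exact ⟨⟨h1, h2⟩, ty_inr h3⟩
    · have hr' : r - 1 < Nat.card B := by omega
      set s : B := (Finite.equivFin B).symm ⟨r - 1, hr'⟩ with hs
      refine Ex.congr (T := TS Γ n u s) ?_ (hS s)
      intro k ψ
      constructor
      · rintro ⟨⟨h1, h2⟩, h3⟩
        obtain ⟨s', hs'⟩ := side_of_ty (u := u) (ψ := ψ) (by omega)
        refine ⟨h1, ?_⟩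
        rw [hs']
        congr 1
        rw [ty_inl hs'] at h3
        rw [hs, Equiv.eq_symm_apply]
        apply Fin.ext
        show _ = r - 1
        omega
      · rintro ⟨h1, h2⟩
        refine ⟨⟨h1, rr_inl h2⟩, ?_⟩
        rw [ty_inl h2, hs]
        simp only [Equiv.apply_symm_apply]
        omega

theorem rr_le (u : B) (k : ℕ) (ψ : Perm (LL B k)) : rr u k ψ ≤ k := by
  induction k with
  | zero => rw [rr_zero]
  | succ k ih =>
    rcases h : ψ (Sum.inl u) with b | ⟨i, ε⟩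
    · rw [rr_inl h]; omega
    · by_cases hs : Sp (nrm i ε ψ)
      · rw [rr_sp h hs]
        have := ih (d (nrm i ε ψ))
        omega
      · rw [rr_not_sp h hs]; omega

theorem GG_ex {Γ : SimpleGraph B} {n : ℕ} {u : B} {k : ℕ}
    (h : ∀ r, Ex (At (GG Γ n) (rr u) r) k) : Ex (GG Γ n) k :=
  Ex.of_index (GG_inv _ _) (GG_conv _ _) (rr u) (rr_act u) (rr_mono Γ n u) (k + 1)
    (fun ψ _ => Nat.lt_succ_of_le (rr_le u k ψ)) (fun r _ => h r)

end types

end Pool.Agent.W604
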