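import Mathlib
import Pool.Agent.W604.Parts

set_option autoImplicit false
set_option linter.unusedSectionVars false

/-!
Graded cochains; operators adding a loop, adding a loop and a chord.
-/

namespace Pool.Agent.W604

open Equiv

variable {B : Type} {k : ℕ} [DecidableEq B] [Finite B] {A : Type} [AddCommGroup A]

/-- graded cochains -/
abbrev Gr (B A : Type) : Type := ∀ j, Perm (LL B j) → A

/-- graded coboundary -/
def DD (F : Gr B A) : Gr B A
  | 0, _ => 0
  | j + 1, ψ => dl (F j) ψ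

theorem DD_zero (F : Gr B A) (ψ : Perm (LL B 0)) : DD F 0 ψ = 0 := rfl
theorem DD_succ (F : Gr B A) (j : ℕ) (ψ : Perm (LL B (j + 1))) : DD F (j + 1) ψ = dl (F j) ψ := rfl

def ASG (F : Gr B A) : Prop := ∀ j, AS (F j)

theorem ASG.dd {F : Gr B A} (h : ASG F) : ASG (DD F) := by
  intro j
  cases j with
  | zero => exact AS.zero
  | succ j => exact (h j).dl

theorem DD_DD {F : Gr B A} (h : ASG F) (j : ℕ) (ψ : Perm (LL B j)) : DD (DD F) j ψ = 0 := by
  rcases j with _ | _ | j
  · rfl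
  · rw [DD_succ]; apply dl_eq_zero; intros; rfl
  · exact dl_dl (h j) ψ

theorem DD_sub (F G : Gr B A) (j : ℕ) (ψ : Perm (LL B j)) :
    DD (fun i χ => F i χ - G i χ) j ψ = DD F j ψ - DD G j ψ := by
  cases j with
  | zero => simp [DD_zero]
  | succ j => simp only [DD_succ]; exact dl_sub _ _ _

theorem DD_add (F G : Gr B A) (j : ℕ) (ψ : Perm (LL B j)) :
    DD (fun i χ => F i χ + G i χ) j ψ = DD F j ψ + DD G j ψ := by
  cases j with
  | zero => simp [DD_zero]
  | succ j => simp only [DD_succ]; exact dl_add _ _ _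

theorem DD_congr {F G : Gr B A} {j : ℕ} {ψ : Perm (LL B (j + 1))}
    (h : ∀ π e, F j (d (act π e ψ)) = G j (d (act π e ψ))) : DD F (j + 1) ψ = DD G (j + 1) ψ :=
  dl_congr h

/-- pullback by an insertion -/
def pb1 (u : B) (F : Gr B A) : Gr (Option B) A := fun i ρ => F (i + 1) (ins1 u ρ)

theorem ASG.pb1 {u : B} {F : Gr B A} (h : ASG F) : ASG (pb1 u F) := by
  intro j π e ρ
  show F (j + 1) (ins1 u (act π e ρ)) = _
  rw [← act_ins1, h, lp_sign]; rfl

theorem DD_ins1 {F : Gr B A} (h : ASG F) (u : B) (j : ℕ) (ρ : Perm (LL (Option B) j)) :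
    DD F (j + 1) (ins1 u ρ) = F j (rm (E2 (Equiv.refl (Option B)) j) ρ) - DD (pb1 u F) j ρ := by
  rw [← d_ins1 u]
  cases j with
  | zero =>
    rw [DD_succ, DD_zero, sub_zero]
    unfold dl
    rw [Fin.sum_univ_succ]
    have : act (swap 0 0) (fun _ => false) (ins1 u ρ) = ins1 u ρ := by
      rw [swap_self]; exact act_one _
    rw [this]; simp
  | succ j =>
    have := dl_insK (h (j + 1)) u 1 ρ
    rw [insK_one] at this
    simp only [insK_one] at this
    exact this

theorem DD_map {B' : Type} [DecidableEq B'] [Finite B'] (F : Gr B A) (m : ∀ k, Perm (LL B' k) → Perm (LL B k))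
    (hact : ∀ k π e (ρ : Perm (LL B' k)), m k (act π e ρ) = act π e (m k ρ))
    (hd : ∀ k (ρ : Perm (LL B' (k + 1))), m k (d ρ) = d (m (k + 1) ρ)) (j : ℕ)
    (ρ : Perm (LL B' j)) : DD F j (m j ρ) = DD (fun i ρ' => F i (m i ρ')) j ρ := by
  cases j with
  | zero => rfl
  | succ j =>
    rw [DD_succ, DD_succ]
    unfold dl
    refine Finset.sum_congr rfl fun i _ => ?_
    simp only [hd, hact]

/-- the side `none` is inserted after `y` -/
abbrev iS (y : B) (ψ : Perm (LL B k)) : Perm (LL (Option B) k) := insS (Equiv.refl (Option B)) y ψ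

theorem DD_iS (F : Gr (Option B) A) (y : B) (j : ℕ) (ψ : Perm (LL B j)) :
    DD F j (iS y ψ) = DD (fun i ψ' => F i (iS y ψ')) j ψ :=
  DD_map F (fun _ ψ => iS y ψ) (fun _ π e ρ => act_insS _ π e y ρ) (fun _ ρ => d_insS _ y ρ) j ψ

/-- loop after `y` -/
def opU (y : B) (ψ : Perm (LL B k)) : Perm (LL B (k + 1)) := ins1 y (iS y ψ)

/-- chord from `x` to `y` -/
def opV (x y : B) (ψ : Perm (LL B k)) : Perm (LL B (k + 1)) := ins1 x (iS y ψ)

/-- loop after `y` and chord from `x` to the loop -/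
def opK (x y : B) (ψ : Perm (LL B k)) : Perm (LL B (k + 2)) :=
  ins1 y (ins1 (some x) (iS (some y) (iS y ψ)))

theorem rm_iS (y : B) (ψ : Perm (LL B k)) : rm (E2 (Equiv.refl (Option B)) k) (iS y ψ) = ψ :=
  rm_ins _ _ _

theorem d_opU (y : B) (ψ : Perm (LL B k)) : d (opU y ψ) = ψ := by
  unfold opU; rw [d_ins1, rm_iS]

theorem d_opV (x y : B) (ψ : Perm (LL B k)) : d (opV x y ψ) = ψ := by
  unfold opV; rw [d_ins1, rm_iS]

theorem d_opK' (x y : B) (ψ : Perm (LL B k)) :
    d (act (swap 0 1) (fun _ => false) (opK x y ψ)) = opU y ψ := by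
  unfold opK
  rw [d_swap_ins1, d_ins1, rm_iS]; rfl

/-- renaming of letters, forgetting `some none` -/
def j2 : LL (Option B) k → LL (Option (Option B)) k
  | Sum.inl none => Sum.inl none
  | Sum.inl (some b) => Sum.inl (some (some b))
  | Sum.inr p => Sum.inr p

theorem j2_inj : Function.Injective (j2 : LL (Option B) k → LL (Option (Option B)) k) := by
  rintro ((_ | b) | p) ((_ | b') | p') h <;> simp [j2] at h ⊢
  · exact h
  · exact h

theorem rm_opK (x y : B) (ψ : Perm (LL B k)) :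
    rm (E2 (Equiv.refl (Option B)) (k + 1)) (ins1 (some x) (iS (some y) (iS y ψ))) =
      ins1 x (iS y ψ) := by
  set R := Equiv.refl (Option B) with hR
  set R2 := Equiv.refl (Option (Option B)) with hR2
  have h1 : Ind (lft (E2 R k)) (iS y ψ) ψ := by
    have := ind_rm (E2 R k) (iS y ψ)
    rwa [rm_iS] at this
  have h2 : Ind j2 (fx (E2 R2 k) (iS y ψ)) (fx (E2 R k) ψ) := by
    refine Ind.fx h1 _ _ rfl ?_
    rintro (b | p) <;> rfl
  have h3 : Ind j2 (iS (some y) (iS y ψ)) (iS y ψ) := by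
    refine Ind.mul h2 (s := swap (hole (E2 R2 k)) (lft (E2 R2 k) (Sum.inl (some y))))
      (σ := swap (hole (E2 R k)) (lft (E2 R k) (Sum.inl y))) ?_ ?_
    · intro v
      have e1 : hole (E2 R2 k) = j2 (hole (E2 R k)) := rfl
      have e2 : lft (E2 R2 k) (Sum.inl (some y)) = j2 (lft (E2 R k) (Sum.inl y)) := rfl
      rw [e1, e2]
      exact j2_inj.swap_apply _ _ _
    · intro z hz
      rw [swap_apply_of_ne_of_ne]
      · rintro rfl; exact hz ⟨hole (E2 R k), rfl⟩
      · rintro rfl; exact hz ⟨lft (E2 R k) (Sum.inl y), rfl⟩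
  have h4 : Ind (lft (E2 R (k + 1))) (fx (E1 (Option B) k) (iS (some y) (iS y ψ)))
      (fx (E1 B k) (iS y ψ)) := by
    refine Ind.fx h3 _ _ rfl ?_
    rintro ((_ | b) | p) <;> rfl
  have h5 : Ind (lft (E2 R (k + 1))) (ins1 (some x) (iS (some y) (iS y ψ)))
      (ins1 x (iS y ψ)) := by
    rw [ins1_eq, ins1_eq]
    refine Ind.mul h4 ?_ ?_
    · intro v
      have e1 : (Sum.inr (0, true) : LL (Option B) (k + 1)) =
        lft (E2 R (k + 1)) (Sum.inr (0, true)) := rfl
      have e2 : (Sum.inl (some x) : LL (Option B) (k + 1)) =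
        lft (E2 R (k + 1)) (Sum.inl x) := rfl
      rw [e1, e2]
      exact (lft_inj' (E2 R (k + 1))).swap_apply _ _ _
    · intro z hz
      rw [swap_apply_of_ne_of_ne]
      · rintro rfl; exact hz ⟨Sum.inr (0, true), rfl⟩
      · rintro rfl; exact hz ⟨Sum.inl x, rfl⟩
  exact Ind.unique (lft_inj' _) (ind_rm _ _) h5

theorem DD_opU {F : Gr B A} (h : ASG F) (y : B) (j : ℕ) (ψ : Perm (LL B j)) :
    DD F (j + 1) (opU y ψ) = F j ψ - DD (fun i χ => F (i + 1) (opU y χ)) j ψ := by
  unfold opU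
  rw [DD_ins1 h, rm_iS, DD_iS]; rfl

theorem DD_opV {F : Gr B A} (h : ASG F) (x y : B) (j : ℕ) (ψ : Perm (LL B j)) :
    DD F (j + 1) (opV x y ψ) = F j ψ - DD (fun i χ => F (i + 1) (opV x y χ)) j ψ := by
  unfold opV
  rw [DD_ins1 h, rm_iS, DD_iS]; rfl

theorem DD_opK {F : Gr B A} (h : ASG F) (x y : B) (j : ℕ) (ψ : Perm (LL B j)) :
    DD F (j + 2) (opK x y ψ) = F (j + 1) (opV x y ψ) - F (j + 1) (opU y ψ) +
      DD (fun i χ => F (i + 2) (opK x y χ)) j ψ := by
  unfold opK
  rw [DD_ins1 h, rm_opK, DD_ins1 h.pb1, rm_iS, DD_iS, DD_iS, sub_sub_eq_add_sub, add_sub_right_comm]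
  rfl

theorem act_opU (y : B) (π : Perm (Fin k)) (e : Fin k → Bool) (ψ : Perm (LL B k)) :
    opU y (act π e ψ) = act (lp π) (Fin.cons false e) (opU y ψ) := by
  unfold opU iS
  rw [act_insS, act_ins1]

theorem act_opK (x y : B) (π : Perm (Fin k)) (e : Fin k → Bool) (ψ : Perm (LL B k)) :
    opK x y (act π e ψ) = act (lp (lp π)) (Fin.cons false (Fin.cons false e)) (opK x y ψ) := by
  unfold opK iS
  rw [act_insS, act_insS, act_ins1, act_ins1]

theorem ASG.opU {F : Gr B A} (h : ASG F) (y : B) : ASG (fun i χ => F (i + 1) (opU y χ)) := by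
  intro j π e ψ
  show F (j + 1) (Pool.Agent.W604.opU y (act π e ψ)) = _
  rw [act_opU, h, lp_sign]

theorem ASG.opK {F : Gr B A} (h : ASG F) (x y : B) :
    ASG (fun i χ => F (i + 2) (opK x y χ)) := by
  intro j π e ψ
  show F (j + 2) (Pool.Agent.W604.opK x y (act π e ψ)) = _
  rw [act_opK, h, lp_sign, lp_sign]

/-! ### values -/

section values

variable {x y u : B} {ψ : Perm (LL B k)}

theorem iS_y : iS y ψ (Sum.inl (some y)) = Sum.inl none := ins_at _ _ _
theorem iS_none : iS y ψ (Sum.inl none) = lft (E2 (Equiv.refl (Option B)) k) (ψ (Sum.inl y)) :=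
  ins_hole _ _ _
theorem iS_some (h : u ≠ y) : iS y ψ (Sum.inl (some u)) =
    lft (E2 (Equiv.refl (Option B)) k) (ψ (Sum.inl u)) :=
  ins_lft (E2 (Equiv.refl (Option B)) k) ψ (Sum.inl y) (Sum.inl u) (by simpa using h)

theorem opK_v1 (hxy : x ≠ y) : opK x y ψ (Sum.inr (0, true)) = Sum.inr (1, false) := by
  unfold opK
  have h1 : (Sum.inr (0, true) : LL B (k + 2)) = hole (E1 B (k + 1)) := rfl
  rw [h1]
  unfold ins1
  rw [ins_hole]
  have h2 : (Sum.inl (some y) : LL (Option B) (k + 1)) =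
    lft (E1 (Option B) k) (Sum.inl (some (some y))) := rfl
  rw [h2, ins_lft _ _ _ _ (by simpa using Ne.symm hxy), iS_y]
  rfl

theorem opK_v2 : opK x y ψ (Sum.inr (1, false)) = Sum.inr (0, false) := by
  unfold opK
  have h1 : (Sum.inr (1, false) : LL B (k + 2)) = lft (E1 B (k + 1)) (Sum.inr (0, false)) := rfl
  rw [h1]
  unfold ins1
  rw [ins_lft _ _ _ _ (by simp)]
  have h2 : (Sum.inr (0, false) : LL (Option B) (k + 1)) =
    lft (E1 (Option B) k) (Sum.inl none) := rfl
  rw [h2, ins_lft _ _ _ _ (by simp), iS_none, iS_y]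
  rfl

theorem opK_v0 (h : u ≠ y) : opK u y ψ (Sum.inl u) = Sum.inr (1, true) := by
  unfold opK
  have h1 : (Sum.inl u : LL B (k + 2)) = lft (E1 B (k + 1)) (Sum.inl (some u)) := rfl
  rw [h1]
  unfold ins1
  rw [ins_lft _ _ _ _ (by simpa using h)]
  have h2 : (Sum.inl (some u) : LL (Option B) (k + 1)) =
    lft (E1 (Option B) k) (Sum.inl (some (some u))) := rfl
  rw [h2, ins_at]
  rfl

theorem opK_v3 (h : u ≠ y) (hu : ψ (Sum.inl u) = Sum.inl u) :
    opK u y ψ (Sum.inr (1, true)) = Sum.inl u := by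
  unfold opK
  have h1 : (Sum.inr (1, true) : LL B (k + 2)) = lft (E1 B (k + 1)) (Sum.inr (0, true)) := rfl
  rw [h1]
  unfold ins1
  rw [ins_lft _ _ _ _ (by simp)]
  have h2 : (Sum.inr (0, true) : LL (Option B) (k + 1)) = hole (E1 (Option B) k) := rfl
  rw [h2, ins_hole]
  rw [iS_some (by simpa using h), iS_some h, hu]
  rfl

theorem ins1_iso {ρ : Perm (LL (Option B) k)} (h : u ≠ x)
    (hu : ρ (Sum.inl (some u)) = Sum.inl (some u)) : ins1 x ρ (Sum.inl u) = Sum.inl u := by
  have h1 : (Sum.inl u : LL B (k + 1)) = lft (E1 B k) (Sum.inl (some u)) := rfl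
  rw [h1]
  unfold ins1
  rw [ins_lft _ _ _ _ (by simpa using h), hu]

theorem iS_iso (h : u ≠ y) (hu : ψ (Sum.inl u) = Sum.inl u) :
    iS y ψ (Sum.inl (some u)) = Sum.inl (some u) := by
  rw [iS_some h, hu]; rfl

theorem opU_iso (h : u ≠ y) (hu : ψ (Sum.inl u) = Sum.inl u) :
    opU y ψ (Sum.inl u) = Sum.inl u := ins1_iso h (iS_iso h hu)

theorem opV_iso (h' : u ≠ x) (h : u ≠ y) (hu : ψ (Sum.inl u) = Sum.inl u) :
    opV x y ψ (Sum.inl u) = Sum.inl u := ins1_iso h' (iS_iso h hu)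

theorem opK_iso (h' : u ≠ x) (h : u ≠ y) (hu : ψ (Sum.inl u) = Sum.inl u) :
    opK x y ψ (Sum.inl u) = Sum.inl u :=
  ins1_iso h (ins1_iso (by simpa using h') (iS_iso (by simpa using h) (iS_iso h hu)))

theorem good_iS (h : Good ψ) : Good (iS y ψ) := (good_insS _ _ _).2 h

theorem sc_iS : (iS y ψ).SameCycle (Sum.inl none) (Sum.inl (some y)) :=
  (sameCycle_ins_hole (E2 (Equiv.refl (Option B)) k) ψ (Sum.inl y) (Sum.inl y)).2
    (Perm.SameCycle.refl _ _)

theorem good_opU (h : Good ψ) : Good (opU y ψ) := good_ins1_of (good_iS h) y sc_iS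

theorem good_opV (h : Good ψ) : Good (opV x y ψ) := good_ins1_of (good_iS h) y sc_iS

theorem good_opK (h : Good ψ) : Good (opK x y ψ) := by
  refine good_ins1_of (good_ins1_of (good_iS (good_iS h)) (some y) sc_iS) y ?_
  have h1 : (Sum.inl none : LL (Option B) (k + 1)) =
    lft (E1 (Option B) k) (Sum.inl (some none)) := rfl
  have h2 : (Sum.inl (some y) : LL (Option B) (k + 1)) =
    lft (E1 (Option B) k) (Sum.inl (some (some y))) := rfl
  rw [h1, h2]
  refine (sameCycle_ins _ _ _ _ _).2 ?_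
  exact (sameCycle_ins (E2 (Equiv.refl (Option (Option B))) k) (iS y ψ) (Sum.inl (some y))
    (Sum.inl none) (Sum.inl (some y))).2 sc_iS

theorem fc_opU : fc (opU y ψ) = fc ψ + 1 := by
  unfold opU
  rw [fc_ins1, fc_split (by simp)]
  · rw [fc_insS]
  · exact ((SF_insS_hole (Equiv.refl (Option B)) y ψ (Sum.inl y)).2 (SF.refl _ _)).symm

theorem fc_opV (h : ¬ SF ψ (Sum.inl x) (Sum.inl y)) : fc ψ = fc (opV x y ψ) + 1 := by
  unfold opV
  rw [fc_ins1, ← fc_merge]
  · rw [fc_insS]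
  · intro h2
    apply h
    exact ((SF_insS_hole (Equiv.refl (Option B)) y ψ (Sum.inl x)).1 h2.symm).symm

theorem fc_opK (hxy : x ≠ y) (h : Good ψ) : fc (opK x y ψ) = fc ψ := by
  have hg := good_opK (x := x) (y := y) h
  have h1 : NI (act (swap 0 1) (fun _ => false) (opK x y ψ)) := ((good_act _ _ _).2 hg).ni
  have h2 : Sp (act (swap 0 1) (fun _ => false) (opK x y ψ)) := by
    unfold Sp
    have e1 : ∀ ε : Bool, (Sum.inr (0, ε) : LL B (k + 2)) =
        W (swap 0 1) (fun _ => false) (Sum.inr (1, ε)) := by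
      intro ε
      rw [W_inr]; simp
    rw [e1, e1, SF_act]
    have e2 := sameCycle_apply (opK x y ψ * bar) (Sum.inr (1, true))
    have e3 := sameCycle_apply (opK x y ψ * bar) (Sum.inr (0, false))
    rw [Perm.mul_apply, bar_inr] at e2 e3
    simp only [Bool.not_true, Bool.not_false] at e2 e3
    rw [opK_v2] at e2
    rw [opK_v1 hxy] at e3
    exact e2.trans e3
  have h3 := fc_d_of_Sp h1 h2
  rw [d_opK', fc_act, fc_opU] at h3
  omega

theorem sameCycle4 {α : Type*} {π : Perm α} {a b c e z : α} (h1 : π a = b) (h2 : π b = c)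
    (h3 : π c = e) (h4 : π e = a) (h : π.SameCycle a z) : z = a ∨ z = b ∨ z = c ∨ z = e := by
  have key : ∀ x, (x = a ∨ x = b ∨ x = c ∨ x = e) ↔ (π x = a ∨ π x = b ∨ π x = c ∨ π x = e) := by
    intro x
    constructor
    · rintro (rfl | rfl | rfl | rfl)
      · exact Or.inr (Or.inl h1)
      · exact Or.inr (Or.inr (Or.inl h2))
      · exact Or.inr (Or.inr (Or.inr h3))
      · exact Or.inl h4
    · rintro (h | h | h | h)
      · exact Or.inr (Or.inr (Or.inr (π.injective (h.trans h4.symm))))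
      · exact Or.inl (π.injective (h.trans h1.symm))
      · exact Or.inr (Or.inl (π.injective (h.trans h2.symm)))
      · exact Or.inr (Or.inr (Or.inl (π.injective (h.trans h3.symm))))
  have := sameCycle_ind (π := π) (r := fun x y => (x = a ∨ x = b ∨ x = c ∨ x = e) ↔
    (y = a ∨ y = b ∨ y = c ∨ y = e)) ⟨fun _ => Iff.rfl, fun h => h.symm, fun h h' => h.trans h'⟩
    key h
  exact this.1 (Or.inl rfl)

theorem SF_opK (h : u ≠ y) (hu : ψ (Sum.inl u) = Sum.inl u) {b : B}
    (h2 : SF (opK u y ψ) (Sum.inl u) (Sum.inl b)) : b = u := by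
  have := sameCycle4 (π := opK u y ψ * bar) (a := Sum.inl u) (b := Sum.inr (1, true))
    (c := Sum.inr (0, false)) (e := Sum.inr (1, false)) ?_ ?_ ?_ ?_ h2
  · simpa using this
  · rw [Perm.mul_apply, bar_inl, opK_v0 h]
  · rw [Perm.mul_apply, bar_inr]
    exact opK_v2
  · rw [Perm.mul_apply, bar_inr]
    exact opK_v1 h
  · rw [Perm.mul_apply, bar_inr]
    exact opK_v3 h hu

end values

/-! ### the cochain concentrated in one degree -/

/-- the cochain in degree `k` -/
def sg (c : Perm (LL B k) → A) : Gr B A := fun j ψ => if h : j = k then c (h ▸ ψ) else 0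

theorem sg_self (c : Perm (LL B k) → A) (ψ : Perm (LL B k)) : sg c k ψ = c ψ := by
  simp [sg]

theorem sg_ne (c : Perm (LL B k) → A) {j : ℕ} (h : j ≠ k) (ψ : Perm (LL B j)) : sg c j ψ = 0 := by
  simp [sg, h]

theorem ASG.sg {c : Perm (LL B k) → A} (h : AS c) : ASG (sg c) := by
  intro j π e ψ
  by_cases hj : j = k
  · subst hj
    rw [sg_self, sg_self, h]
  · rw [sg_ne c hj, sg_ne c hj, smul_zero]

theorem sg_supp {S : Fam B} {c : Perm (LL B k) → A} (h : Supp S c) {j : ℕ} {ψ : Perm (LL B j)}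
    (hψ : ¬ S j ψ) : sg c j ψ = 0 := by
  by_cases hj : j = k
  · subst hj
    rw [sg_self, h _ hψ]
  · rw [sg_ne c hj]

theorem sg_coc {S : Fam B} {c : Perm (LL B k) → A} (h : Coc S c) {j : ℕ} {ψ : Perm (LL B j)}
    (hψ : S j ψ) : DD (sg c) j ψ = 0 := by
  cases j with
  | zero => rfl
  | succ j =>
    rw [DD_succ]
    by_cases hj : j = k
    · subst hj
      have : sg c j = c := funext (sg_self c)
      rw [this, h.dl _ hψ]
    · apply dl_eq_zero
      intros
      exact sg_ne c hj _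

/-! ### a side isolated -/

section star

/-- the part of the systems where `u` is isolated, `x` and `y` are on different faces -/
def F1 (Γ : SimpleGraph B) (n : ℕ) (u x y : B) : Fam B := fun k ψ =>
  TF Γ n u k ψ ∧ ¬ SF ψ (Sum.inl x) (Sum.inl y)

theorem F1_inv (Γ : SimpleGraph B) (n : ℕ) (u x y : B) : Inv (F1 Γ n u x y) := by
  intro k π e ψ
  unfold F1
  rw [TF_inv, SF_act_inl]

theorem GG_of_iso {Γ : SimpleGraph B} {n : ℕ} {u : B}
    (hst : ∀ a b, Γ.Adj a b → a = u ∨ b = u) {ψ : Perm (LL B k)} (hg : Good ψ)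
    (hn : k + fc ψ = n) (hu : ∀ b, SF ψ (Sum.inl u) (Sum.inl b) → b = u) : GG Γ n k ψ := by
  refine ⟨hg, hn, ?_⟩
  intro a b hab h
  rcases hst a b hab with rfl | rfl
  · have := hu b h
    subst this
    exact Γ.loopless.irrefl _ hab
  · have := hu a h.symm
    subst this
    exact Γ.loopless.irrefl _ hab

theorem TF_of_iso {Γ : SimpleGraph B} {n : ℕ} {u : B}
    (hst : ∀ a b, Γ.Adj a b → a = u ∨ b = u) {ψ : Perm (LL B k)} (hg : Good ψ)
    (hn : k + fc ψ = n) (hu : ψ (Sum.inl u) = Sum.inl u) : TF Γ n u k ψ :=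
  ⟨GG_of_iso hst hg hn (fun b h => by simpa using SF_of_fixed hu h), hu⟩

theorem iso_d {u : B} {ψ : Perm (LL B (k + 1))} (hu : ψ (Sum.inl u) = Sum.inl u) :
    d ψ (Sum.inl u) = Sum.inl u := d_apply_inl (v := Sum.inl u) hu

open Classical in
theorem F1_cob {Γ : SimpleGraph B} {n : ℕ} {u x y : B} (hux : u ≠ x) (huy : u ≠ y)
    (hxy : x ≠ y) (hst : ∀ a b, Γ.Adj a b → a = u ∨ b = u) {c : Perm (LL B k) → A}
    (hc : Coc (GG Γ n) c) : Cob (F1 Γ n u x y) (cut (F1 Γ n u x y) c) := by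
  set C := sg c with hC
  have hCas : ASG C := ASG.sg hc.as
  set κ : Gr B A := fun i χ => C (i + 2) (opK u y χ) with hκ
  have hκas : ASG κ := hCas.opK u y
  set H : Gr B A := fun i χ => DD C (i + 2) (opK x y χ) + C (i + 1) (opU y χ) - DD κ i χ with hH
  have hHas : ASG H := by
    intro j
    have h1 := hCas.dd.opK x y j
    have h2 := hCas.opU y j
    have h3 := hκas.dd j
    exact (h1.add h2).sub h3
  -- vanishing on the lower level
  have hH0 : ∀ i (χ : Perm (LL B i)), Good χ → χ (Sum.inl u) = Sum.inl u → i + fc χ + 2 = n →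
      H i χ = 0 := by
    intro i χ hg hu hn
    have e1 : DD C (i + 2) (opK x y χ) = 0 := by
      apply sg_coc hc
      have := fc_opK hxy hg
      exact (TF_of_iso hst (good_opK hg) (by omega) (opK_iso hux huy hu)).1
    have e2 := DD_opK hCas u y i χ
    have e3 : DD C (i + 2) (opK u y χ) = 0 := by
      apply sg_coc hc
      have := fc_opK huy hg
      exact GG_of_iso hst (good_opK hg) (by omega) (fun b h => SF_opK huy hu h)
    have e4 : C (i + 1) (opV u y χ) = 0 := by
      apply sg_supp hc.supp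
      intro h
      have h1 := h.2.1
      have h2 : fc χ = fc (opV u y χ) + 1 := by
        apply fc_opV
        intro h3
        have := SF_of_fixed hu h3
        simp only [Sum.inl.injEq] at this
        exact huy this.symm
      omega
    rw [e3, e4] at e2
    show DD C (i + 2) (opK x y χ) + C (i + 1) (opU y χ) - DD κ i χ = 0
    rw [e1, zero_add]
    have e5 : DD κ i χ = C (i + 1) (opU y χ) := by
      have : (0 : A) = 0 - C (i + 1) (opU y χ) + DD κ i χ := e2
      rw [zero_sub, eq_comm, neg_add_eq_zero] at this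
      exact this.symm
    rw [e5, sub_self]
  -- the formula
  have hmain : ∀ j (ψ : Perm (LL B j)), F1 Γ n u x y j ψ → C j ψ = DD H j ψ := by
    intro j ψ hψ
    have hg := hψ.1.1.1
    have hn := hψ.1.1.2.1
    have hu := hψ.1.2
    have e1 := DD_opK hCas.dd x y j ψ
    rw [DD_DD hCas] at e1
    have e2 : DD C (j + 1) (opV x y ψ) = 0 := by
      apply sg_coc hc
      have := fc_opV hψ.2
      exact (TF_of_iso hst (good_opV hg) (by omega) (opV_iso hux huy hu)).1
    have e3 := DD_opU hCas y j ψ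
    have e4 := DD_DD hκas j ψ
    show C j ψ = DD (fun i χ => DD C (i + 2) (opK x y χ) + C (i + 1) (opU y χ) - DD κ i χ) j ψ
    rw [DD_sub, DD_add, e4, sub_zero]
    rw [e2, zero_sub] at e1
    rw [eq_comm, neg_add_eq_zero] at e1
    rw [← e1, e3]
    abel
  set Wc : Gr B A := fun i => cut (F1 Γ n u x y) (H i) with hW
  have hWas : ASG Wc := fun j => (hHas j).cut (F1_inv _ _ _ _ _)
  have hfin : ∀ j (ψ : Perm (LL B j)), F1 Γ n u x y j ψ → C j ψ = DD Wc j ψ := by
    intro j ψ hψ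
    rw [hmain j ψ hψ]
    cases j with
    | zero => rfl
    | succ j =>
      apply DD_congr
      intro π e
      have hψ' := (F1_inv Γ n u x y _ π e ψ).2 hψ
      set ψ' := act π e ψ with hψ'def
      by_cases h1 : F1 Γ n u x y j (d ψ')
      · show _ = cut _ _ _
        rw [cut_of h1]
      · show _ = cut _ _ _
        rw [cut_of_not h1]
        have hg := hψ'.1.1.1
        apply hH0 _ _ hg.d (iso_d hψ'.1.2)
        have hns : ¬ Sp ψ' := by
          intro hs
          apply h1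
          exact ⟨⟨GG_d hψ'.1.1 hs, iso_d hψ'.1.2⟩, fun h => hψ'.2 (SF_of_d hs h)⟩
        have := fc_d_of_not_Sp hg.ni hns
        have := hψ'.1.1.2.1
        omega
  cases k with
  | zero =>
    intro ψ
    by_cases h : F1 Γ n u x y 0 ψ
    · rw [cut_of h]
      have := hfin 0 ψ h
      rw [hC, sg_self] at this
      exact this
    · exact cut_of_not h
  | succ k =>
    refine ⟨Wc k, hWas k, supp_cut _ _, ?_⟩
    intro ψ hψ
    rw [cut_of hψ]
    have := hfin (k + 1) ψ hψ
    rw [hC, sg_self] at this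
    exact this

end star

end Pool.Agent.W604
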