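import Mathlib
import Pool.Agent.W604.Theta

set_option autoImplicit false
set_option linter.unusedSectionVars false

/-!
The case of a star graph: killing the part where the centre is isolated.
-/

namespace Pool.Agent.W604

open Equiv

variable {B : Type} {k : ℕ} [DecidableEq B] [Finite B] {A : Type} [AddCommGroup A]

theorem killFrom_index' {S P : Fam B} {k : ℕ} (hS : Inv S) (hC : Conv S) (hP : Inv P)
    (hPS : ∀ k ψ, P k ψ → S k ψ) (hcl : Closed S P)
    (τ : ∀ k, Perm (LL B k) → ℕ)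
    (hτ : ∀ k (π : Perm (Fin k)) (e : Fin k → Bool) (ψ : Perm (LL B k)), τ k (act π e ψ) = τ k ψ)
    (hd : ∀ k (ψ : Perm (LL B (k + 1))), P _ ψ → P _ (d ψ) → τ _ (d ψ) ≤ τ _ ψ)
    (r0 M : ℕ) (hex : ∀ r, r0 ≤ r → r < M → Ex (At P τ r) k) :
    KillFrom S (fun k ψ => P k ψ ∧ τ k ψ < r0) (fun k ψ => P k ψ ∧ τ k ψ < M) k := by
  induction M with
  | zero =>
    intro A _ c hc _
    exact ⟨c, hc, fun ψ hψ => absurd hψ.2 (Nat.not_lt_zero _), id⟩
  | succ M ih =>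
    by_cases hM : M < r0
    · intro A _ c hc h0
      exact ⟨c, hc, fun ψ hψ => h0 ψ ⟨hψ.1, by have := hψ.2; omega⟩, id⟩
    refine (ih (fun r h1 h2 => hex r h1 (by omega))).trans
      (KillFrom.step (T := At P τ M) hS hC ?_ ?_ ?_ ?_ ?_ ?_ ?_
        (hex M (by omega) (by omega)))
    · intro k π e ψ; simp only [hτ, hP k π e ψ]
    · intro k π e ψ; unfold At; rw [hτ, hP]
    · intro k ψ h; exact hPS _ _ h.1
    · rintro k ψ ⟨_, h⟩ ⟨_, h2⟩; omega
    · intro ψ h1 h2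
      rcases Nat.lt_succ_iff_lt_or_eq.1 h2.2 with h3 | h3
      · exact Or.inl ⟨h2.1, h3⟩
      · exact Or.inr ⟨h2.1, h3⟩
    · intro k ψ h1 h2 h3
      have h4 := hcl k ψ h1 h2.1 h3
      have := hd k ψ h2.1 h4
      exact ⟨h4, by have := h2.2; omega⟩
    · intro k ψ h1 h2
      have h4 := hcl k ψ (hPS _ _ h1.1) h1.1 h2
      have := hd k ψ h1.1 h4
      have h3 : τ (k + 1) ψ = M := h1.2
      rcases Nat.lt_or_ge (τ k (d ψ)) M with h5 | h5
      · exact Or.inl ⟨h4, h5⟩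
      · exact Or.inr ⟨h4, by omega⟩

/-- the part that does not come back, without the isolated part -/
theorem T0_ex' {Γ : SimpleGraph B} {n : ℕ} {u : B} {k : ℕ} (hN : Ex (TN Γ n u) k)
    (hS : ∀ s, s ≠ u → Ex (TS Γ n u s) k) :
    Ex (fun k ψ => At (GG Γ n) (rr u) 0 k ψ ∧ ψ (Sum.inl u) ≠ Sum.inl u) k := by
  have hdd : ∀ k (ψ : Perm (LL B (k + 1))), At (GG Γ n) (rr u) 0 _ ψ →
      GG Γ n _ (d ψ) → ψ (Sum.inl u) ≠ Sum.inl u →
      d ψ (Sum.inl u) ≠ Sum.inl u := by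
    intro k ψ h1 h2 h3 h4
    rcases h : ψ (Sum.inl u) with s | ⟨i, ε⟩
    · rw [d_apply_inl (v := Sum.inl s) h] at h4
      rw [h] at h3
      exact h3 (by simpa using h4)
    · obtain ⟨i', rfl⟩ := first_d h1.1 h2 h1.2 h
      rw [d_apply_inl (v := Sum.inr (i', ε)) h] at h4
      simp at h4
  refine Ex.of_index (τ := ty u) ?_ ?_ (ty_act u) ?_ (Nat.card B + 1) (fun ψ _ => ty_lt u k ψ) ?_
  · intro k π e ψ
    simp only [TR_inv Γ n u 0 k π e ψ, Ne, eq_inl_act]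
  · intro k ψ h h'
    have h1 := At.conv (GG_conv Γ n) _ (rr_mono Γ n u) 0 k ψ h.1 h'.1
    exact ⟨h1, hdd _ _ h.1 h1.1 h.2⟩
  · intro k ψ h1 h2
    exact (ty_d h1.1.1 h2.1.1 h1.1.2).le
  · intro r hr
    rcases Nat.eq_zero_or_pos r with rfl | hpos
    · refine Ex.congr (T := TN Γ n u) ?_ hN
      intro k ψ
      constructor
      · rintro ⟨⟨⟨h1, h2⟩, _⟩, h3⟩
        exact ⟨h1, h2, chord_of_ty h3⟩
      · rintro ⟨h1, h2, i, ε, h3⟩
        exact ⟨⟨⟨h1, h2⟩, by rw [h3]; simp⟩, ty_inr h3⟩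
    · have hr' : r - 1 < Nat.card B := by omega
      set s : B := (Finite.equivFin B).symm ⟨r - 1, hr'⟩ with hs
      by_cases hsu : s = u
      · apply Ex.empty
        rintro ψ ⟨⟨⟨h1, h2⟩, h4⟩, h3⟩
        obtain ⟨s', hs'⟩ := side_of_ty (u := u) (ψ := ψ) (by omega)
        apply h4
        rw [hs']
        congr 1
        rw [ty_inl hs'] at h3
        rw [← hsu, hs, Equiv.eq_symm_apply]
        apply Fin.ext
        show _ = r - 1
        omega
      refine Ex.congr (T := TS Γ n u s) ?_ (hS s hsu)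
      intro k ψ
      constructor
      · rintro ⟨⟨⟨h1, h2⟩, _⟩, h3⟩
        obtain ⟨s', hs'⟩ := side_of_ty (u := u) (ψ := ψ) (by omega)
        refine ⟨h1, ?_⟩
        rw [hs']
        congr 1
        rw [ty_inl hs'] at h3
        rw [hs, Equiv.eq_symm_apply]
        apply Fin.ext
        show _ = r - 1
        omega
      · rintro ⟨h1, h2⟩
        refine ⟨⟨⟨h1, rr_inl h2⟩, ?_⟩, ?_⟩
        · rw [h2]; simpa using hsu
        rw [ty_inl h2, hs]
        simp only [Equiv.apply_symm_apply]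
        omega

theorem TF_closed (Γ : SimpleGraph B) (n : ℕ) (u : B) : Closed (GG Γ n) (TF Γ n u) :=
  fun _ _ _ h2 h3 => ⟨h3, iso_d h2.2⟩

theorem star_ex {Γ : SimpleGraph B} {n : ℕ} {u : B} {k : ℕ}
    (hF : KillFrom (GG Γ n) (fun _ _ => False) (TF Γ n u) k) (hN : Ex (TN Γ n u) k)
    (hS : ∀ s, s ≠ u → Ex (TS Γ n u s) k)
    (hr : ∀ r, 1 ≤ r → Ex (At (GG Γ n) (rr u) r) k) : Ex (GG Γ n) k := by
  refine Ex.of_kill (C0 := fun _ _ => False) ?_ (fun _ h => h)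
  have h1 : KillFrom (GG Γ n) (TF Γ n u) (fun k ψ => rr u k ψ < 1) k := by
    refine KillFrom.step (GG_inv _ _) (GG_conv _ _) (TF_inv _ _ _) ?_ ?_ ?_ ?_
      (TF_closed _ _ _) ?_ (T0_ex' hN hS)
    · intro k π e ψ
      simp only [TR_inv Γ n u 0 k π e ψ, Ne, eq_inl_act]
    · intro k ψ h; exact h.1.1
    · intro k ψ h h2; exact h.2 h2.2
    · intro ψ h1 h2
      by_cases h3 : ψ (Sum.inl u) = Sum.inl u
      · exact Or.inl ⟨h1, h3⟩
      · exact Or.inr ⟨⟨h1, by omega⟩, h3⟩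
    · intro k ψ h1 h2
      by_cases h3 : d ψ (Sum.inl u) = Sum.inl u
      · exact Or.inl ⟨h2, h3⟩
      · refine Or.inr ⟨⟨h2, ?_⟩, h3⟩
        have h4 := rr_mono Γ n u k ψ h1.1.1 h2
        have h5 : rr u (k + 1) ψ = 0 := h1.1.2
        omega
  have h2 := killFrom_index (GG_inv Γ n) (GG_conv Γ n) (rr u) (rr_act u) (rr_mono Γ n u) 1 (k + 1)
    (fun r h _ => hr r h)
  exact ((hF.trans h1).trans h2).mono (fun ψ h => h)
    (fun ψ h _ => Nat.lt_succ_of_le (rr_le u k ψ))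

/-! ### the graph with one edge -/

/-- the graph with the edge `x`-`y` -/
def ED (x y : B) : SimpleGraph B where
  Adj a b := a ≠ b ∧ ((a = x ∧ b = y) ∨ (a = y ∧ b = x))
  symm := by
    constructor
    rintro a b ⟨h1, h2⟩
    exact ⟨Ne.symm h1, h2.elim (fun h => Or.inr ⟨h.2, h.1⟩) (fun h => Or.inl ⟨h.2, h.1⟩)⟩
  loopless := by
    constructor
    rintro a ⟨h, _⟩
    exact h rfl

theorem ED_adj {x y a b : B} : (ED x y).Adj a b ↔ a ≠ b ∧ ((a = x ∧ b = y) ∨ (a = y ∧ b = x)) :=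
  Iff.rfl

theorem ED_edge {x y : B} (h : x ≠ y) : (ED x y).Adj x y := ⟨h, Or.inl ⟨rfl, rfl⟩⟩

theorem ED_thr (x y : B) : Thr (ED x y) := by
  intro a b
  by_cases hb : b = x ∨ b = y
  · by_cases ha : a = x ∨ a = y
    · by_cases hab : a = b
      · subst hab; left; intro z h1 _; exact h1
      left
      rintro z ⟨h1, h2⟩ h3
      exfalso
      rcases h2 with ⟨rfl, rfl⟩ | ⟨rfl, rfl⟩
      · rcases hb with rfl | rfl
        · exact hab rfl
        · exact h3 rfl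
      · rcases hb with rfl | rfl
        · exact h3 rfl
        · exact hab rfl
    · left
      rintro z ⟨_, h2⟩ _
      exact absurd (h2.elim (fun h => Or.inl h.1) (fun h => Or.inr h.1)) ha
  · right
    rintro z ⟨_, h2⟩ _
    exact absurd (h2.elim (fun h => Or.inl h.1) (fun h => Or.inr h.1)) hb

theorem ED_cliqueFree (x y : B) : (ED x y).CliqueFree 3 := by
  classical
  intro s hs
  have hsub : s ⊆ {x, y} := by
    intro a ha
    have h1 : 1 < s.card := by rw [hs.2]; omega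
    obtain ⟨b, hb, hba⟩ := Finset.exists_mem_ne h1 a
    have h2 := (hs.1 ha hb (Ne.symm hba)).2
    rcases h2 with ⟨rfl, _⟩ | ⟨rfl, _⟩ <;> simp
  have h1 := Finset.card_le_card hsub
  rw [hs.2] at h1
  have h2 : ({x, y} : Finset B).card ≤ 2 := Finset.card_le_two
  omega

/-! ### at least two other sides -/

section two

variable {B' : Type} [DecidableEq B'] [Finite B'] (e : B ≃ Option B')

theorem F2_iff {Γ : SimpleGraph B} {n : ℕ}
    (hst : ∀ a b, Γ.Adj a b → a = e.symm none ∨ b = e.symm none)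
    {x' y' : B'} (hxy : x' ≠ y') (ρ : Perm (LL B' k)) :
    (TF Γ n (e.symm none) k (fx (E2 e k) (ρ * SB (swap x' y'))) ∧
      SF (fx (E2 e k) (ρ * SB (swap x' y'))) (Sum.inl (e.symm (some x')))
        (Sum.inl (e.symm (some y')))) ↔ GG (ED x' y') n k ρ := by
  have e1 : SF (fx (E2 e k) (ρ * SB (swap x' y'))) (Sum.inl (e.symm (some x')))
        (Sum.inl (e.symm (some y'))) ↔ ¬ SF ρ (Sum.inl x') (Sum.inl y') := by
    rw [← SF_swap_iff hxy]
    exact SF_fxS e _ (Sum.inl x') (Sum.inl y')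
  have h0 : fx (E2 e k) (ρ * SB (swap x' y')) (Sum.inl (e.symm none)) =
      Sum.inl (e.symm none) := fx_hole _ _
  rw [e1]
  constructor
  · rintro ⟨⟨⟨h1, h2, h3⟩, _⟩, h4⟩
    refine ⟨(good_mul_swap_iff _ _ _).1 ((good_fxS e _).1 h1), ?_, ?_⟩
    · rw [fc_fxS] at h2
      have := fc_merge h4
      omega
    · rintro a b ⟨_, ⟨rfl, rfl⟩ | ⟨rfl, rfl⟩⟩ h
      · exact h4 h
      · exact h4 h.symm
  · rintro ⟨h1, h2, h3⟩
    have h4 := h3 x' y' (ED_edge hxy)
    refine ⟨TF_of_iso hst ((good_fxS e _).2 ((good_mul_swap_iff _ _ _).2 h1)) ?_ h0, h4⟩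
    rw [fc_fxS]
    have := fc_merge h4
    omega

theorem F2_ex {Γ : SimpleGraph B} {n k : ℕ}
    (hst : ∀ a b, Γ.Adj a b → a = e.symm none ∨ b = e.symm none)
    {x' y' : B'} (hxy : x' ≠ y') (hex : Ex (GG (ED x' y') n) k) :
    Ex (fun k ψ => TF Γ n (e.symm none) k ψ ∧
      SF ψ (Sum.inl (e.symm (some x'))) (Sum.inl (e.symm (some y')))) k := by
  have hSB : ∀ k, (SB (k := k) (swap x' y')) * SB (swap x' y') = 1 := by
    intro k; rw [← SB_mul, swap_mul_self, SB_one]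
  refine sideIso (fun k ρ => fx (E2 e k) (ρ * SB (swap x' y')))
    (fun k ψ => rm (E2 e k) ψ * SB (swap x' y')) _ (GG (ED x' y') n) k
    ?_ (GG_inv _ _) ?_ ?_ ?_ ?_ ?_ ?_ ?_ hex
  · intro k π e' ψ
    simp only [TF_inv Γ n (e.symm none) k π e' ψ, SF_act_inl]
  · intro k π e' ρ
    simp only [← act_mul_SB, act_fxS]
  · intro k ρ
    simp only [← d_mul_SB, d_fxS]
  · intro k ρ
    simp only [rm_fx]
    rw [mul_assoc, hSB, mul_one]
  · intro k ψ h
    show fx (E2 e k) (rm (E2 e k) ψ * SB (swap x' y') * SB (swap x' y')) = ψ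
    rw [mul_assoc, hSB, mul_one]
    exact fx_rm_fixed _ _ h.1.2
  · intro k ρ h; exact (F2_iff e hst hxy ρ).1 h
  · intro k ρ h _ _; exact (F2_iff e hst hxy ρ).2 h
  · intro k ρ _ h; exact (F2_iff e hst hxy (d ρ)).2 h

theorem killTF_two {Γ : SimpleGraph B} {n k : ℕ}
    (hst : ∀ a b, Γ.Adj a b → a = e.symm none ∨ b = e.symm none)
    {x' y' : B'} (hxy : x' ≠ y') (hex : Ex (GG (ED x' y') n) k) :
    KillFrom (GG Γ n) (fun _ _ => False) (TF Γ n (e.symm none)) k := by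
  set u := e.symm none with hu
  set x := e.symm (some x') with hx
  set y := e.symm (some y') with hy
  have hux : u ≠ x := by simp [hu, hx]
  have huy : u ≠ y := by simp [hu, hy]
  have hxy' : x ≠ y := by simpa [hx, hy] using hxy
  have h1 : KillFrom (GG Γ n) (fun _ _ => False) (F1 Γ n u x y) k := by
    refine KillFrom.step' (T := F1 Γ n u x y) (GG_inv _ _) (GG_conv _ _) ?_ ?_ ?_ ?_ ?_ ?_
    · intro k π e ψ; exact Iff.rfl
    · intro k ψ h; exact h.1.1
    · intro k ψ _ h; exact h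
    · intro ψ _ h; exact Or.inr h
    · intro k ψ _ h _; exact h
    · intro A _ c hc _
      exact F1_cob hux huy hxy' hst hc
  have h2 : KillFrom (GG Γ n) (F1 Γ n u x y) (TF Γ n u) k := by
    refine KillFrom.step (GG_inv _ _) (GG_conv _ _) (F1_inv _ _ _ _ _) ?_ ?_ ?_ ?_ ?_ ?_
      (F2_ex e hst hxy hex)
    · intro k π e' ψ
      simp only [TF_inv Γ n (e.symm none) k π e' ψ, SF_act_inl]
    · intro k ψ h; exact h.1.1
    · intro k ψ h h2; exact h2.2 h.2
    · intro ψ _ h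
      by_cases h3 : SF ψ (Sum.inl x) (Sum.inl y)
      · exact Or.inr ⟨h, h3⟩
      · exact Or.inl ⟨h, h3⟩
    · intro k ψ h1 h2 h3
      exact ⟨TF_closed _ _ _ _ _ h1 h2.1 h3, fun h => h2.2 (SF_of_d (GG_sp h1 h3) h)⟩
    · intro k ψ h1 h3
      have h4 := TF_closed _ _ _ _ _ h1.1.1 h1.1 h3
      by_cases h5 : SF (d ψ) (Sum.inl x) (Sum.inl y)
      · exact Or.inr ⟨h4, h5⟩
      · exact Or.inl ⟨h4, h5⟩
  exact h1.trans h2

end two

end Pool.Agent.W604
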