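import Mathlib
import Pool.Agent.W604.Star

set_option autoImplicit false
set_option linter.unusedSectionVars false

/-!
The case of two sides: killing the part where one is isolated.
-/

namespace Pool.Agent.W604

open Equiv

variable {B : Type} {k : ℕ} [DecidableEq B] [Finite B] {A : Type} [AddCommGroup A]

/-- the side `none` inserted after the letter `v` -/
def iL (v : LL B k) (ψ : Perm (LL B k)) : Perm (LL (Option B) k) :=
  ins (E2 (Equiv.refl (Option B)) k) ψ v

theorem rm_iL (v : LL B k) (ψ : Perm (LL B k)) :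
    rm (E2 (Equiv.refl (Option B)) k) (iL v ψ) = ψ := rm_ins _ _ _

theorem act_iL (π : Perm (Fin k)) (e' : Fin k → Bool) (v : LL B k) (ρ : Perm (LL B k)) :
    iL (W π e' v) (act π e' ρ) = act π e' (iL v ρ) := by
  unfold act iL ins
  rw [fx_mul, fx_mul, fx_inv, fx_E2_W]
  set s : Perm (LL (Option B) k) := W π e' with hs
  have h1 : s (hole (E2 (Equiv.refl (Option B)) k)) = hole (E2 (Equiv.refl (Option B)) k) := rfl
  have h2 : s (lft (E2 (Equiv.refl (Option B)) k) v) =
      lft (E2 (Equiv.refl (Option B)) k) (W π e' v) := by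
    rcases v with b | ⟨i, ε⟩ <;> rfl
  have h3 : s * swap (hole (E2 (Equiv.refl (Option B)) k))
      (lft (E2 (Equiv.refl (Option B)) k) v) * s⁻¹ =
      swap (hole (E2 (Equiv.refl (Option B)) k))
        (lft (E2 (Equiv.refl (Option B)) k) (W π e' v)) := by
    rw [Equiv.mul_swap_eq_swap_mul, h1, h2]; group
  rw [← h3]
  group

theorem d_iL (v : LL B k) (ρ : Perm (LL B (k + 1))) : iL v (d ρ) = d (iL (j0 v) ρ) := by
  refine Ind.unique j0_inj ?_ (ind_d _)
  refine Ind.mul (Ind.fx (ind_d ρ) _ _ ?_ ?_) ?_ ?_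
  · rfl
  · rintro (b | ⟨i, ε⟩) <;> rfl
  · intro w
    have h1 : hole (E2 (Equiv.refl (Option B)) (k + 1)) =
      j0 (hole (E2 (Equiv.refl (Option B)) k)) := rfl
    have h2 : lft (E2 (Equiv.refl (Option B)) (k + 1)) (j0 v) =
      j0 (lft (E2 (Equiv.refl (Option B)) k) v) := by
      rcases v with b | ⟨i, ε⟩ <;> rfl
    rw [h1, h2]
    exact j0_inj.swap_apply _ _ _
  · intro x hx
    rw [swap_apply_of_ne_of_ne]
    · rintro rfl; exact hx ⟨hole (E2 (Equiv.refl (Option B)) k), rfl⟩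
    · rintro rfl
      refine hx ⟨lft (E2 (Equiv.refl (Option B)) k) v, ?_⟩
      rcases v with b | ⟨i, ε⟩ <;> rfl

theorem iL_mul_bar (v : LL B k) (ρ : Perm (LL B k)) : iL v ρ * bar = iL (bar v) (ρ * bar) := by
  unfold iL ins
  set E := E2 (Equiv.refl (Option B)) k with hE
  rw [bar_E2 (Equiv.refl (Option B)), fx_mul]
  have h1 : fx E bar (hole E) = hole E := fx_hole _ _
  have h2 : fx E bar (lft E (bar v)) = lft E v := by
    rw [fx_lft, ← Perm.mul_apply, bar_mul_bar]; rfl
  have hc : fx E bar * swap (hole E) (lft E (bar v)) = swap (hole E) (lft E v) * fx E bar := by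
    rw [Equiv.mul_swap_eq_swap_mul, h1, h2]
  rw [mul_assoc, mul_assoc, hc]

theorem fc_iL (v : LL B k) (ρ : Perm (LL B k)) : fc (iL v ρ) = fc ρ := by
  unfold fc; rw [iL_mul_bar]; exact cyc_ins _ _ _

theorem SF_iL (v : LL B k) (ρ : Perm (LL B k)) (x y : LL B k) :
    SF (iL v ρ) (lft (E2 (Equiv.refl (Option B)) k) x) (lft (E2 (Equiv.refl (Option B)) k) y) ↔
      SF ρ x y := by
  unfold SF; rw [iL_mul_bar]; exact sameCycle_ins _ _ _ _ _

theorem SF_iL_hole (v : LL B k) (ρ : Perm (LL B k)) (y : LL B k) :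
    SF (iL v ρ) (Sum.inl none) (lft (E2 (Equiv.refl (Option B)) k) y) ↔ SF ρ (bar v) y := by
  unfold SF; rw [iL_mul_bar]; exact sameCycle_ins_hole _ _ _ _

theorem good_iL (v : LL B k) {ρ : Perm (LL B k)} (h : Good ρ) : Good (iL v ρ) := by
  intro x
  rcases eq_hole_or_lft (E2 (Equiv.refl (Option B)) k) x with rfl | ⟨w, rfl⟩
  · exact ⟨_, Perm.SameCycle.refl _ _⟩
  · obtain ⟨b', hb'⟩ := h w
    exact ⟨some b', (sameCycle_ins (E2 (Equiv.refl (Option B)) k) ρ v _ _).2 hb'⟩

/-- chord from `u` to the first letter of `x` -/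
def th (u x : B) (ψ : Perm (LL B k)) : Perm (LL B (k + 1)) := ins1 u (iL (ψ (Sum.inl x)) ψ)

theorem act_th (u x : B) (π : Perm (Fin k)) (e : Fin k → Bool) (ψ : Perm (LL B k)) :
    th u x (act π e ψ) = act (lp π) (Fin.cons false e) (th u x ψ) := by
  unfold th
  rw [act_inl, act_iL, act_ins1]

theorem ASG.th {F : Gr B A} (h : ASG F) (u x : B) : ASG (fun i χ => F (i + 1) (th u x χ)) := by
  intro j π e ψ
  show F (j + 1) (Pool.Agent.W604.th u x (act π e ψ)) = _
  rw [act_th, h, lp_sign]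

section

variable {u x : B} {χ : Perm (LL B k)}

theorem th_aux {p : Fin k × Bool} (hu : χ (Sum.inl u) = Sum.inl u)
    (hx : χ (Sum.inl x) = Sum.inr p) :
    ¬ SF (iL (χ (Sum.inl x)) χ) (Sum.inl (some u)) (Sum.inl none) := by
  intro h
  have h1 := (SF_iL_hole (χ (Sum.inl x)) χ (Sum.inl u)).1 h.symm
  have h2 := SF_of_fixed hu h1.symm
  rw [hx] at h2
  rcases p with ⟨i, ε⟩
  simp at h2

theorem th_fc {p : Fin k × Bool} (hu : χ (Sum.inl u) = Sum.inl u)
    (hx : χ (Sum.inl x) = Sum.inr p) : fc χ = fc (th u x χ) + 1 := by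
  unfold th
  rw [fc_ins1, ← fc_merge (th_aux hu hx), fc_iL]

theorem th_good (hg : Good χ) : Good (th u x χ) := by
  refine good_ins1_of (good_iL _ hg) x ?_
  refine (sameCycle_ins_hole (E2 (Equiv.refl (Option B)) k) χ _ (Sum.inl x)).2 ?_
  exact (sameCycle_apply χ _).symm

theorem not_sf_of_rr {x : B} {i : Fin k} {ε : Bool} (h : rr x k χ = 0)
    (hx : χ (Sum.inl x) = Sum.inr (i, ε)) : ¬ SF χ (Sum.inr (i, true)) (Sum.inr (i, false)) := by
  cases k with
  | zero => exact i.elim0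
  | succ k =>
    intro hs
    rw [rr_sp hx ((Sp_nrm i ε χ).2 hs)] at h
    omega

theorem not_sf_of_rr' {x : B} {i : Fin k} {ε : Bool} (h : rr x k χ = 0)
    (hx : χ (Sum.inl x) = Sum.inr (i, ε)) : ¬ SF χ (bar (χ (Sum.inl x))) (Sum.inl x) := by
  intro hs
  have h1 := sameCycle_apply (χ * bar) (Sum.inl x)
  rw [Perm.mul_apply, bar_inl] at h1
  have h2 : SF χ (bar (χ (Sum.inl x))) (χ (Sum.inl x)) := hs.trans h1
  rw [hx, bar_inr] at h2
  apply not_sf_of_rr h hx
  cases ε
  · exact h2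
  · exact h2.symm

theorem th_sf {i : Fin k} {ε : Bool} (hux : u ≠ x) (hu : χ (Sum.inl u) = Sum.inl u)
    (hx : χ (Sum.inl x) = Sum.inr (i, ε)) (h : rr x k χ = 0) :
    ¬ SF (th u x χ) (Sum.inl u) (Sum.inl x) := by
  intro hs
  have h1 := (SF_ins1 u (iL (χ (Sum.inl x)) χ) (Sum.inl (some u)) (Sum.inl (some x))).1 hs
  rw [SF_merge (th_aux hu hx)] at h1
  have key : ¬ SF (iL (χ (Sum.inl x)) χ) (Sum.inl (some u)) (Sum.inl (some x)) := by
    intro h2
    have h3 := (SF_iL (χ (Sum.inl x)) χ (Sum.inl u) (Sum.inl x)).1 h2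
    have := SF_of_fixed hu h3
    simp only [Sum.inl.injEq] at this
    exact hux this.symm
  rcases h1 with h1 | ⟨_, h1 | h1⟩
  · exact key h1
  · exact key h1
  · exact not_sf_of_rr' h hx ((SF_iL_hole _ χ (Sum.inl x)).1 h1)

theorem th_not_sp {χ : Perm (LL B (k + 1))} {ε : Bool} (hu : χ (Sum.inl u) = Sum.inl u)
    (hx : χ (Sum.inl x) = Sum.inr (0, ε)) (h : rr x (k + 1) χ = 0) :
    ¬ Sp (act (swap 0 1) (fun _ => false) (th u x χ)) := by
  unfold Sp
  have e1 : ∀ ε : Bool, (Sum.inr (0, ε) : LL B (k + 2)) =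
      W (swap 0 1) (fun _ => false) (Sum.inr (1, ε)) := by
    intro ε
    rw [W_inr]; simp
  rw [e1, e1, SF_act]
  intro hs
  have h1 := (SF_ins1 u (iL (χ (Sum.inl x)) χ) (Sum.inr (0, true)) (Sum.inr (0, false))).1 hs
  rw [SF_merge (th_aux hu hx)] at h1
  have key : ∀ p, ¬ SF (iL (χ (Sum.inl x)) χ) (Sum.inl (some u)) (Sum.inr p) := by
    intro p h2
    have h3 := (SF_iL (χ (Sum.inl x)) χ (Sum.inl u) (Sum.inr p)).1 h2
    have := SF_of_fixed hu h3
    simp at this
  have key2 : ¬ SF (iL (χ (Sum.inl x)) χ) (Sum.inr (0, true)) (Sum.inr (0, false)) := by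
    intro h2
    exact not_sf_of_rr h hx ((SF_iL _ χ (Sum.inr (0, true)) (Sum.inr (0, false))).1 h2)
  rcases h1 with h1 | ⟨h1 | h1, h2 | h2⟩
  · exact key2 h1
  · exact key _ h1
  · exact key _ h1
  · exact key _ h2
  · exact key2 (h1.symm.trans h2)

end

/-- the part where `u` is isolated and the first letter at `x` leads to another face -/
def N0 (Γ : SimpleGraph B) (n : ℕ) (u x : B) : Fam B := fun k ψ =>
  TF Γ n u k ψ ∧ rr x k ψ = 0 ∧ ∃ i ε, ψ (Sum.inl x) = Sum.inr (i, ε)

theorem N0_inv (Γ : SimpleGraph B) (n : ℕ) (u x : B) : Inv (N0 Γ n u x) := by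
  intro k π e ψ
  unfold N0
  rw [TF_inv, rr_act, exists_chord_act]

theorem N0_cob {Γ : SimpleGraph B} {n : ℕ} {u x : B} (hux : u ≠ x)
    (hB : ∀ b, b = u ∨ b = x) {c : Perm (LL B k) → A}
    (hc : Coc (GG Γ n) c) : Cob (N0 Γ n u x) (cut (N0 Γ n u x) c) := by
  have hst : ∀ a b, Γ.Adj a b → a = u ∨ b = u := by
    intro a b hab
    rcases hB a with h | rfl
    · exact Or.inl h
    · rcases hB b with h | rfl
      · exact Or.inr h
      · exact absurd hab (Γ.loopless.irrefl _)
  set C := sg c with hC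
  have hCas : ASG C := ASG.sg hc.as
  set H : Gr B A := fun i χ => C (i + 1) (th u x χ) with hH
  have hHas : ASG H := hCas.th u x
  set Wc : Gr B A := fun i => cut (N0 Γ n u x) (H i) with hW
  have hWas : ASG Wc := fun j => (hHas j).cut (N0_inv _ _ _ _)
  have hfin : ∀ j (ψ : Perm (LL B j)), N0 Γ n u x j ψ → C j ψ = DD Wc j ψ := by
    intro j ψ hψ
    obtain ⟨⟨⟨hg, hn, hadj⟩, hu⟩, hr, i0, ε0, hx⟩ := hψ
    have e1 : DD C (j + 1) (th u x ψ) = 0 := by
      apply sg_coc hc
      have h1 := th_fc hu hx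
      refine GG_of_iso hst (th_good hg) (by omega) ?_
      intro b hb
      rcases hB b with h | rfl
      · exact h
      · exact absurd hb (th_sf hux hu hx hr)
    unfold th at e1
    rw [DD_ins1 hCas, rm_iL, sub_eq_zero] at e1
    rw [e1]
    cases j with
    | zero => rfl
    | succ j =>
      rw [DD_succ, DD_succ]
      unfold dl
      refine Finset.sum_congr rfl fun i _ => ?_
      congr 1
      have hψ' : N0 Γ n u x (j + 1) (act (swap 0 i) (fun _ => false) ψ) :=
        (N0_inv Γ n u x _ _ _ ψ).2 ⟨⟨⟨hg, hn, hadj⟩, hu⟩, hr, i0, ε0, hx⟩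
      rw [← act_iL, ← act_inl]
      set ψ' := act (swap 0 i) (fun _ => false) ψ with hψ'def
      obtain ⟨hT', hr', i1, ε1, hx'⟩ := hψ'
      have hg' := hT'.1.1
      have hn' := hT'.1.2.1
      have hu' := hT'.2
      show C (j + 1) (ins1 u (d (iL (ψ' (Sum.inl x)) ψ'))) = cut (N0 Γ n u x) (H j) (d ψ')
      revert hx'
      refine Fin.cases ?_ (fun i2 => ?_) i1
      · intro hx'
        have hns : ¬ Sp ψ' := not_sf_of_rr hr' hx'
        rw [cut_of_not]
        · rw [← d_swap_ins1]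
          apply sg_supp hc.supp
          intro h
          have h1 := th_not_sp hu' hx' hr'
          have h2 := fc_d_of_not_Sp ((good_act (swap 0 1) (fun _ => false) _).2
            (th_good (u := u) (x := x) hg')).ni h1
          rw [fc_act] at h2
          have h3 := th_fc hu' hx'
          have h4 := h.2.1
          unfold th at h2 h3
          omega
        · rintro ⟨⟨⟨_, h, _⟩, _⟩, _⟩
          have := fc_d_of_not_Sp hg'.ni hns
          omega
      · intro hx'
        have hdx : d ψ' (Sum.inl x) = Sum.inr (i2, ε1) := d_apply_inl (v := Sum.inr (i2, ε1)) hx'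
        have e2 : d (iL (ψ' (Sum.inl x)) ψ') = iL (d ψ' (Sum.inl x)) (d ψ') := by
          rw [hdx, d_iL, hx']; rfl
        rw [e2]
        by_cases h : N0 Γ n u x j (d ψ')
        · rw [cut_of h]; rfl
        · rw [cut_of_not h]
          have hns : ¬ Sp ψ' := by
            intro hs
            apply h
            refine ⟨⟨GG_d hT'.1 hs, iso_d hu'⟩, ?_, i2, ε1, hdx⟩
            have := rr_d_le x j ψ' hg' hs
            omega
          apply sg_supp hc.supp
          intro h5
          have h1 := fc_d_of_not_Sp hg'.ni hns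
          have h2 : fc (d ψ') = fc (th u x (d ψ')) + 1 := th_fc (iso_d hu') hdx
          have h3 := h5.2.1
          unfold th at h2
          omega
  cases k with
  | zero =>
    intro ψ
    by_cases h : N0 Γ n u x 0 ψ
    · rw [cut_of h]
      have := hfin 0 ψ h
      rw [hC, sg_self] at this
      exact this
    · exact cut_of_not h
  | succ k =>
    refine ⟨Wc k, hWas k, supp_cut _ _, ?_⟩
    intro ψ hψ
    rw [cut_of hψ]
    have := hfin (k + 1) ψ hψ
    rw [hC, sg_self] at this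
    exact this

/-! ### isolated sides and the number of faces -/

theorem cyc_le {L : Type*} [Finite L] (π : Perm L) : cyc π ≤ Nat.card L := by
  unfold cyc
  exact Nat.card_le_card_of_surjective _ Quotient.mk_surjective

theorem fc_le_of_fixed {ψ : Perm (LL B k)} (hg : Good ψ)
    (h : ∀ b : B, ψ (Sum.inl b) = Sum.inl b) : k = 0 ∧ fc ψ ≤ Nat.card B := by
  have hk : k = 0 := by
    rcases Nat.eq_zero_or_pos k with h0 | hpos
    · exact h0
    · exfalso
      obtain ⟨b, hb⟩ := hg (Sum.inr (⟨0, hpos⟩, true))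
      obtain ⟨n, hn⟩ := hb.symm
      rw [Perm.zpow_apply_eq_self_of_apply_eq_self (h b)] at hn
      simp at hn
  subst hk
  refine ⟨rfl, ?_⟩
  unfold fc
  refine (cyc_le _).trans ?_
  rw [Nat.card_sum]
  simp

section

variable {B' : Type} [DecidableEq B'] [Finite B'] (e : B ≃ Option B')

theorem rr_fxS (b' : B') (ρ : Perm (LL B' k)) :
    rr (e.symm (some b')) k (fx (E2 e k) ρ) = rr b' k ρ := by
  rw [← rr_rmS e b' (fx (E2 e k) ρ), rm_fx]
  intro h
  have := SF_of_fixed (u := e.symm none) (fx_hole _ _) h.symm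
  simp at this

/-- the isolated part read at another side -/
theorem TF_at_ex {Γ : SimpleGraph B} {n k r : ℕ} (x' : B')
    (hex : Ex (At (GG (GR e Γ) n) (rr x') r) k) :
    Ex (At (TF Γ (n + 1) (e.symm none)) (rr (e.symm (some x'))) r) k := by
  have key : ∀ k (ρ : Perm (LL B' k)), At (TF Γ (n + 1) (e.symm none)) (rr (e.symm (some x'))) r k
      (fx (E2 e k) ρ) ↔ At (GG (GR e Γ) n) (rr x') r k ρ := by
    intro k ρ
    unfold At
    rw [TF_fx, rr_fxS]
  refine sideIso (fun k ρ => fx (E2 e k) ρ) (fun k ψ => rm (E2 e k) ψ) _ _ k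
    (At.inv (TF_inv _ _ _) _ (rr_act _) _) (TR_inv _ _ _ _) ?_ ?_ ?_ ?_ ?_ ?_ ?_ hex
  · intro k π e' ρ; exact act_fxS e π e' ρ
  · intro k ρ; exact d_fxS e ρ
  · intro k ρ; exact rm_fx _ _
  · intro k ψ h; exact fx_rm_fixed _ _ h.1.2
  · intro k ρ h; exact (key _ ρ).1 h
  · intro k ρ h _ _; exact (key _ ρ).2 h
  · intro k ρ _ h; exact (key _ (d ρ)).2 h

theorem killTF_one {Γ : SimpleGraph B} {n k : ℕ} (x' : B') (hB' : ∀ b : B', b = x')
    (hk : k + 3 ≤ n + 1)
    (hex : ∀ r, 1 ≤ r → Ex (At (GG (GR e Γ) n) (rr x') r) k) :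
    KillFrom (GG Γ (n + 1)) (fun _ _ => False) (TF Γ (n + 1) (e.symm none)) k := by
  set u := e.symm none with hu
  set x := e.symm (some x') with hx
  have hux : u ≠ x := by simp [hu, hx]
  have hB : ∀ b, b = u ∨ b = x := by
    intro b
    rcases side_cases e b with h | ⟨b', h⟩
    · exact Or.inl h
    · right; rw [h, hB' b']
  have h1 : KillFrom (GG Γ (n + 1)) (fun _ _ => False) (fun k ψ => TF Γ (n + 1) u k ψ ∧
      rr x k ψ < 1 ∧ ∃ i ε, ψ (Sum.inl x) = Sum.inr (i, ε)) k := by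
    refine KillFrom.step' (T := N0 Γ (n + 1) u x) (GG_inv _ _) (GG_conv _ _) ?_ ?_ ?_ ?_ ?_ ?_
    · intro k π e ψ; exact Iff.rfl
    · intro k ψ h; exact h.1.1
    · intro k ψ _ h; exact h
    · intro ψ _ h; exact Or.inr ⟨h.1, by have := h.2.1; omega, h.2.2⟩
    · intro k ψ _ h _; exact h
    · intro A _ c hc _
      exact N0_cob hux hB hc
  have hIT : Inv (TF Γ (n + 1) u) := TF_inv _ _ _
  have h2 := killFrom_index' (GG_inv Γ (n + 1)) (GG_conv Γ (n + 1)) hIT
    (fun k ψ h => h.1) (TF_closed _ _ _) (rr x) (rr_act x)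
    (fun k ψ h1 h2 => rr_mono Γ (n + 1) x k ψ h1.1 h2.1) 1 (k + 1)
    (fun r h _ => TF_at_ex (Γ := Γ) e x' (hex r h))
  refine (h1.mono (C1' := fun k ψ => TF Γ (n + 1) u k ψ ∧ rr x k ψ < 1)
    (fun ψ h => h) ?_).trans (h2.mono (fun ψ h => h) ?_)
  · rintro ψ _ ⟨h3, h4⟩
    refine ⟨h3, h4, ?_⟩
    rcases h5 : ψ (Sum.inl x) with s | ⟨i, ε⟩
    · exfalso
      have hs : s = x := by
        rcases hB s with rfl | rfl
        · exfalso
          rw [← h3.2] at h5
          have := ψ.injective h5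
          simp only [Sum.inl.injEq] at this
          exact hux this.symm
        · rfl
      have h6 : ∀ b : B, ψ (Sum.inl b) = Sum.inl b := by
        intro b
        rcases hB b with rfl | rfl
        · exact h3.2
        · rw [h5, hs]
      obtain ⟨h7, h8⟩ := fc_le_of_fixed h3.1.1 h6
      have h9 : Nat.card B ≤ 2 := by
        have : Nat.card B = Nat.card (Option B') := Nat.card_congr e
        rw [this, Finite.card_option]
        have hs : Subsingleton B' := ⟨fun a b => (hB' a).trans (hB' b).symm⟩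
        have := Finite.card_le_one_iff_subsingleton.2 hs
        omega
      have := h3.1.2.1
      omega
    · exact ⟨i, ε, rfl⟩
  · intro ψ _ h
    exact ⟨h, Nat.lt_succ_of_le (rr_le x k ψ)⟩

end

end Pool.Agent.W604
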