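import Mathlib
import Pool.Agent.W604.One

set_option autoImplicit false
set_option linter.unusedSectionVars false

/-!
Exactness of the planar families with a threshold graph of separations.
-/

namespace Pool.Agent.W604

open Equiv

/-- exactness for threshold graphs with an edge, at `k` chords -/
def PA (k : ℕ) : Prop := ∀ (B : Type) [DecidableEq B] [Finite B] (Γ : SimpleGraph B) (w n : ℕ),
  Thr Γ → (∃ a b, Γ.Adj a b) → 2 ≤ w → Γ.CliqueFree (w + 1) → k + w < n → Ex (GG Γ n) k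

/-- the same for graphs on fewer vertices -/
def PL (k N : ℕ) : Prop := ∀ (B : Type) [DecidableEq B] [Finite B] (Γ : SimpleGraph B) (w n : ℕ),
  Nat.card B < N → Thr Γ → (∃ a b, Γ.Adj a b) → 2 ≤ w → Γ.CliqueFree (w + 1) → k + w < n →
  Ex (GG Γ n) k

/-- exactness of the parts -/
def PT (k : ℕ) : Prop := ∀ (B : Type) [DecidableEq B] [Finite B] (Γ : SimpleGraph B) (u : B)
  (w n r : ℕ), Thr Γ → Dom Γ u →
  ((1 ≤ r ∧ ∃ a b, Γ.Adj a b) ∨ (∃ a b, Γ.Adj a b ∧ a ≠ u ∧ b ≠ u)) →
  2 ≤ w → Γ.CliqueFree (w + 1) → k + w < n → Ex (At (GG Γ n) (rr u) r) k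

section

variable {B : Type} [DecidableEq B] [Finite B]

/-- removal of a side -/
noncomputable def eS (s : B) : B ≃ Option {b // b ≠ s} := (Equiv.optionSubtypeNe s).symm

@[simp] theorem eS_none (s : B) : (eS s).symm none = s := by simp [eS]
@[simp] theorem eS_some (s : B) (b : {b // b ≠ s}) : (eS s).symm (some b) = b.1 := by simp [eS]

theorem card_lt (s : B) : Nat.card {b // b ≠ s} < Nat.card B := by
  rw [Nat.card_congr (eS s), Finite.card_option]
  omega

/-- parts with a side as first letter -/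
theorem TS_ex_of {Γ : SimpleGraph B} {u s : B} {w n k : ℕ} (hL : PL k (Nat.card B)) (hT : Thr Γ)
    (hD : Dom Γ u) (hE : ∃ a b, Γ.Adj a b) (hw : 2 ≤ w) (hc : Γ.CliqueFree (w + 1))
    (hn : k + w < n) (hs : s ≠ u) : Ex (TS Γ n u s) k := by
  by_cases h : Γ.Adj u s
  · exact Ex.empty (fun ψ => TS_empty h ψ)
  · have hiso : ∀ a, ¬ Γ.Adj s a := fun a ha => h (hD s a ha hs)
    have h1 := TS_ex (Γ := Γ) (n := n) (k := k) (eS s) (by simpa using hiso)
      ⟨u, Ne.symm hs⟩ (by
        refine hL _ (GR (eS s) Γ) w n (card_lt s) (hT.gr _) ?_ hw (GR_cliqueFree' _ hc) hn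
        obtain ⟨a, b, hab⟩ := hE
        have ha : a ≠ s := by rintro rfl; exact hiso _ hab
        have hb : b ≠ s := by rintro rfl; exact hiso _ hab.symm
        exact ⟨⟨a, ha⟩, ⟨b, hb⟩, by simpa using hab⟩)
    simpa using h1

theorem three_le {Γ : SimpleGraph B} {u : B} {w : ℕ} (hD : Dom Γ u)
    (hE : ∃ a b, Γ.Adj a b ∧ a ≠ u ∧ b ≠ u) (hc : Γ.CliqueFree (w + 1)) (hw : 2 ≤ w) :
    3 ≤ w := by
  by_contra hw3
  have hw2 : w = 2 := by omega
  subst hw2
  obtain ⟨a, b, hab, ha, hb⟩ := hE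
  have h1 := hD a b hab ha
  have h2 := hD b a hab.symm hb
  exact hc {u, a, b} (SimpleGraph.is3Clique_triple_iff.2 ⟨h1, h2, hab⟩)

/-- the isolated part -/
theorem TF_ex_of {Γ : SimpleGraph B} {u : B} {w n k : ℕ} (hL : PL k (Nat.card B)) (hT : Thr Γ)
    (hD : Dom Γ u) (hE : ∃ a b, Γ.Adj a b ∧ a ≠ u ∧ b ≠ u) (hw : 2 ≤ w)
    (hc : Γ.CliqueFree (w + 1)) (hn : k + w < n) : Ex (TF Γ n u) k := by
  have hw3 := three_le hD hE hc hw
  obtain ⟨n, rfl⟩ : ∃ m, n = m + 1 := ⟨n - 1, by omega⟩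
  have h1 := TF_ex (Γ := Γ) (n := n) (k := k) (eS u) (by
    obtain ⟨w, rfl⟩ : ∃ m, w = m + 1 := ⟨w - 1, by omega⟩
    refine hL _ (GR (eS u) Γ) w n (card_lt u) (hT.gr _) ?_ (by omega)
      (GR_cliqueFree _ hw hc (by simpa using hD)) (by omega)
    obtain ⟨a, b, hab, ha, hb⟩ := hE
    exact ⟨⟨a, ha⟩, ⟨b, hb⟩, by simpa using hab⟩)
  simpa using h1

/-- the part leading to another face -/
theorem TN_ex_of {Γ : SimpleGraph B} {u : B} {w n k : ℕ} (hA : ∀ j < k, PA j) (hT : Thr Γ)
    (hD : Dom Γ u) (hw : 2 ≤ w) (hc : Γ.CliqueFree (w + 1)) (hn : k + w < n) :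
    Ex (TN Γ n u) k := by
  refine TN_ex (fun k' n' hk hn' => ?_)
  subst hk hn'
  exact hA k' (by omega) _ (GN Γ u) w n' (hT.gn hD) ⟨none, some u, by simp⟩ hw
      (GN_cliqueFree hw hc) (by omega)

end

theorem PT_r {k : ℕ} (hT : ∀ j < k, PT j) (B : Type) [DecidableEq B] [Finite B]
    (Γ : SimpleGraph B) (u : B) (w n r : ℕ) (h1 : Thr Γ) (hD : Dom Γ u) (hr : 1 ≤ r)
    (hE : ∃ a b, Γ.Adj a b) (hw : 2 ≤ w) (hc : Γ.CliqueFree (w + 1)) (hn : k + w < n) :
    Ex (At (GG Γ n) (rr u) r) k := by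
  obtain ⟨r, rfl⟩ : ∃ m, r = m + 1 := ⟨r - 1, by omega⟩
  refine TR_ex hD (fun k' hk => ?_)
  subst hk
  refine hT k' (by omega) _ (GC Γ u) (some u) (w + 1) n r (h1.gc hD) hD.gc ?_ (by omega)
    (GC_cliqueFree hc) (by omega)
  by_cases hr : 1 ≤ r
  · exact Or.inl ⟨hr, none, some u, by simp⟩
  · right
    obtain ⟨a, b, hab⟩ := hE
    have hx : ∃ x, Γ.Adj u x := by
      by_cases ha : a = u
      · subst ha; exact ⟨b, hab⟩
      · exact ⟨a, hD a b hab ha⟩
    obtain ⟨x, hx⟩ := hx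
    refine ⟨none, some x, by simp [hx], by simp, ?_⟩
    simp only [ne_eq, Option.some.injEq]
    rintro rfl
    exact Γ.loopless.irrefl _ hx

section oneside

variable {B : Type} [DecidableEq B] [Finite B]

/-- one side, first letter comes back -/
theorem one_r {k : ℕ} (hA : ∀ j < k, PA j) (hT : ∀ j < k, PT j) {Γ : SimpleGraph B} {x : B}
    (hB : ∀ b, b = x) {n r : ℕ} (hr : 1 ≤ r) (hn : k + 2 ≤ n) :
    Ex (At (GG Γ n) (rr x) r) k := by
  have hno : ∀ a b, ¬ Γ.Adj a b := by
    intro a b h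
    rw [hB a, hB b] at h
    exact Γ.loopless.irrefl _ h
  have hD : Dom Γ x := fun a b h _ => absurd h (hno a b)
  have hThr : Thr Γ := fun a b => Or.inl (fun y h _ => absurd h (hno a y))
  have hc : Γ.CliqueFree (1 + 1) := by
    intro s hs
    have : 1 < s.card := by rw [hs.2]; omega
    obtain ⟨a, ha, b, hb, hab⟩ := Finset.one_lt_card.1 this
    exact hno a b (hs.1 ha hb hab)
  obtain ⟨r, rfl⟩ : ∃ m, r = m + 1 := ⟨r - 1, by omega⟩
  by_cases hr1 : 1 ≤ r
  · refine TR_ex hD (fun k' hk => ?_)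
    subst hk
    exact hT k' (by omega) _ (GC Γ x) (some x) 2 n r (hThr.gc hD) hD.gc
      (Or.inl ⟨hr1, none, some x, by simp⟩) le_rfl (GC_cliqueFree hc) (by omega)
  · have hr0 : r = 0 := by omega
    subst hr0
    refine TR_ex' hD (TN (GC Γ x) n (some x)) (TN_inv _ _ _) ?_ ?_ (fun k' hk => ?_)
    · rintro k ρ ⟨h1, h2, _⟩; exact ⟨h1, h2⟩
    · rintro k ρ hg ⟨h1, h2⟩
      refine ⟨h1, h2, ?_⟩
      rcases h3 : ρ (Sum.inl (some x)) with s | ⟨i, ε⟩
      · exfalso
        rcases s with _ | s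
        · apply h1.2.2 (some x) none (by simp)
          have := sameCycle_apply (ρ * bar) (Sum.inl (some x))
          rw [Perm.mul_apply, bar_inl, h3] at this
          exact this
        · rw [hB s] at h3
          obtain ⟨b, hb⟩ := hg (lft (E1 B k) (Sum.inl none))
          rw [hB b] at hb
          have h4 := (sameCycle_ins (E1 B k) ρ _ (Sum.inl none) (Sum.inl (some x))).1 hb
          obtain ⟨m, hm⟩ := h4.symm
          rw [Perm.zpow_apply_eq_self_of_apply_eq_self h3] at hm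
          simp at hm
      · exact ⟨i, ε, rfl⟩
    · subst hk
      exact TN_ex_of (fun j hj => hA j (by omega)) (hThr.gc hD) hD.gc le_rfl
        (GC_cliqueFree hc) (by omega)

end oneside

theorem mainAT (k : ℕ) (ih : ∀ j < k, PA j ∧ PT j) : PA k ∧ PT k := by
  have ihA : ∀ j < k, PA j := fun j hj => (ih j hj).1
  have ihT : ∀ j < k, PT j := fun j hj => (ih j hj).2
  have hPL : ∀ N, PL k N := by
    intro N
    induction N with
    | zero => intro B _ _ Γ w n hN; omega
    | succ N ihN =>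
      intro B _ _ Γ w n hN hThr hE hw hc hn
      have hL : PL k (Nat.card B) := by
        intro B' _ _ Γ' w' n' h1
        exact ihN B' Γ' w' n' (by omega)
      have hne : Nonempty B := ⟨hE.choose⟩
      obtain ⟨u, hD⟩ := hThr.exists_dom
      have hr : ∀ r, 1 ≤ r → Ex (At (GG Γ n) (rr u) r) k :=
        fun r hr => PT_r ihT B Γ u w n r hThr hD hr hE hw hc hn
      have hN := TN_ex_of ihA hThr hD hw hc hn
      have hS : ∀ s, s ≠ u → Ex (TS Γ n u s) k := fun s hs => TS_ex_of hL hThr hD hE hw hc hn hs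
      by_cases hE2 : ∃ a b, Γ.Adj a b ∧ a ≠ u ∧ b ≠ u
      · have hF : Ex (TS Γ n u u) k := TF_ex_of hL hThr hD hE2 hw hc hn
        refine GG_ex (u := u) (fun r => ?_)
        rcases Nat.eq_zero_or_pos r with rfl | hpos
        · refine T0_ex hN (fun s => ?_)
          by_cases hs : s = u
          · subst hs; exact hF
          · exact hS s hs
        · exact hr r hpos
      · have hst : ∀ a b, Γ.Adj a b → a = u ∨ b = u := by
          intro a b hab
          by_contra h
          push Not at h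
          exact hE2 ⟨a, b, hab, h.1, h.2⟩
        refine star_ex ?_ hN hS hr
        by_cases h2 : ∃ x y : {b // b ≠ u}, x ≠ y
        · obtain ⟨x, y, hxy⟩ := h2
          have h3 := killTF_two (Γ := Γ) (n := n) (k := k) (eS u) (by simpa using hst) hxy
            (hL _ (ED x y) 2 n (card_lt u) (ED_thr x y) ⟨x, y, ED_edge hxy⟩ le_rfl
              (ED_cliqueFree x y) (by omega))
          simpa using h3
        · push Not at h2
          obtain ⟨a, b, hab⟩ := hE
          have hx : ∃ x, Γ.Adj u x := by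
            by_cases ha : a = u
            · subst ha; exact ⟨b, hab⟩
            · exact ⟨a, hD a b hab ha⟩
          obtain ⟨x, hx⟩ := hx
          have hxu : x ≠ u := by rintro rfl; exact Γ.loopless.irrefl _ hx
          obtain ⟨n, rfl⟩ : ∃ m, n = m + 1 := ⟨n - 1, by omega⟩
          have h3 := killTF_one (Γ := Γ) (n := n) (k := k) (eS u) ⟨x, hxu⟩ (fun b => h2 b _)
            (by omega) (fun r hr => one_r ihA ihT (fun b => h2 b _) hr (by omega))
          simpa using h3
  have hPA : PA k := by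
    intro B _ _ Γ w n
    exact hPL (Nat.card B + 1) B Γ w n (Nat.lt_succ_self _)
  refine ⟨hPA, ?_⟩
  intro B _ _ Γ u w n r hThr hD hcase hw hc hn
  rcases Nat.eq_zero_or_pos r with rfl | hpos
  · have hE2 : ∃ a b, Γ.Adj a b ∧ a ≠ u ∧ b ≠ u := by
      rcases hcase with ⟨h, _⟩ | h
      · omega
      · exact h
    have hE : ∃ a b, Γ.Adj a b := by
      obtain ⟨a, b, h, _⟩ := hE2; exact ⟨a, b, h⟩
    have hN := TN_ex_of ihA hThr hD hw hc hn
    refine T0_ex hN (fun s => ?_)
    by_cases hs : s = u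
    · subst hs
      exact TF_ex_of (hPL _) hThr hD hE2 hw hc hn
    · exact TS_ex_of (hPL _) hThr hD hE hw hc hn hs
  · have hE : ∃ a b, Γ.Adj a b := by
      rcases hcase with ⟨_, h⟩ | ⟨a, b, h, _⟩
      · exact h
      · exact ⟨a, b, h⟩
    exact PT_r ihT B Γ u w n r hThr hD hpos hE hw hc hn

theorem allAT (k : ℕ) : PA k ∧ PT k := by
  induction k using Nat.strong_induction_on with
  | _ k ih => exact mainAT k ih

/-- no separation conditions: exact when there are at least three faces -/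
theorem T1 (B : Type) [DecidableEq B] [Finite B] [Nonempty B] (n k : ℕ) (hn : k + 3 ≤ n) :
    Ex (GG (⊥ : SimpleGraph B) n) k := by
  obtain ⟨u⟩ := ‹Nonempty B›
  by_cases h2 : ∃ y, y ≠ u
  · obtain ⟨y, hy⟩ := h2
    have hA := (allAT k).1
    -- different faces
    have h1 : Ex (GG (ED u y) n) k := hA B (ED u y) 2 n (ED_thr _ _) ⟨u, y, ED_edge (Ne.symm hy)⟩
      le_rfl (ED_cliqueFree _ _) (by omega)
    have h1' : Ex (GG (ED u y) (n + 1)) k := hA B (ED u y) 2 (n + 1) (ED_thr _ _)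
      ⟨u, y, ED_edge (Ne.symm hy)⟩ le_rfl (ED_cliqueFree _ _) (by omega)
    have hED : ∀ k (ψ : Perm (LL B k)), (∀ a b, (ED u y).Adj a b →
        ¬ SF ψ (Sum.inl a) (Sum.inl b)) ↔ ¬ SF ψ (Sum.inl u) (Sum.inl y) := by
      intro k ψ
      constructor
      · intro h; exact h u y (ED_edge (Ne.symm hy))
      · rintro h a b ⟨_, ⟨rfl, rfl⟩ | ⟨rfl, rfl⟩⟩ h2
        · exact h h2
        · exact h h2.symm
    have h3 : Ex (fun k ψ => GG (⊥ : SimpleGraph B) n k ψ ∧ SF ψ (Sum.inl u) (Sum.inl y)) k := by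
      have hSB : ∀ k, (SB (k := k) (swap u y)) * SB (swap u y) = 1 := by
        intro k; rw [← SB_mul, swap_mul_self, SB_one]
      have key : ∀ k (ρ : Perm (LL B k)), (GG (⊥ : SimpleGraph B) n k (ρ * SB (swap u y)) ∧
          SF (ρ * SB (swap u y)) (Sum.inl u) (Sum.inl y)) ↔ GG (ED u y) (n + 1) k ρ := by
        intro k ρ
        rw [SF_swap_iff (Ne.symm hy)]
        unfold GG
        rw [hED, good_mul_swap_iff]
        constructor
        · rintro ⟨⟨h1, h2, _⟩, h3⟩
          have := fc_merge h3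
          exact ⟨h1, by omega, h3⟩
        · rintro ⟨h1, h2, h3⟩
          have := fc_merge h3
          exact ⟨⟨h1, by omega, fun a b h => absurd h (by simp)⟩, h3⟩
      refine sideIso (fun k ρ => ρ * SB (swap u y)) (fun k ψ => ψ * SB (swap u y)) _
        (GG (ED u y) (n + 1)) k ?_ (GG_inv _ _) ?_ ?_ ?_ ?_ ?_ ?_ ?_ h1'
      · intro k π e' ψ
        simp only [GG_inv _ n k π e' ψ, SF_act_inl]
      · intro k π e' ρ
        simp only [← act_mul_SB]
      · intro k ρ
        simp only [← d_mul_SB]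
      · intro k ρ
        show ρ * SB (swap u y) * SB (swap u y) = ρ
        rw [mul_assoc, hSB, mul_one]
      · intro k ψ _
        show ψ * SB (swap u y) * SB (swap u y) = ψ
        rw [mul_assoc, hSB, mul_one]
      · intro k ρ h; exact (key _ ρ).1 h
      · intro k ρ h _ _; exact (key _ ρ).2 h
      · intro k ρ _ h; exact (key _ (d ρ)).2 h
    have h4 : KillFrom (GG (⊥ : SimpleGraph B) n) (fun _ _ => False) (GG (ED u y) n) k := by
      refine KillFrom.step (T := GG (ED u y) n) (GG_inv _ _) (GG_conv _ _) ?_ (GG_inv _ _)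
        ?_ ?_ ?_ ?_ ?_ h1
      · intro k π e ψ; exact Iff.rfl
      · intro k ψ h; exact ⟨h.1, h.2.1, fun a b h => absurd h (by simp)⟩
      · intro k ψ _ h; exact h
      · intro ψ _ h; exact Or.inr h
      · intro k ψ _ h _; exact h
      · intro k ψ h1 h2
        right
        exact GG_d h1 (GG_sp (n := n) (Γ := ⊥) ⟨h1.1, h1.2.1, fun a b h => absurd h (by simp)⟩ h2)
    have h5 : KillFrom (GG (⊥ : SimpleGraph B) n) (GG (ED u y) n) (GG (⊥ : SimpleGraph B) n) k := by
      refine KillFrom.step (GG_inv _ _) (GG_conv _ _) (GG_inv _ _) ?_ ?_ ?_ ?_ ?_ ?_ h3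
      · intro k π e' ψ
        simp only [GG_inv _ n k π e' ψ, SF_act_inl]
      · intro k ψ h; exact h.1
      · intro k ψ h h2; exact h2.2.2 u y (ED_edge (Ne.symm hy)) h.2
      · intro ψ _ h
        by_cases h3 : SF ψ (Sum.inl u) (Sum.inl y)
        · exact Or.inr ⟨h, h3⟩
        · exact Or.inl ⟨h.1, h.2.1, (hED _ _).2 h3⟩
      · intro k ψ h1 h2 h3
        exact GG_d h2 (GG_sp h1 h3)
      · intro k ψ h1 h3
        by_cases h5 : SF (d ψ) (Sum.inl u) (Sum.inl y)
        · exact Or.inr ⟨h3, h5⟩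
        · exact Or.inl ⟨h3.1, h3.2.1, (hED _ _).2 h5⟩
    exact Ex.of_kill (h4.trans h5) (fun _ h => h)
  · push Not at h2
    have hA : ∀ j < k, PA j := fun j _ => (allAT j).1
    have hT : ∀ j < k, PT j := fun j _ => (allAT j).2
    have hThr : Thr (⊥ : SimpleGraph B) := fun a b => Or.inl (fun y h _ => absurd h (by simp))
    have hD : Dom (⊥ : SimpleGraph B) u := fun a b h _ => absurd h (by simp)
    have hc : (⊥ : SimpleGraph B).CliqueFree (2 + 1) := by
      intro s hs
      have : 1 < s.card := by rw [hs.2]; omega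
      obtain ⟨a, ha, b, hb, hab⟩ := Finset.one_lt_card.1 this
      exact absurd (hs.1 ha hb hab) (by simp)
    refine GG_ex (u := u) (fun r => ?_)
    rcases Nat.eq_zero_or_pos r with rfl | hpos
    · refine T0_ex (TN_ex_of hA hThr hD le_rfl hc (by omega)) (fun s => ?_)
      apply Ex.empty
      rintro ψ ⟨h1, h3⟩
      rw [h2 s] at h3
      have h4 : ∀ b : B, ψ (Sum.inl b) = Sum.inl b := by
        intro b; rw [h2 b, h3]
      obtain ⟨h5, h6⟩ := fc_le_of_fixed h1.1 h4
      have hs : Subsingleton B := ⟨fun a b => (h2 a).trans (h2 b).symm⟩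
      have h7 := Finite.card_le_one_iff_subsingleton.2 hs
      have := h1.2.1
      omega
    · exact one_r hA hT h2 hpos (by omega)

end Pool.Agent.W604
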