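import Mathlib
import Pool.Agent.W604.ThmA

set_option autoImplicit false
set_option linter.unusedSectionVars false

/-!
Abstract labelled systems: cochains, families, exactness.
-/

namespace Pool.Agent.W604.G

open Equiv

/-- an abstract labelled system: relabelling and deletion of the chord with label `0` -/
structure Sy where
  X : ℕ → Type
  act : ∀ {k : ℕ}, Perm (Fin k) → (Fin k → Bool) → X k → X k
  d : ∀ {k : ℕ}, X (k + 1) → X k
  act_act : ∀ {k : ℕ} (π π' : Perm (Fin k)) (e e' : Fin k → Bool) (ψ : X k),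
    act π e (act π' e' ψ) = act (π * π') (fun i => xor (e' i) (e (π' i))) ψ
  act_one : ∀ {k : ℕ} (ψ : X k), act 1 (fun _ => false) ψ = ψ
  d_act : ∀ {k : ℕ} (π : Perm (Fin k)) (e : Fin (k + 1) → Bool) (ψ : X (k + 1)),
    d (act (lp π) e ψ) = act π (fun i => e i.succ) (d ψ)
  d_d : ∀ {k : ℕ} (ψ : X (k + 2)), d (d (act (swap 0 1) (fun _ => false) ψ)) = d (d ψ)

variable (Y : Sy) {k : ℕ} {A : Type} [AddCommGroup A]

/-- antisymmetric cochains -/
def AS (c : Y.X k → A) : Prop :=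
  ∀ (π : Perm (Fin k)) (e : Fin k → Bool) (ψ : Y.X k), c (Y.act π e ψ) = Perm.sign π • c ψ

/-- the coboundary -/
def dl (c : Y.X k → A) (ψ : Y.X (k + 1)) : A :=
  ∑ i : Fin (k + 1), Perm.sign (swap 0 i) • c (Y.d (Y.act (swap 0 i) (fun _ => false) ψ))

variable {Y}

theorem term_indep {c : Y.X k → A} (hc : AS Y c) (ψ : Y.X (k + 1))
    (i : Fin (k + 1)) (π : Perm (Fin (k + 1))) (e : Fin (k + 1) → Bool) (h : π i = 0) :
    Perm.sign (swap 0 i) • c (Y.d (Y.act (swap 0 i) (fun _ => false) ψ)) =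
      Perm.sign π • c (Y.d (Y.act π e ψ)) := by
  obtain ⟨σ, hσ⟩ : ∃ σ, π * swap 0 i = lp σ := exists_lp (by simp [h])
  have h1 : Y.act π e ψ = Y.act (lp σ) (fun j => e (swap 0 i j))
      (Y.act (swap 0 i) (fun _ => false) ψ) := by
    rw [Y.act_act, ← hσ, mul_assoc, swap_mul_self, mul_one]
    congr 1
    funext j
    simp
  rw [h1, Y.d_act, hc]
  have h2 : Perm.sign π = Perm.sign σ * Perm.sign (swap 0 i) := by
    have : π = lp σ * swap 0 i := by rw [← hσ, mul_assoc, swap_mul_self, mul_one]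
    rw [this, Perm.sign_mul, lp_sign]
  rw [h2, smul_smul]
  congr 1
  rw [mul_right_comm, Int.units_mul_self, one_mul]

theorem AS.dl {c : Y.X k → A} (hc : AS Y c) : AS Y (dl Y c) := by
  intro π e ψ
  unfold Pool.Agent.W604.G.dl
  rw [Finset.smul_sum]
  refine Finset.sum_bij' (fun i _ => π⁻¹ i) (fun i _ => π i) (by simp) (by simp) (by simp)
    (by simp) ?_
  intro i _
  rw [term_indep hc ψ (π⁻¹ i) (swap 0 i * π) (fun j => e j) (by simp)]
  rw [Y.act_act, smul_smul, Perm.sign_mul]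
  congr 1
  · rw [mul_left_comm, Int.units_mul_self, mul_one]
  · congr 3
    funext j
    simp

/-- term of the double coboundary -/
def SS (c : Y.X k → A) (ψ : Y.X (k + 2)) (π : Perm (Fin (k + 2))) : A :=
  Perm.sign π • c (Y.d (Y.d (Y.act π (fun _ => false) ψ)))

theorem SS_indep {c : Y.X k → A} (hc : AS Y c) (ψ : Y.X (k + 2))
    (π π' : Perm (Fin (k + 2))) (a b : Fin (k + 2)) (h1 : π a = 0) (h2 : π b = 1)
    (h1' : π' a = 0) (h2' : π' b = 1) : SS c ψ π = SS c ψ π' := by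
  obtain ⟨τ, hτ⟩ : ∃ τ, π' * π⁻¹ = lp τ := exists_lp (by
    have : π⁻¹ 0 = a := by rw [Perm.inv_eq_iff_eq, h1]
    rw [Perm.mul_apply, this, h1'])
  have hτ1 : τ 0 = 0 := by
    have : (π' * π⁻¹) (Fin.succ 0) = (τ 0).succ := by rw [hτ, lp_succ]
    have h3 : π⁻¹ (Fin.succ 0) = b := by rw [Perm.inv_eq_iff_eq, h2]; rfl
    rw [Perm.mul_apply, h3, h2'] at this
    exact (Fin.succ_injective _ (by rw [← this]; rfl))
  obtain ⟨σ, rfl⟩ := exists_lp hτ1
  have hπ : π' = lp (lp σ) * π := by rw [← hτ]; group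
  unfold SS
  have h3 : Y.act π' (fun _ => false) ψ =
      Y.act (lp (lp σ)) (fun _ => false) (Y.act π (fun _ => false) ψ) := by
    rw [Y.act_act, hπ]; congr 1
  rw [h3, Y.d_act, Y.d_act, hc, smul_smul, hπ, Perm.sign_mul, lp_sign, lp_sign]
  congr 1
  rw [mul_comm (Perm.sign σ), mul_assoc, Int.units_mul_self, mul_one]

theorem SS_swap {c : Y.X k → A} (ψ : Y.X (k + 2))
    (π : Perm (Fin (k + 2))) : SS c ψ (swap 0 1 * π) = - SS c ψ π := by
  unfold SS
  have h1 : Y.act (swap 0 1 * π) (fun _ => false) ψ =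
      Y.act (swap 0 1) (fun _ => false) (Y.act π (fun _ => false) ψ) := by
    rw [Y.act_act]; congr 1
  rw [h1, Y.d_d, Perm.sign_mul, Perm.sign_swap fin_zero_ne_one]
  simp

theorem dl_dl {c : Y.X k → A} (hc : AS Y c) (ψ : Y.X (k + 2)) :
    dl Y (dl Y c) ψ = 0 := by
  have h01 : (0 : Fin (k + 2)) ≠ 1 := fin_zero_ne_one
  let p : Fin (k + 2) → Fin (k + 2) → Perm (Fin (k + 2)) := fun a b =>
    swap 1 (swap 0 a b) * swap 0 a
  have hp0 : ∀ a b, a ≠ b → p a b a = 0 := by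
    intro a b hab
    simp only [p, Perm.mul_apply, swap_apply_right]
    rw [swap_apply_of_ne_of_ne h01]
    intro h
    have : swap 0 a b = swap 0 a a := by rw [← h]; simp
    exact hab ((swap 0 a).injective this).symm
  have hp1 : ∀ a b, p a b b = 1 := by
    intro a b
    simp [p]
  let T : Fin (k + 2) → Fin (k + 2) → A := fun a b => if a = b then 0 else SS c ψ (p a b)
  have hT : ∀ a b, T a b + T b a = 0 := by
    intro a b
    by_cases hab : a = b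
    · subst hab; simp [T]
    · simp only [T, hab, Ne.symm hab, if_false]
      have : SS c ψ (p b a) = SS c ψ (swap 0 1 * p a b) :=
        SS_indep hc ψ _ _ b a (hp0 b a (Ne.symm hab)) (hp1 b a)
          (by simp [hp1]) (by simp [hp0 a b hab])
      rw [this, SS_swap]; simp
  have hsum : dl Y (dl Y c) ψ = ∑ a, ∑ b, T a b := by
    unfold dl
    refine Finset.sum_congr rfl fun i _ => ?_
    have h0 : T i (swap 0 i 0) = 0 := by simp [T]
    rw [Finset.smul_sum, ← Equiv.sum_comp (swap 0 i) (T i),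
      Fin.sum_univ_succ (fun j => T i (swap 0 i j)), h0, zero_add]
    refine Finset.sum_congr rfl fun j _ => ?_
    have hne : i ≠ swap 0 i j.succ := by
      intro h
      have h2 : swap 0 i 0 = swap 0 i j.succ := by rw [← h]; simp
      exact Fin.succ_ne_zero _ ((swap 0 i).injective h2).symm
    simp only [T, hne, if_false]
    rw [SS_indep hc ψ (p i (swap 0 i j.succ)) (lp (swap 0 j) * swap 0 i) i (swap 0 i j.succ)
      (hp0 _ _ hne) (hp1 _ _) (by simp) (by simp)]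
    unfold SS
    have h4 : Y.act (lp (swap 0 j) * swap 0 i) (fun _ => false) ψ =
        Y.act (lp (swap 0 j)) (fun _ => false) (Y.act (swap 0 i) (fun _ => false) ψ) := by
      rw [Y.act_act]; congr 1
    rw [h4, Y.d_act, smul_smul, Perm.sign_mul, lp_sign, mul_comm]
  rw [hsum, ← Finset.sum_product']
  refine Finset.sum_involution (fun x _ => (x.2, x.1)) (fun x _ => hT _ _) ?_ (by simp) (by simp)
  intro x _ hx h
  apply hx
  have : x.1 = x.2 := (congrArg Prod.fst h).symm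
  simp [T, this]

/-! ### families of systems -/

variable (Y)

/-- a family of labelled chord systems -/
abbrev Fam : Type := ∀ k : ℕ, Y.X k → Prop

/-- invariance under relabelling -/
def Inv (S : Fam Y) : Prop := ∀ k (π : Perm (Fin k)) (e : Fin k → Bool) (ψ : Y.X k),
  S k (Y.act π e ψ) ↔ S k ψ

/-- convexity -/
def Conv (S : Fam Y) : Prop := ∀ k (ψ : Y.X (k + 2)), S _ ψ → S _ (Y.d (Y.d ψ)) → S _ (Y.d ψ)

/-- supported on a family -/
def Supp (S : Fam Y) (c : Y.X k → A) : Prop := ∀ ψ, ¬ S k ψ → c ψ = 0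

/-- coboundary in the complex of the family -/
def Cob (S : Fam Y) : ∀ {k : ℕ}, (Y.X k → A) → Prop
  | 0, c => ∀ ψ, c ψ = 0
  | k + 1, c => ∃ w : Y.X k → A, AS Y w ∧ Supp Y S w ∧ ∀ ψ, S (k + 1) ψ → c ψ = dl Y w ψ

/-- cocycle in the complex of the family -/
structure Coc (S : Fam Y) (c : Y.X k → A) : Prop where
  as : AS Y c
  supp : Supp Y S c
  dl : ∀ ψ, S (k + 1) ψ → Pool.Agent.W604.G.dl Y c ψ = 0

/-- exactness with all coefficient groups -/
def Ex (S : Fam Y) (k : ℕ) : Prop := ∀ (A : Type) [AddCommGroup A] (c : Y.X k → A),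
  Coc Y S c → Cob Y S c

variable {Y}

open Classical in
/-- restriction to a family -/
noncomputable def cut (S : Fam Y) (c : Y.X k → A) : Y.X k → A :=
  fun ψ => if S k ψ then c ψ else 0

theorem cut_of {S : Fam Y} {c : Y.X k → A} {ψ : Y.X k} (h : S k ψ) :
    cut S c ψ = c ψ := by simp [cut, h]

theorem cut_of_not {S : Fam Y} {c : Y.X k → A} {ψ : Y.X k} (h : ¬ S k ψ) :
    cut S c ψ = 0 := by simp [cut, h]

theorem supp_cut (S : Fam Y) (c : Y.X k → A) : Supp Y S (cut S c) :=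
  fun _ h => cut_of_not h

theorem AS.cut {S : Fam Y} (hS : Inv Y S) {c : Y.X k → A} (hc : AS Y c) :
    AS Y (cut S c) := by
  intro π e ψ
  by_cases h : S k ψ
  · rw [cut_of h, cut_of ((hS k π e ψ).2 h), hc]
  · rw [cut_of_not h, cut_of_not (fun h' => h ((hS k π e ψ).1 h')), smul_zero]

theorem AS.sub {c c' : Y.X k → A} (hc : AS Y c) (hc' : AS Y c') :
    AS Y (fun ψ => c ψ - c' ψ) := by
  intro π e ψ
  simp only [hc π e ψ, hc' π e ψ, smul_sub]

theorem AS.add {c c' : Y.X k → A} (hc : AS Y c) (hc' : AS Y c') :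
    AS Y (fun ψ => c ψ + c' ψ) := by
  intro π e ψ
  simp only [hc π e ψ, hc' π e ψ, smul_add]

theorem AS.neg {c : Y.X k → A} (hc : AS Y c) : AS Y (fun ψ => - c ψ) := by
  intro π e ψ
  simp only [hc π e ψ, smul_neg]

theorem AS.zero : AS Y (fun _ : Y.X k => (0 : A)) := by
  intro π e ψ
  simp

theorem dl_sub (c c' : Y.X k → A) (ψ : Y.X (k + 1)) :
    dl Y (fun ψ => c ψ - c' ψ) ψ = dl Y c ψ - dl Y c' ψ := by
  simp [dl, smul_sub]

theorem dl_add (c c' : Y.X k → A) (ψ : Y.X (k + 1)) :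
    dl Y (fun ψ => c ψ + c' ψ) ψ = dl Y c ψ + dl Y c' ψ := by
  simp [dl, smul_add, Finset.sum_add_distrib]

theorem dl_neg (c : Y.X k → A) (ψ : Y.X (k + 1)) :
    dl Y (fun ψ => - c ψ) ψ = - dl Y c ψ := by
  simp [dl, smul_neg]

theorem dl_eq_zero {c : Y.X k → A} {ψ : Y.X (k + 1)}
    (h : ∀ π e, c (Y.d (Y.act π e ψ)) = 0) : dl Y c ψ = 0 := by
  unfold dl
  refine Finset.sum_eq_zero fun i _ => ?_
  rw [h, smul_zero]

theorem dl_congr {c c' : Y.X k → A} {ψ : Y.X (k + 1)}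
    (h : ∀ π e, c (Y.d (Y.act π e ψ)) = c' (Y.d (Y.act π e ψ))) : dl Y c ψ = dl Y c' ψ := by
  unfold dl
  refine Finset.sum_congr rfl fun i _ => ?_
  rw [h]

/-- `dl (cut (dl w))` vanishes on the family -/
theorem dl_cut_dl {S : Fam Y} (hS : Inv Y S) (hC : Conv Y S) {w : Y.X k → A} (hw : AS Y w)
    (hs : Supp Y S w) {ψ : Y.X (k + 2)} (h : S _ ψ) : dl Y (cut S (dl Y w)) ψ = 0 := by
  have h1 := dl_dl hw ψ
  have h2 : dl Y (fun ψ' => dl Y w ψ' - cut S (dl Y w) ψ') ψ = 0 := by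
    apply dl_eq_zero
    intro π e
    by_cases h3 : S _ (Y.d (Y.act π e ψ))
    · rw [cut_of h3, sub_self]
    · rw [cut_of_not h3, sub_zero]
      apply dl_eq_zero
      intro π' e'
      apply hs
      intro h4
      apply h3
      have h5 : Y.d (Y.act π' e' (Y.d (Y.act π e ψ))) =
          Y.d (Y.d (Y.act (lp π') (Fin.cons false e') (Y.act π e ψ))) := by
        rw [Y.d_act]; rfl
      rw [h5] at h4
      have h6 := hC _ (Y.act (lp π') (Fin.cons false e') (Y.act π e ψ))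
        ((hS _ _ _ _).2 ((hS _ _ _ _).2 h)) h4
      rw [Y.d_act] at h6
      exact (hS _ _ _ _).1 h6
  rw [dl_sub, h1, zero_sub, neg_eq_zero] at h2
  exact h2

/-- kill a cocycle on `C1`, given that it vanishes on `C0` -/
def KillFrom (Y : Sy) (S : Fam Y) (C0 C1 : Fam Y) (k : ℕ) : Prop :=
  ∀ (A : Type) [AddCommGroup A] (c : Y.X k → A), Coc Y S c → (∀ ψ, C0 k ψ → c ψ = 0) →
    ∃ c' : Y.X k → A, Coc Y S c' ∧ (∀ ψ, C1 k ψ → c' ψ = 0) ∧ (Cob Y S c' → Cob Y S c)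

theorem KillFrom.trans {S C0 C1 C2 : Fam Y} {k : ℕ} (h1 : KillFrom Y S C0 C1 k)
    (h2 : KillFrom Y S C1 C2 k) : KillFrom Y S C0 C2 k := by
  intro A _ c hc h0
  obtain ⟨c', hc', h3, h4⟩ := h1 A c hc h0
  obtain ⟨c'', hc'', h5, h6⟩ := h2 A c' hc' h3
  exact ⟨c'', hc'', h5, fun h => h4 (h6 h)⟩

theorem KillFrom.mono {S C0 C1 C0' C1' : Fam Y} {k : ℕ} (h : KillFrom Y S C0 C1 k)
    (h0 : ∀ ψ, C0 k ψ → C0' k ψ) (h1 : ∀ ψ, S k ψ → C1' k ψ → C1 k ψ) :
    KillFrom Y S C0' C1' k := by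
  intro A _ c hc h2
  obtain ⟨c', hc', h3, h4⟩ := h A c hc (fun ψ hψ => h2 ψ (h0 ψ hψ))
  refine ⟨c', hc', fun ψ hψ => ?_, h4⟩
  by_cases h5 : S k ψ
  · exact h3 ψ (h1 ψ h5 hψ)
  · exact hc'.supp ψ h5

theorem Cob.of_zero {S : Fam Y} {k : ℕ} {c : Y.X k → A} (h3 : ∀ ψ, c ψ = 0) : Cob Y S c := by
  cases k with
  | zero => exact h3
  | succ k =>
    refine ⟨fun _ => 0, AS.zero, fun _ _ => rfl, fun ψ _ => ?_⟩
    rw [h3, dl_eq_zero]; intros; rfl

theorem Ex.of_kill {S C0 : Fam Y} {k : ℕ} (h : KillFrom Y S C0 S k) (h0 : ∀ ψ, ¬ C0 k ψ) :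
    Ex Y S k := by
  intro A _ c hc
  obtain ⟨c', hc', h1, h2⟩ := h A c hc (fun ψ hψ => absurd hψ (h0 ψ))
  apply h2
  apply Cob.of_zero
  intro ψ
  by_cases h : S k ψ
  · exact h1 ψ h
  · exact hc'.supp ψ h

/-- closed under the deletions inside the family -/
def Closed (S C : Fam Y) : Prop := ∀ k (ψ : Y.X (k + 1)), S _ ψ → C _ ψ → S _ (Y.d ψ) →
  C _ (Y.d ψ)

/-- basic step: if the part `T = C1 \ C0` of the cocycle is a coboundary, kill it -/
theorem KillFrom.step' {S C0 C1 T : Fam Y} {k : ℕ} (hS : Inv Y S) (hC : Conv Y S)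
    (hI0 : Inv Y C0)
    (hT : ∀ k ψ, T k ψ → S k ψ)
    (hT0 : ∀ k ψ, T k ψ → ¬ C0 k ψ)
    (hC1 : ∀ ψ, S k ψ → C1 k ψ → C0 k ψ ∨ T k ψ)
    (cl0 : Closed S C0)
    (hex : ∀ (A : Type) [AddCommGroup A] (c : Y.X k → A), Coc Y S c →
      (∀ ψ, C0 k ψ → c ψ = 0) → Cob Y T (cut T c)) : KillFrom Y S C0 C1 k := by
  intro A _ c hc h0
  have hcob := hex A c hc h0
  cases k with
  | zero =>
    refine ⟨c, hc, fun ψ hψ => ?_, id⟩
    by_cases h2 : S _ ψ
    · rcases hC1 ψ h2 hψ with h3 | h3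
      · exact h0 _ h3
      · have := hcob ψ
        rwa [cut_of h3] at this
    · exact hc.supp _ h2
  | succ k =>
    obtain ⟨w, hw, hws, hw2⟩ := hcob
    have hwS : Supp Y S w := fun ψ hψ => hws ψ (fun h => hψ (hT _ _ h))
    refine ⟨fun ψ => c ψ - cut S (dl Y w) ψ, ⟨hc.as.sub (hw.dl.cut hS), ?_, ?_⟩, ?_, ?_⟩
    · intro ψ hψ
      show c ψ - cut S (dl Y w) ψ = 0
      rw [hc.supp _ hψ, cut_of_not hψ, sub_zero]
    · intro ψ hψ
      rw [dl_sub, hc.dl _ hψ, dl_cut_dl hS hC hw hwS hψ, sub_zero]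
    · intro ψ hψ
      by_cases h2 : S _ ψ
      · simp only [cut_of h2]
        rcases hC1 ψ h2 hψ with h3 | h3
        · rw [h0 _ h3, zero_sub, neg_eq_zero]
          apply dl_eq_zero
          intro π e
          by_cases h4 : S _ (Y.d (Y.act π e ψ))
          · have h5 := cl0 _ _ ((hS _ _ _ _).2 h2) ((hI0 _ _ _ _).2 h3) h4
            apply hws
            intro h6
            exact hT0 _ _ h6 h5
          · exact hwS _ h4
        · have := hw2 ψ h3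
          rw [cut_of h3] at this
          rw [this, sub_self]
      · simp only [cut_of_not h2, hc.supp _ h2, sub_zero]
    · rintro ⟨w', hw', hws', hw2'⟩
      refine ⟨fun ψ => w' ψ + w ψ, hw'.add hw, ?_, ?_⟩
      · intro ψ hψ
        show w' ψ + w ψ = 0
        rw [hws' _ hψ, hwS _ hψ, add_zero]
      · intro ψ hψ
        rw [dl_add, ← hw2' ψ hψ]
        show c ψ = c ψ - cut S (dl Y w) ψ + dl Y w ψ
        rw [cut_of hψ, sub_add_cancel]

/-- the part of a cocycle on the quotient -/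
theorem Coc.part {S C0 T : Fam Y} {k : ℕ} (hIT : Inv Y T)
    (hT : ∀ k ψ, T k ψ → S k ψ)
    (clT : ∀ k (ψ : Y.X (k + 1)), T _ ψ → S _ (Y.d ψ) → C0 _ (Y.d ψ) ∨ T _ (Y.d ψ))
    {c : Y.X k → A} (hc : Coc Y S c) (h0 : ∀ ψ, C0 k ψ → c ψ = 0) : Coc Y T (cut T c) := by
  refine ⟨hc.as.cut hIT, supp_cut _ _, fun ψ hψ => ?_⟩
  rw [← hc.dl ψ (hT _ _ hψ)]
  apply dl_congr
  intro π e
  by_cases h1 : T _ (Y.d (Y.act π e ψ))
  · rw [cut_of h1]
  · rw [cut_of_not h1]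
    by_cases h2 : S _ (Y.d (Y.act π e ψ))
    · rcases clT _ _ ((hIT _ _ _ _).2 hψ) h2 with h3 | h3
      · rw [h0 _ h3]
      · exact absurd h3 h1
    · rw [hc.supp _ h2]

/-- basic step: exactness of the part `T = C1 \ C0` kills the cocycle on `C1` -/
theorem KillFrom.step {S C0 C1 T : Fam Y} {k : ℕ} (hS : Inv Y S) (hC : Conv Y S)
    (hI0 : Inv Y C0) (hIT : Inv Y T)
    (hT : ∀ k ψ, T k ψ → S k ψ)
    (hT0 : ∀ k ψ, T k ψ → ¬ C0 k ψ)
    (hC1 : ∀ ψ, S k ψ → C1 k ψ → C0 k ψ ∨ T k ψ)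
    (cl0 : Closed S C0)
    (clT : ∀ k (ψ : Y.X (k + 1)), T _ ψ → S _ (Y.d ψ) → C0 _ (Y.d ψ) ∨ T _ (Y.d ψ))
    (hex : Ex Y T k) : KillFrom Y S C0 C1 k :=
  KillFrom.step' hS hC hI0 hT hT0 hC1 cl0
    (fun A _ _ hc h0 => hex A _ (Coc.part hIT hT clT hc h0))

/-- the part of the family where an index has a given value -/
def At (S : Fam Y) (τ : ∀ k, Y.X k → ℕ) (r : ℕ) : Fam Y := fun k ψ => S k ψ ∧ τ k ψ = r

theorem killFrom_index {S : Fam Y} {k : ℕ} (hS : Inv Y S) (hC : Conv Y S)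
    (τ : ∀ k, Y.X k → ℕ)
    (hτ : ∀ k (π : Perm (Fin k)) (e : Fin k → Bool) (ψ : Y.X k), τ k (Y.act π e ψ) = τ k ψ)
    (hd : ∀ k (ψ : Y.X (k + 1)), S _ ψ → S _ (Y.d ψ) → τ _ (Y.d ψ) ≤ τ _ ψ)
    (M : ℕ) (hex : ∀ r, r < M → ∀ (A : Type) [AddCommGroup A] (c : Y.X k → A), Coc Y S c →
      (∀ ψ, τ k ψ < r → c ψ = 0) → Cob Y (At S τ r) (cut (At S τ r) c)) :
    KillFrom Y S (fun _ _ => False) (fun k ψ => τ k ψ < M) k := by
  induction M with
  | zero =>
    intro A _ c hc _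
    exact ⟨c, hc, fun ψ hψ => absurd hψ (Nat.not_lt_zero _), id⟩
  | succ M ih =>
    refine (ih (fun r h2 => hex r (by omega))).trans
      (KillFrom.step' (T := At S τ M) hS hC ?_ ?_ ?_ ?_ ?_
        (hex M (by omega)))
    · intro k π e ψ; simp only [hτ]
    · intro k ψ h; exact h.1
    · rintro k ψ ⟨_, h⟩ h2; omega
    · intro ψ h1 h2
      rcases Nat.lt_succ_iff_lt_or_eq.1 h2 with h3 | h3
      · exact Or.inl h3
      · exact Or.inr ⟨h1, h3⟩
    · intro k ψ h1 h2 h3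
      have := hd k ψ h1 h3
      omega

/-- exactness from exactness of all parts -/
theorem Ex.of_index {S : Fam Y} {k : ℕ} (hS : Inv Y S) (hC : Conv Y S)
    (τ : ∀ k, Y.X k → ℕ)
    (hτ : ∀ k (π : Perm (Fin k)) (e : Fin k → Bool) (ψ : Y.X k), τ k (Y.act π e ψ) = τ k ψ)
    (hd : ∀ k (ψ : Y.X (k + 1)), S _ ψ → S _ (Y.d ψ) → τ _ (Y.d ψ) ≤ τ _ ψ)
    (M : ℕ) (hM : ∀ ψ, S k ψ → τ k ψ < M) (hex : ∀ r, r < M → Ex Y (At S τ r) k) : Ex Y S k := by
  have hk := killFrom_index (k := k) hS hC τ hτ hd M (fun r h A _ c hc h0 => by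
    refine hex r h A _ (Coc.part (C0 := fun k ψ => τ k ψ < r) ?_ (fun k ψ h => h.1) ?_ hc h0)
    · intro k π e ψ; unfold At; rw [hτ, hS]
    · intro k ψ h1 h2
      have h3 := hd k ψ h1.1 h2
      have h4 : τ (k + 1) ψ = r := h1.2
      rcases Nat.lt_or_ge (τ k (Y.d ψ)) r with h5 | h5
      · exact Or.inl h5
      · exact Or.inr ⟨h2, by omega⟩)
  exact Ex.of_kill (C0 := fun _ _ => False) (hk.mono (fun ψ h => h) (fun ψ h _ => hM ψ h))
    (fun _ h => h)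

theorem Ex.empty {S : Fam Y} {k : ℕ} (h : ∀ ψ, ¬ S k ψ) : Ex Y S k :=
  fun _ _ _ hc => Cob.of_zero (fun ψ => hc.supp ψ (h ψ))

theorem Ex.congr {S T : Fam Y} {k : ℕ} (h : ∀ k ψ, S k ψ ↔ T k ψ) (hex : Ex Y T k) : Ex Y S k := by
  have : S = T := by
    funext k ψ
    exact propext (h k ψ)
  rw [this]; exact hex

/-- restriction to a part stable in both directions -/
theorem Ex.restrict {S Q : Fam Y} {k : ℕ} (hQ : Inv Y Q)
    (hd : ∀ k (ψ : Y.X (k + 1)), S _ ψ → S _ (Y.d ψ) → (Q _ (Y.d ψ) ↔ Q _ ψ))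
    (hS : Inv Y S) (hex : Ex Y S k) : Ex Y (fun k ψ => S k ψ ∧ Q k ψ) k := by
  intro A _ c hc
  have hI : Inv Y (fun k ψ => S k ψ ∧ Q k ψ) := by
    intro k π e ψ
    simp only [hS k π e ψ, hQ k π e ψ]
  have hcS : Coc Y S c := by
    refine ⟨hc.as, fun ψ h => hc.supp ψ (fun h' => h h'.1), fun ψ hψ => ?_⟩
    by_cases h : Q _ ψ
    · exact hc.dl ψ ⟨hψ, h⟩
    · apply dl_eq_zero
      intro π e
      apply hc.supp
      rintro ⟨h1, h2⟩
      apply h
      have := (hd _ _ ((hS _ _ _ _).2 hψ) h1).1 h2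
      exact (hQ _ _ _ _).1 this
  have hcob := hex A c hcS
  cases k with
  | zero => exact hcob
  | succ k =>
    obtain ⟨w, hw, hws, hw2⟩ := hcob
    refine ⟨cut (fun k ψ => S k ψ ∧ Q k ψ) w, hw.cut hI, supp_cut _ _, fun ψ hψ => ?_⟩
    rw [hw2 ψ hψ.1]
    apply dl_congr
    intro π e
    by_cases h1 : S _ (Y.d (Y.act π e ψ))
    · have h2 : Q _ (Y.d (Y.act π e ψ)) :=
        (hd _ _ ((hS _ _ _ _).2 hψ.1) h1).2 ((hQ _ _ _ _).2 hψ.2)
      rw [cut_of (S := fun k ψ => S k ψ ∧ Q k ψ) ⟨h1, h2⟩]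
    · rw [hws _ h1, cut_of_not]
      exact fun h => h1 h.1

/-- exactness from exactness on classes -/
theorem Ex.of_classes {S : Fam Y} {k : ℕ} {I : Type} (κ : ∀ k, Y.X k → I)
    (hκ : ∀ k (π : Perm (Fin k)) (e : Fin k → Bool) (ψ : Y.X k), κ k (Y.act π e ψ) = κ k ψ)
    (hd : ∀ k (ψ : Y.X (k + 1)), S _ ψ → S _ (Y.d ψ) → κ _ (Y.d ψ) = κ _ ψ)
    (hS : Inv Y S) (hex : ∀ i, Ex Y (fun k ψ => S k ψ ∧ κ k ψ = i) k) : Ex Y S k := by
  intro A _ c hc
  have hI : ∀ i, Inv Y (fun k ψ => S k ψ ∧ κ k ψ = i) := by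
    intro i k π e ψ
    simp only [hS k π e ψ, hκ]
  have hpart : ∀ i, Coc Y (fun k ψ => S k ψ ∧ κ k ψ = i)
      (cut (fun k ψ => S k ψ ∧ κ k ψ = i) c) := by
    intro i
    refine Coc.part (S := S) (C0 := fun _ _ => False) (hI i) (fun k ψ h => h.1) ?_ hc
      (fun ψ h => absurd h not_false)
    intro k ψ h1 h2
    right
    exact ⟨h2, by rw [hd k ψ h1.1 h2, h1.2]⟩
  have hcob := fun i => hex i A _ (hpart i)
  cases k with
  | zero =>
    intro ψ
    by_cases h : S 0 ψ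
    · have := hcob (κ 0 ψ) ψ
      rwa [cut_of (S := fun k ψ' => S k ψ' ∧ κ k ψ' = κ 0 ψ) ⟨h, rfl⟩] at this
    · exact hc.supp _ h
  | succ k =>
    choose w hw hws hw2 using hcob
    refine ⟨fun ψ => w (κ k ψ) ψ, ?_, ?_, ?_⟩
    · intro π e ψ
      simp only [hκ]
      exact hw _ π e ψ
    · intro ψ hψ
      exact hws _ ψ (fun h => hψ h.1)
    · intro ψ hψ
      have h1 := hw2 (κ (k + 1) ψ) ψ ⟨hψ, rfl⟩
      rw [cut_of (S := fun k' ψ' => S k' ψ' ∧ κ k' ψ' = κ (k + 1) ψ) ⟨hψ, rfl⟩] at h1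
      rw [h1]
      apply dl_congr
      intro π e
      by_cases h2 : S _ (Y.d (Y.act π e ψ))
      · have h3 : κ k (Y.d (Y.act π e ψ)) = κ (k + 1) ψ := by
          rw [hd k _ ((hS _ _ _ _).2 hψ) h2, hκ]
        simp only [h3]
      · rw [hws _ _ (fun h => h2 h.1), hws _ _ (fun h => h2 h.1)]

/-! ### graded cochains -/

/-- graded cochains -/
abbrev Gr (Y : Sy) (A : Type) : Type := ∀ j, Y.X j → A

/-- graded coboundary -/
def DD (F : Gr Y A) : Gr Y A
  | 0, _ => 0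
  | j + 1, ψ => dl Y (F j) ψ

theorem DD_zero (F : Gr Y A) (ψ : Y.X 0) : DD F 0 ψ = 0 := rfl
theorem DD_succ (F : Gr Y A) (j : ℕ) (ψ : Y.X (j + 1)) : DD F (j + 1) ψ = dl Y (F j) ψ := rfl

def ASG (F : Gr Y A) : Prop := ∀ j, AS Y (F j)

/-- the cochain in degree `k` -/
def sg (c : Y.X k → A) : Gr Y A := fun j ψ => if h : j = k then c (h ▸ ψ) else 0

theorem sg_self (c : Y.X k → A) (ψ : Y.X k) : sg c k ψ = c ψ := by
  simp [sg]

theorem sg_ne (c : Y.X k → A) {j : ℕ} (h : j ≠ k) (ψ : Y.X j) : sg c j ψ = 0 := by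
  simp [sg, h]

theorem ASG.sg {c : Y.X k → A} (h : AS Y c) : ASG (sg c) := by
  intro j π e ψ
  by_cases hj : j = k
  · subst hj
    rw [sg_self, sg_self, h]
  · rw [sg_ne c hj, sg_ne c hj, smul_zero]

theorem sg_supp {S : Fam Y} {c : Y.X k → A} (h : Supp Y S c) {j : ℕ} {ψ : Y.X j}
    (hψ : ¬ S j ψ) : sg c j ψ = 0 := by
  by_cases hj : j = k
  · subst hj
    rw [sg_self, h _ hψ]
  · rw [sg_ne c hj]

theorem sg_coc {S : Fam Y} {c : Y.X k → A} (h : Coc Y S c) {j : ℕ} {ψ : Y.X j}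
    (hψ : S j ψ) : DD (sg c) j ψ = 0 := by
  cases j with
  | zero => rfl
  | succ j =>
    rw [DD_succ]
    by_cases hj : j = k
    · subst hj
      have : sg c j = c := funext (sg_self c)
      rw [this, h.dl _ hψ]
    · apply dl_eq_zero
      intros
      exact sg_ne c hj _

/-- an insertion operator -/
structure Op (Y : Sy) (U : ∀ k, Y.X k → Y.X (k + 1)) (Dm : Fam Y) : Prop where
  act : ∀ k π e (ψ : Y.X k), U k (Y.act π e ψ) = Y.act (lp π) (Fin.cons false e) (U k ψ)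
  d : ∀ k (ψ : Y.X k), Dm k ψ → Y.d (U k ψ) = ψ
  dd : ∀ k (ψ : Y.X (k + 1)), Dm _ ψ →
    Y.d (Y.act (swap 0 1) (fun _ => false) (U _ ψ)) = U _ (Y.d ψ)

theorem Op.ASG {U : ∀ k, Y.X k → Y.X (k + 1)} {Dm : Fam Y} (hU : Op Y U Dm) {F : Gr Y A}
    (h : ASG F) : ASG (fun i χ => F (i + 1) (U i χ)) := by
  intro j π e ψ
  show F (j + 1) (U j (Y.act π e ψ)) = _
  rw [hU.act, h, lp_sign]

theorem Op.DD {U : ∀ k, Y.X k → Y.X (k + 1)} {Dm : Fam Y} (hU : Op Y U Dm) (hD : Inv Y Dm)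
    {F : Gr Y A}
    (h : Pool.Agent.W604.G.ASG F) (j : ℕ) (ψ : Y.X j) (hψ : Dm j ψ) :
    Pool.Agent.W604.G.DD F (j + 1) (U j ψ) =
      F j ψ - Pool.Agent.W604.G.DD (fun i χ => F (i + 1) (U i χ)) j ψ := by
  have h0 : Y.act (swap 0 0) (fun _ => false) (U j ψ) = U j ψ := by
    rw [swap_self]; exact Y.act_one _
  cases j with
  | zero =>
    rw [DD_succ, DD_zero, sub_zero]
    unfold dl
    rw [Fin.sum_univ_succ, h0, hU.d _ _ hψ]; simp
  | succ j =>
    rw [DD_succ, DD_succ]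
    conv_lhs => unfold dl
    rw [Fin.sum_univ_succ, sub_eq_add_neg]
    congr 1
    · rw [h0, hU.d _ _ hψ]; simp
    · unfold dl
      rw [← Finset.sum_neg_distrib]
      refine Finset.sum_congr rfl fun i _ => ?_
      rw [term_indep (h _) _ i.succ (swap 0 1 * lp (swap 0 i)) (fun _ => false) (by simp)]
      rw [Perm.sign_mul, Perm.sign_swap fin_zero_ne_one, lp_sign]
      have h1 : Y.act (swap 0 1 * lp (swap 0 i)) (fun _ => false) (U (j + 1) ψ) =
          Y.act (swap 0 1) (fun _ => false)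
            (U (j + 1) (Y.act (swap 0 i) (fun _ => false) ψ)) := by
        rw [hU.act, Y.act_act, cons_false]; congr 1
      rw [h1, hU.dd _ _ ((hD _ _ _ _).2 hψ), neg_one_mul, Units.neg_smul]

/-! ### extension of functions -/

open Classical in
/-- a function given on representatives extends -/
theorem ext_exists {ι : Type} (j : ι → Y.X k) (f : ι → A)
    (h : ∀ y y' π e, Y.act π e (j y) = j y' → f y' = Perm.sign π • f y) :
    ∃ F : Y.X k → A, AS Y F ∧ (∀ y, F (j y) = f y) ∧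
      ∀ ψ, (¬ ∃ π e y, Y.act π e ψ = j y) → F ψ = 0 := by
  have hinv : ∀ (π : Perm (Fin k)) (e : Fin k → Bool) (ψ χ : Y.X k), Y.act π e ψ = χ →
      ∃ e', Y.act π⁻¹ e' χ = ψ := by
    intro π e ψ χ h
    refine ⟨fun i => e (π⁻¹ i), ?_⟩
    rw [← h, Y.act_act]
    have h1 : π⁻¹ * π = 1 := inv_mul_cancel π
    have h2 : (fun i => xor (e i) ((fun i => e (π⁻¹ i)) (π i))) = fun _ => false := by
      funext i; simp
    rw [h1, h2, Y.act_one]
  set F : Y.X k → A := fun ψ => if h : ∃ (p : Perm (Fin k) × ι), ∃ e, Y.act p.1 e ψ = j p.2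
    then Perm.sign h.choose.1 • f h.choose.2 else 0 with hF
  have hval : ∀ ψ π e y, Y.act π e ψ = j y → F ψ = Perm.sign π • f y := by
    intro ψ π e y hy
    have hex : ∃ (p : Perm (Fin k) × ι), ∃ e, Y.act p.1 e ψ = j p.2 := ⟨(π, y), e, hy⟩
    simp only [hF, dif_pos hex]
    obtain ⟨e', he'⟩ := hex.choose_spec
    obtain ⟨e'', he''⟩ := hinv π e ψ _ hy
    have h1 : Y.act hex.choose.1 e' (Y.act π⁻¹ e'' (j y)) = j hex.choose.2 := by
      rw [he'']; exact he'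
    rw [Y.act_act] at h1
    have h2 := h _ _ _ _ h1
    rw [h2, smul_smul, Perm.sign_mul, Perm.sign_inv, ← mul_assoc, Int.units_mul_self, one_mul]
  refine ⟨F, ?_, ?_, ?_⟩
  · intro π e ψ
    by_cases hex : ∃ (p : Perm (Fin k) × ι), ∃ e, Y.act p.1 e ψ = j p.2
    · obtain ⟨⟨π', y⟩, e', hy⟩ := hex
      rw [hval ψ π' e' y hy]
      obtain ⟨e'', he''⟩ := hinv π e ψ _ rfl
      have h1 : Y.act π' e' (Y.act π⁻¹ e'' (Y.act π e ψ)) = j y := by rw [he'']; exact hy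
      rw [Y.act_act] at h1
      rw [hval _ _ _ y h1, smul_smul, Perm.sign_mul, Perm.sign_inv, mul_comm]
    · have hex' : ¬ ∃ (p : Perm (Fin k) × ι), ∃ e', Y.act p.1 e' (Y.act π e ψ) = j p.2 := by
        rintro ⟨p, e', hy⟩
        apply hex
        rw [Y.act_act] at hy
        exact ⟨(p.1 * π, p.2), _, hy⟩
      simp only [hF, dif_neg hex, dif_neg hex', smul_zero]
  · intro y
    rw [hval (j y) 1 (fun _ => false) y (Y.act_one _)]
    simp
  · intro ψ hψ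
    have hex : ¬ ∃ (p : Perm (Fin k) × ι), ∃ e, Y.act p.1 e ψ = j p.2 := by
      rintro ⟨p, e, hy⟩
      exact hψ ⟨p.1, e, p.2, hy⟩
    simp only [hF, dif_neg hex]

/-- lifting along a surjection, given freeness -/
theorem AS.lift {A' : Type} [AddCommGroup A'] (q : A →+ A') (hq : Function.Surjective q)
    {S : Y.X k → Prop} (hS : ∀ π e ψ, S (Y.act π e ψ) ↔ S ψ)
    (hfree : ∀ ψ, S ψ → ∀ π e, Y.act π e ψ = ψ → π = 1)
    {c' : Y.X k → A'} (hc' : AS Y c') :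
    ∃ c : Y.X k → A, AS Y c ∧ (∀ ψ, S ψ → q (c ψ) = c' ψ) ∧ (∀ ψ, ¬ S ψ → c ψ = 0) := by
  classical
  -- orbits
  let r : Setoid (Y.X k) :=
    { r := fun ψ χ => ∃ π e, Y.act π e ψ = χ
      iseqv := by
        refine ⟨fun ψ => ⟨1, _, Y.act_one ψ⟩, ?_, ?_⟩
        · rintro ψ χ ⟨π, e, h⟩
          refine ⟨π⁻¹, fun i => e (π⁻¹ i), ?_⟩
          rw [← h, Y.act_act]
          have h1 : π⁻¹ * π = 1 := inv_mul_cancel π
          have h2 : (fun i => xor (e i) ((fun i => e (π⁻¹ i)) (π i))) = fun _ => false := by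
            funext i; simp
          rw [h1, h2, Y.act_one]
        · rintro ψ χ ω ⟨π, e, h⟩ ⟨π', e', h'⟩
          exact ⟨π' * π, _, by rw [← h', ← h, Y.act_act]⟩ }
  let ι := {ψ : Y.X k // S ψ ∧ (Quotient.mk r ψ).out = ψ}
  obtain ⟨F, hF, hF2, hF3⟩ := ext_exists (Y := Y) (ι := ι) (fun y => y.1)
    (fun y => Function.surjInv hq (c' y.1)) (by
      rintro ⟨y, hy, hy2⟩ ⟨y', hy', hy2'⟩ π e h
      simp only at h ⊢
      have hyy : y = y' := by
        rw [← hy2, ← hy2']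
        congr 1
        exact Quotient.sound ⟨π, e, h⟩
      subst hyy
      have := hfree y hy π e h
      subst this
      simp)
  refine ⟨F, hF, ?_, ?_⟩
  · intro ψ hψ
    set y0 := (Quotient.mk r ψ).out with hy0
    obtain ⟨π, e, hπ⟩ : ∃ π e, Y.act π e y0 = ψ := Quotient.mk_out ψ
    have hy0S : S y0 := by rw [← hπ, hS] at hψ; exact hψ
    have hy0r : (Quotient.mk r y0).out = y0 := by
      rw [hy0]; simp
    have h1 := hF2 ⟨y0, hy0S, hy0r⟩
    simp only at h1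
    rw [← hπ, hF, h1, hc']
    have h2 : ∀ (s : ℤˣ) (a : A), q (s • a) = s • q a := by
      intro s a
      rw [Units.smul_def, Units.smul_def, map_zsmul]
    rw [h2, Function.surjInv_eq hq]
  · intro ψ hψ
    apply hF3
    rintro ⟨π, e, y, h⟩
    apply hψ
    rw [← hS π e, h]
    exact y.2.1

end Pool.Agent.W604.G
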