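import Mathlib
import Pool.Agent.W604.Abs

set_option autoImplicit false
set_option linter.unusedSectionVars false

/-!
Abstract transport lemmas: one frozen chord; products.
-/

namespace Pool.Agent.W604.G

open Equiv

variable {Y Y' Y1 Y2 : Sy} {k : ℕ} {A : Type} [AddCommGroup A]

theorem smul_cancel {s : ℤˣ} {a b : A} (h : s • a = s • b) : a = b := by
  have := congrArg (fun x => s • x) h
  simpa [smul_smul] using this

/-- cutting one frozen chord -/
theorem oneIso (j : ∀ k, Y'.X k → Y.X (k + 1)) (S : Fam Y) (S' : Fam Y') (k : ℕ)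
    (hS : Inv Y S) (hS' : Inv Y' S')
    (J1 : ∀ k π e (y : Y'.X k), j k (Y'.act π e y) =
      Y.act (lp π) (Fin.cons false e) (j k y))
    (J2 : ∀ k (y : Y'.X (k + 1)),
      Y.d (Y.act (swap 0 1) (fun _ => false) (j _ y)) = j _ (Y'.d y))
    (J3 : ∀ k ψ, S (k + 1) ψ → ∃ π e y, Y.act π e ψ = j k y ∧ S' k y)
    (J4 : ∀ k y y' π e, S' k y → S' k y' → Y.act π e (j k y) = j k y' →
      ∃ π' e', Perm.sign π' = Perm.sign π ∧ Y'.act π' e' y = y')
    (J5 : ∀ k y, S' k y → S (k + 1) (j k y))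
    (J6 : ∀ k y, S' k y → ¬ S k (Y.d (j k y)))
    (J7 : ∀ k (y : Y'.X (k + 1)), S' (k + 1) y → S (k + 1) (j k (Y'.d y)) → S' k (Y'.d y))
    (J0 : ∀ ψ, ¬ S 0 ψ)
    (hex : ∀ k', k = k' + 1 → Ex Y' S' k') : Ex Y S k := by
  cases k with
  | zero => exact Ex.empty J0
  | succ k =>
  have hex := hex k rfl
  intro A _ c hc
  have hdl : ∀ {k : ℕ} {c : Y.X (k + 1) → A}, AS Y c → ∀ (y : Y'.X (k + 1)),
      dl Y c (j _ y) = c (Y.d (j _ y)) - dl Y' (fun y' => c (j _ y')) y := by
    intro k c hc y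
    have h0 : Y.act (swap 0 0) (fun _ => false) (j (k + 1) y) = j _ y := by
      rw [swap_self]; exact Y.act_one _
    conv_lhs => unfold dl
    rw [Fin.sum_univ_succ, sub_eq_add_neg]
    congr 1
    · rw [h0]; simp
    · unfold dl
      rw [← Finset.sum_neg_distrib]
      refine Finset.sum_congr rfl fun i _ => ?_
      rw [term_indep hc _ i.succ (swap 0 1 * lp (swap 0 i)) (fun _ => false) (by simp)]
      rw [Perm.sign_mul, Perm.sign_swap fin_zero_ne_one, lp_sign]
      have h1 : Y.act (swap 0 1 * lp (swap 0 i)) (fun _ => false) (j _ y) =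
          Y.act (swap 0 1) (fun _ => false)
            (j _ (Y'.act (swap 0 i) (fun _ => false) y)) := by
        rw [J1, Y.act_act, cons_false]; congr 1
      rw [h1, J2, neg_one_mul, Units.neg_smul]
  have hcoc : Coc Y' S' (cut S' (fun y => c (j k y))) := by
    refine ⟨AS.cut hS' ?_, supp_cut _ _, ?_⟩
    · intro π e y
      show c (j k (Y'.act π e y)) = _
      rw [J1, hc.as, lp_sign]
    · intro y hy
      have h1 : dl Y' (cut S' (fun y => c (j k y))) y = dl Y' (fun y => c (j k y)) y := by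
        apply dl_congr
        intro π e
        by_cases h : S' k (Y'.d (Y'.act π e y))
        · rw [cut_of h]
        · rw [cut_of_not h]
          symm
          apply hc.supp
          intro h2
          exact h (J7 _ _ ((hS' _ _ _ _).2 hy) h2)
      rw [h1]
      have h2 := hdl hc.as y
      rw [hc.dl _ (J5 _ _ hy), hc.supp _ (J6 _ _ hy), zero_sub, zero_eq_neg] at h2
      exact h2
  have hcob := hex A _ hcoc
  cases k with
  | zero =>
    apply Cob.of_zero
    intro ψ
    by_cases h : S 1 ψ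
    · obtain ⟨π, e, y, hy, hy'⟩ := J3 _ _ h
      have h1 := hcob y
      rw [cut_of hy', ← hy, hc.as] at h1
      have h2 := congrArg (fun x => Perm.sign π • x) h1
      simpa [smul_smul] using h2
    · exact hc.supp _ h
  | succ k =>
    obtain ⟨w, hw, hws, hw2⟩ := hcob
    obtain ⟨F, hF, hF2, hF3⟩ := ext_exists (Y := Y) (ι := {y : Y'.X k // S' k y})
      (fun y => j k y.1) (fun y => - w y.1) (by
        rintro ⟨y, hy⟩ ⟨y', hy'⟩ π e h
        obtain ⟨π', e', h1, h2⟩ := J4 k y y' π e hy hy' h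
        simp only at h2 ⊢
        rw [← h2, hw, h1, smul_neg])
    refine ⟨F, hF, ?_, ?_⟩
    · intro ψ hψ
      apply hF3
      rintro ⟨π, e, y, hy⟩
      apply hψ
      rw [← hS _ π e, hy]
      exact J5 _ _ y.2
    · intro ψ hψ
      obtain ⟨π, e, y, hy, hy'⟩ := J3 _ _ hψ
      have key : c (j (k + 1) y) = dl Y F (j (k + 1) y) := by
        have h1 := hw2 y hy'
        rw [cut_of hy'] at h1
        rw [h1, hdl hF]
        have h2 : F (Y.d (j (k + 1) y)) = 0 := by
          apply hF3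
          rintro ⟨π, e, y', h⟩
          apply J6 _ _ hy'
          rw [← hS _ π e, h]
          exact J5 _ _ y'.2
        rw [h2, zero_sub, ← dl_neg]
        apply dl_congr
        intro π' e'
        by_cases h3 : S' k (Y'.d (Y'.act π' e' y))
        · have := hF2 ⟨_, h3⟩
          simp only at this
          rw [this, neg_neg]
        · rw [hws _ h3]
          have h4 : F (j k (Y'.d (Y'.act π' e' y))) = 0 := by
            apply hF3
            rintro ⟨π'', e'', y', h⟩
            apply h3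
            apply J7 _ _ ((hS' _ _ _ _).2 hy')
            rw [← hS _ π'' e'', h]
            exact J5 _ _ y'.2
          rw [h4, neg_zero]
      rw [← hy, hc.as, hF.dl] at key
      exact smul_cancel key

/-- product data -/
structure Pr (Y Y1 Y2 : Sy) (S : Fam Y) (S1 : Fam Y1) (S2 : Fam Y2) where
  p : ∀ (a b k : ℕ), k = b + a → Y1.X a → Y2.X b → Y.X k
  β : ∀ k, Y.X k → ℕ
  β_act : ∀ k π e ψ, β k (Y.act π e ψ) = β k ψ
  β_p : ∀ a b k h x y, S1 a x → S2 b y → β k (p a b k h x y) = b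
  β_d : ∀ k (ψ : Y.X (k + 1)), S _ ψ → S _ (Y.d ψ) → β _ (Y.d ψ) ≤ β _ ψ
  pa1 : ∀ a b k h π e, ∃ π' e', Perm.sign π' = Perm.sign π ∧
    ∀ x y, p a b k h (Y1.act π e x) y = Y.act π' e' (p a b k h x y)
  pa2 : ∀ a b k h π e, ∃ π' e', Perm.sign π' = Perm.sign π ∧
    ∀ x y, p a b k h x (Y2.act π e y) = Y.act π' e' (p a b k h x y)
  hS : ∀ a b k h x y, S k (p a b k h x y) ↔ S1 a x ∧ S2 b y
  cov : ∀ k ψ, S k ψ → ∃ a b h π e x y, Y.act π e ψ = p a b k h x y
  uni : ∀ a b k h h' π e x y x' y', S1 a x → S2 b y →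
    Y.act π e (p a b k h x y) = p a b k h' x' y' → ∃ π1 e1 π2 e2,
      Perm.sign π = Perm.sign π1 * Perm.sign π2 ∧ x' = Y1.act π1 e1 x ∧ y' = Y2.act π2 e2 y
  dd : ∀ (A : Type) [AddCommGroup A] (C : Gr Y A), ASG C → ∀ a b k h x y,
    DD C k (p a b k h x y) = DD (fun a' x' => C (b + a') (p a' b _ rfl x' y)) a x +
      ((-1 : ℤˣ) ^ a) • DD (fun b' y' => C (b' + a) (p a b' _ rfl x y')) b y

namespace Pr

variable {S : Fam Y} {S1 : Fam Y1} {S2 : Fam Y2} (D : Pr Y Y1 Y2 S S1 S2)

theorem as1 {c : Y.X k → A} (hc : AS Y c) (a b : ℕ) (h : k = b + a) (y : Y2.X b) :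
    AS Y1 (fun x => c (D.p a b k h x y)) := by
  intro π e x
  obtain ⟨π', e', h1, h2⟩ := D.pa1 a b k h π e
  simp only
  rw [h2, hc, h1]

theorem as2 {c : Y.X k → A} (hc : AS Y c) (a b : ℕ) (h : k = b + a) (x : Y1.X a) :
    AS Y2 (fun y => c (D.p a b k h x y)) := by
  intro π e y
  obtain ⟨π', e', h1, h2⟩ := D.pa2 a b k h π e
  simp only
  rw [h2, hc, h1]

/-- extension of a biantisymmetric function -/
theorem ext (hI : Inv Y S) (a b : ℕ) (h : k = b + a) (f : Y1.X a → Y2.X b → A)
    (hf1 : ∀ y, AS Y1 (fun x => f x y)) (hf2 : ∀ x, AS Y2 (f x)) :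
    ∃ F : Y.X k → A, AS Y F ∧ Supp Y S F ∧
      (∀ x y, S1 a x → S2 b y → F (D.p a b k h x y) = f x y) ∧
      (∀ ψ, D.β k ψ ≠ b → F ψ = 0) := by
  obtain ⟨F, hF, hF2, hF3⟩ := ext_exists (Y := Y)
    (ι := {q : Y1.X a × Y2.X b // S1 a q.1 ∧ S2 b q.2})
    (fun q => D.p a b k h q.1.1 q.1.2) (fun q => f q.1.1 q.1.2) (by
      rintro ⟨⟨x, y⟩, hx, hy⟩ ⟨⟨x', y'⟩, hx', hy'⟩ π e h1
      obtain ⟨π1, e1, π2, e2, h2, h3, h4⟩ := D.uni a b k h h π e x y x' y' hx hy h1
      have e1' := hf1 (Y2.act π2 e2 y) π1 e1 x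
      have e2' := hf2 x π2 e2 y
      simp only at e1' e2' h3 h4 ⊢
      rw [h3, h4, h2, mul_smul, e1', e2'])
  refine ⟨F, hF, ?_, ?_, ?_⟩
  · intro ψ hψ
    apply hF3
    rintro ⟨π, e, q, hq⟩
    apply hψ
    rw [← hI _ π e, hq, D.hS]
    exact q.2
  · intro x y hx hy
    exact hF2 ⟨(x, y), hx, hy⟩
  · intro ψ hψ
    apply hF3
    rintro ⟨π, e, q, hq⟩
    apply hψ
    rw [← D.β_act _ π e, hq, D.β_p _ _ _ _ _ _ q.2.1 q.2.2]

theorem sg_p {c : Y.X k → A} {a b k' : ℕ} (h' : k' = b + a) (h : k = b + a) (x : Y1.X a)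
    (y : Y2.X b) : sg c k' (D.p a b k' h' x y) = c (D.p a b k h x y) := by
  have : k' = k := by omega
  subst this
  rw [sg_self]

/-- the value of the coboundary of a function concentrated at a given second degree -/
theorem dl_first (hI : Inv Y S) {F : Y.X k → A} (hF : AS Y F) (a b : ℕ)
    (h : k + 1 = b + (a + 1)) (hb : ∀ ψ, D.β k ψ ≠ b → F ψ = 0) (hs : Supp Y S F)
    (x : Y1.X (a + 1)) (y : Y2.X b) (hx : S1 _ x) (hy : S2 _ y) :
    dl Y F (D.p (a + 1) b (k + 1) h x y) =
      dl Y1 (fun x' => F (D.p a b k (by omega) x' y)) x := by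
  have h1 := D.dd A (sg F) (ASG.sg hF) (a + 1) b (k + 1) h x y
  rw [DD_succ] at h1
  have h2 : sg F k = F := funext (sg_self F)
  rw [h2] at h1
  rw [h1]
  have h3 : DD (fun b' y' => sg F (b' + (a + 1)) (D.p (a + 1) b' _ rfl x y')) b y = 0 := by
    cases b with
    | zero => rfl
    | succ b =>
      rw [DD_succ]
      apply dl_eq_zero
      intro π e
      rw [D.sg_p (k := k) rfl (by omega)]
      by_cases hy' : S2 b (Y2.d (Y2.act π e y))
      · apply hb
        rw [D.β_p _ _ _ _ _ _ hx hy']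
        omega
      · apply hs
        rw [D.hS]
        exact fun h => hy' h.2
  rw [h3, smul_zero, add_zero, DD_succ]
  congr 1
  funext x'
  exact D.sg_p _ _ _ _

theorem dl_second (hI : Inv Y S) {F : Y.X k → A} (hF : AS Y F) (a b : ℕ)
    (h : k + 1 = (b + 1) + a) (hb : ∀ ψ, D.β k ψ ≠ b → F ψ = 0) (hs : Supp Y S F)
    (x : Y1.X a) (y : Y2.X (b + 1)) (hx : S1 _ x) (hy : S2 _ y) :
    dl Y F (D.p a (b + 1) (k + 1) h x y) =
      ((-1 : ℤˣ) ^ a) • dl Y2 (fun y' => F (D.p a b k (by omega) x y')) y := by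
  have h1 := D.dd A (sg F) (ASG.sg hF) a (b + 1) (k + 1) h x y
  rw [DD_succ] at h1
  have h2 : sg F k = F := funext (sg_self F)
  rw [h2] at h1
  rw [h1]
  have h3 : DD (fun a' x' => sg F ((b + 1) + a') (D.p a' (b + 1) _ rfl x' y)) a x = 0 := by
    cases a with
    | zero => rfl
    | succ a =>
      rw [DD_succ]
      apply dl_eq_zero
      intro π e
      rw [D.sg_p (k := k) rfl (by omega)]
      by_cases hx' : S1 a (Y1.d (Y1.act π e x))
      · apply hb
        rw [D.β_p _ _ _ _ _ _ hx' hy]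
        omega
      · apply hs
        rw [D.hS]
        exact fun h => hx' h.1
  rw [h3, zero_add, DD_succ]
  congr 2
  funext y'
  exact D.sg_p _ _ _ _

/-- biantisymmetric supported functions -/
def G1 (Y1 : Sy) (S1 : Fam Y1) (a : ℕ) (A : Type) [AddCommGroup A] :
    AddSubgroup (Y1.X a → A) where
  carrier := {g | AS Y1 g ∧ Supp Y1 S1 g}
  zero_mem' := ⟨AS.zero, fun _ _ => rfl⟩
  add_mem' := by
    rintro f g ⟨h1, h2⟩ ⟨h3, h4⟩
    refine ⟨h1.add h3, fun ψ hψ => ?_⟩
    show f ψ + g ψ = 0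
    rw [h2 _ hψ, h4 _ hψ, add_zero]
  neg_mem' := by
    rintro f ⟨h1, h2⟩
    refine ⟨h1.neg, fun ψ hψ => ?_⟩
    show - f ψ = 0
    rw [h2 _ hψ, neg_zero]

theorem Cob.add {S : Fam Y} {f g : Y.X k → A} (hf : Cob Y S f) (hg : Cob Y S g) :
    Cob Y S (f + g) := by
  cases k with
  | zero => intro ψ; show f ψ + g ψ = 0; rw [hf, hg, add_zero]
  | succ k =>
    obtain ⟨w, h1, h2, h3⟩ := hf
    obtain ⟨w', h1', h2', h3'⟩ := hg
    refine ⟨fun ψ => w ψ + w' ψ, h1.add h1', ?_, ?_⟩
    · intro ψ hψ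
      show w ψ + w' ψ = 0
      rw [h2 _ hψ, h2' _ hψ, add_zero]
    · intro ψ hψ
      rw [dl_add, ← h3 _ hψ, ← h3' _ hψ]; rfl

theorem Cob.neg {S : Fam Y} {f : Y.X k → A} (hf : Cob Y S f) : Cob Y S (-f) := by
  cases k with
  | zero => intro ψ; show - f ψ = 0; rw [hf, neg_zero]
  | succ k =>
    obtain ⟨w, h1, h2, h3⟩ := hf
    refine ⟨fun ψ => - w ψ, h1.neg, ?_, ?_⟩
    · intro ψ hψ
      show - w ψ = 0
      rw [h2 _ hψ, neg_zero]
    · intro ψ hψ
      rw [dl_neg, ← h3 _ hψ]; rfl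

def H1 (Y1 : Sy) (S1 : Fam Y1) (a : ℕ) (A : Type) [AddCommGroup A] :
    AddSubgroup (G1 Y1 S1 a A) where
  carrier := {g | Cob Y1 S1 g.1}
  zero_mem' := Cob.of_zero (fun _ => rfl)
  add_mem' := fun h1 h2 => Cob.add h1 h2
  neg_mem' := fun h1 => Cob.neg h1

/-- the part with a given second degree is exact in the first direction -/
theorem part_ex (hI : Inv Y S) (hI2 : Inv Y2 S2) (b a : ℕ) (hk : k = b + a)
    (hex : Ex Y1 S1 a) : Ex Y (At S D.β b) k := by
  intro A _ c hc
  -- the function with values in functions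
  let f : Y1.X a → G1 Y2 S2 b A := fun x =>
    ⟨fun y => c (D.p a b k hk x y), D.as2 hc.as a b hk x, fun y hy => by
      apply hc.supp
      rintro ⟨h, _⟩
      rw [D.hS] at h
      exact hy h.2⟩
  have hfcoc : Coc Y1 S1 f := by
    refine ⟨?_, ?_, ?_⟩
    · intro π e x
      apply Subtype.ext
      funext y
      exact D.as1 hc.as a b hk y π e x
    · intro x hx
      apply Subtype.ext
      funext y
      apply hc.supp
      rintro ⟨h, _⟩
      rw [D.hS] at h
      exact hx h.1
    · intro x hx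
      apply Subtype.ext
      funext y
      by_cases hy : S2 b y
      · have h1 := D.dl_first hI hc.as a b (by omega) (fun ψ h => hc.supp ψ (fun h' => h h'.2))
          (fun ψ h => hc.supp ψ (fun h' => h h'.1)) x y hx hy
        rw [hc.dl] at h1
        · have h2 : (dl Y1 f x).1 y = dl Y1 (fun x' => c (D.p a b k (by omega) x' y)) x := by
            unfold dl
            rw [AddSubgroup.val_finsetSum, Finset.sum_apply]
            rfl
          rw [h2, ← h1]; rfl
        · exact ⟨(D.hS _ _ _ _ _ _).2 ⟨hx, hy⟩, D.β_p _ _ _ _ _ _ hx hy⟩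
      · exact (dl Y1 f x).2.2 y hy
  have hcob := hex _ f hfcoc
  -- reduction to products
  have hred : ∀ (g : Y.X k → A), AS Y g → (∀ x y, S1 a x → S2 b y →
      c (D.p a b k hk x y) = g (D.p a b k hk x y)) → ∀ ψ, At S D.β b k ψ → c ψ = g ψ := by
    intro g hg h ψ hψ
    obtain ⟨a', b', h', π, e, x, y, hxy⟩ := D.cov k ψ hψ.1
    have h1 : S k (D.p a' b' k h' x y) := by rw [← hxy, hI]; exact hψ.1
    have h2 := (D.hS _ _ _ _ _ _).1 h1
    have h3 : b' = b := by
      rw [← D.β_p _ _ _ h' _ _ h2.1 h2.2, ← hxy, D.β_act, hψ.2]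
    subst h3
    have h4 : a' = a := by omega
    subst h4
    have h5 := h x y h2.1 h2.2
    rw [← hxy, hc.as, hg] at h5
    exact smul_cancel h5
  cases a with
  | zero =>
    apply Cob.of_zero
    intro ψ
    by_cases hψ : At S D.β b k ψ
    · refine hred (fun _ => 0) AS.zero ?_ ψ hψ
      intro x y hx hy
      exact congrFun (congrArg Subtype.val (hcob x)) y
    · exact hc.supp _ hψ
  | succ a =>
    obtain ⟨v, hv, hvs, hv2⟩ := hcob
    obtain ⟨k, rfl⟩ : ∃ k', k = k' + 1 := ⟨b + a, by omega⟩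
    obtain ⟨F, hF, hFs, hF2, hF3⟩ := D.ext (k := k) hI a b (by omega) (fun x y => (v x).1 y)
      (by
        intro y π e x
        have := congrArg (fun g => g.1 y) (hv π e x)
        rcases Int.units_eq_one_or (Perm.sign π) with h | h
        · rw [h] at this ⊢
          simpa using this
        · rw [h] at this ⊢
          simpa using this)
      (fun x => (v x).2.1)
    refine ⟨F, hF, ?_, ?_⟩
    · intro ψ hψ
      by_cases h : S k ψ
      · exact hF3 ψ (fun h' => hψ ⟨h, h'⟩)
      · exact hFs ψ h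
    · refine hred _ hF.dl ?_
      intro x y hx hy
      rw [D.dl_first hI hF a b hk hF3 hFs x y hx hy]
      have h1 := congrArg (fun g => g.1 y) (hv2 x hx)
      have h2 : (dl Y1 v x).1 y = dl Y1 (fun x' => (v x').1 y) x := by
        unfold dl
        rw [AddSubgroup.val_finsetSum, Finset.sum_apply]
        rfl
      change (f x).1 y = (dl Y1 v x).1 y at h1
      rw [h2] at h1
      rw [show c (D.p (a + 1) b (k + 1) hk x y) = (f x).1 y from rfl, h1]
      apply dl_congr
      intro π e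
      by_cases h3 : S1 a (Y1.d (Y1.act π e x))
      · rw [hF2 _ _ h3 hy]
      · rw [hvs _ h3, hFs]
        · rfl
        · rw [D.hS]; exact fun h => h3 h.1

/-- extension concentrated at a bidegree, graded -/
theorem extG (hI : Inv Y S) (a b : ℕ) (f : Y1.X a → Y2.X b → A)
    (hf1 : ∀ y, AS Y1 (fun x => f x y)) (hf2 : ∀ x, AS Y2 (f x)) :
    ∃ F : Gr Y A, ASG F ∧ (∀ j ψ, ¬ S j ψ → F j ψ = 0) ∧
      (∀ j h x y, S1 a x → S2 b y → F j (D.p a b j h x y) = f x y) ∧
      (∀ a' b' j h x y, S1 a' x → S2 b' y → (a' ≠ a ∨ b' ≠ b) →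
        F j (D.p a' b' j h x y) = 0) := by
  obtain ⟨F, hF, hF2, hF3, hF4⟩ := D.ext (k := b + a) hI a b rfl f hf1 hf2
  refine ⟨sg F, ASG.sg hF, fun j ψ h => sg_supp hF2 h, ?_, ?_⟩
  · intro j h x y hx hy
    subst h
    rw [sg_self, hF3 x y hx hy]
  · intro a' b' j h x y hx hy hne
    by_cases hj : j = b + a
    · subst hj
      rw [sg_self]
      apply hF4
      rw [D.β_p _ _ _ _ _ _ hx hy]
      omega
    · exact sg_ne F hj _

theorem extG1 (hI : Inv Y S) (a b : ℕ) (f : Y1.X a → Y2.X b → A)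
    (hf1 : ∀ y, AS Y1 (fun x => f x y)) (hf2 : ∀ x, AS Y2 (f x))
    (hs : ∀ x y, ¬ S1 a x → f x y = 0) :
    ∃ F : Gr Y A, ASG F ∧ (∀ j ψ, ¬ S j ψ → F j ψ = 0) ∧
      (∀ j h x y, S1 (a + 1) x → S2 b y → DD F j (D.p (a + 1) b j h x y) =
        dl Y1 (fun x' => f x' y) x) := by
  obtain ⟨F, hF, hF2, hF3, hF4⟩ := D.extG hI a b f hf1 hf2
  refine ⟨F, hF, hF2, ?_⟩
  intro j h x y hx hy
  rw [D.dd A F hF (a + 1) b j h x y]
  have h3 : DD (fun b' y' => F (b' + (a + 1)) (D.p (a + 1) b' _ rfl x y')) b y = 0 := by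
    cases b with
    | zero => rfl
    | succ b =>
      rw [DD_succ]
      apply dl_eq_zero
      intro π e
      by_cases hy' : S2 b (Y2.d (Y2.act π e y))
      · exact hF4 _ _ _ _ _ _ hx hy' (by omega)
      · apply hF2
        rw [D.hS]
        exact fun h => hy' h.2
  rw [h3, smul_zero, add_zero, DD_succ]
  apply dl_congr
  intro π e
  by_cases hx' : S1 a (Y1.d (Y1.act π e x))
  · exact hF3 _ _ _ _ hx' hy
  · rw [hs _ _ hx']
    apply hF2
    rw [D.hS]
    exact fun h => hx' h.1

theorem extG2 (hI : Inv Y S) (a b : ℕ) (f : Y1.X a → Y2.X b → A)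
    (hf1 : ∀ y, AS Y1 (fun x => f x y)) (hf2 : ∀ x, AS Y2 (f x))
    (hs : ∀ x y, ¬ S2 b y → f x y = 0) :
    ∃ F : Gr Y A, ASG F ∧ (∀ j ψ, ¬ S j ψ → F j ψ = 0) ∧
      (∀ j h x y, S1 a x → S2 (b + 1) y → DD F j (D.p a (b + 1) j h x y) =
        ((-1 : ℤˣ) ^ a) • dl Y2 (f x) y) := by
  obtain ⟨F, hF, hF2, hF3, hF4⟩ := D.extG hI a b f hf1 hf2
  refine ⟨F, hF, hF2, ?_⟩
  intro j h x y hx hy
  rw [D.dd A F hF a (b + 1) j h x y]
  have h3 : DD (fun a' x' => F ((b + 1) + a') (D.p a' (b + 1) _ rfl x' y)) a x = 0 := by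
    cases a with
    | zero => rfl
    | succ a =>
      rw [DD_succ]
      apply dl_eq_zero
      intro π e
      by_cases hx' : S1 a (Y1.d (Y1.act π e x))
      · exact hF4 _ _ _ _ _ _ hx' hy (by omega)
      · apply hF2
        rw [D.hS]
        exact fun h => hx' h.1
  rw [h3, zero_add, DD_succ]
  congr 1
  apply dl_congr
  intro π e
  by_cases hy' : S2 b (Y2.d (Y2.act π e y))
  · exact hF3 _ _ _ _ hx hy'
  · rw [hs _ _ hy']
    apply hF2
    rw [D.hS]
    exact fun h => hy' h.2

theorem units_smul_apply {X : Type} (s : ℤˣ) (f : X → A) (x : X) : (s • f) x = s • f x := by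
  rcases Int.units_eq_one_or s with h | h <;> simp [h]

theorem val_units_smul {X : Type} (G : AddSubgroup (X → A)) (s : ℤˣ) (f : G) (x : X) :
    (s • f).1 x = s • f.1 x := by
  rcases Int.units_eq_one_or s with h | h <;> simp [h]

theorem val_units_smul' {B : Type} [AddCommGroup B] (G : AddSubgroup B) (s : ℤˣ) (f : G) :
    (s • f).1 = s • f.1 := by
  rcases Int.units_eq_one_or s with h | h <;> simp [h]

theorem val_dl {X : Type} {b : ℕ} (G : AddSubgroup (X → A)) (v : Y2.X b → G) (y : Y2.X (b + 1))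
    (x : X) : (dl Y2 v y).1 x = dl Y2 (fun y' => (v y').1 x) y := by
  unfold dl
  rw [AddSubgroup.val_finsetSum, Finset.sum_apply]
  refine Finset.sum_congr rfl fun i _ => ?_
  exact val_units_smul _ _ _ _

theorem map_units_smul {B B' : Type} [AddCommGroup B] [AddCommGroup B'] (q : B →+ B') (s : ℤˣ)
    (b : B) : q (s • b) = s • q b := by
  rcases Int.units_eq_one_or s with h | h <;> simp [h]

theorem map_dl {B B' : Type} [AddCommGroup B] [AddCommGroup B'] (q : B →+ B') {b : ℕ}
    (v : Y2.X b → B) (y : Y2.X (b + 1)) : q (dl Y2 v y) = dl Y2 (fun y' => q (v y')) y := by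
  unfold dl
  rw [map_sum]
  refine Finset.sum_congr rfl fun i _ => ?_
  exact map_units_smul _ _ _

/-- first step of the critical part -/
theorem critA (hI : Inv Y S) (hI1 : Inv Y1 S1) (hI2 : Inv Y2 S2)
    (hfree : ∀ b (y : Y2.X b), S2 b y → ∀ π e, Y2.act π e y = y → π = 1)
    (a b : ℕ) (hk : k = b + a) (hex : Ex Y2 S2 b) {c : Y.X k → A} (hc : Coc Y S c)
    (h1 : ∀ x : Y1.X (a + 1), ¬ S1 _ x) :
    ∃ W : Gr Y A, ASG W ∧ (∀ j ψ, ¬ S j ψ → W j ψ = 0) ∧
      ∃ h : Y2.X b → H1 Y1 S1 a A, AS Y2 h ∧ ∀ x y, S1 a x → S2 b y →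
        c (D.p a b k hk x y) = DD W k (D.p a b k hk x y) + (h y).1.1 x := by
  classical
  let g : Y2.X b → G1 Y1 S1 a A := fun y =>
    ⟨fun x => c (D.p a b k hk x y), D.as1 hc.as a b hk y, fun x hx => by
      apply hc.supp
      rw [D.hS]
      exact fun h => hx h.1⟩
  have hg : AS Y2 g := by
    intro π e y
    apply Subtype.ext
    funext x
    rw [val_units_smul]
    exact D.as2 hc.as a b hk x π e y
  have hgs : ∀ y, ¬ S2 b y → g y = 0 := by
    intro y hy
    apply Subtype.ext
    funext x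
    apply hc.supp
    rw [D.hS]
    exact fun h => hy h.2
  let q : G1 Y1 S1 a A →+ (G1 Y1 S1 a A ⧸ H1 Y1 S1 a A) := QuotientAddGroup.mk' _
  have hq : Function.Surjective q := QuotientAddGroup.mk'_surjective _
  have hker : ∀ z, q z = 0 → z ∈ H1 Y1 S1 a A := by
    intro z hz
    exact (QuotientAddGroup.eq_zero_iff z).1 hz
  have hker' : ∀ z, z ∈ H1 Y1 S1 a A → q z = 0 := by
    intro z hz
    exact (QuotientAddGroup.eq_zero_iff z).2 hz
  have hcoc : Coc Y2 S2 (fun y => q (g y)) := by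
    refine ⟨?_, ?_, ?_⟩
    · intro π e y
      show q (g (Y2.act π e y)) = _
      rw [hg, map_units_smul]
    · intro y hy
      show q (g y) = 0
      rw [hgs y hy, map_zero]
    · intro y hy
      rw [← map_dl]
      apply hker'
      show Cob Y1 S1 (dl Y2 g y).1
      have hval : (dl Y2 g y).1 = fun x => dl Y2 (fun y' => c (D.p a b k hk x y')) y := by
        funext x
        rw [val_dl]
      cases a with
      | zero =>
        intro x
        rw [hval]
        by_cases hx : S1 0 x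
        · have h2 := hc.dl (D.p 0 (b + 1) (k + 1) (by omega) x y) ((D.hS _ _ _ _ _ _).2 ⟨hx, hy⟩)
          have h3 := D.dd A (sg c) (ASG.sg hc.as) 0 (b + 1) (k + 1) (by omega) x y
          rw [DD_succ, DD_zero, zero_add, pow_zero, one_smul, DD_succ] at h3
          have h4 : sg c k = c := funext (sg_self c)
          rw [h4, h2] at h3
          rw [h3]
          apply dl_congr
          intro π e
          exact (D.sg_p _ _ _ _).symm
        · apply dl_eq_zero
          intro π e
          apply hc.supp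
          rw [D.hS]
          exact fun h => hx h.1
      | succ a =>
        refine ⟨fun x => - ((-1 : ℤˣ) ^ (a + 1)) • (c (D.p a (b + 1) k (by omega) x y)), ?_, ?_, ?_⟩
        · intro π e x
          have := D.as1 hc.as a (b + 1) (by omega) y π e x
          simp only at this ⊢
          rw [this, smul_comm]
        · intro x hx
          show - ((-1 : ℤˣ) ^ (a + 1)) • (c (D.p a (b + 1) k (by omega) x y)) = 0
          rw [hc.supp, smul_zero]
          rw [D.hS]
          exact fun h => hx h.1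
        · intro x hx
          rw [hval]
          have h2 := hc.dl (D.p (a + 1) (b + 1) (k + 1) (by omega) x y)
            ((D.hS _ _ _ _ _ _).2 ⟨hx, hy⟩)
          have h3 := D.dd A (sg c) (ASG.sg hc.as) (a + 1) (b + 1) (k + 1) (by omega) x y
          rw [DD_succ, DD_succ, DD_succ] at h3
          have h4 : sg c k = c := funext (sg_self c)
          rw [h4, h2] at h3
          have h5 : dl Y1 (fun x' => sg c (b + 1 + a) (D.p a (b + 1) _ rfl x' y)) x =
              dl Y1 (fun x' => c (D.p a (b + 1) k (by omega) x' y)) x := by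
            apply dl_congr
            intro π e
            exact D.sg_p _ _ _ _
          have h6 : dl Y2 (fun y' => sg c (b + (a + 1)) (D.p (a + 1) b _ rfl x y')) y =
              dl Y2 (fun y' => c (D.p (a + 1) b k hk x y')) y := by
            apply dl_congr
            intro π e
            exact D.sg_p _ _ _ _
          rw [h5, h6] at h3
          have h7 : dl Y1 (fun x => - ((-1 : ℤˣ) ^ (a + 1)) •
              (c (D.p a (b + 1) k (by omega) x y))) x = - ((-1 : ℤˣ) ^ (a + 1)) •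
              dl Y1 (fun x' => c (D.p a (b + 1) k (by omega) x' y)) x := by
            unfold dl
            rw [Finset.smul_sum]
            refine Finset.sum_congr rfl fun i _ => ?_
            rw [smul_comm]
          rw [h7]
          rw [eq_neg_of_add_eq_zero_left h3.symm]
          rw [smul_neg, smul_smul, neg_mul, Int.units_mul_self, Units.neg_smul, one_smul, neg_neg]
  have hcob := hex _ _ hcoc
  cases b with
  | zero =>
    refine ⟨fun _ _ => 0, fun _ => AS.zero, fun _ _ _ => rfl, fun y => ⟨g y, hker _ (hcob y)⟩,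
      ?_, ?_⟩
    · intro π e y
      apply Subtype.ext
      rw [val_units_smul']
      exact hg π e y
    · intro x y hx hy
      have : DD (fun _ _ => 0 : Gr Y A) k (D.p a 0 k hk x y) = 0 := by
        cases k with
        | zero => rfl
        | succ k =>
          rw [DD_succ]
          apply dl_eq_zero
          intros; rfl
      rw [this, zero_add]
  | succ b =>
    obtain ⟨w', hw', hws', hw2'⟩ := hcob
    obtain ⟨w, hw, hw2, hws⟩ := AS.lift (Y := Y2) q hq (S := S2 b) (hI2 b) (hfree b) hw'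
    have hqw : ∀ y, q (w y) = w' y := by
      intro y
      by_cases hy : S2 b y
      · exact hw2 y hy
      · rw [hws y hy, hws' y hy, map_zero]
    have hmem : ∀ y, S2 (b + 1) y → g y - dl Y2 w y ∈ H1 Y1 S1 a A := by
      intro y hy
      apply hker
      have h2' : q (g y) = dl Y2 w' y := hw2' y hy
      rw [map_sub, map_dl, h2', sub_eq_zero]
      apply dl_congr
      intro π e
      exact (hqw _).symm
    obtain ⟨W, hW, hWs, hW2⟩ := D.extG2 (A := A) hI a b
      (fun x y => ((-1 : ℤˣ) ^ a) • (w y).1 x)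
      (by
        intro y π e x
        have := (w y).2.1 π e x
        simp only at this ⊢
        rw [this, smul_comm])
      (by
        intro x π e y
        have := congrArg (fun g => g.1 x) (hw π e y)
        simp only [val_units_smul] at this ⊢
        rw [this, smul_comm])
      (by
        intro x y hy
        simp only [hws y hy]
        show (-1 : ℤˣ) ^ a • (0 : A) = 0
        rw [smul_zero])
    refine ⟨W, hW, hWs, fun y => if hy : S2 (b + 1) y then ⟨g y - dl Y2 w y, hmem y hy⟩ else 0,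
      ?_, ?_⟩
    · intro π e y
      by_cases hy : S2 (b + 1) y
      · have hy' : S2 (b + 1) (Y2.act π e y) := (hI2 _ _ _ _).2 hy
        simp only [dif_pos hy, dif_pos hy']
        apply Subtype.ext
        rw [val_units_smul']
        show g (Y2.act π e y) - dl Y2 w (Y2.act π e y) = Perm.sign π • (g y - dl Y2 w y)
        rw [hg, hw.dl, smul_sub]
      · have hy' : ¬ S2 (b + 1) (Y2.act π e y) := fun h => hy ((hI2 _ _ _ _).1 h)
        simp only [dif_neg hy, dif_neg hy', smul_zero]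
    · intro x y hx hy
      simp only [dif_pos hy]
      rw [hW2 _ _ _ _ hx hy]
      have h2 : dl Y2 (fun y => ((-1 : ℤˣ) ^ a) • (w y).1 x) y =
          ((-1 : ℤˣ) ^ a) • (dl Y2 w y).1 x := by
        rw [val_dl]
        unfold dl
        rw [Finset.smul_sum]
        refine Finset.sum_congr rfl fun i _ => ?_
        rw [smul_comm]
      rw [h2, smul_smul, Int.units_mul_self, one_smul]
      show c _ = (dl Y2 w y).1 x + ((g y).1 x - (dl Y2 w y).1 x)
      rw [add_sub_cancel]

/-- second step of the critical part -/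
theorem critB (hI : Inv Y S) (hI1 : Inv Y1 S1) (hI2 : Inv Y2 S2)
    (hfree : ∀ b (y : Y2.X b), S2 b y → ∀ π e, Y2.act π e y = y → π = 1)
    (a b : ℕ) (hk : k = b + a) (h : Y2.X b → H1 Y1 S1 a A) (hh : AS Y2 h) :
    ∃ W : Gr Y A, ASG W ∧ (∀ j ψ, ¬ S j ψ → W j ψ = 0) ∧ ∀ x y, S1 a x → S2 b y →
        (h y).1.1 x = DD W k (D.p a b k hk x y) := by
  classical
  cases a with
  | zero =>
    refine ⟨fun _ _ => 0, fun _ => AS.zero, fun _ _ _ => rfl, ?_⟩
    intro x y hx hy
    have : DD (fun _ _ => 0 : Gr Y A) k (D.p 0 b k hk x y) = 0 := by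
      cases k with
      | zero => rfl
      | succ k =>
        rw [DD_succ]
        apply dl_eq_zero
        intros; rfl
    rw [this]
    exact (h y).2 x
  | succ a =>
    let q : G1 Y1 S1 a A →+ H1 Y1 S1 (a + 1) A :=
      { toFun := fun v => ⟨⟨cut S1 (dl Y1 v.1), (v.2.1.dl).cut hI1, supp_cut _ _⟩,
          ⟨v.1, v.2.1, v.2.2, fun x hx => cut_of hx⟩⟩
        map_zero' := by
          apply Subtype.ext
          apply Subtype.ext
          funext x
          show cut S1 (dl Y1 (fun _ => (0 : A))) x = 0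
          by_cases hx : S1 (a + 1) x
          · rw [cut_of hx]
            apply dl_eq_zero
            intros; rfl
          · rw [cut_of_not hx]
        map_add' := by
          intro v v'
          apply Subtype.ext
          apply Subtype.ext
          funext x
          show cut S1 (dl Y1 (fun x => v.1 x + v'.1 x)) x =
            cut S1 (dl Y1 v.1) x + cut S1 (dl Y1 v'.1) x
          by_cases hx : S1 (a + 1) x
          · rw [cut_of hx, cut_of hx, cut_of hx, dl_add]
          · rw [cut_of_not hx, cut_of_not hx, cut_of_not hx, add_zero] }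
    have hq : Function.Surjective q := by
      rintro ⟨⟨g, hg1, hg2⟩, w, hw, hws, hw2⟩
      refine ⟨⟨w, hw, hws⟩, ?_⟩
      apply Subtype.ext
      apply Subtype.ext
      funext x
      show cut S1 (dl Y1 w) x = g x
      by_cases hx : S1 (a + 1) x
      · rw [cut_of hx]; exact (hw2 x hx).symm
      · rw [cut_of_not hx, hg2 x hx]
    obtain ⟨v, hv, hv2, hvs⟩ := AS.lift (Y := Y2) q hq (S := S2 b) (hI2 b) (hfree b) hh
    obtain ⟨W, hW, hWs, hW2⟩ := D.extG1 (A := A) hI a b (fun x y => (v y).1 x)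
      (fun y => (v y).2.1)
      (by
        intro x π e y
        have := congrArg (fun g => g.1 x) (hv π e y)
        simpa only [val_units_smul] using this)
      (by
        intro x y hx
        exact (v y).2.2 x hx)
    refine ⟨W, hW, hWs, ?_⟩
    intro x y hx hy
    rw [hW2 _ _ _ _ hx hy, ← hv2 y hy]
    show cut S1 (dl Y1 (v y).1) x = _
    rw [cut_of hx]

/-- the critical part -/
theorem crit (hI : Inv Y S) (hC : Conv Y S) (hI1 : Inv Y1 S1) (hI2 : Inv Y2 S2)
    (hfree : ∀ b (y : Y2.X b), S2 b y → ∀ π e, Y2.act π e y = y → π = 1)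
    (a b : ℕ) (hk : k = b + a)
    (hex : Ex Y2 S2 b)
    (h1 : ∀ a', a < a' → ∀ x : Y1.X a', ¬ S1 _ x) :
    KillFrom Y S (fun k ψ => D.β k ψ < b) (fun k ψ => D.β k ψ < b + 1) k := by
  intro A _ c hc h0
  obtain ⟨W, hW, hWs, h, hh, hW2⟩ := D.critA hI hI1 hI2 hfree a b hk hex hc
    (h1 (a + 1) (Nat.lt_succ_self a))
  obtain ⟨W', hW', hWs', hW2'⟩ := D.critB hI hI1 hI2 hfree a b hk h hh
  have key : ∀ ψ, D.β k ψ < b + 1 → S k ψ → c ψ = DD W k ψ + DD W' k ψ := by
    intro ψ hβ hψ
    obtain ⟨a', b', h', π, e, x, y, hxy⟩ := D.cov k ψ hψ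
    have h1' : S k (D.p a' b' k h' x y) := by rw [← hxy, hI]; exact hψ
    have h2 := (D.hS _ _ _ _ _ _).1 h1'
    have h3 : b' = D.β k ψ := by
      rw [← D.β_p _ _ _ h' _ _ h2.1 h2.2, ← hxy, D.β_act]
    have h4 : ¬ a < a' := fun h => h1 a' h x h2.1
    have h5 : b' = b := by omega
    subst h5
    have h4 : a' = a := by omega
    subst h4
    have h6 := hW2 x y h2.1 h2.2
    rw [hW2' x y h2.1 h2.2] at h6
    have hDW : ∀ (F : Gr Y A), ASG F → AS Y (DD F k) := by
      intro F hF
      cases k with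
      | zero => exact AS.zero
      | succ k => exact (hF k).dl
    rw [← hxy, hc.as, hDW W hW, hDW W' hW', ← smul_add] at h6
    exact smul_cancel h6
  cases k with
  | zero =>
    refine ⟨c, hc, ?_, id⟩
    intro ψ hψ
    by_cases h2 : S 0 ψ
    · rw [key ψ hψ h2, DD_zero, DD_zero, add_zero]
    · exact hc.supp _ h2
  | succ k =>
    set w : Y.X k → A := fun ψ => W k ψ + W' k ψ with hw
    have hwA : AS Y w := (hW k).add (hW' k)
    have hwS : Supp Y S w := by
      intro ψ hψ
      show W k ψ + W' k ψ = 0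
      rw [hWs _ _ hψ, hWs' _ _ hψ, add_zero]
    refine ⟨fun ψ => c ψ - cut S (dl Y w) ψ, ⟨hc.as.sub (hwA.dl.cut hI), ?_, ?_⟩, ?_, ?_⟩
    · intro ψ hψ
      show c ψ - cut S (dl Y w) ψ = 0
      rw [hc.supp _ hψ, cut_of_not hψ, sub_zero]
    · intro ψ hψ
      rw [dl_sub, hc.dl _ hψ, dl_cut_dl hI hC hwA hwS hψ, sub_zero]
    · intro ψ hψ
      by_cases h2 : S _ ψ
      · simp only [cut_of h2]
        rw [key ψ hψ h2, DD_succ, DD_succ, hw, dl_add, sub_self]
      · simp only [cut_of_not h2, hc.supp _ h2, sub_zero]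
    · rintro ⟨w', hw', hws', hw2'⟩
      refine ⟨fun ψ => w' ψ + w ψ, hw'.add hwA, ?_, ?_⟩
      · intro ψ hψ
        show w' ψ + w ψ = 0
        rw [hws' _ hψ, hwS _ hψ, add_zero]
      · intro ψ hψ
        rw [dl_add, ← hw2' ψ hψ]
        show c ψ = c ψ - cut S (dl Y w) ψ + dl Y w ψ
        rw [cut_of hψ, sub_add_cancel]

include D in
/-- exactness of a product -/
theorem ex (hI : Inv Y S) (hC : Conv Y S) (hI1 : Inv Y1 S1) (hI2 : Inv Y2 S2)
    (hfree : ∀ b (y : Y2.X b), S2 b y → ∀ π e, Y2.act π e y = y → π = 1) (t1 : ℕ) (t2 : ℤ)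
    (h1 : ∀ a, a < t1 → Ex Y1 S1 a) (h1' : ∀ a, t1 < a → ∀ x : Y1.X a, ¬ S1 _ x)
    (h2 : ∀ b : ℕ, (b : ℤ) < t2 → b ≤ k → Ex Y2 S2 b) (h3 : (k : ℤ) < t1 + t2) :
    Ex Y S k := by
  have hβ : ∀ ψ, S k ψ → D.β k ψ < k + 1 := by
    intro ψ hψ
    obtain ⟨a', b', h', π, e, x, y, hxy⟩ := D.cov k ψ hψ
    have h1' : S k (D.p a' b' k h' x y) := by rw [← hxy, hI]; exact hψ
    have h2 := (D.hS _ _ _ _ _ _).1 h1'
    have h3 : b' = D.β k ψ := by
      rw [← D.β_p _ _ _ h' _ _ h2.1 h2.2, ← hxy, D.β_act]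
    omega
  have hkill : ∀ M, KillFrom Y S (fun _ _ => False) (fun k ψ => D.β k ψ < M) k := by
    intro M
    induction M with
    | zero =>
      intro A _ c hc _
      exact ⟨c, hc, fun ψ hψ => absurd hψ (Nat.not_lt_zero _), id⟩
    | succ M ih =>
      refine ih.trans ?_
      by_cases hM : k < M
      · intro A _ c hc h0
        refine ⟨c, hc, ?_, id⟩
        intro ψ _
        by_cases h : S k ψ
        · exact h0 ψ (by have := hβ ψ h; omega)
        · exact hc.supp _ h
      · rcases lt_trichotomy (k - M) t1 with h | h | h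
        · refine KillFrom.step (T := At S D.β M) hI hC ?_ ?_ ?_ ?_ ?_ ?_ ?_
            (D.part_ex hI hI2 M (k - M) (by omega) (h1 _ h))
          · intro k π e ψ; simp only [D.β_act]
          · intro k π e ψ; unfold At; rw [D.β_act, hI]
          · intro k ψ h; exact h.1
          · rintro k ψ ⟨_, h⟩ h2; omega
          · intro ψ h1 h2
            rcases Nat.lt_succ_iff_lt_or_eq.1 h2 with h3 | h3
            · exact Or.inl h3
            · exact Or.inr ⟨h1, h3⟩
          · intro k ψ h1 h2 h3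
            have := D.β_d k ψ h1 h3
            omega
          · intro k ψ h1 h2
            have h3 := D.β_d k ψ h1.1 h2
            have h4 : D.β (k + 1) ψ = M := h1.2
            rcases Nat.lt_or_ge (D.β k (Y.d ψ)) M with h5 | h5
            · exact Or.inl h5
            · exact Or.inr ⟨h2, by omega⟩
        · refine D.crit hI hC hI1 hI2 hfree t1 M (by omega) ?_ h1'
          exact h2 M (by omega) (by omega)
        · intro A _ c hc h0
          refine ⟨c, hc, ?_, id⟩
          intro ψ hβ'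
          by_cases hψ : S k ψ
          · obtain ⟨a', b', h', π, e, x, y, hxy⟩ := D.cov k ψ hψ
            have h1'' : S k (D.p a' b' k h' x y) := by rw [← hxy, hI]; exact hψ
            have h2 := (D.hS _ _ _ _ _ _).1 h1''
            have h3 : b' = D.β k ψ := by
              rw [← D.β_p _ _ _ h' _ _ h2.1 h2.2, ← hxy, D.β_act]
            exact absurd h2.1 (h1' a' (by omega) x)
          · exact hc.supp _ hψ
  exact Ex.of_kill (C0 := fun _ _ => False) ((hkill (k + 1)).mono (fun ψ h => h)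
    (fun ψ h _ => hβ ψ h)) (fun _ h => h)

end Pr

end Pool.Agent.W604.G
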