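import Mathlib
import Pool.Agent.W604.Cyc

set_option autoImplicit false
set_option linter.unusedSectionVars false
set_option linter.unusedSimpArgs false
set_option linter.unusedVariables false

/-!
Equivalence relations with a class function; merging two classes; sums over classes.
-/

namespace Pool.Agent.W604

open Equiv

variable {Z Z' Z'' : Type}

/-- merging the classes of `p` and `q` -/
def mgR (R : Setoid Z) (p q : Z) : Setoid Z where
  r a b := R a b ∨ ((R a p ∨ R a q) ∧ (R b p ∨ R b q))
  iseqv := by
    refine ⟨fun a => Or.inl (R.refl a), ?_, ?_⟩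
    · rintro a b (h | ⟨h1, h2⟩)
      · exact Or.inl (R.symm h)
      · exact Or.inr ⟨h2, h1⟩
    · rintro a b c (h | ⟨h1, h2⟩) (h' | ⟨h1', h2'⟩)
      · exact Or.inl (R.trans h h')
      · exact Or.inr ⟨h1'.imp (R.trans h) (R.trans h), h2'⟩
      · exact Or.inr ⟨h1, h2.imp (R.trans (R.symm h')) (R.trans (R.symm h'))⟩
      · exact Or.inr ⟨h1, h2'⟩

theorem mgR_iff {R : Setoid Z} {p q a b : Z} :
    mgR R p q a b ↔ R a b ∨ ((R a p ∨ R a q) ∧ (R b p ∨ R b q)) := Iff.rfl

theorem mgR_of {R : Setoid Z} {p q a b : Z} (h : R a b) : mgR R p q a b := Or.inl h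

theorem mgR_pq (R : Setoid Z) (p q : Z) : mgR R p q p q :=
  Or.inr ⟨Or.inl (R.refl p), Or.inr (R.refl q)⟩

theorem mgR_le {R S : Setoid Z} {p q : Z} :
    (∀ a b, mgR R p q a b → S a b) ↔ (∀ a b, R a b → S a b) ∧ S p q := by
  constructor
  · intro h
    exact ⟨fun a b h' => h _ _ (Or.inl h'), h _ _ (mgR_pq R p q)⟩
  · rintro ⟨h1, h2⟩ a b (h | ⟨h3, h4⟩)
    · exact h1 _ _ h
    · have hp : ∀ c, (R c p ∨ R c q) → S c p := by
        rintro c (h | h)
        · exact h1 _ _ h
        · exact S.trans (h1 _ _ h) (S.symm h2)
      exact S.trans (hp a h3) (S.symm (hp b h4))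

theorem mgR_comm (R : Setoid Z) (p q p' q' : Z) :
    mgR (mgR R p q) p' q' = mgR (mgR R p' q') p q := by
  have key : ∀ p q p' q' : Z, ∀ a b, mgR (mgR R p q) p' q' a b → mgR (mgR R p' q') p q a b := by
    intro p q p' q'
    refine mgR_le.2 ⟨mgR_le.2 ⟨?_, mgR_pq _ _ _⟩, mgR_of (mgR_pq _ _ _)⟩
    intro a b h
    exact mgR_of (mgR_of h)
  ext a b
  exact ⟨key _ _ _ _ a b, key _ _ _ _ a b⟩

theorem mgR_symm (R : Setoid Z) (p q : Z) : mgR R p q = mgR R q p := by
  ext a b
  rw [mgR_iff, mgR_iff, or_comm (a := R a p), or_comm (a := R b p)]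

theorem mgR_of_rel {R : Setoid Z} {p q : Z} (h : R p q) : mgR R p q = R := by
  ext a b
  constructor
  · exact fun h' => mgR_le.2 ⟨fun _ _ h => h, h⟩ a b h'
  · exact mgR_of

/-- an equivalence relation with an integer valued class function -/
structure SX (Z : Type) where
  R : Setoid Z
  x : Z → ℤ
  hx : ∀ a b, R a b → x a = x b

theorem SX.ext' {X X' : SX Z} (h : ∀ a b, X.R a b ↔ X'.R a b) (h2 : ∀ a, X.x a = X'.x a) :
    X = X' := by
  obtain ⟨R, x, hx⟩ := X
  obtain ⟨R', x', hx'⟩ := X'
  have h3 : R = R' := Setoid.ext h
  have h4 : x = x' := funext h2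
  subst h3 h4
  rfl

/-- pull back -/
def SX.comap (X : SX Z) (e : Z' → Z) : SX Z' where
  R := Setoid.comap e X.R
  x z := X.x (e z)
  hx a b h := X.hx _ _ h

@[simp] theorem SX.comap_R (X : SX Z) (e : Z' → Z) (a b : Z') :
    (X.comap e).R a b ↔ X.R (e a) (e b) := Iff.rfl

@[simp] theorem SX.comap_x (X : SX Z) (e : Z' → Z) (a : Z') : (X.comap e).x a = X.x (e a) := rfl

theorem SX.comap_comap (X : SX Z) (e : Z' → Z) (e' : Z'' → Z') :
    (X.comap e).comap e' = X.comap (e ∘ e') := rfl

theorem SX.comap_id (X : SX Z) : X.comap id = X := rfl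

open Classical in
/-- merge the classes of `p` and `q`; the class function is the sum minus one (or the value
minus one if the classes were already equal) -/
noncomputable def SX.mg (X : SX Z) (p q : Z) : SX Z where
  R := mgR X.R p q
  x z := if X.R z p ∨ X.R z q then (if X.R p q then X.x p - 1 else X.x p + X.x q - 1) else X.x z
  hx := by
    rintro a b (h | ⟨h1, h2⟩)
    · have h1 : (X.R a p ∨ X.R a q) ↔ (X.R b p ∨ X.R b q) :=
        ⟨fun h' => h'.imp (X.R.trans (X.R.symm h)) (X.R.trans (X.R.symm h)),
          fun h' => h'.imp (X.R.trans h) (X.R.trans h)⟩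
      simp only [h1, X.hx _ _ h]
    · simp only [if_pos h1, if_pos h2]

theorem SX.mg_R (X : SX Z) (p q : Z) : (X.mg p q).R = mgR X.R p q := rfl

theorem SX.mg_x_of {X : SX Z} {p q z : Z} (h : X.R z p ∨ X.R z q) (h2 : X.R p q) :
    (X.mg p q).x z = X.x p - 1 := by
  simp [SX.mg, h, h2]

theorem SX.mg_x_of' {X : SX Z} {p q z : Z} (h : X.R z p ∨ X.R z q) (h2 : ¬ X.R p q) :
    (X.mg p q).x z = X.x p + X.x q - 1 := by
  simp [SX.mg, h, h2]

theorem SX.mg_x_of_not {X : SX Z} {p q z : Z} (h : ¬ (X.R z p ∨ X.R z q)) :
    (X.mg p q).x z = X.x z := by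
  simp only [SX.mg, if_neg h]

theorem SX.mg_symm (X : SX Z) (p q : Z) : X.mg p q = X.mg q p := by
  refine SX.ext' (fun a b => ?_) (fun a => ?_)
  · rw [SX.mg_R, SX.mg_R, mgR_symm]
  · by_cases h : X.R a p ∨ X.R a q
    · by_cases h2 : X.R p q
      · rw [SX.mg_x_of h h2, SX.mg_x_of h.symm (X.R.symm h2), X.hx _ _ h2]
      · rw [SX.mg_x_of' h h2, SX.mg_x_of' h.symm (fun h' => h2 (X.R.symm h')), add_comm (X.x p)]
    · rw [SX.mg_x_of_not h, SX.mg_x_of_not (fun h' => h h'.symm)]

theorem SX.comap_mg (X : SX Z) (e : Z' → Z) (p q : Z') :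
    (X.mg (e p) (e q)).comap e = (X.comap e).mg p q := rfl

open Classical in
theorem mg_comm_aux {Q : Type} (x : Q → ℤ) (z p q p' q' : Q) (x1 x2 : Q → ℤ)
    (h1 : x1 = fun z => if z = p ∨ z = q then (if p = q then x p - 1 else x p + x q - 1) else x z)
    (h2 : x2 = fun z => if z = p' ∨ z = q' then (if p' = q' then x p' - 1 else x p' + x q' - 1)
      else x z) :
    (if (z = p' ∨ ((z = p ∨ z = q) ∧ (p' = p ∨ p' = q))) ∨
        (z = q' ∨ ((z = p ∨ z = q) ∧ (q' = p ∨ q' = q))) then
      (if (p' = q' ∨ ((p' = p ∨ p' = q) ∧ (q' = p ∨ q' = q))) then x1 p' - 1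
        else x1 p' + x1 q' - 1) else x1 z) =
    (if (z = p ∨ ((z = p' ∨ z = q') ∧ (p = p' ∨ p = q'))) ∨
        (z = q ∨ ((z = p' ∨ z = q') ∧ (q = p' ∨ q = q'))) then
      (if (p = q ∨ ((p = p' ∨ p = q') ∧ (q = p' ∨ q = q'))) then x2 p - 1
        else x2 p + x2 q - 1) else x2 z) := by
  subst h1 h2
  simp only
  by_cases a1 : p = q
  · subst a1
    by_cases a2 : p' = q'
    · subst a2
      by_cases a3 : p = p'
      · subst a3
        by_cases a4 : z = p
        · subst a4; simp
        · simp [a4]
      · by_cases a4 : z = p
        · subst a4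
          simp [a3, Ne.symm a3]
        · by_cases a5 : z = p'
          · subst a5
            simp [a4, Ne.symm a4]
          · simp [a4, a5]
    · by_cases a3 : p = p'
      · subst a3
        by_cases a4 : z = p
        · subst a4; simp [a2, Ne.symm a2]; ring
        · by_cases a5 : z = q'
          · subst a5
            simp [a4, Ne.symm a4]; ring
          · simp [a4, a5]
      · by_cases a3' : p = q'
        · subst a3'
          by_cases a4 : z = p
          · subst a4; simp [a2, Ne.symm a2]; ring
          · by_cases a5 : z = p'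
            · subst a5
              simp [a4]; ring
            · simp [a4, a5]
        · by_cases a4 : z = p
          · subst a4; simp [a3, a3', Ne.symm a3, Ne.symm a3']
          · by_cases a5 : z = p'
            · subst a5
              simp [a4, a2, a3, a3', Ne.symm a3']
            · by_cases a6 : z = q'
              · subst a6
                simp [a4, a5, a2, a3, a3', Ne.symm a3]
              · simp [a4, a5, a6]
  · by_cases a2 : p' = q'
    · subst a2
      by_cases a3 : p = p'
      · subst a3
        by_cases a4 : z = p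
        · subst a4; simp [a1, Ne.symm a1]; ring
        · by_cases a5 : z = q
          · subst a5
            simp [a4, Ne.symm a4]; ring
          · simp [a4, a5]
      · by_cases a3' : p' = q
        · subst a3'
          by_cases a4 : z = p
          · subst a4; simp [a1]; ring
          · by_cases a5 : z = p'
            · subst a5
              simp [a4, Ne.symm a4]; ring
            · simp [a4, a5]
        · by_cases a4 : z = p
          · subst a4; simp [a3, a3', a1, Ne.symm a3, Ne.symm a3']
          · by_cases a5 : z = q
            · subst a5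
              simp [a4, a1, a3, a3', Ne.symm a3, Ne.symm a3']
            · by_cases a6 : z = p'
              · subst a6
                simp [a4, a5, a1, Ne.symm a4, Ne.symm a5]
              · simp [a4, a5, a6]
    · by_cases b1 : p = p'
      · subst b1
        by_cases b2 : q = q'
        · subst b2
          by_cases a4 : z = p
          · subst a4; simp [a1]
          · by_cases a5 : z = q
            · subst a5
              simp [a1]
            · simp [a4, a5]
        · by_cases a4 : z = p
          · subst a4; simp [a1, a2, b2, Ne.symm a1, Ne.symm a2, Ne.symm b2]; ring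
          · by_cases a5 : z = q
            · subst a5
              simp [a1, a2, b2, Ne.symm a1, Ne.symm a2, Ne.symm b2]; ring
            · by_cases a6 : z = q'
              · subst a6
                simp [a1, a2, b2, Ne.symm a1, Ne.symm a2, Ne.symm b2]; ring
              · simp [a4, a5, a6]
      · by_cases b2 : q = q'
        · subst b2
          by_cases a4 : z = p
          · subst a4; simp [a1, a2, b1, Ne.symm a1, Ne.symm a2, Ne.symm b1]; ring
          · by_cases a5 : z = q
            · subst a5
              simp [a1, a2, b1, Ne.symm a1, Ne.symm a2, Ne.symm b1]; ring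
            · by_cases a6 : z = p'
              · subst a6
                simp [a1, a2, b1, Ne.symm a1, Ne.symm a2, Ne.symm b1]; ring
              · simp [a4, a5, a6]
        · by_cases b3 : p = q'
          · subst b3
            by_cases b4 : q = p'
            · subst b4
              by_cases a4 : z = p
              · subst a4; simp [a1, Ne.symm a1]; ring
              · by_cases a5 : z = q
                · subst a5
                  simp [a1, Ne.symm a1]; ring
                · simp [a4, a5]
            · by_cases a4 : z = p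
              · subst a4; simp [a1, a2, b4, Ne.symm a1, Ne.symm a2, Ne.symm b4]; ring
              · by_cases a5 : z = q
                · subst a5
                  simp [a1, a2, b4, Ne.symm a1, Ne.symm a2, Ne.symm b4]; ring
                · by_cases a6 : z = p'
                  · subst a6
                    simp [a1, a2, b4, Ne.symm a1, Ne.symm a2, Ne.symm b4]; ring
                  · simp [a4, a5, a6]
          · by_cases b4 : q = p'
            · subst b4
              by_cases a4 : z = p
              · subst a4; simp [a1, a2, b3, Ne.symm a1, Ne.symm a2, Ne.symm b3]; ring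
              · by_cases a5 : z = q
                · subst a5
                  simp [a1, a2, b3, Ne.symm a1, Ne.symm a2, Ne.symm b3]; ring
                · by_cases a6 : z = q'
                  · subst a6
                    simp [a1, a2, b3, Ne.symm a1, Ne.symm a2, Ne.symm b3]; ring
                  · simp [a4, a5, a6]
            · -- four different elements
              by_cases a4 : z = p
              · subst a4
                simp [a1, a2, b1, b2, b3, b4, Ne.symm a1, Ne.symm a2, Ne.symm b1, Ne.symm b2,
                  Ne.symm b3, Ne.symm b4]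
              · by_cases a5 : z = q
                · subst a5
                  simp [a1, a2, b1, b2, b3, b4, Ne.symm a1, Ne.symm a2, Ne.symm b1, Ne.symm b2,
                    Ne.symm b3, Ne.symm b4]
                · by_cases a6 : z = p'
                  · subst a6
                    simp [a1, a2, b1, b2, b3, b4, Ne.symm a1, Ne.symm a2, Ne.symm b1, Ne.symm b2,
                      Ne.symm b3, Ne.symm b4]
                  · by_cases a7 : z = q'
                    · subst a7
                      simp [a1, a2, b1, b2, b3, b4, Ne.symm a1, Ne.symm a2, Ne.symm b1,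
                        Ne.symm b2, Ne.symm b3, Ne.symm b4]
                    · simp [a4, a5, a6, a7]

theorem SX.mg_comm (X : SX Z) (p q p' q' : Z) :
    (X.mg p q).mg p' q' = (X.mg p' q').mg p q := by
  classical
  refine SX.ext' (fun a b => ?_) (fun z => ?_)
  · rw [SX.mg_R, SX.mg_R, SX.mg_R, SX.mg_R, mgR_comm]
  · -- class function on the quotient
    let f : Quotient X.R → ℤ := Quotient.lift X.x X.hx
    let m : Z → Quotient X.R := Quotient.mk X.R
    have hR : ∀ a b, X.R a b ↔ m a = m b := fun a b => Quotient.eq (r := X.R).symm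
    have hf : ∀ a, X.x a = f (m a) := fun a => rfl
    have h := mg_comm_aux f (m z) (m p) (m q) (m p') (m q') _ _ rfl rfl
    simp only [← hR, ← hf] at h
    have e1 : ∀ (Y : SX Z) p q a b, (Y.mg p q).R a b ↔
        (Y.R a b ∨ ((Y.R a p ∨ Y.R a q) ∧ (Y.R b p ∨ Y.R b q))) := fun _ _ _ _ _ => Iff.rfl
    have e2 : ∀ (Y : SX Z) p q z, (Y.mg p q).x z = if Y.R z p ∨ Y.R z q then
        (if Y.R p q then Y.x p - 1 else Y.x p + Y.x q - 1) else Y.x z := by
      intro Y p q z
      unfold SX.mg
      simp only
    simp only [e2, e1]
    convert h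

end Pool.Agent.W604
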