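import Mathlib
import Pool.Agent.W604.Setd

set_option autoImplicit false
set_option linter.unusedSectionVars false
set_option linter.unusedSimpArgs false
set_option linter.unusedVariables false

/-!
Sums over the classes of an equivalence relation.
-/

namespace Pool.Agent.W604

open Equiv

variable {Z Z' : Type}

/-- sum over the classes -/
noncomputable def Tsm (R : Setoid Z) (w : Z → ℤ) : ℤ := ∑ᶠ c : Quotient R, w c.out

/-- class function -/
def CF (R : Setoid Z) (w : Z → ℤ) : Prop := ∀ a b, R a b → w a = w b

theorem CF.out {R : Setoid Z} {w : Z → ℤ} (h : CF R w) (z : Z) :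
    w (Quotient.mk R z).out = w z := h _ _ (Quotient.mk_out (s := R) z)

theorem CF.comap {R : Setoid Z} {w : Z → ℤ} (h : CF R w) (J : Z' → Z) :
    CF (Setoid.comap J R) (fun z => w (J z)) := fun _ _ h' => h _ _ h'

theorem Tsm_comap (R : Setoid Z) (J : Z' → Z) {w : Z → ℤ} (hw : CF R w)
    (hJ : ∀ z, ∃ z', R (J z') z) : Tsm (Setoid.comap J R) (fun z => w (J z)) = Tsm R w := by
  unfold Tsm
  let f : Quotient (Setoid.comap J R) → Quotient R := Quotient.map J (fun a b h => h)
  refine finsum_eq_of_bijective f ⟨?_, ?_⟩ ?_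
  · intro c c'
    induction c using Quotient.inductionOn with | h a => ?_
    induction c' using Quotient.inductionOn with | h b => ?_
    intro h
    exact Quotient.sound (s := Setoid.comap J R) (Quotient.exact (s := R) h)
  · intro c
    induction c using Quotient.inductionOn with | h z => ?_
    obtain ⟨z', h⟩ := hJ z
    exact ⟨Quotient.mk _ z', Quotient.sound (s := R) h⟩
  · intro c
    induction c using Quotient.inductionOn with | h a => ?_
    have h1 := (hw.comap J).out a
    exact h1.trans (hw.out (J a)).symm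

theorem Tsm_congr {R : Setoid Z} {w w' : Z → ℤ} (h : ∀ z, w z = w' z) : Tsm R w = Tsm R w' := by
  have : w = w' := funext h
  rw [this]

theorem Tsm_upd [Finite Z] (R : Setoid Z) (p : Z) {w w' : Z → ℤ} (hw : CF R w) (hw' : CF R w')
    (h : ∀ z, ¬ R z p → w' z = w z) : Tsm R w' = Tsm R w - w p + w' p := by
  classical
  unfold Tsm
  let _ : Fintype (Quotient R) := Fintype.ofFinite _
  rw [finsum_eq_sum_of_fintype, finsum_eq_sum_of_fintype,
    ← Finset.add_sum_erase _ _ (Finset.mem_univ (Quotient.mk R p)),
    ← Finset.add_sum_erase _ (fun c : Quotient R => w c.out)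
      (Finset.mem_univ (Quotient.mk R p)), hw.out, hw'.out]
  have : ∑ c ∈ Finset.univ.erase (Quotient.mk R p), w' c.out =
      ∑ c ∈ Finset.univ.erase (Quotient.mk R p), w c.out := by
    refine Finset.sum_congr rfl fun c hc => h _ ?_
    intro h'
    rw [Finset.mem_erase] at hc
    apply hc.1
    have := Quotient.sound (s := R) h'
    rwa [Quotient.out_eq] at this
  rw [this]
  ring

theorem Tsm_mg_of_not [Finite Z] (R : Setoid Z) (p q : Z) (hpq : ¬ R p q) {w w' : Z → ℤ}
    (hw : CF R w) (hw' : CF (mgR R p q) w') (h : ∀ z, ¬ (R z p ∨ R z q) → w' z = w z) :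
    Tsm (mgR R p q) w' = Tsm R w - w p - w q + w' p := by
  classical
  have hw'R : CF R w' := fun a b h' => hw' a b (mgR_of h')
  unfold Tsm
  let _ : Fintype (Quotient R) := Fintype.ofFinite _
  let _ : Fintype (Quotient (mgR R p q)) := Fintype.ofFinite _
  rw [finsum_eq_sum_of_fintype, finsum_eq_sum_of_fintype]
  let f : Quotient R → Quotient (mgR R p q) := Quotient.map id (fun a b h => mgR_of h)
  have h1 : ∑ c : Quotient (mgR R p q), w' c.out =
      ∑ c ∈ Finset.univ.erase (Quotient.mk R q), w' c.out := by
    symm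
    refine Finset.sum_bij (fun c _ => f c) (fun _ _ => Finset.mem_univ _) ?_ ?_ ?_
    · intro c hc c' hc'
      induction c using Quotient.inductionOn with | h a => ?_
      induction c' using Quotient.inductionOn with | h b => ?_
      intro h2
      have h3 : mgR R p q a b := Quotient.exact (s := mgR R p q) h2
      rw [Finset.mem_erase] at hc hc'
      have ha : ¬ R a q := fun h4 => hc.1 (Quotient.sound (s := R) h4)
      have hb : ¬ R b q := fun h4 => hc'.1 (Quotient.sound (s := R) h4)
      apply Quotient.sound (s := R)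
      rcases h3 with h3 | ⟨h3 | h3, h4 | h4⟩
      · exact h3
      · exact R.trans h3 (R.symm h4)
      · exact absurd h4 hb
      · exact absurd h3 ha
      · exact absurd h3 ha
    · intro c _
      induction c using Quotient.inductionOn with | h z => ?_
      by_cases hz : R z q
      · refine ⟨Quotient.mk R p, ?_, ?_⟩
        · rw [Finset.mem_erase]
          exact ⟨fun h' => hpq (Quotient.exact (s := R) h'), Finset.mem_univ _⟩
        · apply Quotient.sound (s := mgR R p q)
          exact Or.inr ⟨Or.inl (R.refl p), Or.inr hz⟩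
      · refine ⟨Quotient.mk R z, ?_, rfl⟩
        rw [Finset.mem_erase]
        exact ⟨fun h' => hz (Quotient.exact (s := R) h'), Finset.mem_univ _⟩
    · intro c _
      induction c using Quotient.inductionOn with | h a => ?_
      rw [hw'R.out]
      exact (hw'.out a).symm
  rw [h1]
  have hp : Quotient.mk R p ∈ Finset.univ.erase (Quotient.mk R q) := by
    rw [Finset.mem_erase]
    exact ⟨fun h' => hpq (Quotient.exact (s := R) h'), Finset.mem_univ _⟩
  rw [← Finset.add_sum_erase _ (fun c : Quotient R => w c.out)
    (Finset.mem_univ (Quotient.mk R q)), ← Finset.add_sum_erase _ _ hp,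
    ← Finset.add_sum_erase _ (fun c : Quotient R => w c.out) hp]
  simp only [hw.out, hw'R.out]
  have h2 : ∑ c ∈ (Finset.univ.erase (Quotient.mk R q)).erase (Quotient.mk R p), w' c.out =
      ∑ c ∈ (Finset.univ.erase (Quotient.mk R q)).erase (Quotient.mk R p), w c.out := by
    refine Finset.sum_congr rfl fun c hc => h _ ?_
    rw [Finset.mem_erase, Finset.mem_erase] at hc
    rintro (h' | h')
    · apply hc.1
      have := Quotient.sound (s := R) h'
      rwa [Quotient.out_eq] at this
    · apply hc.2.1
      have := Quotient.sound (s := R) h'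
      rwa [Quotient.out_eq] at this
  rw [h2]
  ring

theorem Tsm_mg_of [Finite Z] (R : Setoid Z) (p q : Z) (hpq : R p q) {w w' : Z → ℤ}
    (hw : CF R w) (hw' : CF (mgR R p q) w') (h : ∀ z, ¬ (R z p ∨ R z q) → w' z = w z) :
    Tsm (mgR R p q) w' = Tsm R w - w p + w' p := by
  rw [mgR_of_rel hpq] at hw' ⊢
  refine Tsm_upd R p hw hw' fun z hz => h z ?_
  rintro (h' | h')
  · exact hz h'
  · exact hz (R.trans h' (R.symm hpq))

/-- sum over two disjoint families of classes -/
theorem Tsm_add [Finite Z] (R : Setoid Z) {w w' : Z → ℤ} :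
    Tsm R (fun z => w z + w' z) = Tsm R w + Tsm R w' := by
  unfold Tsm
  exact finsum_add_distrib (Set.toFinite _) (Set.toFinite _)

theorem Tsm_sub [Finite Z] (R : Setoid Z) {w w' : Z → ℤ} :
    Tsm R (fun z => w z - w' z) = Tsm R w - Tsm R w' := by
  unfold Tsm
  exact finsum_sub_distrib (Set.toFinite _) (Set.toFinite _)

theorem Tsm_nonneg [Finite Z] (R : Setoid Z) {w : Z → ℤ} (h : ∀ z, 0 ≤ w z) : 0 ≤ Tsm R w := by
  unfold Tsm
  exact finsum_nonneg (fun c => h _)

theorem CF.ind {R S : Setoid Z} (h : ∀ a b, R a b → S a b) (z : Z) [DecidableRel S] :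
    CF R (fun a => if S a z then 1 else 0) := by
  intro a b hab
  have : S a z ↔ S b z := ⟨S.trans (S.symm (h _ _ hab)), S.trans (h _ _ hab)⟩
  simp only [this]

end Pool.Agent.W604
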