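import Mathlib
import Pool.Agent.W604.Prod
import Pool.Agent.W604.Tsum

set_option autoImplicit false
set_option linter.unusedSectionVars false
set_option linter.unusedSimpArgs false
set_option linter.unusedVariables false

/-!
Configurations: labelled chord systems on a surface with punctures, with the partition of the
letters and the punctures by the components of the complement, and the Euler characteristics.
-/

namespace Pool.Agent.W604

open Equiv

variable {B P : Type} {k : ℕ}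

/-- configuration -/
structure Cfg (B P : Type) (k : ℕ) where
  ps : Perm (LL B k)
  X : SX (LL B k ⊕ P)
  hR : ∀ l : LL B k, X.R (Sum.inl ((ps * bar : Perm (LL B k)) l)) (Sum.inl l)

theorem Cfg.ext' {ψ χ : Cfg B P k} (h : ψ.ps = χ.ps) (h2 : ψ.X = χ.X) : ψ = χ := by
  obtain ⟨ps, X, hR⟩ := ψ
  obtain ⟨ps', X', hR'⟩ := χ
  simp only at h h2
  subst h h2
  rfl

/-- relabelling of letters and punctures -/
def WZ (P : Type) (π : Perm (Fin k)) (e : Fin k → Bool) : Perm (LL B k ⊕ P) :=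
  Equiv.sumCongr (W π e) (Equiv.refl P)

@[simp] theorem WZ_inl (π : Perm (Fin k)) (e : Fin k → Bool) (l : LL B k) :
    WZ P π e (Sum.inl l) = Sum.inl (W π e l) := rfl
@[simp] theorem WZ_inr (π : Perm (Fin k)) (e : Fin k → Bool) (i : P) :
    WZ (B := B) P π e (Sum.inr i) = Sum.inr i := rfl
@[simp] theorem WZ_inv_inl (π : Perm (Fin k)) (e : Fin k → Bool) (l : LL B k) :
    (WZ P π e)⁻¹ (Sum.inl l) = Sum.inl ((W π e)⁻¹ l) := rfl
@[simp] theorem WZ_inv_inr (π : Perm (Fin k)) (e : Fin k → Bool) (i : P) :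
    (WZ (B := B) P π e)⁻¹ (Sum.inr i) = Sum.inr i := rfl

theorem WZ_mul (π π' : Perm (Fin k)) (e e' : Fin k → Bool) :
    WZ (B := B) P π e * WZ P π' e' = WZ P (π * π') (fun i => xor (e' i) (e (π' i))) := by
  apply Equiv.ext
  intro x
  rcases x with l | i
  · rw [Perm.mul_apply, WZ_inl, WZ_inl, WZ_inl, ← W_mul]; rfl
  · rfl

theorem WZ_one : WZ (B := B) P (1 : Perm (Fin k)) (fun _ => false) = 1 := by
  apply Equiv.ext
  intro x
  rcases x with l | i
  · rw [WZ_inl, W_one]; rfl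
  · rfl

/-- the letters that remain, and the punctures -/
def JJ : LL B k ⊕ P → LL B (k + 1) ⊕ P := Sum.map j0 id

@[simp] theorem JJ_inl (l : LL B k) : (JJ (P := P) (Sum.inl l)) = Sum.inl (j0 l) := rfl
@[simp] theorem JJ_inr (i : P) : (JJ (B := B) (k := k) (Sum.inr i)) = Sum.inr i := rfl

/-- the two letters of the first chord -/
abbrev z1 : LL B (k + 1) := Sum.inr (0, true)
abbrev z0 : LL B (k + 1) := Sum.inr (0, false)

variable [DecidableEq B]

def Cfg.act (π : Perm (Fin k)) (e : Fin k → Bool) (ψ : Cfg B P k) : Cfg B P k where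
  ps := Pool.Agent.W604.act π e ψ.ps
  X := ψ.X.comap ((WZ P π e)⁻¹ : Perm _)
  hR := by
    intro l
    rw [act_mul_bar, SX.comap_R, WZ_inv_inl, WZ_inv_inl]
    unfold Pool.Agent.W604.act
    have h : (W π e)⁻¹ ((W π e * (ψ.ps * bar) * (W π e)⁻¹ : Perm (LL B k)) l) =
      (ψ.ps * bar : Perm (LL B k)) ((W π e)⁻¹ l) := by simp
    rw [h]
    exact ψ.hR _

theorem rel_of_split {R : Setoid (LL B (k + 1) ⊕ P)} {ψ : Perm (LL B (k + 1))}
    (hR : ∀ l, R (Sum.inl ((ψ * bar : Perm (LL B (k + 1))) l)) (Sum.inl l)) {a b : LL B (k + 1)}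
    (h : (ψ * bar * swap z1 z0).SameCycle a b) :
    mgR R (Sum.inl z1) (Sum.inl z0) (Sum.inl a) (Sum.inl b) := by
  refine sameCycle_ind (r := fun a b => mgR R (Sum.inl z1) (Sum.inl z0) (Sum.inl a) (Sum.inl b))
    ⟨fun x => (mgR R _ _).refl _, fun h => (mgR R _ _).symm h,
      fun h1 h2 => (mgR R _ _).trans h1 h2⟩ ?_ h
  intro x
  apply (mgR R _ _).symm
  rw [Perm.mul_apply]
  refine (mgR R _ _).trans (mgR_of (hR _)) ?_
  by_cases h1 : x = z1
  · rw [h1, swap_apply_left]
    exact (mgR R _ _).symm (mgR_pq _ _ _)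
  · by_cases h2 : x = z0
    · rw [h2, swap_apply_right]
      exact mgR_pq _ _ _
    · rw [swap_apply_of_ne_of_ne h1 h2]

variable [Finite B]

/-- deletion of the first chord -/
noncomputable def Cfg.del (ψ : Cfg B P (k + 1)) : Cfg B P k where
  ps := d ψ.ps
  X := (ψ.X.mg (Sum.inl z1) (Sum.inl z0)).comap JJ
  hR := by
    intro l
    rw [SX.comap_R, SX.mg_R, JJ_inl, JJ_inl]
    have h := (SF_d ψ.ps ((d ψ.ps * bar : Perm (LL B k)) l) l).1
      (Perm.SameCycle.symm (sameCycle_apply _ _))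
    exact rel_of_split ψ.hR h

theorem mg_comap_WZ (X : SX (LL B (k + 1) ⊕ P)) (π : Perm (Fin (k + 1))) (hπ : π 0 = 0)
    (e : Fin (k + 1) → Bool) :
    (X.comap ((WZ P π e)⁻¹ : Perm _)).mg (Sum.inl z1) (Sum.inl z0) =
      (X.mg (Sum.inl z1) (Sum.inl z0)).comap ((WZ P π e)⁻¹ : Perm _) := by
  rw [← SX.comap_mg]
  have h0 : π⁻¹ 0 = 0 := by rw [Perm.inv_eq_iff_eq, hπ]
  have h : ∀ ε, (WZ P π e)⁻¹ (Sum.inl (Sum.inr (0, ε))) =
      (Sum.inl (Sum.inr (0, xor ε (e 0))) : LL B (k + 1) ⊕ P) := by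
    intro ε
    rw [WZ_inv_inl]
    congr 1
    rw [Perm.inv_eq_iff_eq, W_inr, hπ]
    simp
  rw [h, h]
  rcases he : e 0 with _ | _
  · simp
  · simp only [Bool.xor_true, Bool.not_true, Bool.not_false]
    rw [SX.mg_symm]

theorem d_d' (X : Perm (LL B (k + 2))) : d (d (act (swap 0 1) (fun _ => false) X)) = d (d X) := by
  refine Ind.unique (j := j0 ∘ j0) (j0_inj.comp j0_inj)
    ((ind_d _).comp j0_inj (ind_d _)) ?_
  have h := ((ind_d X).comp j0_inj (ind_d (d X))).conj
    (s := W (swap 0 1) (fun _ => false)) (t := 1) (by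
      rintro (b | ⟨i, ε⟩)
      · simp [j0]
      · simp only [Function.comp, j0, W_inr, Bool.xor_false, Perm.one_apply]
        rw [swap_apply_of_ne_of_ne]
        · exact Fin.succ_ne_zero _
        · intro h
          have h1 : (i.succ.succ : Fin (k + 2)) = Fin.succ 0 := by rw [h]; rfl
          exact Fin.succ_ne_zero _ (Fin.succ_injective _ h1))
  simpa [act] using h

/-- the system of configurations -/
noncomputable def CS (B P : Type) [DecidableEq B] [Finite B] : G.Sy where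
  X k := Cfg B P k
  act π e ψ := ψ.act π e
  d ψ := ψ.del
  act_act := by
    intro k π π' e e' ψ
    refine Cfg.ext' (act_act _ _ _ _ _) ?_
    show (ψ.X.comap _).comap _ = ψ.X.comap _
    rw [SX.comap_comap, ← WZ_mul, mul_inv_rev]
    rfl
  act_one := by
    intro k ψ
    refine Cfg.ext' (act_one _) ?_
    show ψ.X.comap _ = ψ.X
    rw [WZ_one, inv_one]
    rfl
  d_act := by
    intro k π e ψ
    refine Cfg.ext' (d_act _ _ _) ?_
    show ((ψ.X.comap _).mg _ _).comap _ = ((ψ.X.mg _ _).comap _).comap _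
    rw [mg_comap_WZ _ _ (lp_zero π), SX.comap_comap, SX.comap_comap]
    congr 1
    funext z
    rcases z with l | i
    · show (WZ P (lp π) e)⁻¹ (Sum.inl (j0 l)) = Sum.inl (j0 ((W π fun i => e i.succ)⁻¹ l))
      rw [WZ_inv_inl]
      congr 1
      rw [Perm.inv_eq_iff_eq]
      obtain ⟨l', rfl⟩ := (W π (fun i => e i.succ)).surjective l
      have h : (W π fun i => e i.succ)⁻¹ (W π (fun i => e i.succ) l') = l' := by simp
      rw [h]
      rcases l' with b | ⟨i, ε⟩
      · rfl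
      · simp [j0]
    · rfl
  d_d := by
    intro k ψ
    refine Cfg.ext' (d_d' ψ.ps) ?_
    show ((((ψ.X.comap _).mg _ _).comap _).mg _ _).comap _ =
      (((ψ.X.mg _ _).comap _).mg _ _).comap _
    have hJ : ∀ (ε : Bool), (Sum.inl (Sum.inr (1, ε)) : LL B (k + 2) ⊕ P) =
        JJ (Sum.inl (Sum.inr (0, ε))) := fun ε => rfl
    have hW : ∀ (i : Fin (k + 2)) (ε : Bool), (WZ P (swap 0 1) (fun _ => false))⁻¹
        (Sum.inl (Sum.inr (i, ε))) = (Sum.inl (Sum.inr (swap 0 1 i, ε)) : LL B (k + 2) ⊕ P) := by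
      intro i ε
      rw [WZ_inv_inl]
      congr 1
      rw [Perm.inv_eq_iff_eq]
      simp
    rw [← SX.comap_mg (ψ.X.mg _ _) JJ, SX.comap_comap]
    rw [← SX.comap_mg ψ.X ((WZ P (swap 0 1) (fun _ => false))⁻¹ : Perm _), hW, hW,
      swap_apply_left, SX.comap_comap, ← SX.comap_mg]
    simp only [Function.comp]
    rw [← hJ, ← hJ, hW, hW, swap_apply_right, SX.mg_comm, SX.comap_comap]
    congr 1
    funext z
    rcases z with (b | ⟨i, ε⟩) | i
    · rfl
    · show (WZ P (swap 0 1) (fun _ => false))⁻¹ (Sum.inl (Sum.inr (i.succ.succ, ε))) =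
        Sum.inl (Sum.inr (i.succ.succ, ε))
      rw [hW, swap01_succ_succ]
    · rfl

end Pool.Agent.W604
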