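import Mathlib
import Pool.Agent.W604.Cfg

set_option autoImplicit false
set_option linter.unusedSectionVars false
set_option linter.unusedSimpArgs false
set_option linter.unusedVariables false

/-!
Valid configurations, number of unpunctured components, total Euler characteristic, and their
behaviour under deletion of a chord.
-/

namespace Pool.Agent.W604

open Equiv

variable {B P : Type} {k : ℕ}

open Classical in
/-- number of faces in the class of `z` -/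
noncomputable def Cfg.f (ψ : Cfg B P k) (z : LL B k ⊕ P) : ℤ :=
  Tsm (Perm.SameCycle.setoid (ψ.ps * bar)) (fun l => if ψ.X.R (Sum.inl l) z then 1 else 0)

/-- the class contains a puncture -/
def Cfg.Pu (ψ : Cfg B P k) (z : LL B k ⊕ P) : Prop := ∃ i : P, ψ.X.R (Sum.inr i) z

open Classical in
/-- indicator of the classes without puncture -/
noncomputable def Cfg.u (ψ : Cfg B P k) (z : LL B k ⊕ P) : ℤ := if ψ.Pu z then 0 else 1

/-- valid configurations -/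
structure Cfg.Valid (ψ : Cfg B P k) : Prop where
  genus : ∀ l : LL B k, ∃ h : ℕ, ψ.X.x (Sum.inl l) + ψ.f (Sum.inl l) + 2 * h = 2
  punct : ∀ i : P, ∃ l, ψ.X.R (Sum.inl l) (Sum.inr i)
  good : Good ψ.ps

/-- number of classes without puncture -/
noncomputable def Cfg.nu (ψ : Cfg B P k) : ℤ := Tsm ψ.X.R ψ.u

/-- total Euler characteristic -/
noncomputable def Cfg.sx (ψ : Cfg B P k) : ℤ := Tsm ψ.X.R ψ.X.x

theorem Cfg.Pu_congr (ψ : Cfg B P k) {z z' : LL B k ⊕ P} (h : ψ.X.R z z') : ψ.Pu z ↔ ψ.Pu z' :=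
  ⟨fun ⟨i, hi⟩ => ⟨i, ψ.X.R.trans hi h⟩, fun ⟨i, hi⟩ => ⟨i, ψ.X.R.trans hi (ψ.X.R.symm h)⟩⟩

theorem Cfg.u_CF (ψ : Cfg B P k) : CF ψ.X.R ψ.u := by
  intro a b h
  unfold Cfg.u
  rw [ψ.Pu_congr h]

theorem Cfg.x_CF (ψ : Cfg B P k) : CF ψ.X.R ψ.X.x := ψ.X.hx

theorem Cfg.f_CF (ψ : Cfg B P k) : CF ψ.X.R ψ.f := by
  intro a b h
  unfold Cfg.f
  apply Tsm_congr
  intro l
  have : ψ.X.R (Sum.inl l) a ↔ ψ.X.R (Sum.inl l) b :=
    ⟨fun h' => ψ.X.R.trans h' h, fun h' => ψ.X.R.trans h' (ψ.X.R.symm h)⟩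
  by_cases h' : ψ.X.R (Sum.inl l) a
  · rw [if_pos h', if_pos (this.1 h')]
  · rw [if_neg h', if_neg (fun h2 => h' (this.2 h2))]

/-- letters on one face are in one class -/
theorem Cfg.rel_SF (ψ : Cfg B P k) {a b : LL B k} (h : (ψ.ps * bar).SameCycle a b) :
    ψ.X.R (Sum.inl a) (Sum.inl b) := by
  refine sameCycle_ind (r := fun a b => ψ.X.R (Sum.inl a) (Sum.inl b))
    ⟨fun x => ψ.X.R.refl _, fun h => ψ.X.R.symm h,
      fun h1 h2 => ψ.X.R.trans h1 h2⟩ ?_ h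
  intro x
  exact ψ.X.R.symm (ψ.hR x)

open Classical in
theorem Cfg.ind_CF (ψ : Cfg B P k) (z : LL B k ⊕ P) :
    CF (Perm.SameCycle.setoid (ψ.ps * bar))
      (fun l => if ψ.X.R (Sum.inl l) z then (1 : ℤ) else 0) := by
  intro a b h
  have h1 := ψ.rel_SF h
  have : ψ.X.R (Sum.inl a) z ↔ ψ.X.R (Sum.inl b) z :=
    ⟨fun h' => ψ.X.R.trans (ψ.X.R.symm h1) h', fun h' => ψ.X.R.trans h1 h'⟩
  simp only [this]

theorem Cfg.f_nonneg [Finite B] (ψ : Cfg B P k) (z : LL B k ⊕ P) : 0 ≤ ψ.f z := by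
  unfold Cfg.f
  apply Tsm_nonneg
  intro l
  split_ifs <;> simp

variable [DecidableEq B]

/-! ### relabelling -/

section act

variable (π : Perm (Fin k)) (e : Fin k → Bool) (ψ : Cfg B P k)

theorem Cfg.act_R (a b : LL B k ⊕ P) : (ψ.act π e).X.R (WZ P π e a) (WZ P π e b) ↔ ψ.X.R a b := by
  show ψ.X.R ((WZ P π e)⁻¹ (WZ P π e a)) ((WZ P π e)⁻¹ (WZ P π e b)) ↔ _
  simp

theorem Cfg.act_x (a : LL B k ⊕ P) : (ψ.act π e).X.x (WZ P π e a) = ψ.X.x a := by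
  show ψ.X.x ((WZ P π e)⁻¹ (WZ P π e a)) = _
  simp

theorem Cfg.act_Pu (a : LL B k ⊕ P) : (ψ.act π e).Pu (WZ P π e a) ↔ ψ.Pu a := by
  constructor
  · rintro ⟨i, hi⟩
    exact ⟨i, (ψ.act_R π e (Sum.inr i) a).1 hi⟩
  · rintro ⟨i, hi⟩
    exact ⟨i, (ψ.act_R π e (Sum.inr i) a).2 hi⟩

theorem Cfg.act_f (a : LL B k ⊕ P) : (ψ.act π e).f (WZ P π e a) = ψ.f a := by
  classical
  unfold Cfg.f
  have h1 : Perm.SameCycle.setoid ((ψ.act π e).ps * bar) =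
      Setoid.comap ((W π e)⁻¹ : Perm _) (Perm.SameCycle.setoid (ψ.ps * bar)) := by
    ext x y
    show ((Pool.Agent.W604.act π e ψ.ps) * bar).SameCycle x y ↔ _
    rw [act_mul_bar]
    exact Perm.sameCycle_conj
  rw [h1]
  have h2 := Tsm_comap (Perm.SameCycle.setoid (ψ.ps * bar)) ((W π e)⁻¹ : Perm (LL B k))
    (ψ.ind_CF a) (fun z => ⟨W π e z, by simp⟩)
  rw [← h2]
  apply Tsm_congr
  intro l
  have h3 : (ψ.act π e).X.R (Sum.inl l) (WZ P π e a) ↔ ψ.X.R (Sum.inl ((W π e)⁻¹ l)) a := by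
    rw [← ψ.act_R π e (Sum.inl ((W π e)⁻¹ l)) a]
    simp
  simp only [h3]

theorem Cfg.act_valid : (ψ.act π e).Valid ↔ ψ.Valid := by
  have key : ∀ (π : Perm (Fin k)) (e : Fin k → Bool) (ψ : Cfg B P k), ψ.Valid →
      (ψ.act π e).Valid := by
    intro π e ψ h
    refine ⟨?_, ?_, (good_act π e ψ.ps).2 h.good⟩
    · intro l
      obtain ⟨l, rfl⟩ := (W π e).surjective l
      obtain ⟨h', hh⟩ := h.genus l
      refine ⟨h', ?_⟩
      have h1 := ψ.act_f π e (Sum.inl l)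
      have h2 := ψ.act_x π e (Sum.inl l)
      rw [WZ_inl] at h1 h2
      rw [h1, h2, hh]
    · intro i
      obtain ⟨l, hl⟩ := h.punct i
      exact ⟨W π e l, (ψ.act_R π e (Sum.inl l) (Sum.inr i)).2 hl⟩
  refine ⟨fun h => ?_, key π e ψ⟩
  have h1 := key π⁻¹ (fun i => e (π⁻¹ i)) _ h
  have h2 : (ψ.act π e).act π⁻¹ (fun i => e (π⁻¹ i)) = ψ := by
    have h3 : (ψ.act π e).act π⁻¹ (fun i => e (π⁻¹ i)) =
        ψ.act (π⁻¹ * π) (fun i => xor (e i) (e (π⁻¹ (π i)))) := by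
      refine Cfg.ext' (Pool.Agent.W604.act_act _ _ _ _ _) ?_
      show (ψ.X.comap _).comap _ = ψ.X.comap _
      rw [SX.comap_comap, ← WZ_mul π⁻¹ π (fun i => e (π⁻¹ i)) e, mul_inv_rev]
      rfl
    rw [h3]
    have h4 : (fun i => xor (e i) (e (π⁻¹ (π i)))) = fun _ => false := by
      funext i; simp
    rw [h4, inv_mul_cancel]
    refine Cfg.ext' (Pool.Agent.W604.act_one _) ?_
    show ψ.X.comap _ = ψ.X
    rw [WZ_one, inv_one]
    rfl
  rwa [h2] at h1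

theorem Cfg.act_nu : (ψ.act π e).nu = ψ.nu := by
  unfold Cfg.nu
  have h2 := Tsm_comap ψ.X.R ((WZ P π e)⁻¹ : Perm (LL B k ⊕ P)) ψ.u_CF
    (fun z => ⟨WZ P π e z, by simp⟩)
  rw [← h2]
  apply Tsm_congr
  intro z
  obtain ⟨z, rfl⟩ := (WZ P π e).surjective z
  have h3 : (WZ P π e)⁻¹ (WZ P π e z) = z := by simp
  rw [h3]
  unfold Cfg.u
  rw [Cfg.act_Pu]

theorem Cfg.act_sx : (ψ.act π e).sx = ψ.sx := by
  unfold Cfg.sx
  exact Tsm_comap ψ.X.R ((WZ P π e)⁻¹ : Perm (LL B k ⊕ P)) ψ.x_CF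
    (fun z => ⟨WZ P π e z, by simp⟩)

end act

/-! ### deletion -/

variable [Finite B]

/-- the class of the first chord -/
def Cfg.M (ψ : Cfg B P (k + 1)) (z : LL B (k + 1) ⊕ P) : Prop :=
  ψ.X.R z (Sum.inl z1) ∨ ψ.X.R z (Sum.inl z0)

/-- the two sides of the first chord are in one component -/
def Cfg.In (ψ : Cfg B P (k + 1)) : Prop := ψ.X.R (Sum.inl z1) (Sum.inl z0)

theorem NI.next {ψ : Perm (LL B (k + 1))} (h : NI ψ) (ε : Bool) :
    (∃ v, ψ (Sum.inr (0, ε)) = j0 v) ∨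
      (ψ (Sum.inr (0, ε)) = Sum.inr (0, !ε) ∧ ∃ v, ψ (Sum.inr (0, !ε)) = j0 v) := by
  have hfix : ∀ (S : Set (LL B (k + 1))), (∀ x, ψ x ∈ S ↔ x ∈ S) → ∀ x y, ψ.SameCycle x y →
      (x ∈ S ↔ y ∈ S) := by
    intro S hS x y hxy
    refine sameCycle_ind (r := fun a b => a ∈ S ↔ b ∈ S)
      ⟨fun _ => Iff.rfl, fun h => h.symm, fun h1 h2 => h1.trans h2⟩ (fun x => (hS x).symm) hxy
  rcases j0_cases (ψ (Sum.inr (0, ε))) with ⟨ε', h1⟩ | h1
  · right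
    have hε : ε' = !ε := by
      by_contra hne
      have hε : ε' = ε := by cases ε <;> cases ε' <;> simp_all
      subst hε
      obtain ⟨v, hv⟩ := h ε'
      have := (hfix {Sum.inr (0, ε')} (fun x => by
        simp only [Set.mem_singleton_iff]
        constructor
        · intro h2; exact ψ.injective (h2.trans h1.symm)
        · rintro rfl; exact h1) _ _ hv).1 rfl
      rcases v with b | ⟨i, ε⟩
      · simp [j0] at this
      · simp only [j0, Set.mem_singleton_iff, Sum.inr.injEq, Prod.mk.injEq] at this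
        exact Fin.succ_ne_zero _ this.1
    subst hε
    refine ⟨h1, ?_⟩
    rcases j0_cases (ψ (Sum.inr (0, !ε))) with ⟨ε', h2⟩ | h2
    · exfalso
      have hε : ε' = ε := by
        by_contra hne
        have hε : ε' = !ε := by cases ε <;> cases ε' <;> simp_all
        subst hε
        have := ψ.injective (h1.trans h2.symm)
        simp at this
      subst hε
      obtain ⟨v, hv⟩ := h ε'
      have := (hfix {Sum.inr (0, ε'), Sum.inr (0, !ε')} (fun x => by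
        simp only [Set.mem_insert_iff, Set.mem_singleton_iff]
        constructor
        · rintro (h3 | h3)
          · right; exact ψ.injective (h3.trans h2.symm)
          · left; exact ψ.injective (h3.trans h1.symm)
        · rintro (rfl | rfl)
          · right; exact h1
          · left; exact h2) _ _ hv).1 (by simp)
      rcases v with b | ⟨i, ε⟩
      · simp [j0] at this
      · simp only [j0, Set.mem_insert_iff, Set.mem_singleton_iff, Sum.inr.injEq,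
          Prod.mk.injEq] at this
        rcases this with this | this
        · exact Fin.succ_ne_zero _ this.1
        · exact Fin.succ_ne_zero _ this.1
    · exact h2
  · exact Or.inl h1

/-- faces after splitting -/
theorem NI.cover {ψ : Perm (LL B (k + 1))} (h : NI ψ) (x : LL B (k + 1)) :
    ∃ v, (ψ * bar * swap z1 z0).SameCycle (j0 v) x := by
  rcases j0_cases x with ⟨ε, rfl⟩ | ⟨v, rfl⟩
  · have hφ : ∀ ε : Bool, (ψ * bar * swap z1 z0 : Perm (LL B (k + 1))) (Sum.inr (0, ε)) =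
        ψ (Sum.inr (0, ε)) := by
      intro ε
      cases ε
      · rw [Perm.mul_apply, swap_apply_right]; simp
      · rw [Perm.mul_apply, swap_apply_left]; simp
    rcases h.next ε with ⟨v, hv⟩ | ⟨h1, v, hv⟩
    · refine ⟨v, ?_⟩
      rw [← hv, ← hφ]
      exact (sameCycle_apply _ _).symm
    · refine ⟨v, ?_⟩
      rw [← hv, ← hφ]
      refine (sameCycle_apply _ _).symm.trans ?_
      rw [← h1, ← hφ]
      exact (sameCycle_apply _ _).symm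
  · exact ⟨v, Perm.SameCycle.refl _ _⟩

/-- every class after merging has a letter that remains or a puncture -/
theorem Cfg.cover {ψ : Cfg B P (k + 1)} (h : Good ψ.ps) (z : LL B (k + 1) ⊕ P) :
    ∃ z', mgR ψ.X.R (Sum.inl z1) (Sum.inl z0) (JJ z') z := by
  rcases z with x | i
  · obtain ⟨v, hv⟩ := h.ni.cover x
    exact ⟨Sum.inl v, rel_of_split ψ.hR hv⟩
  · exact ⟨Sum.inr i, (mgR _ _ _).refl _⟩

variable [Finite P]

theorem Cfg.del_sx {ψ : Cfg B P (k + 1)} (h : Good ψ.ps) : ψ.del.sx = ψ.sx - 1 := by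
  unfold Cfg.sx
  have h1 : Tsm ψ.del.X.R ψ.del.X.x = Tsm (ψ.X.mg (Sum.inl z1) (Sum.inl z0)).R
      (ψ.X.mg (Sum.inl z1) (Sum.inl z0)).x :=
    Tsm_comap _ JJ (ψ.X.mg (Sum.inl z1) (Sum.inl z0)).hx (Cfg.cover h)
  rw [h1]
  have hM : ψ.X.R (Sum.inl z1) (Sum.inl z1) ∨ ψ.X.R (Sum.inl z1) (Sum.inl z0) :=
    Or.inl (ψ.X.R.refl _)
  by_cases hIn : ψ.In
  · have h2 := Tsm_mg_of ψ.X.R (Sum.inl z1) (Sum.inl z0) hIn ψ.x_CF
      (ψ.X.mg (Sum.inl z1) (Sum.inl z0)).hx (fun z hz => SX.mg_x_of_not hz)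
    rw [SX.mg_x_of hM hIn] at h2
    rw [SX.mg_R, h2]
    ring
  · have h2 := Tsm_mg_of_not ψ.X.R (Sum.inl z1) (Sum.inl z0) hIn ψ.x_CF
      (ψ.X.mg (Sum.inl z1) (Sum.inl z0)).hx (fun z hz => SX.mg_x_of_not hz)
    rw [SX.mg_x_of' hM hIn] at h2
    rw [SX.mg_R, h2]
    ring

/-- punctured after merging -/
def Cfg.Pu' (ψ : Cfg B P (k + 1)) (z : LL B (k + 1) ⊕ P) : Prop :=
  ∃ i : P, mgR ψ.X.R (Sum.inl z1) (Sum.inl z0) (Sum.inr i) z

theorem Cfg.del_Pu (ψ : Cfg B P (k + 1)) (z : LL B k ⊕ P) : ψ.del.Pu z ↔ ψ.Pu' (JJ z) := Iff.rfl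

theorem Cfg.Pu'_of_not {ψ : Cfg B P (k + 1)} {z : LL B (k + 1) ⊕ P} (h : ¬ ψ.M z) :
    ψ.Pu' z ↔ ψ.Pu z := by
  constructor
  · rintro ⟨i, hi | ⟨_, hi⟩⟩
    · exact ⟨i, hi⟩
    · exact absurd hi h
  · rintro ⟨i, hi⟩
    exact ⟨i, mgR_of hi⟩

theorem Cfg.Pu'_of {ψ : Cfg B P (k + 1)} {z : LL B (k + 1) ⊕ P} (h : ψ.M z) :
    ψ.Pu' z ↔ ψ.Pu (Sum.inl z1) ∨ ψ.Pu (Sum.inl z0) := by
  constructor
  · rintro ⟨i, hi | ⟨hi | hi, _⟩⟩
    · rcases h with h | h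
      · exact Or.inl ⟨i, ψ.X.R.trans hi h⟩
      · exact Or.inr ⟨i, ψ.X.R.trans hi h⟩
    · exact Or.inl ⟨i, hi⟩
    · exact Or.inr ⟨i, hi⟩
  · rintro (⟨i, hi⟩ | ⟨i, hi⟩)
    · exact ⟨i, Or.inr ⟨Or.inl hi, h⟩⟩
    · exact ⟨i, Or.inr ⟨Or.inr hi, h⟩⟩

theorem Cfg.Pu'_congr (ψ : Cfg B P (k + 1)) {z z' : LL B (k + 1) ⊕ P}
    (h : mgR ψ.X.R (Sum.inl z1) (Sum.inl z0) z z') : ψ.Pu' z ↔ ψ.Pu' z' :=
  ⟨fun ⟨i, hi⟩ => ⟨i, (mgR _ _ _).trans hi h⟩,
    fun ⟨i, hi⟩ => ⟨i, (mgR _ _ _).trans hi ((mgR _ _ _).symm h)⟩⟩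

/-- a deletion of the second kind -/
def Cfg.K2 (ψ : Cfg B P (k + 1)) : Prop :=
  ψ.In ∨ (ψ.Pu (Sum.inl z1) ∧ ψ.Pu (Sum.inl z0))

open Classical in
theorem Cfg.del_nu {ψ : Cfg B P (k + 1)} (h : Good ψ.ps) :
    ψ.del.nu = ψ.nu - (if ψ.K2 then 0 else 1) := by
  unfold Cfg.nu
  have hu' : CF (mgR ψ.X.R (Sum.inl z1) (Sum.inl z0)) (fun z => if ψ.Pu' z then (0 : ℤ) else 1) := by
    intro a b hab
    simp only [ψ.Pu'_congr hab]
  have h1 : Tsm ψ.del.X.R ψ.del.u = Tsm (mgR ψ.X.R (Sum.inl z1) (Sum.inl z0))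
      (fun z => if ψ.Pu' z then (0 : ℤ) else 1) := by
    rw [← Tsm_comap _ JJ hu' (Cfg.cover h)]
    rfl
  rw [h1]
  have hM1 : ψ.M (Sum.inl z1) := Or.inl (ψ.X.R.refl _)
  have hoff : ∀ z, ¬ (ψ.X.R z (Sum.inl z1) ∨ ψ.X.R z (Sum.inl z0)) →
      (fun z => if ψ.Pu' z then (0 : ℤ) else 1) z = ψ.u z := by
    intro z hz
    have := Cfg.Pu'_of_not (ψ := ψ) (z := z) hz
    unfold Cfg.u
    simp only [this]
  have hval := Cfg.Pu'_of hM1
  by_cases hIn : ψ.In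
  · have h2 := Tsm_mg_of ψ.X.R (Sum.inl z1) (Sum.inl z0) hIn ψ.u_CF hu' hoff
    rw [h2]
    have h3 : ψ.Pu (Sum.inl z1) ↔ ψ.Pu (Sum.inl z0) := ψ.Pu_congr hIn
    have hK : ψ.K2 := Or.inl hIn
    rw [← h3, or_self] at hval
    simp only [hval, if_pos hK]
    unfold Cfg.u
    ring
  · have h2 := Tsm_mg_of_not ψ.X.R (Sum.inl z1) (Sum.inl z0) hIn ψ.u_CF hu' hoff
    rw [h2]
    unfold Cfg.u Cfg.K2
    simp only [hval]
    by_cases a1 : ψ.Pu (Sum.inl z1) <;> by_cases a2 : ψ.Pu (Sum.inl z0) <;> simp [a1, a2, hIn]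

open Classical in
theorem Cfg.del_f_aux {ψ : Cfg B P (k + 1)} (h : Good ψ.ps) (z : LL B k ⊕ P) :
    ψ.del.f z = Tsm (Perm.SameCycle.setoid (ψ.ps * bar))
      (fun l => if mgR ψ.X.R (Sum.inl z1) (Sum.inl z0) (Sum.inl l) (JJ z) then 1 else 0) +
      (if mgR ψ.X.R (Sum.inl z1) (Sum.inl z0) (Sum.inl z0) (JJ z) then
        (if Sp ψ.ps then 1 else -1) else 0) := by
  set w : LL B (k + 1) → ℤ :=
    fun l => if mgR ψ.X.R (Sum.inl z1) (Sum.inl z0) (Sum.inl l) (JJ z) then 1 else 0 with hw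
  have hw10 : w z1 = w z0 := by
    have : mgR ψ.X.R (Sum.inl z1) (Sum.inl z0) (Sum.inl z1) (JJ z) ↔
        mgR ψ.X.R (Sum.inl z1) (Sum.inl z0) (Sum.inl z0) (JJ z) :=
      ⟨fun h => (mgR _ _ _).trans ((mgR _ _ _).symm (mgR_pq _ _ _)) h,
        fun h => (mgR _ _ _).trans (mgR_pq _ _ _) h⟩
    simp only [hw, this]
  set Φ := Perm.SameCycle.setoid (ψ.ps * bar) with hΦ
  set Φs := Perm.SameCycle.setoid (ψ.ps * bar * swap z1 z0) with hΦs
  have hws : CF Φs w := by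
    intro a b hab
    have h1 := rel_of_split ψ.hR hab
    have : mgR ψ.X.R (Sum.inl z1) (Sum.inl z0) (Sum.inl a) (JJ z) ↔
        mgR ψ.X.R (Sum.inl z1) (Sum.inl z0) (Sum.inl b) (JJ z) :=
      ⟨fun h => (mgR _ _ _).trans ((mgR _ _ _).symm h1) h, fun h => (mgR _ _ _).trans h1 h⟩
    simp only [hw, this]
  have hwΦ : CF Φ w := by
    intro a b hab
    have h1 := ψ.rel_SF hab
    have : mgR ψ.X.R (Sum.inl z1) (Sum.inl z0) (Sum.inl a) (JJ z) ↔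
        mgR ψ.X.R (Sum.inl z1) (Sum.inl z0) (Sum.inl b) (JJ z) :=
      ⟨fun h => (mgR _ _ _).trans ((mgR _ _ _).symm (mgR_of h1)) h,
        fun h => (mgR _ _ _).trans (mgR_of h1) h⟩
    simp only [hw, this]
  have h1 : ψ.del.f z = Tsm Φs w := by
    rw [← Tsm_comap Φs j0 hws h.ni.cover]
    unfold Cfg.f
    have h2 : Perm.SameCycle.setoid (ψ.del.ps * bar) = Setoid.comap j0 Φs := by
      ext a b
      exact SF_d ψ.ps a b
    rw [h2]
    apply Tsm_congr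
    intro l
    rfl
  rw [h1]
  have hif : (if mgR ψ.X.R (Sum.inl z1) (Sum.inl z0) (Sum.inl z0) (JJ z) then
        (if Sp ψ.ps then (1 : ℤ) else -1) else 0) = (if Sp ψ.ps then (1 : ℤ) else -1) * w z0 := by
    simp only [hw]
    split_ifs <;> simp
  rw [hif]
  by_cases hs : Sp ψ.ps
  · have hs' := not_sameCycle_swap_of (T_ne_F (B := B) (k := k)) hs
    have h2 : Φ = mgR Φs z1 z0 := by
      ext a b
      have h3 := sameCycle_merge hs' a b
      rw [mul_assoc, swap_mul_self, mul_one] at h3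
      show (ψ.ps * bar).SameCycle a b ↔ _
      rw [h3, mgR_iff]
      have h4 : ∀ x y : LL B (k + 1), (ψ.ps * bar * swap (Sum.inr (0, true)) (Sum.inr (0, false))).SameCycle
          x y ↔ Φs y x := fun x y => ⟨fun h => Perm.SameCycle.symm h, fun h => Perm.SameCycle.symm h⟩
      rw [h4, h4, h4, h4, h4]
      exact Iff.or ⟨fun h => Φs.symm h, fun h => Φs.symm h⟩ Iff.rfl
    have h3 := Tsm_mg_of_not Φs z1 z0 hs' hws (w' := w) (by rw [← h2]; exact hwΦ)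
      (fun _ _ => rfl)
    rw [h2, h3, if_pos hs, hw10]
    ring
  · have h2 : Φs = mgR Φ z1 z0 := by
      ext a b
      have h3 := sameCycle_merge hs a b
      show (ψ.ps * bar * swap z1 z0).SameCycle a b ↔ _
      rw [h3, mgR_iff]
      have h4 : ∀ x y : LL B (k + 1), (ψ.ps * bar).SameCycle
          x y ↔ Φ y x := fun x y => ⟨fun h => Perm.SameCycle.symm h, fun h => Perm.SameCycle.symm h⟩
      rw [h4, h4, h4, h4, h4]
      exact Iff.or ⟨fun h => Φ.symm h, fun h => Φ.symm h⟩ Iff.rfl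
    have h3 := Tsm_mg_of_not Φ z1 z0 hs hwΦ (w' := w) (by rw [← h2]; exact hws)
      (fun _ _ => rfl)
    rw [h2, h3, if_neg hs, hw10]
    ring

theorem Cfg.M_iff {ψ : Cfg B P (k + 1)} {z : LL B (k + 1) ⊕ P} :
    mgR ψ.X.R (Sum.inl z1) (Sum.inl z0) (Sum.inl z0) z ↔ ψ.M z := by
  constructor
  · rintro (h | ⟨_, h⟩)
    · exact Or.inr (ψ.X.R.symm h)
    · exact h
  · intro h
    exact Or.inr ⟨Or.inr (ψ.X.R.refl _), h⟩

theorem Cfg.del_f_of_not {ψ : Cfg B P (k + 1)} (h : Good ψ.ps) {z : LL B k ⊕ P}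
    (hz : ¬ ψ.M (JJ z)) : ψ.del.f z = ψ.f (JJ z) := by
  classical
  rw [Cfg.del_f_aux h z, if_neg (fun h' => hz (Cfg.M_iff.1 h')), add_zero]
  unfold Cfg.f
  apply Tsm_congr
  intro l
  have : mgR ψ.X.R (Sum.inl z1) (Sum.inl z0) (Sum.inl l) (JJ z) ↔ ψ.X.R (Sum.inl l) (JJ z) := by
    constructor
    · rintro (h | ⟨_, h⟩)
      · exact h
      · exact absurd h hz
    · exact mgR_of
  simp only [this]

theorem Cfg.del_f_of_in {ψ : Cfg B P (k + 1)} (h : Good ψ.ps) {z : LL B k ⊕ P}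
    (hz : ψ.M (JJ z)) (hIn : ψ.In) :
    (Sp ψ.ps ∧ ψ.del.f z = ψ.f (Sum.inl z1) + 1) ∨
      (¬ Sp ψ.ps ∧ ψ.del.f z = ψ.f (Sum.inl z1) - 1) := by
  classical
  have h1 := Cfg.del_f_aux h z
  rw [if_pos (Cfg.M_iff.2 hz)] at h1
  have h2 : Tsm (Perm.SameCycle.setoid (ψ.ps * bar))
      (fun l => if mgR ψ.X.R (Sum.inl z1) (Sum.inl z0) (Sum.inl l) (JJ z) then (1 : ℤ) else 0) =
      ψ.f (Sum.inl z1) := by
    unfold Cfg.f
    apply Tsm_congr
    intro l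
    have hz' : ψ.X.R (JJ z) (Sum.inl z1) := by
      rcases hz with hz | hz
      · exact hz
      · exact ψ.X.R.trans hz (ψ.X.R.symm hIn)
    have : mgR ψ.X.R (Sum.inl z1) (Sum.inl z0) (Sum.inl l) (JJ z) ↔
        ψ.X.R (Sum.inl l) (Sum.inl z1) := by
      rw [mgR_of_rel hIn]
      exact ⟨fun h => ψ.X.R.trans h hz', fun h => ψ.X.R.trans h (ψ.X.R.symm hz')⟩
    simp only [this]
  rw [h2] at h1
  by_cases hs : Sp ψ.ps
  · rw [if_pos hs] at h1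
    exact Or.inl ⟨hs, h1⟩
  · rw [if_neg hs] at h1
    exact Or.inr ⟨hs, by rw [h1]; ring⟩

theorem Cfg.In_of_Sp {ψ : Cfg B P (k + 1)} (h : Sp ψ.ps) : ψ.In := ψ.rel_SF h

theorem Cfg.del_f_of_join {ψ : Cfg B P (k + 1)} (h : Good ψ.ps) {z : LL B k ⊕ P}
    (hz : ψ.M (JJ z)) (hIn : ¬ ψ.In) :
    ψ.del.f z = ψ.f (Sum.inl z1) + ψ.f (Sum.inl z0) - 1 := by
  classical
  rw [Cfg.del_f_aux h z, if_pos (Cfg.M_iff.2 hz), if_neg (fun h' => hIn (Cfg.In_of_Sp h'))]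
  unfold Cfg.f
  rw [← Tsm_add]
  have : ∀ a b : ℤ, a = b → a + -1 = b - 1 := by intro a b h; rw [h]; ring
  apply this
  apply Tsm_congr
  intro l
  have h1 : mgR ψ.X.R (Sum.inl z1) (Sum.inl z0) (Sum.inl l) (JJ z) ↔
      (ψ.X.R (Sum.inl l) (Sum.inl z1) ∨ ψ.X.R (Sum.inl l) (Sum.inl z0)) := by
    constructor
    · rintro (h | ⟨h, _⟩)
      · exact hz.imp (ψ.X.R.trans h) (ψ.X.R.trans h)
      · exact h
    · intro h
      exact Or.inr ⟨h, hz⟩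
  by_cases a1 : ψ.X.R (Sum.inl l) (Sum.inl z1)
  · have a2 : ¬ ψ.X.R (Sum.inl l) (Sum.inl z0) := by
      intro h'
      exact hIn (ψ.X.R.trans (ψ.X.R.symm a1) h')
    simp [h1, a1, a2]
  · by_cases a2 : ψ.X.R (Sum.inl l) (Sum.inl z0)
    · simp [h1, a1, a2]
    · simp [h1, a1, a2]

theorem Cfg.Valid.del {ψ : Cfg B P (k + 1)} (h : ψ.Valid) : ψ.del.Valid := by
  refine ⟨?_, ?_, h.good.d⟩
  · intro l
    by_cases hM : ψ.M (JJ (Sum.inl l))
    · by_cases hIn : ψ.In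
      · have hx : ψ.del.X.x (Sum.inl l) = ψ.X.x (Sum.inl z1) - 1 := SX.mg_x_of hM hIn
        obtain ⟨g, hg⟩ := h.genus z1
        rcases Cfg.del_f_of_in h.good hM hIn with ⟨_, hf⟩ | ⟨_, hf⟩
        · exact ⟨g, by rw [hx, hf]; linarith⟩
        · exact ⟨g + 1, by rw [hx, hf]; push_cast; linarith⟩
      · have hx : ψ.del.X.x (Sum.inl l) = ψ.X.x (Sum.inl z1) + ψ.X.x (Sum.inl z0) - 1 :=
          SX.mg_x_of' hM hIn
        obtain ⟨g, hg⟩ := h.genus z1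
        obtain ⟨g', hg'⟩ := h.genus z0
        have hf := Cfg.del_f_of_join h.good hM hIn
        exact ⟨g + g', by rw [hx, hf]; push_cast; linarith⟩
    · have hx : ψ.del.X.x (Sum.inl l) = ψ.X.x (JJ (Sum.inl l)) := SX.mg_x_of_not hM
      obtain ⟨g, hg⟩ := h.genus (j0 l)
      have hf := Cfg.del_f_of_not h.good hM
      exact ⟨g, by rw [hx, hf]; exact hg⟩
  · intro i
    obtain ⟨x, hx⟩ := h.punct i
    obtain ⟨v, hv⟩ := h.good.ni.cover x
    exact ⟨v, (mgR _ _ _).trans (rel_of_split ψ.hR hv) (mgR_of hx)⟩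

/-- the part of a row -/
def EF (B P : Type) [DecidableEq B] [Finite B] [Finite P] (q X : ℤ) : G.Fam (CS B P) :=
  fun k ψ => Cfg.Valid (B := B) (P := P) ψ ∧ Cfg.nu (B := B) (P := P) ψ = q ∧
    Cfg.sx (B := B) (P := P) ψ - k = X

theorem EF_inv (q X : ℤ) : G.Inv (CS B P) (EF B P q X) := by
  intro k π e (ψ : Cfg B P k)
  show (Cfg.act π e ψ).Valid ∧ (Cfg.act π e ψ).nu = q ∧ (Cfg.act π e ψ).sx - k = X ↔ _
  rw [Cfg.act_valid, Cfg.act_nu, Cfg.act_sx]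
  rfl

theorem EF_del {q X : ℤ} {ψ : Cfg B P (k + 1)} (h : EF B P q X (k + 1) ψ) :
    EF B P q X k ψ.del ↔ ψ.K2 := by
  classical
  obtain ⟨h1, h2, h3⟩ := h
  constructor
  · rintro ⟨h4, h5, h6⟩
    by_contra hK
    rw [Cfg.del_nu h1.good, if_neg hK, h2] at h5
    linarith
  · intro hK
    refine ⟨h1.del, ?_, ?_⟩
    · rw [Cfg.del_nu h1.good, if_pos hK, h2, sub_zero]
    · rw [Cfg.del_sx h1.good, ← h3]
      push_cast
      ring

theorem EF_conv (q X : ℤ) : G.Conv (CS B P) (EF B P q X) := by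
  classical
  intro k ψ h1 h2
  change EF B P q X (k + 1) (Cfg.del ψ)
  change EF B P q X k (Cfg.del (Cfg.del ψ)) at h2
  rw [EF_del h1]
  by_contra hK
  have h3 := h2.2.1
  have h4 := Cfg.del_nu h1.1.good
  have h5 := Cfg.del_nu (ψ := Cfg.del ψ) h1.1.del.good
  rw [h3, h4, h1.2.1, if_neg hK] at h5
  split_ifs at h5 <;> linarith

end Pool.Agent.W604
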