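import Mathlib
import Pool.Agent.W604.EF

set_option autoImplicit false
set_option linter.unusedSectionVars false
set_option linter.unusedSimpArgs false
set_option linter.unusedVariables false

/-!
Configurations for which the component of a side has at least two punctures can be killed.
-/

namespace Pool.Agent.W604

open Equiv

/-! ### splitting off a class -/

section spl

variable {Z Z' Z'' : Type}

open Classical in
/-- the points of `S` form one class of value `1` -/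
noncomputable def SX.spl (X : SX Z) (ρ : Z' → Z) (S : Set Z') : SX Z' where
  R := {
    r := fun a b => (a ∈ S ∧ b ∈ S) ∨ (a ∉ S ∧ b ∉ S ∧ X.R (ρ a) (ρ b))
    iseqv := by
      refine ⟨fun a => ?_, ?_, ?_⟩
      · by_cases h : a ∈ S
        · exact Or.inl ⟨h, h⟩
        · exact Or.inr ⟨h, h, X.R.refl _⟩
      · rintro a b (⟨h1, h2⟩ | ⟨h1, h2, h3⟩)
        · exact Or.inl ⟨h2, h1⟩
        · exact Or.inr ⟨h2, h1, X.R.symm h3⟩
      · rintro a b c (⟨h1, h2⟩ | ⟨h1, h2, h3⟩) (⟨h1', h2'⟩ | ⟨h1', h2', h3'⟩)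
        · exact Or.inl ⟨h1, h2'⟩
        · exact absurd h2 h1'
        · exact absurd h1' h2
        · exact Or.inr ⟨h1, h2', X.R.trans h3 h3'⟩ }
  x a := if a ∈ S then 1 else X.x (ρ a)
  hx := by
    rintro a b (⟨h1, h2⟩ | ⟨h1, h2, h3⟩)
    · simp only [if_pos h1, if_pos h2]
    · simp only [if_neg h1, if_neg h2, X.hx _ _ h3]

theorem SX.spl_R {X : SX Z} {ρ : Z' → Z} {S : Set Z'} {a b : Z'} :
    (X.spl ρ S).R a b ↔ (a ∈ S ∧ b ∈ S) ∨ (a ∉ S ∧ b ∉ S ∧ X.R (ρ a) (ρ b)) := Iff.rfl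

theorem SX.spl_x_of {X : SX Z} {ρ : Z' → Z} {S : Set Z'} {a : Z'} (h : a ∈ S) :
    (X.spl ρ S).x a = 1 := if_pos h

theorem SX.spl_x_of_not {X : SX Z} {ρ : Z' → Z} {S : Set Z'} {a : Z'} (h : a ∉ S) :
    (X.spl ρ S).x a = X.x (ρ a) := if_neg h

theorem SX.spl_comap (X : SX Z) (ρ : Z' → Z) (S : Set Z') (e : Z'' → Z') :
    (X.spl ρ S).comap e = X.spl (ρ ∘ e) (e ⁻¹' S) := rfl

theorem SX.comap_spl (X : SX Z) (e : Z' → Z) (ρ : Z'' → Z') (S : Set Z'') :
    (X.comap e).spl ρ S = X.spl (e ∘ ρ) S := rfl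

theorem SX.spl_congr (X : SX Z) {ρ ρ' : Z' → Z} {S S' : Set Z'} (hS : S = S')
    (h : ∀ a, a ∉ S → ρ a = ρ' a) : X.spl ρ S = X.spl ρ' S' := by
  subst hS
  refine SX.ext' (fun a b => ?_) (fun a => ?_)
  · rw [SX.spl_R, SX.spl_R]
    constructor
    · rintro (h1 | ⟨h1, h2, h3⟩)
      · exact Or.inl h1
      · exact Or.inr ⟨h1, h2, by rw [← h a h1, ← h b h2]; exact h3⟩
    · rintro (h1 | ⟨h1, h2, h3⟩)
      · exact Or.inl h1
      · exact Or.inr ⟨h1, h2, by rw [h a h1, h b h2]; exact h3⟩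
  · by_cases h1 : a ∈ S
    · rw [SX.spl_x_of h1, SX.spl_x_of h1]
    · rw [SX.spl_x_of_not h1, SX.spl_x_of_not h1, h a h1]

theorem SX.spl_mg (X : SX Z) (ρ : Z' → Z) (S : Set Z') {p q : Z'} (hp : p ∉ S) (hq : q ∉ S) :
    (X.spl ρ S).mg p q = (X.mg (ρ p) (ρ q)).spl ρ S := by
  have hpR : ∀ {a}, (X.spl ρ S).R a p ↔ a ∉ S ∧ X.R (ρ a) (ρ p) := by
    intro a
    rw [SX.spl_R]
    constructor
    · rintro (⟨_, h⟩ | ⟨h1, _, h⟩)
      · exact absurd h hp
      · exact ⟨h1, h⟩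
    · rintro ⟨h1, h2⟩
      exact Or.inr ⟨h1, hp, h2⟩
  have hqR : ∀ {a}, (X.spl ρ S).R a q ↔ a ∉ S ∧ X.R (ρ a) (ρ q) := by
    intro a
    rw [SX.spl_R]
    constructor
    · rintro (⟨_, h⟩ | ⟨h1, _, h⟩)
      · exact absurd h hq
      · exact ⟨h1, h⟩
    · rintro ⟨h1, h2⟩
      exact Or.inr ⟨h1, hq, h2⟩
  refine SX.ext' (fun a b => ?_) (fun a => ?_)
  · show ((X.spl ρ S).R a b ∨ (((X.spl ρ S).R a p ∨ (X.spl ρ S).R a q) ∧
      ((X.spl ρ S).R b p ∨ (X.spl ρ S).R b q))) ↔ ((a ∈ S ∧ b ∈ S) ∨ (a ∉ S ∧ b ∉ S ∧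
      (X.R (ρ a) (ρ b) ∨ ((X.R (ρ a) (ρ p) ∨ X.R (ρ a) (ρ q)) ∧
        (X.R (ρ b) (ρ p) ∨ X.R (ρ b) (ρ q))))))
    rw [hpR, hpR, hqR, hqR, SX.spl_R]
    tauto
  · by_cases h : a ∈ S
    · rw [SX.spl_x_of h, SX.mg_x_of_not, SX.spl_x_of h]
      rw [hpR, hqR]
      tauto
    · rw [SX.spl_x_of_not h]
      by_cases h1 : X.R (ρ a) (ρ p) ∨ X.R (ρ a) (ρ q)
      · have h2 : (X.spl ρ S).R a p ∨ (X.spl ρ S).R a q := by
          rw [hpR, hqR]; tauto
        by_cases h3 : X.R (ρ p) (ρ q)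
        · rw [SX.mg_x_of h1 h3, SX.mg_x_of h2 (hqR.2 ⟨hp, h3⟩), SX.spl_x_of_not hp]
        · rw [SX.mg_x_of' h1 h3, SX.mg_x_of' h2 (fun h' => h3 (hqR.1 h').2), SX.spl_x_of_not hp,
            SX.spl_x_of_not hq]
      · rw [SX.mg_x_of_not h1, SX.mg_x_of_not, SX.spl_x_of_not h]
        rw [hpR, hqR]
        tauto

end spl

variable {B P : Type} {k : ℕ} [DecidableEq B] [Finite B]

/-! ### faces of the loop system -/

theorem opU_mul_bar (u : B) (ψ : Perm (LL B k)) : opU u ψ * bar =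
    fx (E1 B k) (fx (E2 (Equiv.refl (Option B)) k) (ψ * bar)) * swap z1 (Sum.inl u) := by
  unfold opU
  rw [ins1_mul_bar, insS_mul_bar, ins1_eq]
  congr 2
  unfold insS ins
  rw [SB_swap, mul_assoc]
  have h1 : hole (E2 (Equiv.refl (Option B)) k) = Sum.inl none := rfl
  have h2 : lft (E2 (Equiv.refl (Option B)) k) (Sum.inl u) = Sum.inl (some u) := rfl
  rw [h1, h2, swap_comm, swap_mul_self, mul_one]

theorem opU_bar_u (u : B) (ψ : Perm (LL B k)) :
    (opU u ψ * bar : Perm (LL B (k + 1))) (Sum.inl u) = z1 := by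
  rw [opU_mul_bar, Perm.mul_apply, swap_apply_right]
  exact fx_hole _ _

theorem fxfx_j0 (φ : Perm (LL B k)) (v : LL B k) :
    fx (E1 B k) (fx (E2 (Equiv.refl (Option B)) k) φ) (j0 v) = j0 (φ v) := by
  have h : ∀ v : LL B k, j0 v = lft (E1 B k) (lft (E2 (Equiv.refl (Option B)) k) v) := by
    intro v
    rw [j0_eq]; rfl
  rw [h, h, fx_lft, fx_lft]

theorem opU_bar_z1 (u : B) (ψ : Perm (LL B k)) :
    (opU u ψ * bar : Perm (LL B (k + 1))) z1 = j0 ((ψ * bar : Perm (LL B k)) (Sum.inl u)) := by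
  rw [opU_mul_bar, Perm.mul_apply, swap_apply_left]
  exact fxfx_j0 _ (Sum.inl u)

theorem opU_bar_z0 (u : B) (ψ : Perm (LL B k)) :
    (opU u ψ * bar : Perm (LL B (k + 1))) z0 = z0 := by
  rw [opU_mul_bar, Perm.mul_apply, swap_apply_of_ne_of_ne (by simp) (by simp)]
  have h : (z0 : LL B (k + 1)) = lft (E1 B k) (hole (E2 (Equiv.refl (Option B)) k)) := rfl
  rw [h, fx_lft, fx_hole]

theorem opU_bar_j0 (u : B) (ψ : Perm (LL B k)) {v : LL B k} (hv : v ≠ Sum.inl u) :
    (opU u ψ * bar : Perm (LL B (k + 1))) (j0 v) = j0 ((ψ * bar : Perm (LL B k)) v) := by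
  rw [opU_mul_bar, Perm.mul_apply, swap_apply_of_ne_of_ne]
  · exact fxfx_j0 _ v
  · rcases v with b | ⟨i, ε⟩
    · simp [j0]
    · simp only [j0, ne_eq, Sum.inr.injEq, Prod.mk.injEq, not_and]
      intro h
      exact absurd h (Fin.succ_ne_zero _)
  · intro h
    apply hv
    exact j0_inj h

/-! ### the loop around a puncture -/

/-- where the letters come from -/
def rho (u : B) : LL B (k + 1) ⊕ P → LL B k ⊕ P
  | Sum.inl (Sum.inl b) => Sum.inl (Sum.inl b)
  | Sum.inl (Sum.inr (i, ε)) => Fin.cases (Sum.inl (Sum.inl u)) (fun j => Sum.inl (Sum.inr (j, ε))) i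
  | Sum.inr p => Sum.inr p

theorem rho_z (u : B) (ε : Bool) :
    rho (k := k) (P := P) u (Sum.inl (Sum.inr (0, ε))) = Sum.inl (Sum.inl u) := rfl

theorem rho_JJ (u : B) (z : LL B k ⊕ P) : rho u (JJ z) = z := by
  rcases z with (b | ⟨i, ε⟩) | p <;> rfl

/-- the new class -/
def Sq (i : P) : Set (LL B (k + 1) ⊕ P) := {Sum.inl z0, Sum.inr i}

theorem z0_mem (i : P) : Sum.inl z0 ∈ Sq (B := B) (k := k) i := Or.inl rfl
theorem z1_not_mem (i : P) : Sum.inl z1 ∉ Sq (B := B) (k := k) i := by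
  rintro (h | h) <;> simp at h
theorem j0_not_mem (i : P) (v : LL B k) : Sum.inl (j0 v) ∉ Sq (B := B) (k := k) i := by
  rintro (h | h)
  · rcases v with b | ⟨j, ε⟩
    · simp [j0] at h
    · simp only [j0, Sum.inl.injEq, Sum.inr.injEq, Prod.mk.injEq] at h
      exact Fin.succ_ne_zero _ h.1
  · simp at h
theorem inr_mem {i p : P} : Sum.inr p ∈ Sq (B := B) (k := k) i ↔ p = i := by
  constructor
  · rintro (h | h)
    · simp at h
    · exact Sum.inr_injective h
  · rintro rfl; exact Or.inr rfl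
theorem JJ_mem {i : P} {z : LL B k ⊕ P} : JJ z ∈ Sq (B := B) (k := k) i ↔ z = Sum.inr i := by
  rcases z with v | p
  · exact ⟨fun h => absurd h (j0_not_mem i v), fun h => by simp at h⟩
  · rw [JJ_inr, inr_mem]; simp

/-- loop at `u` around the puncture `i` -/
noncomputable def Cfg.U (u : B) (i : P) (ψ : Cfg B P k) : Cfg B P (k + 1) where
  ps := opU u ψ.ps
  X := ψ.X.spl (rho u) (Sq i)
  hR := by
    intro l
    rw [SX.spl_R]
    rcases j0_cases l with ⟨ε, rfl⟩ | ⟨v, rfl⟩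
    · cases ε
      · rw [opU_bar_z0]
        exact Or.inl ⟨z0_mem i, z0_mem i⟩
      · rw [opU_bar_z1]
        refine Or.inr ⟨j0_not_mem i _, z1_not_mem i, ?_⟩
        have h1 : ∀ v, rho (P := P) (k := k) u (Sum.inl (j0 v)) = Sum.inl v :=
          fun v => rho_JJ u (Sum.inl v)
        rw [h1]
        exact ψ.hR (Sum.inl u)
    · by_cases hv : v = Sum.inl u
      · subst hv
        have : (j0 (Sum.inl u) : LL B (k + 1)) = Sum.inl u := rfl
        rw [this, opU_bar_u]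
        refine Or.inr ⟨z1_not_mem i, ?_, ψ.X.R.refl _⟩
        exact j0_not_mem i (Sum.inl u)
      · rw [opU_bar_j0 u ψ.ps hv]
        refine Or.inr ⟨j0_not_mem i _, j0_not_mem i _, ?_⟩
        have h1 : ∀ v, rho (P := P) (k := k) u (Sum.inl (j0 v)) = Sum.inl v :=
          fun v => rho_JJ u (Sum.inl v)
        rw [h1, h1]
        exact ψ.hR v

/-- the puncture `i` is in the component of `u` -/
def Dm (u : B) (i : P) : G.Fam (CS B P) := fun k ψ =>
  (ψ : Cfg B P k).X.R (Sum.inr i) (Sum.inl (Sum.inl u))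

theorem Dm_inv (u : B) (i : P) : G.Inv (CS B P) (Dm u i) := by
  intro k π e (ψ : Cfg B P k)
  exact ψ.act_R π e (Sum.inr i) (Sum.inl (Sum.inl u))

theorem Cfg.del_U {u : B} {i : P} {ψ : Cfg B P k} (h : Dm u i k ψ) : (ψ.U u i).del = ψ := by
  have hu : ∀ {z : LL B k ⊕ P}, z ≠ Sum.inr i →
      ((ψ.U u i).X.R (JJ z) (Sum.inl z1) ↔ ψ.X.R z (Sum.inl (Sum.inl u))) := by
    intro z hz
    have h0 : JJ z ∉ Sq (B := B) (k := k) i := fun h' => hz (JJ_mem.1 h')
    constructor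
    · rintro (⟨h1, _⟩ | ⟨_, _, h1⟩)
      · exact absurd h1 h0
      · rwa [rho_JJ] at h1
    · intro h1
      exact Or.inr ⟨h0, z1_not_mem i, by rwa [rho_JJ]⟩
  have hi1 : ¬ (ψ.U u i).X.R (Sum.inr i) (Sum.inl z1) := by
    rintro (⟨_, h1⟩ | ⟨h1, _, _⟩)
    · exact z1_not_mem i h1
    · exact h1 (inr_mem.2 rfl)
  have hi0 : (ψ.U u i).X.R (Sum.inr i) (Sum.inl z0) := Or.inl ⟨inr_mem.2 rfl, z0_mem i⟩
  have hz0 : ∀ {z : LL B k ⊕ P}, z ≠ Sum.inr i → ¬ (ψ.U u i).X.R (JJ z) (Sum.inl z0) := by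
    intro z hz
    have h0 : JJ z ∉ Sq (B := B) (k := k) i := fun h' => hz (JJ_mem.1 h')
    rintro (⟨h1, _⟩ | ⟨_, h1, _⟩)
    · exact h0 h1
    · exact h1 (z0_mem i)
  have h10 : ¬ (ψ.U u i).X.R (Sum.inl z1) (Sum.inl z0) := by
    rintro (⟨h1, _⟩ | ⟨_, h1, _⟩)
    · exact z1_not_mem i h1
    · exact h1 (z0_mem i)
  have hM : ∀ z : LL B k ⊕ P, (ψ.U u i).M (JJ z) ↔ ψ.X.R z (Sum.inl (Sum.inl u)) := by
    intro z
    by_cases hz : z = Sum.inr i
    · subst hz
      exact ⟨fun _ => h, fun _ => Or.inr hi0⟩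
    · unfold Cfg.M
      rw [hu hz]
      exact ⟨fun h' => h'.resolve_right (hz0 hz), Or.inl⟩
  refine Cfg.ext' (d_opU u ψ.ps) (SX.ext' (fun a b => ?_) (fun a => ?_))
  · show mgR (ψ.U u i).X.R (Sum.inl z1) (Sum.inl z0) (JJ a) (JJ b) ↔ _
    rw [mgR_iff]
    have hMa := hM a
    have hMb := hM b
    unfold Cfg.M at hMa hMb
    rw [hMa, hMb]
    constructor
    · rintro (h1 | ⟨h1, h2⟩)
      · rcases h1 with ⟨h1, h2⟩ | ⟨_, _, h1⟩
        · rw [JJ_mem.1 h1, JJ_mem.1 h2]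
        · rwa [rho_JJ, rho_JJ] at h1
      · exact ψ.X.R.trans h1 (ψ.X.R.symm h2)
    · intro h1
      by_cases ha : ψ.X.R a (Sum.inl (Sum.inl u))
      · exact Or.inr ⟨ha, ψ.X.R.trans (ψ.X.R.symm h1) ha⟩
      · left
        have hai : JJ a ∉ Sq (B := B) (k := k) i := by
          intro h'
          rw [JJ_mem.1 h'] at ha
          exact ha h
        have hbi : JJ b ∉ Sq (B := B) (k := k) i := by
          intro h'
          rw [JJ_mem.1 h'] at h1
          exact ha (ψ.X.R.trans h1 h)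
        exact Or.inr ⟨hai, hbi, by rwa [rho_JJ, rho_JJ]⟩
  · by_cases ha : (ψ.U u i).M (JJ a)
    · have h1 : (ψ.U u i).del.X.x a = (ψ.U u i).X.x (Sum.inl z1) + (ψ.U u i).X.x (Sum.inl z0) - 1 :=
        SX.mg_x_of' ha h10
      have h2 : (ψ.U u i).X.x (Sum.inl z1) = ψ.X.x (Sum.inl (Sum.inl u)) :=
        SX.spl_x_of_not (z1_not_mem i)
      have h3 : (ψ.U u i).X.x (Sum.inl z0) = 1 := SX.spl_x_of (z0_mem i)
      rw [h1, h2, h3, ψ.X.hx _ _ ((hM a).1 ha)]
      ring
    · have h1 : (ψ.U u i).del.X.x a = (ψ.U u i).X.x (JJ a) := SX.mg_x_of_not ha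
      have hai : JJ a ∉ Sq (B := B) (k := k) i := by
        intro h'
        apply ha
        rw [JJ_mem.1 h']
        exact Or.inr hi0
      have h2 : (ψ.U u i).X.x (JJ a) = ψ.X.x a := by
        have : (ψ.U u i).X.x (JJ a) = ψ.X.x (rho u (JJ a)) := SX.spl_x_of_not hai
        rw [this, rho_JJ]
      rw [h1, h2]

theorem op_U (u : B) (i : P) : G.Op (CS B P) (fun k ψ => Cfg.U u i ψ) (Dm u i) where
  act := by
    intro k π e (ψ : Cfg B P k)
    refine Cfg.ext' (act_opU u π e ψ.ps) ?_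
    show (ψ.X.comap _).spl _ _ = (ψ.X.spl _ _).comap _
    rw [SX.comap_spl, SX.spl_comap]
    refine SX.spl_congr _ ?_ ?_
    · ext z
      obtain ⟨z, rfl⟩ := (WZ P (lp π) (Fin.cons false e)).surjective z
      show _ ↔ (WZ P (lp π) (Fin.cons false e))⁻¹ (WZ P (lp π) (Fin.cons false e) z) ∈ Sq i
      have h : (WZ P (lp π) (Fin.cons false e))⁻¹ (WZ P (lp π) (Fin.cons false e) z) = z := by simp
      rw [h]
      rcases z with x | p
      · rcases j0_cases x with ⟨ε, rfl⟩ | ⟨v, rfl⟩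
        · rw [WZ_inl, W_inr, lp_zero]; simp
        · have h2 : WZ P (lp π) (Fin.cons false e) (Sum.inl (j0 v)) =
              (Sum.inl (j0 (W π e v)) : LL B (k + 1) ⊕ P) := by
            rcases v with b | ⟨j, ε⟩
            · rfl
            · simp [j0]
          rw [h2]
          exact ⟨fun h => absurd h (j0_not_mem i _), fun h => absurd h (j0_not_mem i _)⟩
      · rfl
    · intro z hz
      obtain ⟨z, rfl⟩ := (WZ P (lp π) (Fin.cons false e)).surjective z
      have h : (WZ P (lp π) (Fin.cons false e))⁻¹ (WZ P (lp π) (Fin.cons false e) z) = z := by simp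
      show (WZ P π e)⁻¹ (rho u (WZ P (lp π) (Fin.cons false e) z)) =
        rho u ((WZ P (lp π) (Fin.cons false e))⁻¹ (WZ P (lp π) (Fin.cons false e) z))
      rw [h, Perm.inv_eq_iff_eq]
      rcases z with x | p
      · rcases j0_cases x with ⟨ε, rfl⟩ | ⟨v, rfl⟩
        · rw [WZ_inl, W_inr, lp_zero]; rfl
        · have h2 : WZ P (lp π) (Fin.cons false e) (Sum.inl (j0 v)) =
              (JJ (Sum.inl (W π e v)) : LL B (k + 1) ⊕ P) := by
            rcases v with b | ⟨j, ε⟩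
            · rfl
            · simp [j0]
          rw [h2, rho_JJ]
          have h3 : (Sum.inl (j0 v) : LL B (k + 1) ⊕ P) = JJ (Sum.inl v) := rfl
          rw [h3, rho_JJ]; rfl
      · rfl
  d := by
    intro k ψ h
    exact Cfg.del_U h
  dd := by
    intro k (ψ : Cfg B P (k + 1)) h
    refine Cfg.ext' ?_ ?_
    · show d (act (swap 0 1) (fun _ => false) (opU u ψ.ps)) = opU u (d ψ.ps)
      unfold opU iS
      rw [d_swap_ins1, d_insS]
    · show (((ψ.X.spl _ _).comap _).mg _ _).comap _ = ((ψ.X.mg _ _).comap _).spl _ _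
      have hW : ∀ (i : Fin (k + 2)) (ε : Bool), (WZ P (swap 0 1) (fun _ => false))⁻¹
          (Sum.inl (Sum.inr (i, ε))) = (Sum.inl (Sum.inr (swap 0 1 i, ε)) : LL B (k + 2) ⊕ P) := by
        intro i ε
        rw [WZ_inv_inl]
        congr 1
        rw [Perm.inv_eq_iff_eq]
        simp
      rw [← SX.comap_mg, hW, hW, swap_apply_left, SX.comap_comap, SX.comap_spl, SX.spl_mg,
        SX.spl_comap]
      · have h1 : ∀ ε, rho (P := P) u (Sum.inl (Sum.inr ((1 : Fin (k + 2)), ε))) =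
            Sum.inl (Sum.inr (0, ε)) := fun ε => rfl
        rw [h1, h1]
        refine SX.spl_congr _ ?_ ?_
        · ext z
          rcases z with x | p
          · rcases j0_cases x with ⟨ε, rfl⟩ | ⟨v, rfl⟩
            · show (WZ P (swap 0 1) (fun _ => false))⁻¹
                (Sum.inl (Sum.inr (1, ε))) ∈ Sq i ↔ _
              rw [hW, swap_apply_right]
              cases ε
              · exact ⟨fun _ => z0_mem i, fun _ => z0_mem i⟩
              · exact ⟨fun h => absurd h (z1_not_mem i), fun h => absurd h (z1_not_mem i)⟩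
            · have h2 : (WZ P (swap 0 1) (fun _ => false))⁻¹ (JJ (Sum.inl (j0 v))) =
                  (Sum.inl (j0 (j0 v)) : LL B (k + 2) ⊕ P) := by
                rcases v with b | ⟨j, ε⟩
                · rfl
                · show (WZ P (swap 0 1) (fun _ => false))⁻¹
                    (Sum.inl (Sum.inr (j.succ.succ, ε))) = _
                  rw [hW, swap01_succ_succ]; rfl
              show (WZ P (swap 0 1) (fun _ => false))⁻¹ (JJ (Sum.inl (j0 v))) ∈ Sq i ↔ _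
              rw [h2]
              exact ⟨fun h => absurd h (j0_not_mem i _), fun h => absurd h (j0_not_mem i _)⟩
          · show Sum.inr p ∈ Sq i ↔ _
            rw [inr_mem, inr_mem]
        · intro z hz
          rcases z with x | p
          · rcases j0_cases x with ⟨ε, rfl⟩ | ⟨v, rfl⟩
            · show rho u ((WZ P (swap 0 1) (fun _ => false))⁻¹
                (Sum.inl (Sum.inr (1, ε)))) = _
              rw [hW, swap_apply_right]
              rfl
            · have h2 : (WZ P (swap 0 1) (fun _ => false))⁻¹ (JJ (Sum.inl (j0 v))) =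
                  (Sum.inl (j0 (j0 v)) : LL B (k + 2) ⊕ P) := by
                rcases v with b | ⟨j, ε⟩
                · rfl
                · show (WZ P (swap 0 1) (fun _ => false))⁻¹
                    (Sum.inl (Sum.inr (j.succ.succ, ε))) = _
                  rw [hW, swap01_succ_succ]; rfl
              show rho u ((WZ P (swap 0 1) (fun _ => false))⁻¹ (JJ (Sum.inl (j0 v)))) =
                JJ (rho u (Sum.inl (j0 v)))
              rw [h2]
              rcases v with b | ⟨j, ε⟩ <;> rfl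
          · rfl
      · intro h'
        have := (JJ_mem (z := (Sum.inl (Sum.inr (0, true)) : LL B (k + 1) ⊕ P))).1 h'
        simp at this
      · intro h'
        have := (JJ_mem (z := (Sum.inl (Sum.inr (0, false)) : LL B (k + 1) ⊕ P))).1 h'
        simp at this

end Pool.Agent.W604
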