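import Mathlib

set_option autoImplicit false

/-!
# Collapse of the arc complex spectral sequence

The surface `F` has genus `g`, `s` punctures and `r ≥ 1` boundary components, the `i`-th of which
carries `δ i ≥ 1` distinguished points.  The distinguished points cut the boundary into edges.

An arc family in `F` with numbered, oriented arcs is recorded up to pure mapping classes by its
combinatorial type (classification of surfaces): the order of the boundary edges and of the ends
of arcs along the boundary of `F`, which of them (and which punctures) lie in the same complementary
region, and the Euler characteristic of every complementary region (with its punctures filled in).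
-/

namespace Pool.Agent.W604.ArcSS

open Equiv

/-- The surface: genus `g`, number of punctures `s`, number of boundary components `r`, numbers of
distinguished points `δ i`. -/
structure Surf where
  g : ℕ
  s : ℕ
  r : ℕ
  δ : Fin r → ℕ
  hr : 0 < r
  hδ : ∀ i, 0 < δ i

/-- The boundary edges: the pieces into which the distinguished points cut the boundary. -/
abbrev Surf.B (F : Surf) : Type := (i : Fin F.r) × Fin (F.δ i)

/-- The next boundary edge along the boundary component. -/
def Surf.next (F : Surf) : Perm F.B := Equiv.sigmaCongrRight fun i => finRotate (F.δ i)

/-- Letters: the boundary edges, and the two ends `(i, true)`, `(i, false)` of each arc `i`. -/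
abbrev Lt (F : Surf) (k : ℕ) : Type := F.B ⊕ (Fin k × Bool)

variable {F : Surf} {k : ℕ}

/-- Exchanges the two ends of each arc. -/
def op : Perm (Lt F k) := Equiv.sumCongr (Equiv.refl _) (Equiv.prodCongr (Equiv.refl _) boolNot)

/-- Renaming of the letters when arc `i` becomes arc `π i` and its orientation is changed if
`τ i` is not the identity. -/
def ren (π : Perm (Fin k)) (τ : Fin k → Perm Bool) : Perm (Lt F k) :=
  Equiv.sumCongr (Equiv.refl _) (Equiv.prodShear π τ)

/-- Combinatorial type of a surface cut along `k` disjoint arcs, numbered and oriented.

`w`: walking along the boundary of the surface (at a distinguished point one passes the ends of arcs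
there in their order), the letter `l` is followed by the letter `w l`.

As the side of a complementary region, the letter `(i, ε)` is the side of arc `i` along which one
runs from its end `ε` to its other end; walking along the boundary of a region, the side `l` is
followed by the side `w (op l)`.

`R`: lie in the same complementary region (as sides of it, or as punctures in it).

`χ`: Euler characteristic of the region, its punctures being filled in. -/
structure Sys (F : Surf) (k : ℕ) where
  w : Perm (Lt F k)
  R : Setoid (Lt F k ⊕ Fin F.s)
  χ : Lt F k ⊕ Fin F.s → ℤ
  cls : ∀ a b, R a b → χ a = χ b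
  face : ∀ l, R (Sum.inl (w (op l))) (Sum.inl l)

/-- `w'` is obtained from `w` by erasing the letters outside the range of `j` from the cycles:
`w' v` is the first letter in the range of `j` that follows `j v`. -/
def Erases {L L' : Type} (j : L' → L) (w : Perm L) (w' : Perm L') : Prop :=
  ∀ v, ∃ n : ℕ, (w ^ (n + 1)) (j v) = j (w' v) ∧ ∀ m < n, (w ^ (m + 1)) (j v) ∉ Set.range j

/-- The number of boundary curves of the complementary region of `z`. -/
noncomputable def Sys.curves (D : Sys F k) (z : Lt F k ⊕ Fin F.s) : ℕ :=
  Nat.card {c : Quotient (Perm.SameCycle.setoid (D.w * op)) //
    ∃ l, Quotient.mk _ l = c ∧ D.R (Sum.inl l) z}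

/-- The condition that `D` is the combinatorial type of a family of `k` pairwise disjoint, pairwise
non isotopic arcs in `F`, all essential and not boundary parallel. -/
structure Sys.In (D : Sys F k) : Prop where
  /-- a region is a surface of some genus `h`, with at least one side -/
  genus : ∀ l, ∃ h : ℕ, D.χ (Sum.inl l) = 2 - 2 * h - D.curves (Sum.inl l)
  side : ∀ p, ∃ l, D.R (Sum.inl l) (Sum.inr p)
  /-- the ends of arcs lie at the distinguished points of `F` -/
  bdry : Erases Sum.inl D.w F.next
  ends : ∀ e, ∃ b, D.w.SameCycle (Sum.inr e) (Sum.inl b)
  /-- gluing the two sides of every arc gives a connected surface -/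
  conn : ∀ S : Setoid (Lt F k ⊕ Fin F.s), (∀ a b, D.R a b → S a b) →
    (∀ i, S (Sum.inl (Sum.inr (i, true))) (Sum.inl (Sum.inr (i, false)))) → ∀ a b, S a b
  /-- it has genus `g` -/
  euler : (∑ᶠ c : Quotient D.R, D.χ c.out) - k = 2 - 2 * F.g - F.r
  /-- no region is a disc without puncture and with less than three sides -/
  ess : ∀ z, D.χ z = 1 → (¬ ∃ p, D.R (Sum.inr p) z) → 3 ≤ Nat.card {l // D.R (Sum.inl l) z}

/-- The rank of `H_1 (F_α)`: the complementary regions, filled in at their punctures, contribute
`∑ (1 - χ)`; identifying the `s` punctures to one point adds `s` minus the number of the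
complementary regions that contain a puncture. -/
noncomputable def Sys.rk (D : Sys F k) : ℤ :=
  (∑ᶠ c : Quotient D.R, (1 - D.χ c.out)) +
    ((F.s : ℤ) - Nat.card {c : Quotient D.R // ∃ p, Quotient.mk _ (Sum.inr p) = c})

/-- The letters other than the two ends of arc `i`; the other arcs are renumbered in order. -/
def skip (i : Fin (k + 1)) : Lt F k → Lt F (k + 1) := Sum.map id (Prod.map i.succAbove id)

/-- The complementary regions when arc `i` is removed: the smallest equivalence relation that
contains `R` and relates the two sides of arc `i`. -/
def Sys.merge (D : Sys F k) (i : Fin k) : Setoid (Lt F k ⊕ Fin F.s) :=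
  sInf {S | D.R ≤ S ∧ S (Sum.inl (Sum.inr (i, true))) (Sum.inl (Sum.inr (i, false)))}

open Classical in
/-- Euler characteristics of the regions when arc `i` is removed: a region that is glued to itself
along the arc has its Euler characteristic lowered by one; two different regions glued along the arc
give a region with the sum of their Euler characteristics minus one. -/
noncomputable def Sys.chi (D : Sys F k) (i : Fin k) (z : Lt F k ⊕ Fin F.s) : ℤ :=
  if D.merge i z (Sum.inl (Sum.inr (i, true))) then
    if D.R (Sum.inl (Sum.inr (i, true))) (Sum.inl (Sum.inr (i, false))) then
      D.χ (Sum.inl (Sum.inr (i, true))) - 1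
    else D.χ (Sum.inl (Sum.inr (i, true))) + D.χ (Sum.inl (Sum.inr (i, false))) - 1
  else D.χ z

end Pool.Agent.W604.ArcSS
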