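import Mathlib
import Pool.Agent.W604.Abs

set_option autoImplicit false
set_option linter.unusedSectionVars false
set_option linter.unusedSimpArgs false
set_option linter.unusedVariables false

/-!
Chord systems with connected complement: exactness below the top degree.
-/

namespace Pool.Agent.W604

open Equiv

variable {B : Type} {k : ℕ} [DecidableEq B] [Finite B]

/-- chord systems with connected complement of any genus on a surface of given complexity -/
def DF (n : ℕ) : Fam B := fun k ψ => Good ψ ∧ ∃ h : ℕ, k + fc ψ + 2 * h = n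

theorem DF_inv (n : ℕ) : Inv (DF (B := B) n) := by
  intro k π e ψ
  unfold DF
  rw [good_act, fc_act]

theorem DF_d {n : ℕ} {ψ : Perm (LL B (k + 1))} (h : DF n (k + 1) ψ) : DF n k (d ψ) := by
  obtain ⟨h1, g, h2⟩ := h
  refine ⟨h1.d, ?_⟩
  by_cases hs : Sp ψ
  · have := fc_d_of_Sp h1.ni hs
    exact ⟨g, by omega⟩
  · have := fc_d_of_not_Sp h1.ni hs
    exact ⟨g + 1, by omega⟩

theorem GG_bot {n : ℕ} {ψ : Perm (LL B k)} :
    GG (⊥ : SimpleGraph B) n k ψ ↔ Good ψ ∧ k + fc ψ = n := by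
  unfold GG
  constructor
  · rintro ⟨h1, h2, _⟩; exact ⟨h1, h2⟩
  · rintro ⟨h1, h2⟩; exact ⟨h1, h2, fun a b h => absurd h (by simp)⟩

theorem Dh [Nonempty B] (n k : ℕ) (hn : k + 2 ≤ n) : Ex (DF (B := B) n) k := by
  intro A _ c hc
  obtain ⟨x⟩ := ‹Nonempty B›
  set G2 : Fam B := GG (⊥ : SimpleGraph B) (n + 2) with hG2
  have hG2inv : Inv G2 := GG_inv _ _
  -- all deletions
  have hdel : ∀ {j : ℕ} {χ : Perm (LL B (j + 1))}, G2 (j + 1) χ → ∀ π e,
      G2 j (d (act π e χ)) ∨ DF n j (d (act π e χ)) := by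
    intro j χ hχ π e
    have h1 := GG_bot.1 ((hG2inv _ π e χ).2 hχ)
    by_cases hs : Sp (act π e χ)
    · left
      have := fc_d_of_Sp h1.1.ni hs
      exact GG_bot.2 ⟨h1.1.d, by omega⟩
    · right
      have := fc_d_of_not_Sp h1.1.ni hs
      exact ⟨h1.1.d, 0, by omega⟩
  have hcoc : Coc G2 (cut G2 (dl c)) := by
    refine ⟨hc.as.dl.cut hG2inv, supp_cut _ _, fun χ hχ => ?_⟩
    rw [← dl_dl hc.as χ]
    apply dl_congr
    intro π e
    rcases hdel hχ π e with h | h
    · exact cut_of h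
    · rw [hc.dl _ h, cut_of_not]
      intro h'
      have h2 := (GG_bot.1 h').2
      obtain ⟨_, g, h3⟩ := h
      omega
  obtain ⟨w, hw, hws, hw2⟩ := T1 B (n + 2) (k + 1) (by omega) A _ hcoc
  set c1 : Perm (LL B k) → A := fun ψ => c ψ - w ψ with hc1
  have hc1A : AS c1 := hc.as.sub hw
  have hc1z : ∀ ψ, DF (n + 2) (k + 1) ψ → dl c1 ψ = 0 := by
    rintro ψ ⟨h1, g, h2⟩
    rw [hc1, dl_sub]
    rcases Nat.eq_zero_or_pos g with rfl | hg
    · have h3 : G2 (k + 1) ψ := GG_bot.2 ⟨h1, by omega⟩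
      rw [← hw2 ψ h3, cut_of h3, sub_self]
    · obtain ⟨g, rfl⟩ : ∃ g', g = g' + 1 := ⟨g - 1, by omega⟩
      have h3 : DF n (k + 1) ψ := ⟨h1, g, by omega⟩
      rw [hc.dl ψ h3, zero_sub, neg_eq_zero]
      apply dl_eq_zero
      intro π e
      apply hws
      intro h4
      have h5 := (DF_d ((DF_inv n _ π e ψ).2 h3)).2
      have h6 := (GG_bot.1 h4).2
      obtain ⟨g', h5⟩ := h5
      omega
  have key : ∀ ψ, DF n k ψ → c ψ = DD (fun i χ => sg c1 (i + 1) (opU x χ)) k ψ := by
    intro ψ hψ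
    have h1 := DD_opU (ASG.sg hc1A) x k ψ
    have h2 : DD (sg c1) (k + 1) (opU x ψ) = 0 := by
      rw [DD_succ]
      have : sg c1 k = c1 := funext (sg_self c1)
      rw [this]
      apply hc1z
      obtain ⟨h3, g, h4⟩ := hψ
      exact ⟨good_opU h3, g, by rw [fc_opU]; omega⟩
    rw [h2, sg_self, eq_comm, sub_eq_zero] at h1
    rw [← h1, hc1]
    have h3 : w ψ = 0 := by
      apply hws
      intro h4
      have := (GG_bot.1 h4).2
      obtain ⟨_, g, h5⟩ := hψ
      omega
    show c ψ = c ψ - w ψ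
    rw [h3, sub_zero]
  cases k with
  | zero =>
    intro ψ
    by_cases h : DF n 0 ψ
    · rw [key ψ h, DD_zero]
    · exact hc.supp _ h
  | succ k =>
    have hA : AS (fun χ => c1 (opU x χ)) := by
      have h1 := ASG.opU (ASG.sg hc1A) x k
      have h2 : (fun χ => sg c1 (k + 1) (opU x χ)) = fun χ => c1 (opU x χ) := by
        funext χ; exact sg_self c1 _
      simp only [h2] at h1
      exact h1
    refine ⟨cut (DF n) (fun χ => c1 (opU x χ)), hA.cut (DF_inv n), supp_cut _ _, ?_⟩
    intro ψ hψ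
    rw [key ψ hψ, DD_succ]
    apply dl_congr
    intro π e
    rw [cut_of (DF_d ((DF_inv n _ π e ψ).2 hψ))]
    exact sg_self c1 _

/-- chord systems without components -/
def PS (B : Type) [DecidableEq B] [Finite B] : G.Sy where
  X k := Perm (LL B k)
  act π e ψ := act π e ψ
  d ψ := d ψ
  act_act := fun π π' e e' ψ => act_act π π' e e' ψ
  act_one := fun ψ => act_one ψ
  d_act := fun π e ψ => d_act π e ψ
  d_d := by
    intro k ψ
    refine Ind.unique (j := j0 ∘ j0) (j0_inj.comp j0_inj)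
      ((ind_d _).comp j0_inj (ind_d _)) ?_
    have h := ((ind_d ψ).comp j0_inj (ind_d (Pool.Agent.W604.d ψ))).conj
      (s := W (swap 0 1) (fun _ => false)) (t := 1) (by
        rintro (b | ⟨i, ε⟩)
        · simp [j0]
        · simp only [Function.comp, j0, W_inr, Bool.xor_false, Perm.one_apply]
          rw [swap_apply_of_ne_of_ne]
          · exact Fin.succ_ne_zero _
          · intro h
            have h1 : (i.succ.succ : Fin (k + 2)) = Fin.succ 0 := by rw [h]; rfl
            exact Fin.succ_ne_zero _ (Fin.succ_injective _ h1))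
    simpa [act] using h

theorem Dh' [Nonempty B] (n k : ℕ) (hn : k + 2 ≤ n) : G.Ex (PS B) (DF (B := B) n) k := by
  intro A _ c hc
  have h1 : Coc (DF (B := B) n) c := ⟨hc.as, hc.supp, hc.dl⟩
  have h2 := Dh n k hn A c h1
  cases k with
  | zero => exact h2
  | succ k => exact h2

end Pool.Agent.W604
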