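import Mathlib
import Pool.Agent.W604.Kill

set_option autoImplicit false
set_option linter.unusedSectionVars false
set_option linter.unusedSimpArgs false
set_option linter.unusedVariables false

/-!
Configurations for which the component of a side has at least two punctures can be killed.
-/

namespace Pool.Agent.W604

open Equiv

variable {B P : Type} {k : ℕ} [DecidableEq B] [Finite B]

theorem Cfg.U_R_z0 {u : B} {i : P} {ψ : Cfg B P k} {l : LL B (k + 1)} :
    (ψ.U u i).X.R (Sum.inl l) (Sum.inl z0) ↔ l = z0 := by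
  constructor
  · rintro (⟨h1, _⟩ | ⟨_, h1, _⟩)
    · rcases h1 with h1 | h1
      · exact Sum.inl_injective h1
      · simp at h1
    · exact absurd (z0_mem i) h1
  · rintro rfl
    exact Or.inl ⟨z0_mem i, z0_mem i⟩

theorem Cfg.U_f_z0 {u : B} {i : P} {ψ : Cfg B P k} : (ψ.U u i).f (Sum.inl z0) = 1 := by
  classical
  have h0 : (opU u ψ.ps * bar : Perm (LL B (k + 1))) z0 = z0 := opU_bar_z0 u ψ.ps
  have h1 := Tsm_upd (Perm.SameCycle.setoid ((ψ.U u i).ps * bar)) z0 (w := fun _ => 0)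
    (w' := fun l => if (ψ.U u i).X.R (Sum.inl l) (Sum.inl z0) then 1 else 0)
    (fun _ _ _ => rfl) ((ψ.U u i).ind_CF _) (by
      intro z hz
      rw [if_neg]
      intro h'
      rw [Cfg.U_R_z0] at h'
      subst h'
      exact hz (Perm.SameCycle.refl _ _))
  have h2 : Tsm (Perm.SameCycle.setoid ((ψ.U u i).ps * bar)) (fun _ => 0) = 0 := by
    unfold Tsm
    exact finsum_zero
  unfold Cfg.f
  rw [h1, h2, if_pos ((ψ.U u i).X.R.refl _)]
  ring

variable [Finite P]

theorem Cfg.U_valid {u : B} {i : P} {ψ : Cfg B P k} (h : Dm u i k ψ) (hv : ψ.Valid) :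
    (ψ.U u i).Valid := by
  have hd := Cfg.del_U h
  have hg : Good (ψ.U u i).ps := good_opU hv.good
  have h10 : ¬ (ψ.U u i).In := by
    intro h'
    rw [Cfg.In, Cfg.U_R_z0] at h'
    simp at h'
  refine ⟨?_, ?_, hg⟩
  · intro l
    rcases j0_cases l with ⟨ε, rfl⟩ | ⟨v, rfl⟩
    · cases ε
      · refine ⟨0, ?_⟩
        have h2 : (ψ.U u i).X.x (Sum.inl z0) = 1 := SX.spl_x_of (z0_mem i)
        rw [Cfg.U_f_z0, h2]
        norm_num
      · -- the other side of the loop
        obtain ⟨g, hg'⟩ := hv.genus (Sum.inl u)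
        refine ⟨g, ?_⟩
        have h2 : (ψ.U u i).X.x (Sum.inl z1) = ψ.X.x (Sum.inl (Sum.inl u)) :=
          SX.spl_x_of_not (z1_not_mem i)
        have hM : (ψ.U u i).M (JJ (Sum.inl (Sum.inl u))) := by
          left
          refine Or.inr ⟨j0_not_mem i (Sum.inl u), z1_not_mem i, ?_⟩
          exact ψ.X.R.refl _
        have h3 := Cfg.del_f_of_join hg hM h10
        rw [hd, Cfg.U_f_z0] at h3
        rw [h2]
        linarith
    · obtain ⟨g, hg'⟩ := hv.genus v
      refine ⟨g, ?_⟩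
      have h2 : (ψ.U u i).X.x (Sum.inl (j0 v)) = ψ.X.x (Sum.inl v) := by
        have : (ψ.U u i).X.x (Sum.inl (j0 v)) = ψ.X.x (rho u (Sum.inl (j0 v))) :=
          SX.spl_x_of_not (j0_not_mem i v)
        rw [this]
        congr 1
        exact rho_JJ u (Sum.inl v)
      by_cases hM : (ψ.U u i).M (JJ (Sum.inl v))
      · have h3 := Cfg.del_f_of_join hg hM h10
        rw [hd, Cfg.U_f_z0] at h3
        have h4 : (ψ.U u i).X.R (Sum.inl (j0 v)) (Sum.inl z1) := by
          rcases hM with hM | hM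
          · exact hM
          · rw [JJ_inl, Cfg.U_R_z0] at hM
            exact absurd (hM ▸ z0_mem i) (j0_not_mem i v)
        have h5 := (ψ.U u i).f_CF _ _ h4
        rw [h2, h5]
        linarith
      · have h3 := Cfg.del_f_of_not hg hM
        rw [hd] at h3
        rw [JJ_inl] at h3
        rw [h2, ← h3, hg']
  · intro p
    by_cases hp : p = i
    · subst hp
      exact ⟨z0, Or.inl ⟨z0_mem p, inr_mem.2 rfl⟩⟩
    · obtain ⟨l, hl⟩ := hv.punct p
      refine ⟨j0 l, Or.inr ⟨j0_not_mem i l, fun h' => hp (inr_mem.1 h'), ?_⟩⟩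
      have h1 : rho (P := P) (k := k) u (Sum.inl (j0 l)) = Sum.inl l := rho_JJ u (Sum.inl l)
      rw [h1]
      exact hl

theorem Dm_U {u : B} {i p : P} {ψ : Cfg B P k} :
    Dm u p (k + 1) (ψ.U u i) ↔ p ≠ i ∧ Dm u p k ψ := by
  have h0 : (Sum.inl (Sum.inl u) : LL B (k + 1) ⊕ P) ∉ Sq i := j0_not_mem i (Sum.inl u)
  constructor
  · rintro (⟨_, h1⟩ | ⟨h1, _, h2⟩)
    · exact absurd h1 h0
    · exact ⟨fun h => h1 (inr_mem.2 h), h2⟩
  · rintro ⟨h1, h2⟩
    exact Or.inr ⟨fun h => h1 (inr_mem.1 h), h0, h2⟩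

theorem EF_U {u : B} {i i' : P} {ψ : Cfg B P k} (h : Dm u i k ψ) (h' : Dm u i' k ψ)
    (hne : i' ≠ i) (hv : ψ.Valid) (q X : ℤ) :
    EF B P q X (k + 1) (ψ.U u i) ↔ EF B P q X k ψ := by
  classical
  have hd := Cfg.del_U h
  have hK : (ψ.U u i).K2 := by
    right
    refine ⟨⟨i', ?_⟩, ⟨i, Or.inl ⟨inr_mem.2 rfl, z0_mem i⟩⟩⟩
    exact Or.inr ⟨fun h' => hne (inr_mem.1 h'), z1_not_mem i, h'⟩
  have hV := Cfg.U_valid h hv
  constructor
  · intro hE
    have := (EF_del hE).2 hK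
    rwa [hd] at this
  · rintro ⟨_, h2, h3⟩
    have h4 := Cfg.del_nu hV.good
    have h5 := Cfg.del_sx hV.good
    rw [hd, if_pos hK] at h4
    rw [hd] at h5
    refine ⟨hV, ?_, ?_⟩
    · rw [← h2, h4, sub_zero]
    · rw [← h3, h5]
      push_cast
      ring

/-- an index of the punctures -/
noncomputable def idx (P : Type) [Finite P] (p : P) : ℕ := (Finite.equivFin P p : ℕ)

theorem idx_lt (p : P) : idx P p < Nat.card P := (Finite.equivFin P p).2

theorem idx_inj {p p' : P} (h : idx P p = idx P p') : p = p' :=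
  (Finite.equivFin P).injective (Fin.ext h)

/-- the punctures in the component of `u` -/
def ST (u : B) {k : ℕ} (ψ : Cfg B P k) : Set P := {p | Dm u p k ψ}

open Classical in
/-- first puncture in the component of `u`, if there are at least two -/
noncomputable def tau (u : B) (k : ℕ) (ψ : Cfg B P k) : ℕ :=
  if (ST u ψ).Nontrivial then sInf (idx P '' ST u ψ) else Nat.card P

theorem tau_of {u : B} {ψ : Cfg B P k} (h : (ST u ψ).Nontrivial) :
    tau u k ψ = sInf (idx P '' ST u ψ) := if_pos h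

theorem tau_of_not {u : B} {ψ : Cfg B P k} (h : ¬ (ST u ψ).Nontrivial) :
    tau u k ψ = Nat.card P := if_neg h

theorem tau_le {u : B} {ψ : Cfg B P k} (h : (ST u ψ).Nontrivial) {p : P} (hp : p ∈ ST u ψ) :
    tau u k ψ ≤ idx P p := by
  rw [tau_of h]
  exact Nat.sInf_le ⟨p, hp, rfl⟩

theorem tau_lt_iff {u : B} {ψ : Cfg B P k} : tau u k ψ < Nat.card P ↔ (ST u ψ).Nontrivial := by
  constructor
  · intro h
    by_contra h'
    rw [tau_of_not h'] at h
    exact lt_irrefl _ h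
  · intro h
    obtain ⟨p, hp⟩ := h.nonempty
    exact lt_of_le_of_lt (tau_le h hp) (idx_lt p)

theorem exists_tau {u : B} {ψ : Cfg B P k} (h : (ST u ψ).Nontrivial) :
    ∃ p ∈ ST u ψ, idx P p = tau u k ψ := by
  rw [tau_of h]
  obtain ⟨p, hp⟩ := h.nonempty
  have := Nat.sInf_mem (s := idx P '' ST u ψ) ⟨_, p, hp, rfl⟩
  obtain ⟨p', hp', h2⟩ := this
  exact ⟨p', hp', h2⟩

theorem ST_del {u : B} {ψ : Cfg B P (k + 1)} : ST u ψ ⊆ ST u ψ.del := by
  intro p hp
  exact mgR_of hp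

theorem tau_del {u : B} {ψ : Cfg B P (k + 1)} : tau u k ψ.del ≤ tau u (k + 1) ψ := by
  by_cases h : (ST u ψ).Nontrivial
  · obtain ⟨p, hp, h2⟩ := exists_tau h
    rw [← h2]
    exact tau_le (h.mono ST_del) (ST_del hp)
  · rw [tau_of_not h]
    by_cases h' : (ST u ψ.del).Nontrivial
    · exact le_of_lt (tau_lt_iff.2 h')
    · rw [tau_of_not h']

theorem ST_act (u : B) (π : Perm (Fin k)) (e : Fin k → Bool) (ψ : Cfg B P k) :
    ST u (ψ.act π e) = ST u ψ := by
  ext p
  exact Dm_inv u p k π e ψ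

theorem tau_act (u : B) (π : Perm (Fin k)) (e : Fin k → Bool) (ψ : Cfg B P k) :
    tau u k (ψ.act π e) = tau u k ψ := by
  unfold tau
  rw [ST_act]

/-- at most one puncture in the component of `u` -/
def QF (u : B) (q X : ℤ) : G.Fam (CS B P) := fun k ψ =>
  EF B P q X k ψ ∧ ¬ (ST u (k := k) (P := P) ψ).Nontrivial

theorem QF_inv (u : B) (q X : ℤ) : G.Inv (CS B P) (QF u q X) := by
  intro k π e (ψ : Cfg B P k)
  show EF B P q X k ((CS B P).act π e ψ) ∧ ¬ (ST u (ψ.act π e)).Nontrivial ↔ _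
  rw [EF_inv q X k π e ψ, ST_act]
  rfl

theorem kill_two (u : B) (q X : ℤ) (k : ℕ) : G.KillFrom (CS B P) (EF B P q X)
    (fun _ _ => False) (fun k ψ => tau u (P := P) k ψ < Nat.card P) k := by
  refine G.killFrom_index (EF_inv q X) (EF_conv q X) (fun k ψ => tau u (P := P) k ψ)
    (fun k π e ψ => tau_act u π e ψ) (fun k ψ _ _ => tau_del) (Nat.card P) ?_
  intro r hr A _ c hc h0
  set i : P := (Finite.equivFin P).symm ⟨r, hr⟩ with hi
  have hidx : idx P i = r := by simp [idx, hi]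
  have hO := op_U (B := B) u i
  have hAtinv : G.Inv (CS B P) (G.At (EF B P q X) (fun k ψ => tau u (P := P) k ψ) r) := by
    intro k π e (ψ : Cfg B P k)
    show EF B P q X k ((CS B P).act π e ψ) ∧ tau u k (ψ.act π e) = r ↔ _
    rw [EF_inv q X k π e ψ, tau_act]
    rfl
  have hAt : ∀ {k} {ψ : Cfg B P k}, G.At (EF B P q X) (fun k ψ => tau u (P := P) k ψ) r k ψ →
      (ST u ψ).Nontrivial ∧ Dm u i k ψ ∧ ∃ i', i' ≠ i ∧ Dm u i' k ψ := by
    rintro k ψ ⟨_, h2⟩
    have h2' : tau u k ψ = r := h2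
    have h3 : (ST u ψ).Nontrivial := by
      rw [← tau_lt_iff, h2']; exact hr
    obtain ⟨p, hp, h4⟩ := exists_tau h3
    have h5 : p = i := idx_inj (by rw [h4, hidx, h2'])
    rw [h5] at hp
    obtain ⟨p', hp', h6⟩ := h3.exists_ne i
    exact ⟨h3, hp, p', h6, hp'⟩
  have key : ∀ ψ : Cfg B P k, G.At (EF B P q X) (fun k ψ => tau u (P := P) k ψ) r k ψ →
      c ψ = G.DD (Y := CS B P) (fun j χ => G.sg c (j + 1) (Cfg.U u i χ)) k ψ := by
    intro ψ hψ
    obtain ⟨h3, h4, i', h5, h6⟩ := hAt hψ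
    have h7 := hO.DD (Dm_inv u i) (G.ASG.sg hc.as) k ψ h4
    have h8' : G.sg (Y := CS B P) c k ψ = c ψ := G.sg_self c ψ
    have h8 : G.sg (Y := CS B P) c k = c := funext (G.sg_self c)
    have h9 : G.dl (CS B P) c (ψ.U u i) = 0 :=
      hc.dl _ ((EF_U h4 h6 h5 hψ.1.1 q X).2 hψ.1)
    have h10 : G.DD (Y := CS B P) (G.sg c) (k + 1) (ψ.U u i) = 0 := by
      show G.dl (CS B P) (G.sg (Y := CS B P) c k) (ψ.U u i) = 0
      rw [h8]; exact h9
    exact h8'.symm.trans (sub_eq_zero.1 (h7.symm.trans h10))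
  cases k with
  | zero =>
    intro ψ
    by_cases h : G.At (EF B P q X) (fun k ψ => tau u (P := P) k ψ) r 0 ψ
    · rw [G.cut_of h, key ψ h, G.DD_zero]
    · exact G.cut_of_not h
  | succ k =>
    have hA : G.AS (CS B P) (fun χ => c (Cfg.U u i χ)) := by
      have h1 := hO.ASG (G.ASG.sg hc.as) k
      have h2 : (fun χ : (CS B P).X k => G.sg (Y := CS B P) c (k + 1) (Cfg.U u i χ)) =
          fun χ => c (Cfg.U u i χ) := by
        funext χ; exact G.sg_self c _
      simp only [h2] at h1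
      exact h1
    refine ⟨G.cut (G.At (EF B P q X) (fun k ψ => tau u (P := P) k ψ) r)
      (fun χ => c (Cfg.U u i χ)), hA.cut hAtinv, G.supp_cut _ _, ?_⟩
    intro ψ hψ
    rw [G.cut_of hψ, key ψ hψ, G.DD_succ]
    apply G.dl_congr
    intro π e
    have h1 : G.sg (Y := CS B P) c (k + 1) (Cfg.U u i ((CS B P).d ((CS B P).act π e ψ))) =
        c (Cfg.U u i ((CS B P).d ((CS B P).act π e ψ))) := G.sg_self c _
    rw [h1]
    have hψ' := (hAtinv _ π e ψ).2 hψ
    set ψ' : Cfg B P (k + 1) := (CS B P).act π e ψ with hψ'def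
    set χ : Cfg B P k := (CS B P).d ψ' with hχ
    have hχ' : χ = ψ'.del := rfl
    by_cases h2 : G.At (EF B P q X) (fun k ψ => tau u (P := P) k ψ) r k χ
    · rw [G.cut_of h2]
    · rw [G.cut_of_not h2]
      obtain ⟨h3, h4, i', h5, h6⟩ := hAt hψ'
      have h4' : Dm u i k χ := ST_del h4
      have h6' : Dm u i' k χ := ST_del h6
      have hv : χ.Valid := hψ'.1.1.del
      by_cases h7 : EF B P q X (k + 1) (χ.U u i)
      · have h8 := (EF_U h4' h6' h5 hv q X).1 h7
        have h9 : tau u k χ ≤ r := by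
          have : tau u (k + 1) ψ' = r := hψ'.2
          rw [← this]; exact tau_del
        have h10 : tau u k χ < r := by
          refine lt_of_le_of_ne h9 (fun h' => h2 ⟨h8, h'⟩)
        have h11 : (ST u χ).Nontrivial := h3.mono ST_del
        obtain ⟨p, hp, h12⟩ := exists_tau h11
        have hpi : p ≠ i := by
          rintro rfl
          omega
        have hpi' : p ≠ i' := by
          rintro rfl
          have h13 := tau_le h3 h6
          have h14 : tau u (k + 1) ψ' = r := hψ'.2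
          omega
        have h15 : (ST u (χ.U u i)).Nontrivial :=
          ⟨p, Dm_U.2 ⟨hpi, hp⟩, i', Dm_U.2 ⟨h5, h6'⟩, hpi'⟩
        apply h0
        have h16 : tau u (k + 1) (χ.U u i) ≤ idx P p := tau_le h15 (Dm_U.2 ⟨hpi, hp⟩)
        show tau u (k + 1) (χ.U u i) < r
        omega
      · exact hc.supp _ h7

theorem EF_of_QF (u : B) (q X : ℤ) (k : ℕ) (h : G.Ex (CS B P) (QF u q X) k) :
    G.Ex (CS B P) (EF B P q X) k := by
  refine G.Ex.of_kill (C0 := fun _ _ => False) ?_ (fun _ h => h)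
  refine G.KillFrom.trans (kill_two u q X k) ?_
  refine (G.KillFrom.step (C0 := fun k ψ => tau u (P := P) k ψ < Nat.card P)
    (C1 := fun _ _ => True) (T := QF u q X) (EF_inv q X) (EF_conv q X)
    ?_ (QF_inv u q X) ?_ ?_ ?_ ?_ ?_ h).mono (fun _ h => h) (fun _ _ _ => trivial)
  · intro k π e (ψ : Cfg B P k)
    show tau u k (ψ.act π e) < Nat.card P ↔ tau u k ψ < Nat.card P
    rw [tau_act]
  · intro k ψ h; exact h.1
  · rintro k ψ ⟨_, h⟩ h2
    exact h (tau_lt_iff.1 h2)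
  · intro ψ h1 _
    by_cases h2 : (ST u (P := P) (k := _) ψ).Nontrivial
    · exact Or.inl (tau_lt_iff.2 h2)
    · exact Or.inr ⟨h1, h2⟩
  · intro k ψ _ h2 _
    exact lt_of_le_of_lt tau_del h2
  · intro k ψ h1 h2
    by_cases h3 : (ST u (P := P) (k := _) ((CS B P).d ψ)).Nontrivial
    · exact Or.inl (tau_lt_iff.2 h3)
    · exact Or.inr ⟨h2, h3⟩

end Pool.Agent.W604
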