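import Mathlib
import Pool.Agent.W604.Kill2

set_option autoImplicit false
set_option linter.unusedSectionVars false
set_option linter.unusedSimpArgs false
set_option linter.unusedVariables false

/-!
Frozen chords: the chords with exactly one side in the component of a given side.
-/

namespace Pool.Agent.W604

open Equiv

/-! ### next letter in a set -/

section nx

variable {L L' : Type}

/-- starting from `x`, the first letter in `S` is `w` -/
inductive Nx (ψ : Perm L) (S : Set L) : L → L → Prop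
  | base (w : L) (h : w ∈ S) : Nx ψ S w w
  | step (x w : L) (h : x ∉ S) (h2 : Nx ψ S (ψ x) w) : Nx ψ S x w

theorem Nx.mem {ψ : Perm L} {S : Set L} {x w : L} (h : Nx ψ S x w) : w ∈ S := by
  induction h with
  | base w h => exact h
  | step x w h h2 ih => exact ih

theorem Nx.unique {ψ : Perm L} {S : Set L} {x w w' : L} (h : Nx ψ S x w) (h' : Nx ψ S x w') :
    w = w' := by
  induction h with
  | base w h =>
    cases h' with
    | base _ _ => rfl
    | step _ _ h2 _ => exact absurd h h2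
  | step x w h h2 ih =>
    cases h' with
    | base _ h3 => exact absurd h3 h
    | step _ _ h3 h4 => exact ih h4

theorem Nx.conj {ψ : Perm L} {S : Set L} {x w : L} (h : Nx ψ S x w) (g : L ≃ L') {S' : Set L'}
    (hS : ∀ y, g y ∈ S' ↔ y ∈ S) {ψ' : Perm L'} (hψ : ∀ y, ψ' (g y) = g (ψ y)) :
    Nx ψ' S' (g x) (g w) := by
  induction h with
  | base w h => exact Nx.base _ ((hS _).2 h)
  | step x w h h2 ih =>
    refine Nx.step _ _ (fun h' => h ((hS _).1 h')) ?_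
    rw [hψ]; exact ih

theorem Nx.exists_of_pow {ψ : Perm L} {S : Set L} {y : L} (hy : y ∈ S) (n : ℕ) :
    ∀ x, (ψ ^ n) x = y → ∃ w, Nx ψ S x w := by
  induction n with
  | zero =>
    intro x hx
    have : x = y := by simpa using hx
    subst this
    exact ⟨x, Nx.base _ hy⟩
  | succ n ih =>
    intro x hx
    by_cases h : x ∈ S
    · exact ⟨x, Nx.base _ h⟩
    · have h1 : (ψ ^ n) (ψ x) = y := by
        rw [← hx, pow_succ, Perm.mul_apply]
      obtain ⟨w, hw⟩ := ih _ h1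
      exact ⟨w, Nx.step _ _ h hw⟩

/-- first return map -/
theorem Nx.of_ind {j : L' → L} (hj : Function.Injective j) {ψ : Perm L} {ρ : Perm L'}
    (h : Ind j ψ ρ) {S : Set L} (hS : S ⊆ Set.range j) {a w : L'} (hN : Nx ρ (j ⁻¹' S) a w) :
    Nx ψ S (j a) (j w) := by
  have hA : ∀ y x', Next j ψ y x' → Nx ψ S (j x') (j w) → Nx ψ S y (j w) := by
    intro y x' hy
    induction hy with
    | base w => intro h; exact h
    | step x w h h2 ih =>
      intro h'
      exact Nx.step _ _ (fun h'' => h (hS h'')) (ih h')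
  induction hN with
  | base w h => exact Nx.base _ h
  | step x w h1 h2 ih =>
    exact Nx.step _ _ h1 (hA _ _ (h x) (ih (fun y x' hy h' => hA y x' hy h')))

end nx

variable {B P : Type} {k : ℕ} [DecidableEq B] [Finite B]

/-- the letter is in the component of `u` -/
def Cfg.inT (u : B) (ψ : Cfg B P k) (l : LL B k) : Prop :=
  ψ.X.R (Sum.inl l) (Sum.inl (Sum.inl u))

/-- the letter belongs to a chord with exactly one side in the component of `u` -/
def Cfg.Fr (u : B) (ψ : Cfg B P k) (l : LL B k) : Prop :=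
  ¬ (ψ.inT u l ↔ ψ.inT u (bar l))

/-- sides and frozen letters -/
def Cfg.Kp (u : B) (ψ : Cfg B P k) : Set (LL B k) := {l | (∃ b, l = Sum.inl b) ∨ ψ.Fr u l}

/-- the next side or frozen letter after the side `b` -/
def Cfg.N (u : B) (ψ : Cfg B P k) (b : B) (w : LL B k) : Prop :=
  Nx ψ.ps (ψ.Kp u) (ψ.ps (Sum.inl b)) w

/-- the sides followed by a frozen letter -/
def Cfg.KK (u : B) (ψ : Cfg B P k) : Set B := {b | ∃ w, ψ.N u b w ∧ ψ.Fr u w}

theorem Cfg.N.unique {u : B} {ψ : Cfg B P k} {b : B} {w w' : LL B k} (h : ψ.N u b w)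
    (h' : ψ.N u b w') : w = w' := Nx.unique h h'

theorem Cfg.not_Fr_inl (u : B) (ψ : Cfg B P k) (b : B) : ¬ ψ.Fr u (Sum.inl b) := by
  intro h
  exact h (by rw [bar_inl])

theorem Cfg.Fr_bar {u : B} {ψ : Cfg B P k} {l : LL B k} : ψ.Fr u (bar l) ↔ ψ.Fr u l := by
  have h : bar (bar l) = l := by
    have := congrArg (fun p : Perm (LL B k) => p l) (bar_mul_bar (B := B) (k := k))
    simpa using this
  unfold Cfg.Fr
  rw [h]
  exact not_congr Iff.comm

theorem exists_pow_sc {π : Perm (LL B k)} {x y : LL B k} (h : π.SameCycle x y) :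
    ∃ n : ℕ, (π ^ n) x = y := by
  obtain ⟨n, _, hn⟩ := exists_pow_of_sameCycle h
  exact ⟨n, hn⟩

theorem Cfg.exists_N (u : B) {ψ : Cfg B P k} (h : Good ψ.ps) (b : B) : ∃ w, ψ.N u b w := by
  obtain ⟨b', hb'⟩ := h (ψ.ps (Sum.inl b))
  obtain ⟨n, hn⟩ := exists_pow_sc hb'
  exact Nx.exists_of_pow (S := ψ.Kp u) (Or.inl ⟨b', rfl⟩) n _ hn

/-- if there is a frozen letter, then some side is followed by a frozen letter -/
theorem Cfg.KK_nonempty {u : B} {ψ : Cfg B P k} (h : Good ψ.ps) {l : LL B k} (hl : ψ.Fr u l) :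
    (ψ.KK u).Nonempty := by
  by_contra hne
  rw [Set.not_nonempty_iff_eq_empty] at hne
  obtain ⟨b, hb⟩ := h l
  obtain ⟨n, hn⟩ := exists_pow_sc hb.symm
  have key : ∀ n : ℕ, ∀ w, Nx ψ.ps (ψ.Kp u) ((ψ.ps ^ n) (Sum.inl b)) w → ∃ b', w = Sum.inl b' := by
    intro n
    induction n with
    | zero =>
      intro w hw
      have h1 : Nx ψ.ps (ψ.Kp u) ((ψ.ps ^ 0) (Sum.inl b)) (Sum.inl b) := Nx.base _ (Or.inl ⟨b, rfl⟩)
      exact ⟨b, hw.unique h1⟩
    | succ n ih =>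
      intro w hw
      rw [pow_succ', Perm.mul_apply] at hw
      set y := (ψ.ps ^ n) (Sum.inl b) with hy
      by_cases hyS : y ∈ ψ.Kp u
      · obtain ⟨b', hb'⟩ := ih y (Nx.base _ hyS)
        rw [hb'] at hw
        rcases hw.mem with h2 | h2
        · exact h2
        · exfalso
          have : b' ∈ ψ.KK u := ⟨w, hw, h2⟩
          rw [hne] at this
          exact this
      · exact ih w (Nx.step _ _ hyS hw)
  obtain ⟨b', hb'⟩ := key n l (by rw [hn]; exact Nx.base _ (Or.inr hl))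
  rw [hb'] at hl
  exact ψ.not_Fr_inl u b' hl

/-! ### relabelling -/

section act

variable (u : B) (π : Perm (Fin k)) (e : Fin k → Bool) (ψ : Cfg B P k)

theorem Cfg.act_inT (l : LL B k) : (ψ.act π e).inT u (W π e l) ↔ ψ.inT u l :=
  ψ.act_R π e (Sum.inl l) (Sum.inl (Sum.inl u))

theorem bar_W (l : LL B k) : bar (W π e l) = W π e (bar l) := by
  have := congrArg (fun p : Perm (LL B k) => p l) (bar_comm_W (B := B) π e)
  simpa using this.symm

theorem Cfg.act_Fr (l : LL B k) : (ψ.act π e).Fr u (W π e l) ↔ ψ.Fr u l := by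
  unfold Cfg.Fr
  rw [bar_W, Cfg.act_inT, Cfg.act_inT]

theorem Cfg.act_Kp (l : LL B k) : W π e l ∈ (ψ.act π e).Kp u ↔ l ∈ ψ.Kp u := by
  unfold Cfg.Kp
  rw [Set.mem_ofPred_eq, Set.mem_ofPred_eq, Cfg.act_Fr]
  refine or_congr ?_ Iff.rfl
  rcases l with b | ⟨i, ε⟩ <;> simp

theorem Cfg.act_N (b : B) (w : LL B k) (h : ψ.N u b w) : (ψ.act π e).N u b (W π e w) := by
  have h1 : ∀ y, (ψ.act π e).ps (W π e y) = W π e (ψ.ps y) := by
    intro y
    show (W π e * ψ.ps * (W π e)⁻¹ : Perm (LL B k)) (W π e y) = _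
    simp
  have h2 := Nx.conj h (W π e) (S' := (ψ.act π e).Kp u) (ψ' := (ψ.act π e).ps)
    (Cfg.act_Kp u π e ψ) h1
  unfold Cfg.N
  rw [← h1] at h2
  exact h2

theorem Cfg.act_KK_sub : ψ.KK u ⊆ (ψ.act π e).KK u := by
  rintro b ⟨w, h1, h2⟩
  exact ⟨W π e w, ψ.act_N u π e b w h1, (ψ.act_Fr u π e w).2 h2⟩

theorem Cfg.act_inv : (ψ.act π e).act π⁻¹ (fun i => e (π⁻¹ i)) = ψ := by
  have h3 : (ψ.act π e).act π⁻¹ (fun i => e (π⁻¹ i)) =
      ψ.act (π⁻¹ * π) (fun i => xor (e i) (e (π⁻¹ (π i)))) :=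
    (CS B P).act_act _ _ _ _ _
  rw [h3]
  have h4 : (fun i => xor (e i) (e (π⁻¹ (π i)))) = fun _ => false := by
    funext i; simp
  rw [h4, inv_mul_cancel]
  exact (CS B P).act_one _

theorem Cfg.act_KK : (ψ.act π e).KK u = ψ.KK u := by
  apply subset_antisymm
  · have := (ψ.act π e).act_KK_sub u π⁻¹ (fun i => e (π⁻¹ i))
    rwa [Cfg.act_inv] at this
  · exact ψ.act_KK_sub u π e

end act

/-! ### deletion -/

variable [Finite P]

theorem ST_mem {u : B} {ψ : Cfg B P k} {p : P} : p ∈ ST u ψ ↔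
    ψ.X.R (Sum.inr p) (Sum.inl (Sum.inl u)) := Iff.rfl

/-- a frozen chord cannot be deleted -/
theorem QF_frozen {u : B} {q X : ℤ} {ψ : Cfg B P (k + 1)} (h : QF u q X (k + 1) ψ)
    (hF : ψ.Fr u z1) : ¬ QF u q X k ψ.del := by
  intro h'
  have hK := (EF_del h.1).1 h'.1
  have hb : (bar z1 : LL B (k + 1)) = z0 := by simp
  unfold Cfg.Fr at hF
  rw [hb] at hF
  have hIn : ¬ ψ.In := by
    intro hIn
    apply hF
    exact ⟨fun h1 => ψ.X.R.trans (ψ.X.R.symm hIn) h1, fun h1 => ψ.X.R.trans hIn h1⟩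
  rcases hK with hK | ⟨⟨p, hp⟩, ⟨p', hp'⟩⟩
  · exact hIn hK
  · have hne : p ≠ p' := by
      rintro rfl
      exact hIn (ψ.X.R.trans (ψ.X.R.symm hp) hp')
    apply h'.2
    have hu : mgR ψ.X.R (Sum.inl z1) (Sum.inl z0) (Sum.inl (Sum.inl u)) (Sum.inl z1) := by
      by_cases h1 : ψ.inT u z1
      · exact mgR_of (ψ.X.R.symm h1)
      · have h0 : ψ.inT u z0 := by
          by_contra h0
          exact hF ⟨fun h => absurd h h1, fun h => absurd h h0⟩
        exact (mgR _ _ _).trans (mgR_of (ψ.X.R.symm h0)) ((mgR _ _ _).symm (mgR_pq _ _ _))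
    refine ⟨p, ?_, p', ?_, hne⟩
    · exact (mgR _ _ _).trans (mgR_of hp) ((mgR _ _ _).symm hu)
    · exact (mgR _ _ _).trans (mgR_of hp')
        ((mgR _ _ _).trans ((mgR _ _ _).symm (mgR_pq _ _ _)) ((mgR _ _ _).symm hu))

section del

variable {u : B} {ψ : Cfg B P (k + 1)}

theorem Cfg.not_Fr_of_QF {q X : ℤ} (h : QF u q X (k + 1) ψ) (h' : QF u q X k ψ.del) (ε : Bool) :
    ¬ ψ.Fr u (Sum.inr (0, ε)) := by
  have h1 : ¬ ψ.Fr u z1 := fun hF => QF_frozen h hF h'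
  cases ε
  · intro h2
    apply h1
    have : (z0 : LL B (k + 1)) = bar z1 := by simp
    have h2' : ψ.Fr u (bar z1) := by rw [← this]; exact h2
    exact Cfg.Fr_bar.1 h2'
  · exact h1

/-- the component of `u` keeps its letters -/
theorem Cfg.del_inT (hF : ¬ ψ.Fr u z1) (l : LL B k) : ψ.del.inT u l ↔ ψ.inT u (j0 l) := by
  have hb : (bar z1 : LL B (k + 1)) = z0 := by simp
  unfold Cfg.Fr at hF
  rw [hb, not_not] at hF
  show mgR ψ.X.R (Sum.inl z1) (Sum.inl z0) (Sum.inl (j0 l)) (Sum.inl (Sum.inl u)) ↔ _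
  rw [mgR_iff]
  constructor
  · rintro (h | ⟨h1, h2⟩)
    · exact h
    · have h3 : ψ.inT u z1 ∧ ψ.inT u z0 := by
        rcases h2 with h2 | h2
        · exact ⟨ψ.X.R.symm h2, hF.1 (ψ.X.R.symm h2)⟩
        · exact ⟨hF.2 (ψ.X.R.symm h2), ψ.X.R.symm h2⟩
      rcases h1 with h1 | h1
      · exact ψ.X.R.trans h1 h3.1
      · exact ψ.X.R.trans h1 h3.2
  · intro h
    exact Or.inl h

theorem bar_j0 (l : LL B k) : bar (j0 l) = (j0 (bar l) : LL B (k + 1)) := by
  rcases l with b | ⟨i, ε⟩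
  · rfl
  · simp [j0]

theorem Cfg.del_Fr (hF : ¬ ψ.Fr u z1) (l : LL B k) : ψ.del.Fr u l ↔ ψ.Fr u (j0 l) := by
  unfold Cfg.Fr
  rw [Cfg.del_inT hF, Cfg.del_inT hF, bar_j0]

theorem Cfg.Kp_sub (hF : ¬ ψ.Fr u z1) : ψ.Kp u ⊆ Set.range j0 := by
  intro l hl
  rcases j0_cases l with ⟨ε, rfl⟩ | ⟨v, rfl⟩
  · exfalso
    rcases hl with ⟨b, hb⟩ | hl
    · simp at hb
    · cases ε
      · apply hF
        have : (z0 : LL B (k + 1)) = bar z1 := by simp
        have h2 : ψ.Fr u z0 := hl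
        rw [this] at h2
        exact Cfg.Fr_bar.1 h2
      · exact hF hl
  · exact ⟨v, rfl⟩

theorem Cfg.del_Kp (hF : ¬ ψ.Fr u z1) : ψ.del.Kp u = j0 ⁻¹' ψ.Kp u := by
  ext l
  unfold Cfg.Kp
  rw [Set.mem_ofPred_eq, Cfg.del_Fr hF]
  refine or_congr ?_ Iff.rfl
  constructor
  · rintro ⟨b, rfl⟩; exact ⟨b, rfl⟩
  · rintro ⟨b, hb⟩
    rcases l with b' | p
    · exact ⟨b', rfl⟩
    · rcases p with ⟨i, ε⟩; simp [j0] at hb

theorem Cfg.N_of_del (hF : ¬ ψ.Fr u z1) {b : B} {w : LL B k} (h : ψ.del.N u b w) :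
    ψ.N u b (j0 w) := by
  unfold Cfg.N at h
  rw [Cfg.del_Kp hF] at h
  have h1 := Nx.of_ind (j0_inj (B := B) (k := k)) (ind_d ψ.ps) (Cfg.Kp_sub hF) h
  -- from the first return to the next letter
  have hA : ∀ y x', Next j0 ψ.ps y x' → Nx ψ.ps (ψ.Kp u) (j0 x') (j0 w) →
      Nx ψ.ps (ψ.Kp u) y (j0 w) := by
    intro y x' hy
    induction hy with
    | base w => intro h; exact h
    | step x w h h2 ih =>
      intro h'
      exact Nx.step _ _ (fun h'' => h (Cfg.Kp_sub hF h'')) (ih h')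
  exact hA _ _ (ind_d ψ.ps (Sum.inl b)) h1

theorem Cfg.del_N (hg : Good ψ.ps) (hF : ¬ ψ.Fr u z1) {b : B} {w : LL B k} :
    ψ.del.N u b w ↔ ψ.N u b (j0 w) := by
  refine ⟨Cfg.N_of_del hF, fun h => ?_⟩
  obtain ⟨w', hw'⟩ := Cfg.exists_N u (ψ := ψ.del) hg.d b
  have := (Cfg.N_of_del hF hw').unique h
  rw [← j0_inj this]
  exact hw'

theorem Cfg.del_KK (hg : Good ψ.ps) (hF : ¬ ψ.Fr u z1) : ψ.del.KK u = ψ.KK u := by
  ext b
  constructor
  · rintro ⟨w, h1, h2⟩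
    exact ⟨j0 w, (Cfg.del_N hg hF).1 h1, (Cfg.del_Fr hF w).1 h2⟩
  · rintro ⟨w, h1, h2⟩
    obtain ⟨v, rfl⟩ := Cfg.Kp_sub hF (Or.inr h2)
    exact ⟨v, (Cfg.del_N hg hF).2 h1, (Cfg.del_Fr hF v).2 h2⟩

end del

end Pool.Agent.W604
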