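import Mathlib
import Pool.Agent.W604.Fr

set_option autoImplicit false
set_option linter.unusedSectionVars false
set_option linter.unusedSimpArgs false
set_option linter.unusedVariables false

/-!
Cutting the surface along a frozen chord.
-/

namespace Pool.Agent.W604

open Equiv

theorem Ind.transport {L L' M M' : Type} {j : L' → L} {ψ : Perm L} {ρ : Perm L'}
    (h : Ind j ψ ρ) (E : M ≃ L) (E' : M' ≃ L') {j2 : M' → M} (h1 : ∀ v, E (j2 v) = j (E' v)) :
    Ind j2 (E.symm.permCongr ψ) (E'.symm.permCongr ρ) := by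
  have hN : ∀ x w, Next j ψ x w → Next j2 (E.symm.permCongr ψ) (E.symm x) (E'.symm w) := by
    intro x w hx
    induction hx with
    | base w =>
      have : E.symm (j w) = j2 (E'.symm w) := by
        rw [Equiv.symm_apply_eq, h1]; simp
      rw [this]
      exact Next.base _
    | step x w h3 h4 ih =>
      refine Next.step _ _ ?_ ?_
      · rintro ⟨a, ha⟩
        apply h3
        refine ⟨E' a, ?_⟩
        rw [← h1, ha]; simp
      · simpa using ih
  intro v
  have := hN _ _ (h (E' v))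
  have h3 : E.symm.permCongr ψ (j2 v) = E.symm (ψ (j (E' v))) := by
    simp [h1]
  rw [h3]
  simpa using this

variable {B P : Type} {k : ℕ}

/-- the letters of the first chord become sides -/
def EC (B : Type) (k : ℕ) : LL B (k + 1) ≃ LL (B ⊕ Bool) k where
  toFun h := match h with
    | Sum.inl b => Sum.inl (Sum.inl b)
    | Sum.inr (i, ε) => Fin.cases (motive := fun _ => LL (B ⊕ Bool) k)
        (Sum.inl (Sum.inr ε)) (fun j => Sum.inr (j, ε)) i
  invFun h := match h with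
    | Sum.inl (Sum.inl b) => Sum.inl b
    | Sum.inl (Sum.inr ε) => Sum.inr (0, ε)
    | Sum.inr (i, ε) => Sum.inr (i.succ, ε)
  left_inv := by
    rintro (b | ⟨i, ε⟩)
    · rfl
    · refine Fin.cases ?_ (fun j => ?_) i
      · rfl
      · rfl
  right_inv := by
    rintro ((b | ε) | ⟨i, ε⟩) <;> rfl

@[simp] theorem EC_inl (b : B) : EC B k (Sum.inl b) = Sum.inl (Sum.inl b) := rfl
@[simp] theorem EC_zero (ε : Bool) : EC B k (Sum.inr (0, ε)) = Sum.inl (Sum.inr ε) := rfl
@[simp] theorem EC_succ (i : Fin k) (ε : Bool) : EC B k (Sum.inr (i.succ, ε)) = Sum.inr (i, ε) :=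
  rfl

theorem EC_j1 (l : LL B (k + 1)) : EC B (k + 1) (j1 l) = j0 (EC B k l) := by
  rcases l with b | ⟨i, ε⟩
  · rfl
  · refine Fin.cases ?_ (fun i => ?_) i <;> rfl

/-- exchange of the two new sides -/
def sw (B : Type) [DecidableEq B] (k : ℕ) : Perm (LL (B ⊕ Bool) k) :=
  SB (swap (Sum.inr true) (Sum.inr false))

theorem EC_W (π : Perm (Fin k)) (e : Fin k → Bool) (l : LL B (k + 1)) :
    EC B k (W (lp π) (Fin.cons false e) l) = W π e (EC B k l) := by
  rcases l with b | ⟨i, ε⟩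
  · rfl
  · refine Fin.cases ?_ (fun i => ?_) i
    · simp
    · simp

variable [DecidableEq B]

theorem sw_mul_sw : sw B k * sw B k = 1 := by
  unfold sw
  rw [← SB_mul, swap_mul_self, SB_one]

theorem sw_sw (l : LL (B ⊕ Bool) k) : sw B k (sw B k l) = l := by
  have := congrArg (fun p : Perm (LL (B ⊕ Bool) k) => p l) (sw_mul_sw (B := B) (k := k))
  simpa using this

theorem sw_inl (b : B) : sw B k (Sum.inl (Sum.inl b)) = Sum.inl (Sum.inl b) := by
  unfold sw
  rw [SB_inl, swap_apply_of_ne_of_ne (by simp) (by simp)]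

theorem sw_new (ε : Bool) : sw B k (Sum.inl (Sum.inr ε)) = Sum.inl (Sum.inr (!ε)) := by
  unfold sw
  cases ε
  · rw [SB_inl, swap_apply_right]; rfl
  · rw [SB_inl, swap_apply_left]; rfl

theorem sw_inr (p : Fin k × Bool) : sw B k (Sum.inr p) = Sum.inr p := rfl

theorem EC_bar (l : LL B (k + 1)) : EC B k (bar l) = sw B k (bar (EC B k l)) := by
  rcases l with b | ⟨i, ε⟩
  · rw [bar_inl, EC_inl, bar_inl, sw_inl]
  · refine Fin.cases ?_ (fun i => ?_) i
    · rw [bar_inr, EC_zero, EC_zero, bar_inl, sw_new]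
    · rw [bar_inr, EC_succ, EC_succ, bar_inr, sw_inr]

/-- gluing two sides to a chord -/
def jps (ρ : Perm (LL (B ⊕ Bool) k)) : Perm (LL B (k + 1)) :=
  (EC B k).symm.permCongr (ρ * sw B k)

theorem EC_jps (ρ : Perm (LL (B ⊕ Bool) k)) (l : LL B (k + 1)) :
    EC B k (jps ρ l) = ρ (sw B k (EC B k l)) := by
  simp [jps]

theorem EC_jps_bar (ρ : Perm (LL (B ⊕ Bool) k)) (l : LL B (k + 1)) :
    EC B k ((jps ρ * bar : Perm (LL B (k + 1))) l) =
      (ρ * bar : Perm (LL (B ⊕ Bool) k)) (EC B k l) := by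
  rw [Perm.mul_apply, EC_jps, EC_bar, sw_sw]; rfl

variable [Finite B]

theorem ind_jps (ρ : Perm (LL (B ⊕ Bool) (k + 1))) : Ind j1 (jps ρ) (jps (d ρ)) := by
  have h := ind_d (ρ * sw B (k + 1))
  unfold sw at h
  rw [d_mul_SB] at h
  exact h.transport (EC B (k + 1)) (EC B k) EC_j1

theorem d_swap_jps (ρ : Perm (LL (B ⊕ Bool) (k + 1))) :
    d (act (swap 0 1) (fun _ => false) (jps ρ)) = jps (d ρ) := by
  refine Ind.unique j0_inj (ind_d _) ?_
  have h := (ind_jps ρ).precomp (W (swap 0 1) (fun _ => false))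
  have h2 : (fun v => W (B := B) (swap (0 : Fin (k + 2)) 1) (fun _ => false) (j1 v)) = j0 := by
    funext v
    rcases v with b | ⟨i, ε⟩
    · rfl
    · refine Fin.cases ?_ (fun i => ?_) i
      · simp [j1, j0]
      · simp only [j1, j0, W_inr, Bool.xor_false, Fin.cases_succ]
        rw [swap01_succ_succ]
  rw [h2] at h
  exact h

/-- on letters and punctures -/
def ECZ (B P : Type) (k : ℕ) : LL B (k + 1) ⊕ P ≃ LL (B ⊕ Bool) k ⊕ P :=
  Equiv.sumCongr (EC B k) (Equiv.refl P)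

@[simp] theorem ECZ_inl (l : LL B (k + 1)) : ECZ B P k (Sum.inl l) = Sum.inl (EC B k l) := rfl
@[simp] theorem ECZ_inr (p : P) : ECZ B P k (Sum.inr p) = Sum.inr p := rfl

/-- gluing -/
def cj (k : ℕ) (y : Cfg (B ⊕ Bool) P k) : Cfg B P (k + 1) where
  ps := jps y.ps
  X := y.X.comap (ECZ B P k)
  hR := by
    intro l
    rw [SX.comap_R, ECZ_inl, ECZ_inl, EC_jps_bar]
    exact y.hR _

theorem cj_R (y : Cfg (B ⊕ Bool) P k) (a b : LL B (k + 1) ⊕ P) :
    (cj k y).X.R a b ↔ y.X.R (ECZ B P k a) (ECZ B P k b) := Iff.rfl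

theorem cj_surj (ψ : Cfg B P (k + 1)) : ∃ y, cj k y = ψ := by
  refine ⟨⟨(EC B k).permCongr ψ.ps * sw B k, ψ.X.comap (ECZ B P k).symm, ?_⟩, ?_⟩
  · intro l
    obtain ⟨l, rfl⟩ := (EC B k).surjective l
    rw [SX.comap_R]
    have h1 : ((EC B k).permCongr ψ.ps * sw B k * bar : Perm (LL (B ⊕ Bool) k)) (EC B k l) =
        EC B k ((ψ.ps * bar : Perm (LL B (k + 1))) l) := by
      rw [Perm.mul_apply, Perm.mul_apply, ← EC_bar]
      simp
    rw [h1]
    have h2 : ∀ l, (ECZ B P k).symm (Sum.inl (EC B k l)) = Sum.inl l := by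
      intro l
      rw [Equiv.symm_apply_eq]; rfl
    rw [h2, h2]
    exact ψ.hR l
  · refine Cfg.ext' ?_ ?_
    · show jps ((EC B k).permCongr ψ.ps * sw B k) = ψ.ps
      unfold jps
      rw [mul_assoc, sw_mul_sw, mul_one]
      ext l
      simp
    · show (ψ.X.comap _).comap _ = _
      rw [SX.comap_comap]
      have : ((ECZ B P k).symm : _ → _) ∘ (ECZ B P k) = id := by
        funext z; simp
      rw [this]
      rfl

theorem cj_inj {y y' : Cfg (B ⊕ Bool) P k} (h : cj k y = cj k y') : y = y' := by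
  have h1 : jps y.ps = jps y'.ps := congrArg Cfg.ps h
  have h2 : y.X.comap (ECZ B P k) = y'.X.comap (ECZ B P k) := congrArg Cfg.X h
  refine Cfg.ext' ?_ ?_
  · unfold jps at h1
    have h3 := (Equiv.permCongr (EC B k).symm).injective h1
    exact mul_right_cancel h3
  · have h3 := congrArg (fun X : SX _ => X.comap (ECZ B P k).symm) h2
    simp only [SX.comap_comap] at h3
    have : ((ECZ B P k) : _ → _) ∘ (ECZ B P k).symm = id := by
      funext z; simp
    rw [this] at h3
    exact h3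

theorem ECZ_WZ (π : Perm (Fin k)) (e : Fin k → Bool) (z : LL B (k + 1) ⊕ P) :
    ECZ B P k (WZ P (lp π) (Fin.cons false e) z) = WZ P π e (ECZ B P k z) := by
  rcases z with l | p
  · rw [WZ_inl, ECZ_inl, ECZ_inl, WZ_inl, EC_W]
  · rfl

theorem ECZ_WZ_inv (π : Perm (Fin k)) (e : Fin k → Bool) (z : LL B (k + 1) ⊕ P) :
    ECZ B P k ((WZ P (lp π) (Fin.cons false e))⁻¹ z) = (WZ P π e)⁻¹ (ECZ B P k z) := by
  obtain ⟨z, rfl⟩ := (WZ P (lp π) (Fin.cons false e)).surjective z
  rw [ECZ_WZ]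
  simp

theorem cj_act (π : Perm (Fin k)) (e : Fin k → Bool) (y : Cfg (B ⊕ Bool) P k) :
    cj k (y.act π e) = (cj k y).act (lp π) (Fin.cons false e) := by
  refine Cfg.ext' ?_ ?_
  · show jps (act π e y.ps) = act (lp π) (Fin.cons false e) (jps y.ps)
    ext l
    apply (EC B k).injective
    obtain ⟨l, rfl⟩ := (W (lp π) (Fin.cons false e)).surjective l
    have h1 : (act (lp π) (Fin.cons false e) (jps y.ps) : Perm _)
        (W (lp π) (Fin.cons false e) l) = W (lp π) (Fin.cons false e) (jps y.ps l) := by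
      simp [act]
    rw [h1, EC_jps, EC_W, EC_W, EC_jps]
    have h2 : sw B k (W π e (EC B k l)) = W π e (sw B k (EC B k l)) := by
      have := congrArg (fun p : Perm (LL (B ⊕ Bool) k) => p (EC B k l))
        (W_comm_SB (B := B ⊕ Bool) π e (swap (Sum.inr true) (Sum.inr false)))
      simpa [sw] using this.symm
    rw [h2]
    simp [act]
  · show (y.X.comap _).comap _ = (y.X.comap _).comap _
    rw [SX.comap_comap, SX.comap_comap]
    congr 1
    funext z
    exact (ECZ_WZ_inv π e z).symm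

theorem cj_del (y : Cfg (B ⊕ Bool) P (k + 1)) :
    ((cj (k + 1) y).act (swap 0 1) (fun _ => false)).del = cj k y.del := by
  refine Cfg.ext' (d_swap_jps y.ps) ?_
  show (((y.X.comap _).comap _).mg _ _).comap _ = ((y.X.mg _ _).comap _).comap _
  have hW : ∀ (i : Fin (k + 2)) (ε : Bool), (WZ P (swap 0 1) (fun _ => false))⁻¹
      (Sum.inl (Sum.inr (i, ε))) = (Sum.inl (Sum.inr (swap 0 1 i, ε)) : LL B (k + 2) ⊕ P) := by
    intro i ε
    rw [WZ_inv_inl]
    congr 1
    rw [Perm.inv_eq_iff_eq]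
    simp
  rw [SX.comap_comap, ← SX.comap_mg]
  simp only [Function.comp]
  rw [hW, hW, swap_apply_left, SX.comap_comap, SX.comap_comap]
  have h1 : ∀ ε, ECZ B P (k + 1) (Sum.inl (Sum.inr (1, ε))) = Sum.inl (Sum.inr (0, ε)) :=
    fun ε => rfl
  rw [h1, h1]
  congr 1
  funext z
  rcases z with l | p
  · rcases l with b | ⟨i, ε⟩
    · rfl
    · refine Fin.cases ?_ (fun i => ?_) i
      · show ECZ B P (k + 1) ((WZ P (swap 0 1) (fun _ => false))⁻¹ (Sum.inl (Sum.inr (1, ε)))) = _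
        rw [hW, swap_apply_right]; rfl
      · show ECZ B P (k + 1) ((WZ P (swap 0 1) (fun _ => false))⁻¹
          (Sum.inl (Sum.inr (i.succ.succ, ε)))) = _
        rw [hW, swap01_succ_succ]; rfl
  · rfl

/-! ### statistics -/

theorem cj_f (y : Cfg (B ⊕ Bool) P k) (z : LL B (k + 1) ⊕ P) :
    (cj k y).f z = y.f (ECZ B P k z) := by
  classical
  unfold Cfg.f
  have h1 : Perm.SameCycle.setoid ((cj k y).ps * bar) =
      Setoid.comap (EC B k) (Perm.SameCycle.setoid (y.ps * bar)) := by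
    ext a b
    have h2 : (jps y.ps * bar : Perm (LL B (k + 1))) =
        (EC B k).symm.permCongr (y.ps * bar) := by
      ext l
      apply (EC B k).injective
      rw [EC_jps_bar]
      simp
    show ((jps y.ps * bar : Perm (LL B (k + 1)))).SameCycle a b ↔
      (y.ps * bar).SameCycle (EC B k a) (EC B k b)
    rw [h2]
    constructor
    · rintro ⟨n, hn⟩
      refine ⟨n, ?_⟩
      have h3 : ((EC B k).symm.permCongr (y.ps * bar)) ^ n =
          (EC B k).symm.permCongr ((y.ps * bar) ^ n) := by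
        exact (map_zpow (Equiv.permCongrHom (EC B k).symm) _ n).symm
      rw [h3] at hn
      rw [← hn]; simp
    · rintro ⟨n, hn⟩
      refine ⟨n, ?_⟩
      have h3 : ((EC B k).symm.permCongr (y.ps * bar)) ^ n =
          (EC B k).symm.permCongr ((y.ps * bar) ^ n) := by
        exact (map_zpow (Equiv.permCongrHom (EC B k).symm) _ n).symm
      rw [h3]
      simp [hn]
  rw [h1]
  exact Tsm_comap (Perm.SameCycle.setoid (y.ps * bar)) (EC B k) (y.ind_CF _)
    (fun z => ⟨(EC B k).symm z, by rw [Equiv.apply_symm_apply]⟩)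

theorem cj_Pu (y : Cfg (B ⊕ Bool) P k) (z : LL B (k + 1) ⊕ P) :
    (cj k y).Pu z ↔ y.Pu (ECZ B P k z) := Iff.rfl

theorem ECZ_cov (R : Setoid (LL (B ⊕ Bool) k ⊕ P)) (z : LL (B ⊕ Bool) k ⊕ P) :
    ∃ z', R (ECZ B P k z') z :=
  ⟨(ECZ B P k).symm z, by rw [Equiv.apply_symm_apply]⟩

theorem cj_nu (y : Cfg (B ⊕ Bool) P k) : (cj k y).nu = y.nu := by
  unfold Cfg.nu
  exact Tsm_comap y.X.R (ECZ B P k) y.u_CF (ECZ_cov _)

theorem cj_sx (y : Cfg (B ⊕ Bool) P k) : (cj k y).sx = y.sx := by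
  unfold Cfg.sx
  exact Tsm_comap y.X.R (ECZ B P k) y.x_CF (ECZ_cov _)

end Pool.Agent.W604
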