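import Mathlib
import Pool.Agent.W604.Cut

set_option autoImplicit false
set_option linter.unusedSectionVars false
set_option linter.unusedSimpArgs false
set_option linter.unusedVariables false

/-!
Cutting the surface along the canonical frozen chord.
-/

namespace Pool.Agent.W604

open Equiv

variable {B P : Type} {k : ℕ} [DecidableEq B] [Finite B]

theorem jps_pow (ρ : Perm (LL (B ⊕ Bool) k)) (n : ℕ) (l : LL B (k + 1)) :
    EC B k ((jps ρ ^ n) l) = ((ρ * sw B k) ^ n) (EC B k l) := by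
  induction n with
  | zero => simp
  | succ n ih =>
    rw [pow_succ', Perm.mul_apply, EC_jps, ih, pow_succ', Perm.mul_apply]; rfl

theorem good_of_jps {ρ : Perm (LL (B ⊕ Bool) k)} (h : Good (jps ρ)) : Good ρ := by
  have key : ∀ (n : ℕ) (x : LL (B ⊕ Bool) k) (c : B ⊕ Bool), ((ρ * sw B k) ^ n) x = Sum.inl c →
      ∃ c', ρ.SameCycle x (Sum.inl c') := by
    intro n
    induction n with
    | zero =>
      intro x c hx
      have hx' : x = Sum.inl c := by simpa using hx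
      exact ⟨c, by rw [hx']⟩
    | succ n ih =>
      intro x c hx
      rcases x with c0 | p
      · exact ⟨c0, Perm.SameCycle.refl _ _⟩
      · rw [pow_succ, Perm.mul_apply] at hx
        obtain ⟨c', hc'⟩ := ih _ _ hx
        refine ⟨c', (sameCycle_apply ρ _).trans ?_⟩
        have : (ρ * sw B k : Perm _) (Sum.inr p) = ρ (Sum.inr p) := by
          rw [Perm.mul_apply, sw_inr]
        rw [this] at hc'
        exact hc'
  intro x
  obtain ⟨l, rfl⟩ := (EC B k).surjective x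
  obtain ⟨b, hb⟩ := h l
  obtain ⟨n, hn⟩ := exists_pow_sc hb
  refine key n _ (Sum.inl b) ?_
  rw [← jps_pow, hn]; rfl

theorem W_j1 (v : LL B (k + 1)) :
    W (B := B) (swap (0 : Fin (k + 2)) 1) (fun _ => false) (j1 v) = j0 v := by
  rcases v with b | ⟨i, ε⟩
  · rfl
  · refine Fin.cases ?_ (fun i => ?_) i
    · simp [j1, j0]
    · simp only [j1, j0, W_inr, Bool.xor_false, Fin.cases_succ]
      rw [swap01_succ_succ]

theorem NI_cj {y : Cfg (B ⊕ Bool) P (k + 1)} (h : Good y.ps) :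
    NI ((cj (k + 1) y).act (swap 0 1) (fun _ => false)).ps := by
  set ψ := (cj (k + 1) y).act (swap 0 1) (fun _ => false) with hψ
  have hv : ∀ ε, ψ.ps (Sum.inr (0, ε)) =
      W (swap 0 1) (fun _ => false) ((EC B (k + 1)).symm (y.ps (Sum.inr (0, ε)))) := by
    intro ε
    have h1 : (W (B := B) (swap (0 : Fin (k + 2)) 1) (fun _ => false)) (Sum.inr (1, ε)) =
      Sum.inr (0, ε) := by simp
    rw [← h1]
    show (W (swap 0 1) (fun _ => false) * jps y.ps * (W (swap 0 1) (fun _ => false))⁻¹ :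
      Perm (LL B (k + 2))) (W (swap 0 1) (fun _ => false) (Sum.inr (1, ε))) = _
    have h2 : (W (swap 0 1) (fun _ => false) * jps y.ps * (W (swap 0 1) (fun _ => false))⁻¹ :
      Perm (LL B (k + 2))) (W (swap 0 1) (fun _ => false) (Sum.inr (1, ε))) =
      W (swap 0 1) (fun _ => false) (jps y.ps (Sum.inr (1, ε))) := by
      have h2' : (W (B := B) (swap (0 : Fin (k + 2)) 1) (fun _ => false))⁻¹
          (W (swap 0 1) (fun _ => false) (Sum.inr (1, ε))) = Sum.inr (1, ε) := by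
        rw [Perm.inv_eq_iff_eq]
      rw [Perm.mul_apply, Perm.mul_apply, h2']
    rw [h2]
    congr 1
  have hj : ∀ v : LL (B ⊕ Bool) k, W (swap (0 : Fin (k + 2)) 1) (fun _ => false)
      ((EC B (k + 1)).symm (j0 v)) = j0 ((EC B k).symm v) := by
    intro v
    have : (EC B (k + 1)).symm (j0 v) = j1 ((EC B k).symm v) := by
      rw [Equiv.symm_apply_eq, EC_j1]; simp
    rw [this, W_j1]
  have h0 : ∀ ε, W (swap (0 : Fin (k + 2)) 1) (fun _ => false)
      ((EC B (k + 1)).symm (Sum.inr (0, ε))) = Sum.inr (0, ε) := by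
    intro ε
    have : (EC B (k + 1)).symm (Sum.inr (0, ε)) = Sum.inr (1, ε) := by
      rw [Equiv.symm_apply_eq]; rfl
    rw [this]; simp
  intro ε
  rcases h.ni.next ε with ⟨v, hv'⟩ | ⟨h1, v, hv'⟩
  · refine ⟨(EC B k).symm v, ?_⟩
    rw [← hj, ← hv', ← hv]
    exact sameCycle_apply _ _
  · refine ⟨(EC B k).symm v, ?_⟩
    rw [← hj, ← hv', ← hv]
    refine (sameCycle_apply _ _).trans ?_
    rw [hv, h1, h0]
    exact sameCycle_apply _ _

theorem cj_valid (y : Cfg (B ⊕ Bool) P k) :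
    (cj k y).Valid ↔ y.Valid ∧ Good (cj k y).ps := by
  constructor
  · intro h
    refine ⟨⟨?_, ?_, good_of_jps h.good⟩, h.good⟩
    · intro l
      obtain ⟨l, rfl⟩ := (EC B k).surjective l
      obtain ⟨g, hg⟩ := h.genus l
      rw [cj_f] at hg
      exact ⟨g, hg⟩
    · intro p
      obtain ⟨l, hl⟩ := h.punct p
      exact ⟨EC B k l, hl⟩
  · rintro ⟨h, hg⟩
    refine ⟨?_, ?_, hg⟩
    · intro l
      obtain ⟨g, hg⟩ := h.genus (EC B k l)
      exact ⟨g, by rw [cj_f]; exact hg⟩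
    · intro p
      obtain ⟨l, hl⟩ := h.punct p
      obtain ⟨l, rfl⟩ := (EC B k).surjective l
      exact ⟨l, hl⟩

theorem cj_inT (u : B) (y : Cfg (B ⊕ Bool) P k) (l : LL B (k + 1)) :
    (cj k y).inT u l ↔ y.inT (Sum.inl u) (EC B k l) := Iff.rfl

variable [Finite P]

theorem cj_QF (u : B) (q X : ℤ) (y : Cfg (B ⊕ Bool) P k) :
    QF u q X (k + 1) (cj k y) ↔ QF (Sum.inl u) q (X + 1) k y ∧ Good (cj k y).ps := by
  have hST : ST u (cj k y) = ST (Sum.inl u : B ⊕ Bool) y := rfl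
  unfold QF EF
  rw [cj_valid, cj_nu, cj_sx, hST]
  constructor
  · rintro ⟨⟨⟨h1, h2⟩, h3, h4⟩, h5⟩
    refine ⟨⟨⟨h1, h3, ?_⟩, h5⟩, h2⟩
    push_cast at h4
    linarith
  · rintro ⟨⟨⟨h1, h3, h4⟩, h5⟩, h2⟩
    refine ⟨⟨⟨h1, h2⟩, h3, ?_⟩, h5⟩
    push_cast
    linarith

theorem Cfg.act_N_iff (u : B) (π : Perm (Fin k)) (e : Fin k → Bool) (ψ : Cfg B P k) (b : B)
    (w : LL B k) : (ψ.act π e).N u b (W π e w) ↔ ψ.N u b w := by
  refine ⟨fun h => ?_, ψ.act_N u π e b w⟩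
  have h1 := (ψ.act π e).act_N u π⁻¹ (fun i => e (π⁻¹ i)) b _ h
  rw [Cfg.act_inv] at h1
  have h2 : W (B := B) π⁻¹ (fun i => e (π⁻¹ i)) (W π e w) = w := by
    have h3 := congrArg (fun p : Perm (LL B k) => p w) (W_mul (B := B) π⁻¹ π
      (fun i => e (π⁻¹ i)) e)
    simp only [Perm.mul_apply] at h3
    rw [h3]
    have h4 : (fun i => xor (e i) (e (π⁻¹ (π i)))) = fun _ => false := by
      funext i; simp
    rw [h4, inv_mul_cancel, W_one]; rfl
  rwa [h2] at h1

/-- the part of `QF` with a given set of sides followed by a frozen letter -/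
def QK (u : B) (q X : ℤ) (K : Set B) : G.Fam (CS B P) := fun k ψ =>
  QF u q X k ψ ∧ Cfg.KK (P := P) u ψ = K

theorem QK_inv (u : B) (q X : ℤ) (K : Set B) : G.Inv (CS B P) (QK u q X K) := by
  intro k π e (ψ : Cfg B P k)
  show QF u q X k ((CS B P).act π e ψ) ∧ (ψ.act π e).KK u = K ↔ _
  rw [QF_inv u q X k π e ψ, Cfg.act_KK]
  rfl

/-- further conditions on the cut system -/
def QC (u : B) (K : Set B) (b0 : B) : G.Fam (CS (B ⊕ Bool) P) := fun k y =>
  Good (cj (P := P) k y).ps ∧ (cj (P := P) k y).KK u = K ∧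
    (cj (P := P) k y).N u b0 (Sum.inr (0, true))

theorem QC_inv (u : B) (K : Set B) (b0 : B) : G.Inv (CS (B ⊕ Bool) P) (QC u K b0) := by
  intro k π e (y : Cfg (B ⊕ Bool) P k)
  show Good (cj k (y.act π e)).ps ∧ (cj k (y.act π e)).KK u = K ∧
    (cj k (y.act π e)).N u b0 (Sum.inr (0, true)) ↔ Good (cj k y).ps ∧ (cj k y).KK u = K ∧
    (cj k y).N u b0 (Sum.inr (0, true))
  rw [cj_act, Cfg.act_KK]
  have h1 : Good ((cj k y).act (lp π) (Fin.cons false e)).ps ↔ Good (cj k y).ps := good_act _ _ _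
  have h2 : (Sum.inr (0, true) : LL B (k + 1)) =
      W (lp π) (Fin.cons false e) (Sum.inr (0, true)) := by simp
  have h3 := Cfg.act_N_iff u (lp π) (Fin.cons false e) (cj k y) b0 (Sum.inr (0, true))
  rw [← h2] at h3
  rw [h1, h3]

theorem QC_del {u : B} {K : Set B} {b0 : B} {q X : ℤ} {y : Cfg (B ⊕ Bool) P (k + 1)}
    (h : QF (Sum.inl u) q (X + 1) (k + 1) y) (h' : QF (Sum.inl u) q (X + 1) k y.del) :
    QC u K b0 k y.del ↔ QC u K b0 (k + 1) y := by
  set ψ := (cj (k + 1) y).act (swap 0 1) (fun _ => false) with hψ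
  have hdel : ψ.del = cj k y.del := cj_del y
  have hNI : NI ψ.ps := NI_cj h.1.1.good
  have hg1 : Good (cj k y.del).ps ↔ Good ψ.ps := by
    rw [← hdel]
    exact good_d_iff hNI
  have hg2 : Good ψ.ps ↔ Good (cj (k + 1) y).ps := good_act _ _ _
  unfold QC
  have key : Good (cj (k + 1) y).ps → ((cj k y.del).KK u = (cj (k + 1) y).KK u ∧
      ((cj k y.del).N u b0 (Sum.inr (0, true)) ↔
        (cj (k + 1) y).N u b0 (Sum.inr (0, true)))) := by
    intro hg
    have hgψ := hg2.2 hg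
    have hQψ : QF u q X (k + 2) ψ := by
      rw [hψ]
      exact (QF_inv u q X _ _ _ _).2 ((cj_QF u q X y).2 ⟨h, hg⟩)
    have hQd : QF u q X (k + 1) ψ.del := by
      rw [hdel]
      exact (cj_QF u q X y.del).2 ⟨h', hg1.2 hgψ⟩
    have hF : ¬ ψ.Fr u z1 := Cfg.not_Fr_of_QF hQψ hQd true
    refine ⟨?_, ?_⟩
    · rw [← hdel, Cfg.del_KK hgψ hF, hψ, Cfg.act_KK]
    · rw [← hdel, Cfg.del_N hgψ hF, hψ]
      have h2 : (j0 (Sum.inr (0, true)) : LL B (k + 2)) =
        W (swap 0 1) (fun _ => false) (Sum.inr (0, true)) := by simp [j0]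
      rw [h2, Cfg.act_N_iff]
  constructor
  · rintro ⟨h1, h2, h3⟩
    have hg := hg2.1 (hg1.1 h1)
    obtain ⟨e1, e2⟩ := key hg
    exact ⟨hg, by rw [← e1]; exact h2, e2.1 h3⟩
  · rintro ⟨h1, h2, h3⟩
    obtain ⟨e1, e2⟩ := key h1
    exact ⟨hg1.2 (hg2.2 h1), by rw [e1]; exact h2, e2.2 h3⟩

/-- exactness of the part with frozen chords -/
theorem QK_ex (u : B) (q X : ℤ) {K : Set B} (hK : K.Nonempty) (k : ℕ)
    (hIH : ∀ k', k = k' + 1 → G.Ex (CS (B ⊕ Bool) P) (QF (Sum.inl u) q (X + 1)) k') :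
    G.Ex (CS B P) (QK u q X K) k := by
  obtain ⟨b0, hb0⟩ := hK
  refine G.oneIso (Y := CS B P) (Y' := CS (B ⊕ Bool) P) (fun k y => cj k y) (QK u q X K)
    (fun k y => QF (Sum.inl u) q (X + 1) k y ∧ QC u K b0 k y) k (QK_inv u q X K) ?_
    ?_ ?_ ?_ ?_ ?_ ?_ ?_ ?_ ?_
  · -- invariance
    intro k π e y
    simp only [QF_inv (Sum.inl u : B ⊕ Bool) q (X + 1) k π e y, QC_inv u K b0 k π e y]
  · intro k π e y
    exact cj_act π e y
  · intro k y
    exact cj_del y
  · -- every system is a relabelled glued one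
    intro k (ψ : Cfg B P (k + 1)) hψ
    have hb : b0 ∈ ψ.KK u := by rw [hψ.2]; exact hb0
    obtain ⟨w, hw1, hw2⟩ := hb
    obtain ⟨i, ε, rfl⟩ : ∃ i ε, w = Sum.inr (i, ε) := by
      rcases w with b | ⟨i, ε⟩
      · exact absurd hw2 (ψ.not_Fr_inl u b)
      · exact ⟨i, ε, rfl⟩
    obtain ⟨y, hy⟩ := cj_surj (ψ.act (swap 0 i) (fun _ => !ε))
    have h1 : (Sum.inr (0, true) : LL B (k + 1)) =
        W (swap 0 i) (fun _ => !ε) (Sum.inr (i, ε)) := by
      cases ε <;> simp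
    have h2 : (cj k y).N u b0 (Sum.inr (0, true)) := by
      rw [hy, h1, Cfg.act_N_iff]; exact hw1
    have h3 : QF u q X (k + 1) (cj k y) := by
      rw [hy]; exact (QF_inv u q X _ _ _ _).2 hψ.1
    have h4 := (cj_QF u q X y).1 h3
    refine ⟨swap 0 i, fun _ => !ε, y, hy.symm, h4.1, h4.2, ?_, h2⟩
    rw [hy, Cfg.act_KK]; exact hψ.2
  · -- uniqueness
    intro k (y : Cfg (B ⊕ Bool) P k) (y' : Cfg (B ⊕ Bool) P k) π e hy hy' h
    have h1 : (cj k y').N u b0 (W π e (Sum.inr (0, true))) := by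
      have : cj k y' = (cj k y).act π e := h.symm
      rw [this, Cfg.act_N_iff]
      exact hy.2.2.2
    have h2 := h1.unique hy'.2.2.2
    rw [W_inr] at h2
    simp only [Sum.inr.injEq, Prod.mk.injEq, Bool.true_xor, Bool.not_eq_true'] at h2
    obtain ⟨π', rfl⟩ := exists_lp h2.1
    have he : e = Fin.cons false (fun i => e i.succ) := by
      funext i
      refine Fin.cases ?_ (fun i => ?_) i
      · exact h2.2
      · rfl
    refine ⟨π', fun i => e i.succ, (lp_sign π').symm, ?_⟩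
    apply cj_inj
    show cj k (y.act π' fun i => e i.succ) = cj k y'
    rw [cj_act, ← he]
    exact h
  · intro k (y : Cfg (B ⊕ Bool) P k) hy
    exact ⟨(cj_QF u q X y).2 ⟨hy.1, hy.2.1⟩, hy.2.2.1⟩
  · -- the first chord is frozen
    intro k (y : Cfg (B ⊕ Bool) P k) hy h
    have h1 : QF u q X (k + 1) (cj k y) := (cj_QF u q X y).2 ⟨hy.1, hy.2.1⟩
    obtain ⟨b, hb⟩ : ∃ w, (cj k y).N u b0 w ∧ (cj k y).Fr u w := by
      have : b0 ∈ (cj k y).KK u := by rw [hy.2.2.1]; exact hb0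
      exact this
    have h2 := hb.1.unique hy.2.2.2
    rw [h2] at hb
    exact QF_frozen h1 hb.2 h.1
  · intro k (y : Cfg (B ⊕ Bool) P (k + 1)) hy h
    have h1 := (cj_QF u q X y.del).1 h.1
    exact ⟨h1.1, (QC_del hy.1 h1.1).2 hy.2⟩
  · -- degree zero
    rintro (ψ : Cfg B P 0) hψ
    have hb : b0 ∈ ψ.KK u := by rw [hψ.2]; exact hb0
    obtain ⟨w, hw1, hw2⟩ := hb
    rcases w with b | ⟨i, ε⟩
    · exact absurd hw2 (ψ.not_Fr_inl u b)
    · exact i.elim0
  · intro k' hk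
    exact G.Ex.restrict (QC_inv u K b0) (fun k y h h' => QC_del h h')
      (QF_inv (Sum.inl u : B ⊕ Bool) q (X + 1)) (hIH k' hk)

/-- reduction to the part without frozen chords -/
theorem QF_of_QK (u : B) (q X : ℤ) (k : ℕ)
    (hIH : ∀ k', k = k' + 1 → G.Ex (CS (B ⊕ Bool) P) (QF (Sum.inl u) q (X + 1)) k')
    (h0 : G.Ex (CS B P) (QK u q X ∅) k) : G.Ex (CS B P) (QF u q X) k := by
  refine G.Ex.of_classes (fun k ψ => Cfg.KK (P := P) u ψ) (fun k π e ψ => Cfg.act_KK u π e ψ)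
    ?_ (QF_inv u q X) ?_
  · intro k (ψ : Cfg B P (k + 1)) h h'
    exact Cfg.del_KK h.1.1.good (Cfg.not_Fr_of_QF h h' true)
  · intro K
    by_cases hK : K.Nonempty
    · exact QK_ex u q X hK k hIH
    · rw [Set.not_nonempty_iff_eq_empty] at hK
      subst hK
      exact h0

end Pool.Agent.W604
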