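import Mathlib
import Pool.Agent.W604.Cut2

set_option autoImplicit false
set_option linter.unusedSectionVars false
set_option linter.unusedSimpArgs false
set_option linter.unusedVariables false

/-!
Sums of sets of letters.
-/

namespace Pool.Agent.W604

open Equiv

section general

variable {Z Z1 Z2 L L' L1 L2 : Type}

theorem sc_perm (e : L ≃ L') (σ : Perm L) (a b : L) :
    (e.permCongr σ).SameCycle (e a) (e b) ↔ σ.SameCycle a b := by
  have h3 : ∀ n : ℤ, (e.permCongr σ) ^ n = e.permCongr (σ ^ n) :=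
    fun n => (map_zpow (Equiv.permCongrHom e) σ n).symm
  constructor
  · rintro ⟨n, hn⟩
    refine ⟨n, ?_⟩
    rw [h3] at hn
    simpa using hn
  · rintro ⟨n, hn⟩
    refine ⟨n, ?_⟩
    rw [h3]
    simp [hn]

theorem sumCongr_zpow (σ : Perm L1) (τ : Perm L2) (n : ℤ) :
    (Equiv.sumCongr σ τ : Perm (L1 ⊕ L2)) ^ n = Equiv.sumCongr (σ ^ n) (τ ^ n) :=
  (map_zpow (Perm.sumCongrHom L1 L2) (σ, τ) n).symm

theorem sc_inl (σ : Perm L1) (τ : Perm L2) (a b : L1) :
    Perm.SameCycle (Equiv.sumCongr σ τ : Perm (L1 ⊕ L2)) (Sum.inl a) (Sum.inl b) ↔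
      σ.SameCycle a b := by
  constructor
  · rintro ⟨n, hn⟩
    refine ⟨n, ?_⟩
    rw [sumCongr_zpow] at hn
    simpa using hn
  · rintro ⟨n, hn⟩
    refine ⟨n, ?_⟩
    rw [sumCongr_zpow]
    simp [hn]

theorem sc_inr (σ : Perm L1) (τ : Perm L2) (a b : L2) :
    Perm.SameCycle (Equiv.sumCongr σ τ : Perm (L1 ⊕ L2)) (Sum.inr a) (Sum.inr b) ↔
      τ.SameCycle a b := by
  constructor
  · rintro ⟨n, hn⟩
    refine ⟨n, ?_⟩
    rw [sumCongr_zpow] at hn
    simpa using hn
  · rintro ⟨n, hn⟩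
    refine ⟨n, ?_⟩
    rw [sumCongr_zpow]
    simp [hn]

theorem sc_inl_inr (σ : Perm L1) (τ : Perm L2) (a : L1) (b : L2) :
    ¬ Perm.SameCycle (Equiv.sumCongr σ τ : Perm (L1 ⊕ L2)) (Sum.inl a) (Sum.inr b) := by
  rintro ⟨n, hn⟩
  rw [sumCongr_zpow] at hn
  simp at hn

/-- sum over a sum type without relation across -/
theorem Tsm_sum [Finite Z1] [Finite Z2] (R : Setoid (Z1 ⊕ Z2))
    (hR : ∀ a b, ¬ R (Sum.inl a) (Sum.inr b)) {w : Z1 ⊕ Z2 → ℤ} (hw : CF R w) :
    Tsm R w = Tsm (Setoid.comap Sum.inl R) (fun z => w (Sum.inl z)) +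
      Tsm (Setoid.comap Sum.inr R) (fun z => w (Sum.inr z)) := by
  classical
  let R1 := Setoid.comap (Sum.inl : Z1 → Z1 ⊕ Z2) R
  let R2 := Setoid.comap (Sum.inr : Z2 → Z1 ⊕ Z2) R
  let f : Quotient R1 ⊕ Quotient R2 → Quotient R :=
    Sum.elim (Quotient.map Sum.inl (fun _ _ h => h)) (Quotient.map Sum.inr (fun _ _ h => h))
  have hf : Function.Bijective f := by
    constructor
    · intro c c' h
      rcases c with c | c <;> rcases c' with c' | c'
      · induction c using Quotient.inductionOn with | h a => ?_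
        induction c' using Quotient.inductionOn with | h b => ?_
        congr 1
        exact Quotient.sound (s := R1) (Quotient.exact (s := R) h)
      · induction c using Quotient.inductionOn with | h a => ?_
        induction c' using Quotient.inductionOn with | h b => ?_
        exact absurd (Quotient.exact (s := R) h) (hR a b)
      · induction c using Quotient.inductionOn with | h a => ?_
        induction c' using Quotient.inductionOn with | h b => ?_
        exact absurd (R.symm (Quotient.exact (s := R) h)) (hR b a)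
      · induction c using Quotient.inductionOn with | h a => ?_
        induction c' using Quotient.inductionOn with | h b => ?_
        congr 1
        exact Quotient.sound (s := R2) (Quotient.exact (s := R) h)
    · intro c
      induction c using Quotient.inductionOn with | h z => ?_
      rcases z with a | b
      · exact ⟨Sum.inl (Quotient.mk _ a), rfl⟩
      · exact ⟨Sum.inr (Quotient.mk _ b), rfl⟩
  unfold Tsm
  let _ : Fintype (Quotient R1) := Fintype.ofFinite _
  let _ : Fintype (Quotient R2) := Fintype.ofFinite _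
  have h1 : ∑ᶠ c : Quotient R1 ⊕ Quotient R2, Sum.elim (fun c : Quotient R1 => w (Sum.inl c.out))
      (fun c : Quotient R2 => w (Sum.inr c.out)) c = ∑ᶠ c : Quotient R, w c.out := by
    refine finsum_eq_of_bijective f hf ?_
    rintro (c | c)
    · induction c using Quotient.inductionOn with | h a => ?_
      have h2 := (hw.comap Sum.inl).out a
      exact h2.trans (hw.out (Sum.inl a)).symm
    · induction c using Quotient.inductionOn with | h a => ?_
      have h2 := (hw.comap Sum.inr).out a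
      exact h2.trans (hw.out (Sum.inr a)).symm
  rw [← h1, finsum_eq_sum_of_fintype, Fintype.sum_sum_type, finsum_eq_sum_of_fintype,
    finsum_eq_sum_of_fintype]
  rfl

theorem Tsm_top [Finite Z] (R : Setoid Z) (z : Z) (h : ∀ a b, R a b) {w : Z → ℤ}
    (hw : CF R w) : Tsm R w = w z := by
  have h1 := Tsm_upd R z (w := fun _ => 0) (w' := w) (fun _ _ _ => rfl) hw
    (fun z' hz' => absurd (h _ _) hz')
  have h2 : Tsm R (fun _ => 0) = 0 := by
    unfold Tsm
    exact finsum_zero
  rw [h1, h2]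
  ring

theorem Tsm_one [Finite L] (π : Perm L) :
    Tsm (Perm.SameCycle.setoid π) (fun _ => 1) = cyc π := by
  unfold Tsm cyc
  let _ : Fintype (Quotient (Perm.SameCycle.setoid π)) := Fintype.ofFinite _
  rw [finsum_eq_sum_of_fintype, Nat.card_eq_fintype_card]
  simp

theorem Tsm_zero (R : Setoid Z) : Tsm R (fun _ => 0) = 0 := by
  unfold Tsm
  exact finsum_zero

/-- one class and further classes -/
def SX.sm (c : ℤ) (X : SX Z2) : SX (Z1 ⊕ Z2) where
  R := {
    r := fun a b => Sum.elim (fun _ => Sum.elim (fun _ => True) (fun _ => False) b)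
      (fun a => Sum.elim (fun _ => False) (fun b => X.R a b) b) a
    iseqv := by
      refine ⟨?_, ?_, ?_⟩
      · rintro (a | a)
        · trivial
        · exact X.R.refl a
      · rintro (a | a) (b | b) h
        · trivial
        · exact h.elim
        · exact h.elim
        · exact X.R.symm h
      · rintro (a | a) (b | b) (c | c) h h'
        · trivial
        · exact h'.elim
        · trivial
        · exact h.elim
        · exact h.elim
        · exact h.elim
        · exact h'.elim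
        · exact X.R.trans h h' }
  x a := Sum.elim (fun _ => c) X.x a
  hx := by
    rintro (a | a) (b | b) h
    · rfl
    · exact h.elim
    · exact h.elim
    · exact X.hx _ _ h

theorem SX.sm_ll {c : ℤ} {X : SX Z2} (a b : Z1) :
    (SX.sm c X).R (Sum.inl a : Z1 ⊕ Z2) (Sum.inl b) := trivial
theorem SX.sm_lr {c : ℤ} {X : SX Z2} (a : Z1) (b : Z2) :
    ¬ (SX.sm c X).R (Sum.inl a : Z1 ⊕ Z2) (Sum.inr b) := fun h => h
theorem SX.sm_rl {c : ℤ} {X : SX Z2} (a : Z1) (b : Z2) :
    ¬ (SX.sm c X).R (Sum.inr b : Z1 ⊕ Z2) (Sum.inl a) := fun h => h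
theorem SX.sm_rr {c : ℤ} {X : SX Z2} (a b : Z2) :
    (SX.sm c X).R (Sum.inr a : Z1 ⊕ Z2) (Sum.inr b) ↔ X.R a b := Iff.rfl
theorem SX.sm_xl {c : ℤ} {X : SX Z2} (a : Z1) : (SX.sm c X).x (Sum.inl a : Z1 ⊕ Z2) = c := rfl
theorem SX.sm_xr {c : ℤ} {X : SX Z2} (a : Z2) :
    (SX.sm c X).x (Sum.inr a : Z1 ⊕ Z2) = X.x a := rfl

end general

/-! ### letters of a product -/

section letters

variable {B B1 B2 P P1 P2 : Type} (eB : B1 ⊕ B2 ≃ B) (eP : P1 ⊕ P2 ≃ P) {a b k : ℕ}

/-- labels: first those of the first factor -/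
def ie (h : k = b + a) : Fin a ⊕ Fin b ≃ Fin k :=
  finSumFinEquiv.trans (finCongr (by omega))

theorem ie_inl (h : k = b + a) (i : Fin a) : ((ie h (Sum.inl i) : Fin k) : ℕ) = i := by
  simp [ie]
theorem ie_inr (h : k = b + a) (j : Fin b) : ((ie h (Sum.inr j) : Fin k) : ℕ) = a + j := by
  simp [ie]

/-- the letters of a product -/
def EL (h : k = b + a) : LL B1 a ⊕ LL B2 b ≃ LL B k where
  toFun z := match z with
    | Sum.inl (Sum.inl b) => Sum.inl (eB (Sum.inl b))
    | Sum.inl (Sum.inr (i, ε)) => Sum.inr (ie h (Sum.inl i), ε)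
    | Sum.inr (Sum.inl b) => Sum.inl (eB (Sum.inr b))
    | Sum.inr (Sum.inr (j, ε)) => Sum.inr (ie h (Sum.inr j), ε)
  invFun l := match l with
    | Sum.inl b => Sum.elim (fun b => Sum.inl (Sum.inl b)) (fun b => Sum.inr (Sum.inl b))
        (eB.symm b)
    | Sum.inr (i, ε) => Sum.elim (fun i => Sum.inl (Sum.inr (i, ε)))
        (fun j => Sum.inr (Sum.inr (j, ε))) ((ie h).symm i)
  left_inv := by
    rintro ((b | ⟨i, ε⟩) | (b | ⟨i, ε⟩)) <;> simp
  right_inv := by
    rintro (b | ⟨i, ε⟩)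
    · rcases hb : eB.symm b with b' | b'
      · simp only [hb, Sum.elim_inl]
        rw [← hb]; simp
      · simp only [hb, Sum.elim_inr]
        rw [← hb]; simp
    · rcases hi : (ie h).symm i with i' | i'
      · simp only [hi, Sum.elim_inl]
        rw [← hi]; simp
      · simp only [hi, Sum.elim_inr]
        rw [← hi]; simp

theorem EL_1 (h : k = b + a) (c : B1) :
    EL eB h (Sum.inl (Sum.inl c)) = Sum.inl (eB (Sum.inl c)) := rfl
theorem EL_2 (h : k = b + a) (i : Fin a) (ε : Bool) :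
    EL eB h (Sum.inl (Sum.inr (i, ε))) = Sum.inr (ie h (Sum.inl i), ε) := rfl
theorem EL_3 (h : k = b + a) (c : B2) :
    EL eB h (Sum.inr (Sum.inl c)) = Sum.inl (eB (Sum.inr c)) := rfl
theorem EL_4 (h : k = b + a) (j : Fin b) (ε : Bool) :
    EL eB h (Sum.inr (Sum.inr (j, ε))) = Sum.inr (ie h (Sum.inr j), ε) := rfl

/-- letters and punctures of a product -/
def EZ (h : k = b + a) : (LL B1 a ⊕ P1) ⊕ (LL B2 b ⊕ P2) ≃ LL B k ⊕ P :=
  (Equiv.sumSumSumComm _ _ _ _).trans (Equiv.sumCongr (EL eB h) eP)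

theorem EZ_1 (h : k = b + a) (l : LL B1 a) :
    EZ eB eP h (Sum.inl (Sum.inl l)) = Sum.inl (EL eB h (Sum.inl l)) := rfl
theorem EZ_2 (h : k = b + a) (p : P1) :
    EZ eB eP h (Sum.inl (Sum.inr p)) = Sum.inr (eP (Sum.inl p)) := rfl
theorem EZ_3 (h : k = b + a) (l : LL B2 b) :
    EZ eB eP h (Sum.inr (Sum.inl l)) = Sum.inl (EL eB h (Sum.inr l)) := rfl
theorem EZ_4 (h : k = b + a) (p : P2) :
    EZ eB eP h (Sum.inr (Sum.inr p)) = Sum.inr (eP (Sum.inr p)) := rfl

/-- relabelling of a product -/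
def ipi (h : k = b + a) (π1 : Perm (Fin a)) (π2 : Perm (Fin b)) : Perm (Fin k) :=
  (ie h).permCongr (Equiv.sumCongr π1 π2)

theorem ipi_sign (h : k = b + a) (π1 : Perm (Fin a)) (π2 : Perm (Fin b)) :
    Perm.sign (ipi h π1 π2) = Perm.sign π1 * Perm.sign π2 := by
  unfold ipi
  rw [Perm.sign_permCongr, Perm.sign_sumCongr]

def iex (h : k = b + a) (e1 : Fin a → Bool) (e2 : Fin b → Bool) (i : Fin k) : Bool :=
  Sum.elim e1 e2 ((ie h).symm i)

theorem W_EL (h : k = b + a) (π1 : Perm (Fin a)) (π2 : Perm (Fin b)) (e1 : Fin a → Bool)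
    (e2 : Fin b → Bool) (z : LL B1 a ⊕ LL B2 b) :
    W (ipi h π1 π2) (iex h e1 e2) (EL eB h z) =
      EL eB h (Equiv.sumCongr (W π1 e1) (W π2 e2) z) := by
  rcases z with (c | ⟨i, ε⟩) | (c | ⟨i, ε⟩)
  · rfl
  · rw [EL_2, W_inr, Equiv.sumCongr_apply, Sum.map_inl, W_inr, EL_2]
    simp [ipi, iex]
  · rfl
  · rw [EL_4, W_inr, Equiv.sumCongr_apply, Sum.map_inr, W_inr, EL_4]
    simp [ipi, iex]

theorem bar_EL (h : k = b + a) (z : LL B1 a ⊕ LL B2 b) :
    bar (EL eB h z) = EL eB h (Equiv.sumCongr bar bar z) := by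
  rcases z with (c | ⟨i, ε⟩) | (c | ⟨i, ε⟩) <;> simp [EL_1, EL_2, EL_3, EL_4]

end letters

end Pool.Agent.W604
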