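import Mathlib
import Pool.Agent.W604.Sm
import Pool.Agent.W604.Dh

set_option autoImplicit false
set_option linter.unusedSectionVars false
set_option linter.unusedSimpArgs false
set_option linter.unusedVariables false

/-!
Products of configurations.
-/

namespace Pool.Agent.W604

open Equiv

section aux

variable {L L' L1 L2 L1' L2' Z Z1 Z2 Z1' Z2' : Type}

theorem Ind.refl' (ψ : Perm L) : Ind id ψ ψ := fun v => Next.base (j := id) (ψ v)

theorem Ind.sum {j1 : L1' → L1} {j2 : L2' → L2} {ψ1 : Perm L1} {ψ2 : Perm L2} {ρ1 : Perm L1'}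
    {ρ2 : Perm L2'} (h1 : Ind j1 ψ1 ρ1) (h2 : Ind j2 ψ2 ρ2) :
    Ind (Sum.map j1 j2) (Equiv.sumCongr ψ1 ψ2) (Equiv.sumCongr ρ1 ρ2) := by
  have hN1 : ∀ x w, Next j1 ψ1 x w → Next (Sum.map j1 j2) (Equiv.sumCongr ψ1 ψ2)
      (Sum.inl x) (Sum.inl w) := by
    intro x w hx
    induction hx with
    | base w => exact Next.base (j := Sum.map j1 j2) (Sum.inl w)
    | step x w h3 h4 ih =>
      refine Next.step _ _ ?_ ih
      rintro ⟨(a | a), ha⟩
      · exact h3 ⟨a, Sum.inl_injective ha⟩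
      · simp at ha
  have hN2 : ∀ x w, Next j2 ψ2 x w → Next (Sum.map j1 j2) (Equiv.sumCongr ψ1 ψ2)
      (Sum.inr x) (Sum.inr w) := by
    intro x w hx
    induction hx with
    | base w => exact Next.base (j := Sum.map j1 j2) (Sum.inr w)
    | step x w h3 h4 ih =>
      refine Next.step _ _ ?_ ih
      rintro ⟨(a | a), ha⟩
      · simp at ha
      · exact h3 ⟨a, Sum.inr_injective ha⟩
  rintro (v | v)
  · exact hN1 _ _ (h1 v)
  · exact hN2 _ _ (h2 v)

theorem SX.sm_mg_l (c : ℤ) (X : SX Z2) (p q : Z1) :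
    (SX.sm c X : SX (Z1 ⊕ Z2)).mg (Sum.inl p) (Sum.inl q) = SX.sm (c - 1) X := by
  refine SX.ext' (fun a b => ?_) (fun a => ?_)
  · rw [SX.mg_R, mgR_of_rel (SX.sm_ll p q)]; rfl
  · rcases a with a | a
    · rw [SX.mg_x_of (Or.inl (SX.sm_ll a p)) (SX.sm_ll p q)]; rfl
    · rw [SX.mg_x_of_not]
      · rfl
      · rintro (h | h)
        · exact SX.sm_rl _ _ h
        · exact SX.sm_rl _ _ h

theorem SX.sm_mg_r (c : ℤ) (X : SX Z2) (p q : Z2) :
    (SX.sm c X : SX (Z1 ⊕ Z2)).mg (Sum.inr p) (Sum.inr q) = SX.sm c (X.mg p q) := by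
  refine SX.ext' (fun a b => ?_) (fun a => ?_)
  · rw [SX.mg_R, mgR_iff]
    rcases a with a | a <;> rcases b with b | b
    · exact ⟨fun _ => SX.sm_ll a b, fun _ => Or.inl (SX.sm_ll a b)⟩
    · constructor
      · rintro (h | ⟨h | h, _⟩)
        · exact (SX.sm_lr _ _ h).elim
        · exact (SX.sm_lr _ _ h).elim
        · exact (SX.sm_lr _ _ h).elim
      · intro h; exact (SX.sm_lr _ _ h).elim
    · constructor
      · rintro (h | ⟨_, h | h⟩)
        · exact (SX.sm_rl _ _ h).elim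
        · exact (SX.sm_lr _ _ h).elim
        · exact (SX.sm_lr _ _ h).elim
      · intro h; exact (SX.sm_rl _ _ h).elim
    · rfl
  · rcases a with a | a
    · rw [SX.mg_x_of_not]
      · rfl
      · rintro (h | h)
        · exact SX.sm_lr _ _ h
        · exact SX.sm_lr _ _ h
    · by_cases h : X.R a p ∨ X.R a q
      · by_cases h2 : X.R p q
        · have e1 : (SX.sm c (X.mg p q) : SX (Z1 ⊕ Z2)).x (Sum.inr a) = X.x p - 1 :=
            SX.mg_x_of h h2
          rw [e1, SX.mg_x_of (X := (SX.sm c X : SX (Z1 ⊕ Z2))) h h2]; rfl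
        · have e1 : (SX.sm c (X.mg p q) : SX (Z1 ⊕ Z2)).x (Sum.inr a) = X.x p + X.x q - 1 :=
            SX.mg_x_of' h h2
          rw [e1, SX.mg_x_of' (X := (SX.sm c X : SX (Z1 ⊕ Z2))) h h2]; rfl
      · have e1 : (SX.sm c (X.mg p q) : SX (Z1 ⊕ Z2)).x (Sum.inr a) = X.x a :=
          SX.mg_x_of_not h
        rw [e1, SX.mg_x_of_not (X := (SX.sm c X : SX (Z1 ⊕ Z2))) h]; rfl

theorem SX.sm_comap (c : ℤ) (X : SX Z2) (g1 : Z1' → Z1) (g2 : Z2' → Z2) :
    (SX.sm c X).comap (Sum.map g1 g2) = SX.sm c (X.comap g2) := by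
  refine SX.ext' (fun a b => ?_) (fun a => ?_)
  · rcases a with a | a <;> rcases b with b | b <;> rfl
  · rcases a with a | a <;> rfl

end aux

variable {B B1 B2 P P1 P2 : Type} [DecidableEq B] [Finite B] [DecidableEq B1] [Finite B1]
  [DecidableEq B2] [Finite B2] (eB : B1 ⊕ B2 ≃ B) (eP : P1 ⊕ P2 ≃ P) (c : ℤ) {a b k : ℕ}

/-- product of a system with connected complement and a configuration -/
def pm (h : k = b + a) (x : Perm (LL B1 a)) (y : Cfg B2 P2 b) : Cfg B P k where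
  ps := (EL eB h).permCongr (Equiv.sumCongr x y.ps)
  X := (SX.sm (c + a) y.X).comap (EZ eB eP h).symm
  hR := by
    intro l
    obtain ⟨z, rfl⟩ := (EL eB h).surjective l
    rw [Perm.mul_apply, bar_EL, SX.comap_R]
    have h1 : (EL eB h).permCongr (Equiv.sumCongr x y.ps)
        (EL eB h (Equiv.sumCongr bar bar z)) =
        EL eB h (Equiv.sumCongr x y.ps (Equiv.sumCongr bar bar z)) := by simp
    rw [h1]
    rcases z with z | z
    · have h2 : ∀ z, (EZ eB eP h).symm (Sum.inl (EL eB h (Sum.inl z))) = Sum.inl (Sum.inl z) := by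
        intro z; rw [Equiv.symm_apply_eq]; rfl
      rw [Equiv.sumCongr_apply, Equiv.sumCongr_apply, Sum.map_inl, Sum.map_inl, h2, h2]
      exact SX.sm_ll _ _
    · have h2 : ∀ z, (EZ eB eP h).symm (Sum.inl (EL eB h (Sum.inr z))) = Sum.inr (Sum.inl z) := by
        intro z; rw [Equiv.symm_apply_eq]; rfl
      rw [Equiv.sumCongr_apply, Equiv.sumCongr_apply, Sum.map_inr, Sum.map_inr, h2, h2]
      exact y.hR z

section

variable (h : k = b + a) (x : Perm (LL B1 a)) (y : Cfg B2 P2 b)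

theorem pm_ps (z : LL B1 a ⊕ LL B2 b) : (pm eB eP c h x y).ps (EL eB h z) =
    EL eB h (Equiv.sumCongr x y.ps z) := by
  show (EL eB h).permCongr (Equiv.sumCongr x y.ps) (EL eB h z) = _
  simp

theorem pm_bar : ((pm eB eP c h x y).ps * bar : Perm (LL B k)) =
    (EL eB h).permCongr (Equiv.sumCongr (x * bar) (y.ps * bar)) := by
  ext l
  obtain ⟨z, rfl⟩ := (EL eB h).surjective l
  rw [Perm.mul_apply, bar_EL, pm_ps]
  rcases z with z | z <;> simp

theorem pm_R (z z' : (LL B1 a ⊕ P1) ⊕ (LL B2 b ⊕ P2)) :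
    (pm eB eP c h x y).X.R (EZ eB eP h z) (EZ eB eP h z') ↔ (SX.sm (c + a) y.X).R z z' := by
  show (SX.sm (c + a) y.X).R ((EZ eB eP h).symm (EZ eB eP h z))
    ((EZ eB eP h).symm (EZ eB eP h z')) ↔ _
  rw [Equiv.symm_apply_apply, Equiv.symm_apply_apply]

theorem pm_x (z : (LL B1 a ⊕ P1) ⊕ (LL B2 b ⊕ P2)) :
    (pm eB eP c h x y).X.x (EZ eB eP h z) = (SX.sm (c + a) y.X).x z := by
  show (SX.sm (c + a) y.X).x ((EZ eB eP h).symm (EZ eB eP h z)) = _
  rw [Equiv.symm_apply_apply]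

end

theorem pm_inj {h : k = b + a} {x x' : Perm (LL B1 a)} {y y' : Cfg B2 P2 b}
    (h1 : pm eB eP c h x y = pm eB eP c h x' y') : x = x' ∧ y = y' := by
  have h2 : (EL eB h).permCongr (Equiv.sumCongr x y.ps) =
      (EL eB h).permCongr (Equiv.sumCongr x' y'.ps) := congrArg Cfg.ps h1
  have h3 := (EL eB h).permCongr.injective h2
  refine ⟨?_, Cfg.ext' ?_ ?_⟩
  · ext l
    have := congrArg (fun p : Perm (LL B1 a ⊕ LL B2 b) => p (Sum.inl l)) h3
    simpa using this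
  · ext l
    have := congrArg (fun p : Perm (LL B1 a ⊕ LL B2 b) => p (Sum.inr l)) h3
    simpa using this
  · refine SX.ext' (fun z z' => ?_) (fun z => ?_)
    · have e1 := pm_R eB eP c h x y (Sum.inr z) (Sum.inr z')
      have e2 := pm_R eB eP c h x' y' (Sum.inr z) (Sum.inr z')
      rw [h1] at e1
      exact e1.symm.trans e2
    · have e1 := pm_x eB eP c h x y (Sum.inr z)
      have e2 := pm_x eB eP c h x' y' (Sum.inr z)
      rw [h1] at e1
      exact e1.symm.trans e2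

theorem WZ_EZ (h : k = b + a) (π1 : Perm (Fin a)) (π2 : Perm (Fin b)) (e1 : Fin a → Bool)
    (e2 : Fin b → Bool) (z : (LL B1 a ⊕ P1) ⊕ (LL B2 b ⊕ P2)) :
    WZ P (ipi h π1 π2) (iex h e1 e2) (EZ eB eP h z) =
      EZ eB eP h (Sum.map (WZ P1 π1 e1) (WZ P2 π2 e2) z) := by
  rcases z with (z | p) | (z | p)
  · rw [EZ_1, WZ_inl, W_EL]; rfl
  · rfl
  · rw [EZ_3, WZ_inl, W_EL]; rfl
  · rfl

theorem pm_act (h : k = b + a) (π1 : Perm (Fin a)) (π2 : Perm (Fin b)) (e1 : Fin a → Bool)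
    (e2 : Fin b → Bool) (x : Perm (LL B1 a)) (y : Cfg B2 P2 b) :
    (pm eB eP c h x y).act (ipi h π1 π2) (iex h e1 e2) =
      pm eB eP c h (act π1 e1 x) (y.act π2 e2) := by
  refine Cfg.ext' ?_ ?_
  · ext l
    obtain ⟨l, rfl⟩ := (W (ipi h π1 π2) (iex h e1 e2)).surjective l
    obtain ⟨z, rfl⟩ := (EL eB h).surjective l
    have h1 : ((pm eB eP c h x y).act (ipi h π1 π2) (iex h e1 e2)).ps
        (W (ipi h π1 π2) (iex h e1 e2) (EL eB h z)) =
        W (ipi h π1 π2) (iex h e1 e2) ((pm eB eP c h x y).ps (EL eB h z)) := by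
      show (W (ipi h π1 π2) (iex h e1 e2) * (pm eB eP c h x y).ps *
        (W (ipi h π1 π2) (iex h e1 e2))⁻¹ : Perm (LL B k)) _ = _
      simp
    rw [h1, pm_ps, W_EL, W_EL, pm_ps]
    congr 1
    rcases z with z | z
    · simp [act]
    · show Sum.inr _ = Sum.inr ((act π2 e2 y.ps) (W π2 e2 z))
      simp [act]
  · show ((SX.sm (c + a) y.X).comap _).comap _ = (SX.sm (c + a) (y.X.comap _)).comap _
    rw [← SX.sm_comap (c + a) y.X ((WZ P1 π1 e1)⁻¹ : Perm (LL B1 a ⊕ P1)), SX.comap_comap,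
      SX.comap_comap]
    congr 1
    funext w
    obtain ⟨w, rfl⟩ := (WZ P (ipi h π1 π2) (iex h e1 e2)).surjective w
    obtain ⟨z, rfl⟩ := (EZ eB eP h).surjective w
    show (EZ eB eP h).symm ((WZ P (ipi h π1 π2) (iex h e1 e2))⁻¹
      (WZ P (ipi h π1 π2) (iex h e1 e2) (EZ eB eP h z))) = Sum.map _ _ ((EZ eB eP h).symm
      (WZ P (ipi h π1 π2) (iex h e1 e2) (EZ eB eP h z)))
    have h1 : (WZ P (ipi h π1 π2) (iex h e1 e2))⁻¹
      (WZ P (ipi h π1 π2) (iex h e1 e2) (EZ eB eP h z)) = EZ eB eP h z := by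
      rw [Perm.inv_eq_iff_eq]
    rw [h1, WZ_EZ, Equiv.symm_apply_apply, Equiv.symm_apply_apply]
    rcases z with z | z <;> simp

/-! ### deletion of a chord of the first factor -/

theorem EL_j0 (h : k + 1 = b + (a + 1)) (h' : k = b + a) (z : LL B1 a ⊕ LL B2 b) :
    EL eB h (Sum.map j0 id z) = j0 (EL eB h' z) := by
  rcases z with (z | ⟨i, ε⟩) | (z | ⟨i, ε⟩)
  · rfl
  · show Sum.inr (ie h (Sum.inl i.succ), ε) = Sum.inr ((ie h' (Sum.inl i)).succ, ε)
    congr 2
  · rfl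
  · show Sum.inr (ie h (Sum.inr i), ε) = Sum.inr ((ie h' (Sum.inr i)).succ, ε)
    congr 2
    apply Fin.ext
    rw [ie_inr, Fin.val_succ, ie_inr]
    omega

theorem EL_zero (h : k + 1 = b + (a + 1)) (ε : Bool) :
    EL eB h (Sum.inl (Sum.inr (0, ε))) = Sum.inr (0, ε) := by
  rw [EL_2]
  congr 2

theorem pm_del1 (h : k + 1 = b + (a + 1)) (h' : k = b + a) (x : Perm (LL B1 (a + 1)))
    (y : Cfg B2 P2 b) : (pm eB eP c h x y).del = pm eB eP c h' (d x) y := by
  refine Cfg.ext' ?_ ?_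
  · refine Ind.unique j0_inj (ind_d _) ?_
    refine ((ind_d x).sum (Ind.refl' y.ps)).transport (EL eB h).symm (EL eB h').symm ?_
    intro v
    obtain ⟨z, rfl⟩ := (EL eB h').surjective v
    rw [Equiv.symm_apply_apply, Equiv.symm_apply_eq, EL_j0 eB h h']
  · show (((SX.sm (c + (a + 1 : ℕ)) y.X).comap _).mg _ _).comap _ =
      (SX.sm (c + a) y.X).comap _
    have h1 : ∀ ε, (EZ eB eP h).symm (Sum.inl (Sum.inr (0, ε))) =
        Sum.inl (Sum.inl (Sum.inr (0, ε))) := by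
      intro ε
      rw [Equiv.symm_apply_eq, EZ_1, EL_zero]
    rw [← SX.comap_mg, h1, h1, SX.sm_mg_l, SX.comap_comap]
    have h2 : c + ((a + 1 : ℕ) : ℤ) - 1 = c + a := by push_cast; ring
    rw [h2]
    have h3 : ((EZ eB eP h).symm : _ → _) ∘ JJ = Sum.map JJ id ∘ (EZ eB eP h').symm := by
      funext w
      obtain ⟨z, rfl⟩ := (EZ eB eP h').surjective w
      show (EZ eB eP h).symm (JJ (EZ eB eP h' z)) = Sum.map JJ id ((EZ eB eP h').symm _)
      rw [Equiv.symm_apply_apply, Equiv.symm_apply_eq]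
      rcases z with (z | p) | (z | p)
      · rw [EZ_1, JJ_inl, ← EL_j0 eB h h']; rfl
      · rfl
      · rw [EZ_3, JJ_inl, ← EL_j0 eB h h']; rfl
      · rfl
    rw [h3, ← SX.comap_comap, SX.sm_comap]
    rfl

/-! ### deletion of a chord of the second factor -/

/-- moves the first chord of the second factor to the front -/
def cyP (h : k + 1 = (b + 1) + a) : Perm (Fin (k + 1)) := (⟨a, by omega⟩ : Fin (k + 1)).cycleRange

theorem cyP_sign (h : k + 1 = (b + 1) + a) : Perm.sign (cyP h) = (-1) ^ a := by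
  unfold cyP
  rw [Fin.sign_cycleRange]

theorem cyP_inl (h : k + 1 = (b + 1) + a) (h' : k = b + a) (i : Fin a) :
    cyP h (ie h (Sum.inl i)) = (ie h' (Sum.inl i)).succ := by
  unfold cyP
  have h1 : ie h (Sum.inl i) < (⟨a, by omega⟩ : Fin (k + 1)) := by
    rw [Fin.lt_def, ie_inl]; exact i.2
  apply Fin.ext
  rw [Fin.coe_cycleRange_of_lt h1, ie_inl, Fin.val_succ, ie_inl]

theorem cyP_inr (h : k + 1 = (b + 1) + a) (h' : k = b + a) (j : Fin b) :
    cyP h (ie h (Sum.inr j.succ)) = (ie h' (Sum.inr j)).succ := by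
  unfold cyP
  have h1 : (⟨a, by omega⟩ : Fin (k + 1)) < ie h (Sum.inr j.succ) := by
    rw [Fin.lt_def, ie_inr, Fin.val_succ]
    show a < a + (j.1 + 1)
    omega
  rw [Fin.cycleRange_of_gt h1]
  apply Fin.ext
  rw [ie_inr, Fin.val_succ, Fin.val_succ, ie_inr]
  omega

theorem cyP_zero (h : k + 1 = (b + 1) + a) : cyP h (ie h (Sum.inr 0)) = 0 := by
  unfold cyP
  have h1 : ie h (Sum.inr 0) = (⟨a, by omega⟩ : Fin (k + 1)) := by
    apply Fin.ext
    rw [ie_inr]; rfl
  rw [h1, Fin.cycleRange_self]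

theorem EL_cyP (h : k + 1 = (b + 1) + a) (h' : k = b + a) (z : LL B1 a ⊕ LL B2 b) :
    W (cyP h) (fun _ => false) (EL eB h (Sum.map id j0 z)) = j0 (EL eB h' z) := by
  rcases z with (z | ⟨i, ε⟩) | (z | ⟨i, ε⟩)
  · rfl
  · show W (cyP h) (fun _ => false) (Sum.inr (ie h (Sum.inl i), ε)) =
      Sum.inr ((ie h' (Sum.inl i)).succ, ε)
    rw [W_inr, cyP_inl h h']; simp
  · rfl
  · show W (cyP h) (fun _ => false) (Sum.inr (ie h (Sum.inr i.succ), ε)) =
      Sum.inr ((ie h' (Sum.inr i)).succ, ε)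
    rw [W_inr, cyP_inr h h']; simp

theorem EL_cyP_zero (h : k + 1 = (b + 1) + a) (ε : Bool) :
    W (cyP h) (fun _ => false) (EL eB h (Sum.inr (Sum.inr (0, ε)))) = Sum.inr (0, ε) := by
  rw [EL_4, W_inr, cyP_zero]; simp

theorem pm_del2 (h : k + 1 = (b + 1) + a) (h' : k = b + a) (x : Perm (LL B1 a))
    (y : Cfg B2 P2 (b + 1)) : ((pm eB eP c h x y).act (cyP h) (fun _ => false)).del =
      pm eB eP c h' x y.del := by
  refine Cfg.ext' ?_ ?_
  · refine Ind.unique j0_inj (ind_d _) ?_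
    have h1 := ((Ind.refl' x).sum (ind_d y.ps)).transport
      (j2 := j0) ((EL eB h).trans (W (cyP h) (fun _ => false))).symm (EL eB h').symm (by
        intro v
        obtain ⟨z, rfl⟩ := (EL eB h').surjective v
        rw [Equiv.symm_apply_apply, Equiv.symm_apply_eq]
        exact (EL_cyP eB h h' z).symm)
    have h2 : ((EL eB h).trans (W (cyP h) (fun _ => false))).symm.symm.permCongr
        (Equiv.sumCongr x y.ps) = ((pm eB eP c h x y).act (cyP h) (fun _ => false)).ps := by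
      ext l
      obtain ⟨l, rfl⟩ := (W (cyP h) (fun _ => false)).surjective l
      obtain ⟨z, rfl⟩ := (EL eB h).surjective l
      have h3 : ((pm eB eP c h x y).act (cyP h) (fun _ => false)).ps
          (W (cyP h) (fun _ => false) (EL eB h z)) =
          W (cyP h) (fun _ => false) ((pm eB eP c h x y).ps (EL eB h z)) := by
        show (W (cyP h) (fun _ => false) * (pm eB eP c h x y).ps *
          (W (cyP h) (fun _ => false))⁻¹ : Perm (LL B (k + 1))) _ = _
        simp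
      rw [h3, pm_ps]
      simp
    rw [h2] at h1
    exact h1
  · show ((((SX.sm (c + a) y.X).comap _).comap _).mg _ _).comap _ =
      (SX.sm (c + a) ((y.X.mg _ _).comap _)).comap _
    have h1 : ∀ ε, (EZ eB eP h).symm ((WZ P (cyP h) (fun _ => false))⁻¹
        (Sum.inl (Sum.inr (0, ε)))) = Sum.inr (Sum.inl (Sum.inr (0, ε))) := by
      intro ε
      rw [Equiv.symm_apply_eq, EZ_3, Perm.inv_eq_iff_eq, WZ_inl, EL_cyP_zero]
    rw [SX.comap_comap, ← SX.comap_mg]
    simp only [Function.comp]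
    rw [h1, h1, SX.sm_mg_r, ← SX.sm_comap (c + a) (y.X.mg _ _) (id : LL B1 a ⊕ P1 → _),
      SX.comap_comap, SX.comap_comap]
    congr 1
    funext w
    obtain ⟨z, rfl⟩ := (EZ eB eP h').surjective w
    show (EZ eB eP h).symm ((WZ P (cyP h) (fun _ => false))⁻¹ (JJ (EZ eB eP h' z))) =
      Sum.map id JJ ((EZ eB eP h').symm _)
    rw [Equiv.symm_apply_apply, Equiv.symm_apply_eq, Perm.inv_eq_iff_eq]
    rcases z with (z | p) | (z | p)
    · rw [EZ_1, JJ_inl, ← EL_cyP eB h h']; rfl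
    · rfl
    · rw [EZ_3, JJ_inl, ← EL_cyP eB h h']; rfl
    · rfl

end Pool.Agent.W604
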