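import Mathlib
import Pool.Agent.W604.Pm

set_option autoImplicit false
set_option linter.unusedSectionVars false
set_option linter.unusedSimpArgs false
set_option linter.unusedVariables false

/-!
Products of configurations: the coboundary and the statistics.
-/

namespace Pool.Agent.W604

open Equiv

variable {B B1 B2 P P1 P2 : Type} [DecidableEq B] [Finite B] [DecidableEq B1] [Finite B1]
  [DecidableEq B2] [Finite B2] (eB : B1 ⊕ B2 ≃ B) (eP : P1 ⊕ P2 ≃ P) (c : ℤ) {a b k : ℕ}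

theorem ipi_ie (h : k = b + a) (π1 : Perm (Fin a)) (π2 : Perm (Fin b)) (z : Fin a ⊕ Fin b) :
    ipi h π1 π2 (ie h z) = ie h (Sum.map π1 π2 z) := by
  simp [ipi]

theorem ie_zero (h : k + 1 = b + (a + 1)) : ie h (Sum.inl 0) = 0 := by
  apply Fin.ext
  rw [ie_inl]; rfl

theorem iex_false (h : k = b + a) :
    iex h (fun _ => false) (fun _ => false) = fun _ => false := by
  funext i
  unfold iex
  rcases (ie h).symm i with j | j <;> rfl

theorem pm_dd {A : Type} [AddCommGroup A] (C : G.Gr (CS B P) A) (hC : G.ASG C) (a b k : ℕ)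
    (h : k = b + a) (x : Perm (LL B1 a)) (y : Cfg B2 P2 b) :
    G.DD C k (pm eB eP c h x y) =
      G.DD (Y := PS B1) (fun a' x' => C (b + a') (pm eB eP c rfl x' y)) a x +
      ((-1 : ℤˣ) ^ a) • G.DD (Y := CS B2 P2)
        (fun b' y' => C (b' + a) (pm eB eP c rfl x y')) b y := by
  cases k with
  | zero =>
    obtain rfl : a = 0 := by omega
    obtain rfl : b = 0 := by omega
    show (0 : A) = 0 + _ • (0 : A)
    simp
  | succ k =>
    have hterm : ∀ (i : Fin (k + 1)) (π : Perm (Fin (k + 1))) (e : Fin (k + 1) → Bool),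
        π i = 0 → Perm.sign (swap 0 i) • C k ((CS B P).d ((CS B P).act (swap 0 i)
          (fun _ => false) (pm eB eP c h x y))) = Perm.sign π • C k (((pm eB eP c h x y).act π
          e).del) := fun i π e hi => G.term_indep (Y := CS B P) (hC k) _ i π e hi
    show (∑ i : Fin (k + 1), Perm.sign (swap 0 i) • C k ((CS B P).d ((CS B P).act (swap 0 i)
      (fun _ => false) (pm eB eP c h x y)))) = _
    rw [← Equiv.sum_comp (ie h), Fintype.sum_sum_type]
    congr 1
    · cases a with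
      | zero => rfl
      | succ a =>
        obtain rfl : k = b + a := by omega
        show _ = ∑ i : Fin (a + 1), Perm.sign (swap 0 i) • C (b + a) (pm eB eP c rfl
          (d (act (swap 0 i) (fun _ => false) x)) y)
        refine Finset.sum_congr rfl fun i _ => ?_
        rw [hterm _ (ipi h (swap 0 i) 1) (iex h (fun _ => false) (fun _ => false))]
        · rw [pm_act, pm_del1 (h' := rfl), ipi_sign, Perm.sign_one, mul_one]
          congr 3
          exact (CS B2 P2).act_one y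
        · rw [ipi_ie, Sum.map_inl, swap_apply_right, ie_zero]
    · cases b with
      | zero =>
        show (0 : A) = _ • (0 : A)
        rw [smul_zero]
      | succ b =>
        have hk : k = b + a := by omega
        show _ = _ • ∑ j : Fin (b + 1), Perm.sign (swap 0 j) • C (b + a) (pm eB eP c rfl x
          ((y.act (swap 0 j) (fun _ => false)).del))
        rw [Finset.smul_sum]
        refine Finset.sum_congr rfl fun j _ => ?_
        rw [hterm _ (cyP h * ipi h 1 (swap 0 j)) (fun _ => false)]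
        · have h1 : (pm eB eP c h x y).act (cyP h * ipi h 1 (swap 0 j)) (fun _ => false) =
              ((pm eB eP c h x y).act (ipi h 1 (swap 0 j))
                (iex h (fun _ => false) (fun _ => false))).act (cyP h) (fun _ => false) := by
            have h2 := (CS B P).act_act (cyP h) (ipi h 1 (swap 0 j)) (fun _ => false)
              (iex h (fun _ => false) (fun _ => false)) (pm eB eP c h x y)
            refine Eq.trans ?_ h2.symm
            rw [iex_false]
            rfl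
          have h3 : act 1 (fun _ => false) x = x := act_one x
          rw [h1, pm_act, pm_del2 eB eP c h hk, h3, Perm.sign_mul, cyP_sign, ipi_sign,
            Perm.sign_one, one_mul, mul_smul]
          subst hk
          rfl
        · rw [Perm.mul_apply, ipi_ie, Sum.map_inr, swap_apply_right, cyP_zero]

/-! ### statistics -/

section stats

variable (h : k = b + a) (x : Perm (LL B1 a)) (y : Cfg B2 P2 b)

theorem pm_sc (z z' : LL B1 a ⊕ LL B2 b) :
    (pm eB eP c h x y).ps.SameCycle (EL eB h z) (EL eB h z') ↔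
      Perm.SameCycle (Equiv.sumCongr x y.ps) z z' := sc_perm _ _ _ _

theorem pm_good : Good (pm eB eP c h x y).ps ↔ Good x ∧ Good y.ps := by
  constructor
  · intro hg
    constructor
    · intro l
      obtain ⟨b', hb⟩ := hg (EL eB h (Sum.inl l))
      rcases hb' : eB.symm b' with b1 | b2
      · have h1 : (Sum.inl b' : LL B k) = EL eB h (Sum.inl (Sum.inl b1)) := by
          rw [EL_1, ← hb']; simp
        rw [h1, pm_sc, sc_inl] at hb
        exact ⟨b1, hb⟩
      · have h1 : (Sum.inl b' : LL B k) = EL eB h (Sum.inr (Sum.inl b2)) := by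
          rw [EL_3, ← hb']; simp
        rw [h1, pm_sc] at hb
        exact absurd hb (sc_inl_inr _ _ _ _)
    · intro l
      obtain ⟨b', hb⟩ := hg (EL eB h (Sum.inr l))
      rcases hb' : eB.symm b' with b1 | b2
      · have h1 : (Sum.inl b' : LL B k) = EL eB h (Sum.inl (Sum.inl b1)) := by
          rw [EL_1, ← hb']; simp
        rw [h1, pm_sc] at hb
        exact absurd hb.symm (sc_inl_inr _ _ _ _)
      · have h1 : (Sum.inl b' : LL B k) = EL eB h (Sum.inr (Sum.inl b2)) := by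
          rw [EL_3, ← hb']; simp
        rw [h1, pm_sc, sc_inr] at hb
        exact ⟨b2, hb⟩
  · rintro ⟨h1, h2⟩ l
    obtain ⟨z, rfl⟩ := (EL eB h).surjective l
    rcases z with z | z
    · obtain ⟨b1, hb⟩ := h1 z
      refine ⟨eB (Sum.inl b1), ?_⟩
      rw [← EL_1 eB h, pm_sc, sc_inl]
      exact hb
    · obtain ⟨b2, hb⟩ := h2 z
      refine ⟨eB (Sum.inr b2), ?_⟩
      rw [← EL_3 eB h, pm_sc, sc_inr]
      exact hb

theorem pm_f (z : (LL B1 a ⊕ P1) ⊕ (LL B2 b ⊕ P2)) : (pm eB eP c h x y).f (EZ eB eP h z) =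
    Sum.elim (fun _ => (fc x : ℤ)) (fun z => y.f z) z := by
  classical
  unfold Cfg.f
  set Φ := Perm.SameCycle.setoid ((pm eB eP c h x y).ps * bar) with hΦ
  have h1 := Tsm_comap Φ (EL eB h) ((pm eB eP c h x y).ind_CF (EZ eB eP h z))
    (fun l => ⟨(EL eB h).symm l, by rw [Equiv.apply_symm_apply]⟩)
  rw [← h1]
  have hrel : ∀ z z', Setoid.comap (EL eB h) Φ z z' ↔
      Perm.SameCycle (Equiv.sumCongr (x * bar) (y.ps * bar)) z z' := by
    intro z z'
    show Perm.SameCycle ((pm eB eP c h x y).ps * bar) (EL eB h z) (EL eB h z') ↔ _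
    rw [pm_bar]
    exact sc_perm _ _ _ _
  rw [Tsm_sum _ (fun a b h' => sc_inl_inr _ _ _ _ ((hrel _ _).1 h'))
    (((pm eB eP c h x y).ind_CF (EZ eB eP h z)).comap _)]
  have hl : Setoid.comap Sum.inl (Setoid.comap (EL eB h) Φ) =
      Perm.SameCycle.setoid (x * bar) := by
    ext z z'
    exact (hrel _ _).trans (sc_inl _ _ _ _)
  have hr : Setoid.comap Sum.inr (Setoid.comap (EL eB h) Φ) =
      Perm.SameCycle.setoid (y.ps * bar) := by
    ext z z'
    exact (hrel _ _).trans (sc_inr _ _ _ _)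
  rw [hl, hr]
  rcases z with z | z
  · have e1 : ∀ l : LL B1 a, (pm eB eP c h x y).X.R (Sum.inl (EL eB h (Sum.inl l)))
        (EZ eB eP h (Sum.inl z)) := fun l => (pm_R eB eP c h x y (Sum.inl (Sum.inl l)) (Sum.inl z)).2
          (SX.sm_ll _ _)
    have e2 : ∀ l : LL B2 b, ¬ (pm eB eP c h x y).X.R (Sum.inl (EL eB h (Sum.inr l)))
        (EZ eB eP h (Sum.inl z)) := fun l h' =>
          SX.sm_rl _ _ ((pm_R eB eP c h x y (Sum.inr (Sum.inl l)) (Sum.inl z)).1 h')
    simp only [if_pos (e1 _), if_neg (e2 _)]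
    rw [Tsm_one, Tsm_zero, add_zero]
    rfl
  · have e1 : ∀ l : LL B1 a, ¬ (pm eB eP c h x y).X.R (Sum.inl (EL eB h (Sum.inl l)))
        (EZ eB eP h (Sum.inr z)) := fun l h' =>
          SX.sm_lr _ _ ((pm_R eB eP c h x y (Sum.inl (Sum.inl l)) (Sum.inr z)).1 h')
    have e2 : ∀ l : LL B2 b, (pm eB eP c h x y).X.R (Sum.inl (EL eB h (Sum.inr l)))
        (EZ eB eP h (Sum.inr z)) ↔ y.X.R (Sum.inl l) z := fun l =>
          (pm_R eB eP c h x y (Sum.inr (Sum.inl l)) (Sum.inr z))
    simp only [if_neg (e1 _), e2]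
    rw [Tsm_zero, zero_add]
    rfl

theorem pm_Pu (z : (LL B1 a ⊕ P1) ⊕ (LL B2 b ⊕ P2)) : (pm eB eP c h x y).Pu (EZ eB eP h z) ↔
    Sum.elim (fun _ => Nonempty P1) (fun z => y.Pu z) z := by
  rcases z with z | z
  · constructor
    · rintro ⟨i, hi⟩
      obtain ⟨j, rfl⟩ := eP.surjective i
      rcases j with j | j
      · exact ⟨j⟩
      · exact absurd ((pm_R eB eP c h x y (Sum.inr (Sum.inr j)) (Sum.inl z)).1 hi)
          (SX.sm_rl _ _)
    · rintro ⟨j⟩
      exact ⟨eP (Sum.inl j), (pm_R eB eP c h x y (Sum.inl (Sum.inr j)) (Sum.inl z)).2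
        (SX.sm_ll _ _)⟩
  · constructor
    · rintro ⟨i, hi⟩
      obtain ⟨j, rfl⟩ := eP.surjective i
      rcases j with j | j
      · exact absurd ((pm_R eB eP c h x y (Sum.inl (Sum.inr j)) (Sum.inr z)).1 hi)
          (SX.sm_lr _ _)
      · exact ⟨j, (pm_R eB eP c h x y (Sum.inr (Sum.inr j)) (Sum.inr z)).1 hi⟩
    · rintro ⟨j, hj⟩
      exact ⟨eP (Sum.inr j), (pm_R eB eP c h x y (Sum.inr (Sum.inr j)) (Sum.inr z)).2 hj⟩

variable [Finite P] [Finite P1] [Finite P2]

theorem Tsm_pm {w : LL B k ⊕ P → ℤ} (hw : CF (pm eB eP c h x y).X.R w)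
    (z1 : LL B1 a ⊕ P1) : Tsm (pm eB eP c h x y).X.R w = w (EZ eB eP h (Sum.inl z1)) +
      Tsm y.X.R (fun z => w (EZ eB eP h (Sum.inr z))) := by
  have h1 := Tsm_comap (pm eB eP c h x y).X.R (EZ eB eP h) hw
    (fun l => ⟨(EZ eB eP h).symm l, by rw [Equiv.apply_symm_apply]⟩)
  rw [← h1, Tsm_sum _ (fun a b h' => SX.sm_lr _ _ ((pm_R eB eP c h x y _ _).1 h'))
    (hw.comap _)]
  have hr : Setoid.comap Sum.inr (Setoid.comap (EZ eB eP h) (pm eB eP c h x y).X.R) = y.X.R := by
    ext z z'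
    exact pm_R eB eP c h x y (Sum.inr z) (Sum.inr z')
  rw [hr, Tsm_top (Setoid.comap Sum.inl (Setoid.comap (EZ eB eP h) (pm eB eP c h x y).X.R)) z1
    (fun a b => (pm_R eB eP c h x y (Sum.inl a) (Sum.inl b)).2 (SX.sm_ll _ _))]
  exact (hw.comap (EZ eB eP h)).comap Sum.inl

open Classical in
theorem pm_nu (u1 : B1) : (pm eB eP c h x y).nu = (if Nonempty P1 then 0 else 1) + y.nu := by
  unfold Cfg.nu
  rw [Tsm_pm eB eP c h x y (pm eB eP c h x y).u_CF (Sum.inl (Sum.inl u1))]
  congr 1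
  · unfold Cfg.u
    simp only [pm_Pu, Sum.elim_inl]
  · apply Tsm_congr
    intro z
    unfold Cfg.u
    simp only [pm_Pu, Sum.elim_inr]

theorem pm_sx (u1 : B1) : (pm eB eP c h x y).sx = (c + a) + y.sx := by
  unfold Cfg.sx
  rw [Tsm_pm eB eP c h x y (pm eB eP c h x y).x_CF (Sum.inl (Sum.inl u1))]
  rw [pm_x]
  congr 1
  apply Tsm_congr
  intro z
  rw [pm_x]; rfl

theorem pm_valid (u1 : B1) : (pm eB eP c h x y).Valid ↔
    (Good x ∧ ∃ g : ℕ, c + a + fc x + 2 * g = 2) ∧ y.Valid := by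
  constructor
  · intro hv
    obtain ⟨hg1, hg2⟩ := (pm_good eB eP c h x y).1 hv.good
    refine ⟨⟨hg1, ?_⟩, ⟨?_, ?_, hg2⟩⟩
    · obtain ⟨g, hg⟩ := hv.genus (EL eB h (Sum.inl (Sum.inl u1)))
      rw [← EZ_1 eB eP h, pm_f, pm_x, Sum.elim_inl, SX.sm_xl] at hg
      exact ⟨g, hg⟩
    · intro l
      obtain ⟨g, hg⟩ := hv.genus (EL eB h (Sum.inr l))
      rw [← EZ_3 eB eP h, pm_f, pm_x, Sum.elim_inr, SX.sm_xr] at hg
      exact ⟨g, hg⟩
    · intro p
      obtain ⟨l, hl⟩ := hv.punct (eP (Sum.inr p))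
      obtain ⟨z, rfl⟩ := (EL eB h).surjective l
      rw [← EZ_4 eB eP h] at hl
      rcases z with z | z
      · rw [← EZ_1 eB eP h, pm_R] at hl
        exact absurd hl (SX.sm_lr _ _)
      · rw [← EZ_3 eB eP h, pm_R] at hl
        exact ⟨z, hl⟩
  · rintro ⟨⟨hg1, g, hg⟩, hv⟩
    refine ⟨?_, ?_, (pm_good eB eP c h x y).2 ⟨hg1, hv.good⟩⟩
    · intro l
      obtain ⟨z, rfl⟩ := (EL eB h).surjective l
      rcases z with z | z
      · refine ⟨g, ?_⟩
        rw [← EZ_1 eB eP h, pm_f, pm_x, Sum.elim_inl, SX.sm_xl]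
        exact hg
      · obtain ⟨g', hg'⟩ := hv.genus z
        refine ⟨g', ?_⟩
        rw [← EZ_3 eB eP h, pm_f, pm_x, Sum.elim_inr, SX.sm_xr]
        exact hg'
    · intro p
      obtain ⟨j, rfl⟩ := eP.surjective p
      rcases j with j | j
      · refine ⟨EL eB h (Sum.inl (Sum.inl u1)), ?_⟩
        rw [← EZ_1 eB eP h, ← EZ_2 eB eP h, pm_R]
        exact SX.sm_ll _ _
      · obtain ⟨l, hl⟩ := hv.punct j
        refine ⟨EL eB h (Sum.inr l), ?_⟩
        rw [← EZ_3 eB eP h, ← EZ_4 eB eP h, pm_R]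
        exact hl

open Classical in
theorem pm_EF (u1 : B1) {n1 : ℕ} (hn : (n1 : ℤ) = 2 - c) (q X : ℤ) :
    EF B P q X k (pm eB eP c h x y) ↔ DF n1 a x ∧
      EF B2 P2 (q - (if Nonempty P1 then 0 else 1)) (X - c) b y := by
  unfold EF DF
  rw [pm_valid eB eP c h x y u1, pm_nu eB eP c h x y u1, pm_sx eB eP c h x y u1]
  have hk : (k : ℤ) = b + a := by rw [h]; push_cast; ring
  constructor
  · rintro ⟨⟨⟨h1, g, hg⟩, h2⟩, h3, h4⟩
    refine ⟨⟨h1, g, ?_⟩, h2, ?_, ?_⟩
    · have : ((a + fc x + 2 * g : ℕ) : ℤ) = n1 := by push_cast; rw [hn]; linarith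
      exact_mod_cast this
    · linarith
    · linarith
  · rintro ⟨⟨h1, g, hg⟩, h2, h3, h4⟩
    refine ⟨⟨⟨h1, g, ?_⟩, h2⟩, ?_, ?_⟩
    · have : ((a + fc x + 2 * g : ℕ) : ℤ) = n1 := by exact_mod_cast hg
      push_cast at this
      linarith
    · linarith
    · linarith

end stats

end Pool.Agent.W604
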