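import Mathlib
import Pool.Agent.W604.Pd

set_option autoImplicit false
set_option linter.unusedSectionVars false
set_option linter.unusedSimpArgs false
set_option linter.unusedVariables false

/-!
The part without frozen chords is a product.
-/

namespace Pool.Agent.W604

open Equiv

section tstat

variable {B P : Type} {k : ℕ} [DecidableEq B] [Finite B]

/-- both sides of the chord are in the component of `u` -/
def Cfg.tch (u : B) (ψ : Cfg B P k) (i : Fin k) : Prop :=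
  ψ.inT u (Sum.inr (i, true)) ∧ ψ.inT u (Sum.inr (i, false))

open Classical in
noncomputable def Cfg.aT (u : B) (ψ : Cfg B P k) : ℕ := ∑ i : Fin k, if ψ.tch u i then 1 else 0

open Classical in
noncomputable def Cfg.bT (u : B) (ψ : Cfg B P k) : ℕ := ∑ i : Fin k, if ψ.tch u i then 0 else 1

theorem Cfg.aT_add_bT (u : B) (ψ : Cfg B P k) : ψ.aT u + ψ.bT u = k := by
  classical
  unfold Cfg.aT Cfg.bT
  rw [← Finset.sum_add_distrib]
  have : ∀ i : Fin k, (if ψ.tch u i then 1 else 0) + (if ψ.tch u i then 0 else 1) = 1 := by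
    intro i; split_ifs <;> rfl
  simp [this]

theorem Cfg.act_tch (u : B) (π : Perm (Fin k)) (e : Fin k → Bool) (ψ : Cfg B P k) (i : Fin k) :
    (ψ.act π e).tch u (π i) ↔ ψ.tch u i := by
  unfold Cfg.tch
  have h1 := ψ.act_inT u π e (Sum.inr (i, true))
  have h2 := ψ.act_inT u π e (Sum.inr (i, false))
  rw [W_inr] at h1 h2
  rcases he : e i with _ | _
  · rw [he] at h1 h2
    exact Iff.and h1 h2
  · rw [he] at h1 h2
    rw [and_comm]
    exact Iff.and h1 h2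

theorem Cfg.act_aT (u : B) (π : Perm (Fin k)) (e : Fin k → Bool) (ψ : Cfg B P k) :
    (ψ.act π e).aT u = ψ.aT u := by
  classical
  unfold Cfg.aT
  rw [← Equiv.sum_comp π]
  simp only [Cfg.act_tch]

theorem Cfg.act_bT (u : B) (π : Perm (Fin k)) (e : Fin k → Bool) (ψ : Cfg B P k) :
    (ψ.act π e).bT u = ψ.bT u := by
  classical
  unfold Cfg.bT
  rw [← Equiv.sum_comp π]
  simp only [Cfg.act_tch]

theorem Cfg.act_xT (u : B) (π : Perm (Fin k)) (e : Fin k → Bool) (ψ : Cfg B P k) :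
    (ψ.act π e).X.x (Sum.inl (Sum.inl u)) = ψ.X.x (Sum.inl (Sum.inl u)) :=
  ψ.act_x π e (Sum.inl (Sum.inl u))

section del

variable [Finite P] {u : B} {ψ : Cfg B P (k + 1)}

/-- the component of `u` keeps its points -/
theorem Cfg.del_T (hF : ¬ ψ.Fr u z1) (z : LL B k ⊕ P) :
    ψ.del.X.R z (Sum.inl (Sum.inl u)) ↔ ψ.X.R (JJ z) (Sum.inl (Sum.inl u)) := by
  have hb : (bar z1 : LL B (k + 1)) = z0 := by simp
  unfold Cfg.Fr at hF
  rw [hb, not_not] at hF
  show mgR ψ.X.R (Sum.inl z1) (Sum.inl z0) (JJ z) (Sum.inl (Sum.inl u)) ↔ _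
  rw [mgR_iff]
  constructor
  · rintro (h | ⟨h1, h2⟩)
    · exact h
    · have h3 : ψ.inT u z1 ∧ ψ.inT u z0 := by
        rcases h2 with h2 | h2
        · exact ⟨ψ.X.R.symm h2, hF.1 (ψ.X.R.symm h2)⟩
        · exact ⟨hF.2 (ψ.X.R.symm h2), ψ.X.R.symm h2⟩
      rcases h1 with h1 | h1
      · exact ψ.X.R.trans h1 h3.1
      · exact ψ.X.R.trans h1 h3.2
  · intro h
    exact Or.inl h

theorem Cfg.del_tch (hF : ¬ ψ.Fr u z1) (i : Fin k) : ψ.del.tch u i ↔ ψ.tch u i.succ :=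
  Iff.and (Cfg.del_inT hF _) (Cfg.del_inT hF _)

open Classical in
theorem Cfg.del_aT (hF : ¬ ψ.Fr u z1) :
    ψ.aT u = (if ψ.tch u 0 then 1 else 0) + ψ.del.aT u := by
  unfold Cfg.aT
  rw [Fin.sum_univ_succ]
  simp only [Cfg.del_tch hF]

open Classical in
theorem Cfg.del_bT (hF : ¬ ψ.Fr u z1) :
    ψ.bT u = (if ψ.tch u 0 then 0 else 1) + ψ.del.bT u := by
  unfold Cfg.bT
  rw [Fin.sum_univ_succ]
  simp only [Cfg.del_tch hF]

open Classical in
theorem Cfg.del_xT (hF : ¬ ψ.Fr u z1) : ψ.X.x (Sum.inl (Sum.inl u)) =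
    (if ψ.tch u 0 then 1 else 0) + ψ.del.X.x (Sum.inl (Sum.inl u)) := by
  have hb : (bar z1 : LL B (k + 1)) = z0 := by simp
  have hF' := hF
  unfold Cfg.Fr at hF'
  rw [hb, not_not] at hF'
  by_cases h : ψ.tch u 0
  · rw [if_pos h]
    have hIn : ψ.X.R (Sum.inl z1) (Sum.inl z0) := ψ.X.R.trans h.1 (ψ.X.R.symm h.2)
    have hM : ψ.X.R (JJ (Sum.inl (Sum.inl u))) (Sum.inl z1) ∨
        ψ.X.R (JJ (Sum.inl (Sum.inl u))) (Sum.inl z0) := Or.inl (ψ.X.R.symm h.1)
    have h1 : ψ.del.X.x (Sum.inl (Sum.inl u)) = ψ.X.x (Sum.inl z1) - 1 := SX.mg_x_of hM hIn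
    rw [h1, ψ.X.hx _ _ h.1]
    ring
  · rw [if_neg h, zero_add]
    have hM : ¬ (ψ.X.R (JJ (Sum.inl (Sum.inl u))) (Sum.inl z1) ∨
        ψ.X.R (JJ (Sum.inl (Sum.inl u))) (Sum.inl z0)) := by
      rintro (h1 | h1)
      · exact h ⟨ψ.X.R.symm h1, hF'.1 (ψ.X.R.symm h1)⟩
      · exact h ⟨hF'.2 (ψ.X.R.symm h1), ψ.X.R.symm h1⟩
    have h1 : ψ.del.X.x (Sum.inl (Sum.inl u)) = ψ.X.x (JJ (Sum.inl (Sum.inl u))) :=
      SX.mg_x_of_not hM
    rw [h1]; rfl

end del

theorem Cfg.not_Fr_of_KK {u : B} {ψ : Cfg B P k} (hg : Good ψ.ps) (h : ψ.KK u = ∅) (l : LL B k) :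
    ¬ ψ.Fr u l := by
  intro hF
  have := Cfg.KK_nonempty hg hF
  rw [h] at this
  exact Set.not_nonempty_empty this

end tstat

section prod

variable {B B1 B2 P P1 P2 : Type} [DecidableEq B] [Finite B] [DecidableEq B1] [Finite B1]
  [DecidableEq B2] [Finite B2] (eB : B1 ⊕ B2 ≃ B) (eP : P1 ⊕ P2 ≃ P) (c : ℤ) (u1 : B1)
  (q X : ℤ) {a b k : ℕ}

theorem pm_inT (h : k = b + a) (x : Perm (LL B1 a)) (y : Cfg B2 P2 b) (z : LL B1 a ⊕ LL B2 b) :
    (pm eB eP c h x y).inT (eB (Sum.inl u1)) (EL eB h z) ↔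
      Sum.elim (fun _ => True) (fun _ => False) z := by
  rcases z with z | z
  · exact ⟨fun _ => trivial, fun _ => (pm_R eB eP c h x y (Sum.inl (Sum.inl z))
      (Sum.inl (Sum.inl (Sum.inl u1)))).2 (SX.sm_ll _ _)⟩
  · constructor
    · intro h'
      exact SX.sm_rl _ _ ((pm_R eB eP c h x y (Sum.inr (Sum.inl z))
        (Sum.inl (Sum.inl (Sum.inl u1)))).1 h')
    · intro h'; exact h'.elim

theorem pm_inTP (h : k = b + a) (x : Perm (LL B1 a)) (y : Cfg B2 P2 b) (p : P1 ⊕ P2) :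
    (pm eB eP c h x y).X.R (Sum.inr (eP p)) (Sum.inl (Sum.inl (eB (Sum.inl u1)))) ↔
      Sum.elim (fun _ => True) (fun _ => False) p := by
  rcases p with p | p
  · exact ⟨fun _ => trivial, fun _ => (pm_R eB eP c h x y (Sum.inl (Sum.inr p))
      (Sum.inl (Sum.inl (Sum.inl u1)))).2 (SX.sm_ll _ _)⟩
  · constructor
    · intro h'
      exact SX.sm_rl _ _ ((pm_R eB eP c h x y (Sum.inr (Sum.inr p))
        (Sum.inl (Sum.inl (Sum.inl u1)))).1 h')
    · intro h'; exact h'.elim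

theorem pm_not_Fr (h : k = b + a) (x : Perm (LL B1 a)) (y : Cfg B2 P2 b) (l : LL B k) :
    ¬ (pm eB eP c h x y).Fr (eB (Sum.inl u1)) l := by
  obtain ⟨z, rfl⟩ := (EL eB h).surjective l
  unfold Cfg.Fr
  rw [not_not, bar_EL, pm_inT, pm_inT]
  rcases z with z | z <;> rfl

theorem pm_KK (h : k = b + a) (x : Perm (LL B1 a)) (y : Cfg B2 P2 b) :
    (pm eB eP c h x y).KK (eB (Sum.inl u1)) = ∅ := by
  ext b
  simp only [Set.mem_empty_iff_false, iff_false]
  rintro ⟨w, _, h2⟩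
  exact pm_not_Fr eB eP c u1 h x y w h2

theorem pm_tch (h : k = b + a) (x : Perm (LL B1 a)) (y : Cfg B2 P2 b) (z : Fin a ⊕ Fin b) :
    (pm eB eP c h x y).tch (eB (Sum.inl u1)) (ie h z) ↔
      Sum.elim (fun _ => True) (fun _ => False) z := by
  rcases z with z | z
  · have h1 := pm_inT eB eP c u1 h x y (Sum.inl (Sum.inr (z, true)))
    have h2 := pm_inT eB eP c u1 h x y (Sum.inl (Sum.inr (z, false)))
    exact ⟨fun _ => trivial, fun _ => ⟨h1.2 trivial, h2.2 trivial⟩⟩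
  · have h1 := pm_inT eB eP c u1 h x y (Sum.inr (Sum.inr (z, true)))
    exact ⟨fun h' => h1.1 h'.1, fun h' => h'.elim⟩

theorem pm_aT (h : k = b + a) (x : Perm (LL B1 a)) (y : Cfg B2 P2 b) :
    (pm eB eP c h x y).aT (eB (Sum.inl u1)) = a := by
  classical
  unfold Cfg.aT
  rw [← Equiv.sum_comp (ie h), Fintype.sum_sum_type]
  simp only [pm_tch, Sum.elim_inl, Sum.elim_inr]
  simp

theorem pm_bT (h : k = b + a) (x : Perm (LL B1 a)) (y : Cfg B2 P2 b) :
    (pm eB eP c h x y).bT (eB (Sum.inl u1)) = b := by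
  classical
  unfold Cfg.bT
  rw [← Equiv.sum_comp (ie h), Fintype.sum_sum_type]
  simp only [pm_tch, Sum.elim_inl, Sum.elim_inr]
  simp

variable [Finite P] [Finite P1] [Finite P2]

/-- the part without frozen chords, with given component of `u` -/
def SFm : G.Fam (CS B P) := fun k ψ =>
  QK (eB (Sum.inl u1)) q X ∅ k ψ ∧
    (∀ b, Cfg.inT (P := P) (eB (Sum.inl u1)) ψ (Sum.inl b) ↔ ∃ b1, eB (Sum.inl b1) = b) ∧
    (∀ p, (ψ : Cfg B P k).X.R (Sum.inr p) (Sum.inl (Sum.inl (eB (Sum.inl u1)))) ↔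
      ∃ p1, eP (Sum.inl p1) = p) ∧
    (ψ : Cfg B P k).X.x (Sum.inl (Sum.inl (eB (Sum.inl u1)))) -
      Cfg.aT (P := P) (eB (Sum.inl u1)) ψ = c

theorem SFm_inv : G.Inv (CS B P) (SFm eB eP c u1 q X) := by
  intro k π e (ψ : Cfg B P k)
  unfold SFm
  have h1 : ∀ b, Cfg.inT (eB (Sum.inl u1)) (ψ.act π e) (Sum.inl b) ↔
      ψ.inT (eB (Sum.inl u1)) (Sum.inl b) := fun b => ψ.act_inT _ π e (Sum.inl b)
  have h2 : ∀ p, (ψ.act π e).X.R (Sum.inr p) (Sum.inl (Sum.inl (eB (Sum.inl u1)))) ↔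
      ψ.X.R (Sum.inr p) (Sum.inl (Sum.inl (eB (Sum.inl u1)))) :=
    fun p => ψ.act_R π e (Sum.inr p) (Sum.inl (Sum.inl (eB (Sum.inl u1))))
  have h3 : (ψ.act π e).X.x (Sum.inl (Sum.inl (eB (Sum.inl u1)))) =
      ψ.X.x (Sum.inl (Sum.inl (eB (Sum.inl u1)))) := ψ.act_xT _ π e
  have h4 : (ψ.act π e).aT (eB (Sum.inl u1)) = ψ.aT (eB (Sum.inl u1)) := ψ.act_aT _ π e
  refine and_congr (QK_inv _ q X ∅ k π e ψ) (and_congr ?_ (and_congr ?_ ?_))
  · exact forall_congr' fun b => by rw [← h1 b]; rfl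
  · exact forall_congr' fun p => by rw [← h2 p]; rfl
  · show (ψ.act π e).X.x _ - ((ψ.act π e).aT _ : ℤ) = c ↔ _
    rw [h3, h4]

theorem QK_not_Fr {u : B} {q X : ℤ} {ψ : Cfg B P k} (h : QK u q X ∅ k ψ) (l : LL B k) :
    ¬ ψ.Fr u l := Cfg.not_Fr_of_KK h.1.1.1.good h.2 l

/-- the conditions on the component of `u` are stable under deletion -/
theorem SFm_del {ψ : Cfg B P (k + 1)} (h : SFm eB eP c u1 q X (k + 1) ψ) :
    SFm eB eP c u1 q X k ψ.del ↔ EF B P q X k ψ.del := by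
  classical
  have hF := QK_not_Fr h.1 z1
  constructor
  · intro h'; exact h'.1.1.1
  · intro h'
    refine ⟨⟨⟨h', ?_⟩, ?_⟩, ?_, ?_, ?_⟩
    · have h1 : ST (eB (Sum.inl u1)) ψ.del = ST (eB (Sum.inl u1)) ψ := by
        ext p
        exact Cfg.del_T hF (Sum.inr p)
      rw [h1]
      exact h.1.1.2
    · show Cfg.KK (eB (Sum.inl u1)) ψ.del = ∅
      rw [Cfg.del_KK h.1.1.1.1.good hF]
      exact h.1.2
    · intro b
      rw [← h.2.1 b]
      exact Cfg.del_inT hF (Sum.inl b)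
    · intro p
      rw [← h.2.2.1 p]
      exact Cfg.del_T hF (Sum.inr p)
    · have h1 := Cfg.del_xT hF
      have h2 := Cfg.del_aT hF
      have h3 := h.2.2.2
      show ψ.del.X.x _ - (ψ.del.aT _ : ℤ) = c
      rw [h2] at h3
      have h3' : ψ.X.x (Sum.inl (Sum.inl (eB (Sum.inl u1)))) -
        (((if ψ.tch (eB (Sum.inl u1)) 0 then 1 else 0) + ψ.del.aT (eB (Sum.inl u1)) : ℕ) : ℤ) =
        c := h3
      rw [h1] at h3'
      push_cast at h3'
      linarith

open Classical in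
theorem SFm_pm [Subsingleton P1] {n1 : ℕ} (hn : (n1 : ℤ) = 2 - c) (h : k = b + a)
    (x : Perm (LL B1 a)) (y : Cfg B2 P2 b) :
    SFm eB eP c u1 q X k (pm eB eP c h x y) ↔ DF n1 a x ∧
      EF B2 P2 (q - (if Nonempty P1 then 0 else 1)) (X - c) b y := by
  rw [← pm_EF eB eP c h x y u1 hn q X]
  constructor
  · intro h'; exact h'.1.1.1
  · intro h'
    refine ⟨⟨⟨h', ?_⟩, pm_KK eB eP c u1 h x y⟩, ?_, ?_, ?_⟩
    · rintro ⟨p, hp, p', hp', hne⟩
      obtain ⟨j, rfl⟩ := eP.surjective p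
      obtain ⟨j', rfl⟩ := eP.surjective p'
      have e1 := (pm_inTP eB eP c u1 h x y j).1 hp
      have e2 := (pm_inTP eB eP c u1 h x y j').1 hp'
      rcases j with j | j
      · rcases j' with j' | j'
        · exact hne (by rw [Subsingleton.elim j j'])
        · exact e2
      · exact e1
    · intro b'
      obtain ⟨j, rfl⟩ := eB.surjective b'
      have e1 : Cfg.inT (eB (Sum.inl u1)) (pm eB eP c h x y) (Sum.inl (eB j)) ↔
          Sum.elim (fun _ => True) (fun _ => False) j := by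
        rcases j with j | j
        · exact pm_inT eB eP c u1 h x y (Sum.inl (Sum.inl j))
        · exact pm_inT eB eP c u1 h x y (Sum.inr (Sum.inl j))
      refine e1.trans ?_
      rcases j with j | j
      · exact ⟨fun _ => ⟨j, rfl⟩, fun _ => trivial⟩
      · refine ⟨fun h' => h'.elim, ?_⟩
        rintro ⟨b1, hb1⟩
        have := eB.injective hb1
        simp at this
    · intro p
      obtain ⟨j, rfl⟩ := eP.surjective p
      refine (pm_inTP eB eP c u1 h x y j).trans ?_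
      rcases j with j | j
      · exact ⟨fun _ => ⟨j, rfl⟩, fun _ => trivial⟩
      · refine ⟨fun h' => h'.elim, ?_⟩
        rintro ⟨b1, hb1⟩
        have := eP.injective hb1
        simp at this
    · have e1 := pm_x eB eP c h x y (Sum.inl (Sum.inl (Sum.inl u1)))
      have e2 := pm_aT eB eP c u1 h x y
      show (pm eB eP c h x y).X.x (Sum.inl (Sum.inl (eB (Sum.inl u1)))) -
        ((pm eB eP c h x y).aT (eB (Sum.inl u1)) : ℤ) = c
      rw [e2]
      have e3 : (pm eB eP c h x y).X.x (Sum.inl (Sum.inl (eB (Sum.inl u1)))) = c + a := e1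
      rw [e3]
      ring

/-- every system without frozen chords is a relabelled product -/
theorem SFm_cov {ψ : Cfg B P k} (hψ : SFm eB eP c u1 q X k ψ) :
    ∃ a b, ∃ h : k = b + a, ∃ π e x y, ψ.act π e = pm (a := a) (b := b) eB eP c h x y := by
  classical
  set u := eB (Sum.inl u1) with hu
  have hnF : ∀ l, ¬ ψ.Fr u l := QK_not_Fr hψ.1
  set a := ψ.aT u with ha
  set b := ψ.bT u with hb
  have h : k = b + a := by
    have := ψ.aT_add_bT u
    omega
  have ca : Fintype.card {i : Fin k // ψ.tch u i} = a := by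
    rw [Fintype.card_subtype, ha]
    unfold Cfg.aT
    rw [Finset.sum_boole]; simp
  have cb : Fintype.card {i : Fin k // ¬ ψ.tch u i} = b := by
    rw [Fintype.card_subtype, hb]
    unfold Cfg.bT
    have : (fun i : Fin k => if ψ.tch u i then 0 else 1) =
        fun i => if ¬ ψ.tch u i then 1 else 0 := by
      funext i; split_ifs <;> rfl
    rw [this, Finset.sum_boole]; simp
  let g1 : {i : Fin k // ψ.tch u i} ≃ Fin a := Fintype.equivFinOfCardEq ca
  let g2 : {i : Fin k // ¬ ψ.tch u i} ≃ Fin b := Fintype.equivFinOfCardEq cb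
  let π : Perm (Fin k) := (Equiv.sumCompl (ψ.tch u)).symm.trans
    ((Equiv.sumCongr g1 g2).trans (ie h))
  have hπ1 : ∀ i : Fin a, ie h (Sum.inl i) = π (g1.symm i).1 := by
    intro i
    simp [π]
  have hπ2 : ∀ i : Fin b, ie h (Sum.inr i) = π (g2.symm i).1 := by
    intro i
    have h1 : (Equiv.sumCompl (ψ.tch u)).symm (g2.symm i).1 = Sum.inr (g2.symm i) := by
      rw [Equiv.symm_apply_eq]; rfl
    simp [π, h1]
  set ψ1 := ψ.act π (fun _ => false) with hψ1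
  have hS1 : SFm eB eP c u1 q X k ψ1 := (SFm_inv eB eP c u1 q X k π (fun _ => false) ψ).2 hψ
  have hnF1 : ∀ l, ¬ ψ1.Fr u l := QK_not_Fr hS1.1
  have hact : ∀ i ε, ψ1.inT u (Sum.inr (π i, ε)) ↔ ψ.inT u (Sum.inr (i, ε)) := by
    intro i ε
    have := ψ.act_inT u π (fun _ => false) (Sum.inr (i, ε))
    rw [W_inr] at this
    simpa using this
  have hnFi : ∀ {i : Fin k} {ε ε' : Bool}, ψ.inT u (Sum.inr (i, ε)) →
      ψ.inT u (Sum.inr (i, ε')) := by
    intro i ε ε' h1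
    by_cases h2 : ε' = ε
    · rw [h2]; exact h1
    · have h3 := hnF (Sum.inr (i, ε))
      unfold Cfg.Fr at h3
      rw [not_not, bar_inr] at h3
      have h4 : ε' = !ε := by cases ε <;> cases ε' <;> simp_all
      rw [h4]
      exact h3.1 h1
  have hL1 : ∀ l : LL B1 a, ψ1.inT u (EL eB h (Sum.inl l)) := by
    rintro (b1 | ⟨i, ε⟩)
    · exact (hS1.2.1 _).2 ⟨b1, rfl⟩
    · rw [EL_2, hπ1, hact]
      have := (g1.symm i).2
      exact hnFi this.1
  have hL2 : ∀ l : LL B2 b, ¬ ψ1.inT u (EL eB h (Sum.inr l)) := by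
    rintro (b2 | ⟨i, ε⟩)
    · intro h1
      obtain ⟨b1, hb1⟩ := (hS1.2.1 _).1 h1
      have := eB.injective hb1
      simp at this
    · rw [EL_4, hπ2, hact]
      intro h1
      exact (g2.symm i).2 ⟨hnFi h1, hnFi h1⟩
  have hps : ∀ l, ψ1.inT u (ψ1.ps l) ↔ ψ1.inT u l := by
    intro l
    have h1 := ψ1.hR (bar l)
    have h2 : (ψ1.ps * bar : Perm (LL B k)) (bar l) = ψ1.ps l := by
      have := congrArg (fun p : Perm (LL B k) => ψ1.ps (p l)) (bar_mul_bar (B := B) (k := k))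
      simpa using this
    rw [h2] at h1
    have h3 := hnF1 l
    unfold Cfg.Fr at h3
    rw [not_not] at h3
    rw [h3]
    exact ⟨fun h4 => ψ1.X.R.trans (ψ1.X.R.symm h1) h4, fun h4 => ψ1.X.R.trans h1 h4⟩
  -- decomposition of the permutation
  have hmaps : Set.MapsTo ((EL eB h).symm.permCongr ψ1.ps) (Set.range Sum.inl)
      (Set.range Sum.inl) := by
    rintro _ ⟨l, rfl⟩
    have h1 : (EL eB h).symm.permCongr ψ1.ps (Sum.inl l) =
        (EL eB h).symm (ψ1.ps (EL eB h (Sum.inl l))) := by simp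
    rw [h1]
    rcases hz : (EL eB h).symm (ψ1.ps (EL eB h (Sum.inl l))) with z | z
    · exact ⟨z, rfl⟩
    · exfalso
      rw [Equiv.symm_apply_eq] at hz
      have h2 := (hps (EL eB h (Sum.inl l))).2 (hL1 l)
      rw [hz] at h2
      exact hL2 z h2
  obtain ⟨⟨x, y'⟩, hxy⟩ := Perm.mem_sumCongrHom_range_of_perm_mapsTo_inl hmaps
  have hxy' : Equiv.sumCongr x y' = (EL eB h).symm.permCongr ψ1.ps := hxy
  have hEL : ∀ z, ψ1.ps (EL eB h z) = EL eB h (Equiv.sumCongr x y' z) := by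
    intro z
    rw [hxy']
    simp
  let y : Cfg B2 P2 b := ⟨y', ψ1.X.comap (fun z => EZ eB eP h (Sum.inr z)), by
    intro l
    rw [SX.comap_R, EZ_3, EZ_3]
    have h1 : EL eB h (Sum.inr ((y' * bar : Perm (LL B2 b)) l)) =
        (ψ1.ps * bar : Perm (LL B k)) (EL eB h (Sum.inr l)) := by
      rw [Perm.mul_apply, Perm.mul_apply, bar_EL, hEL]
      rfl
    rw [h1]
    exact ψ1.hR _⟩
  refine ⟨a, b, h, π, fun _ => false, x, y, ?_⟩
  show ψ1 = _
  have hZ1 : ∀ z : LL B1 a ⊕ P1, ψ1.X.R (EZ eB eP h (Sum.inl z)) (Sum.inl (Sum.inl u)) := by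
    rintro (l | p)
    · exact hL1 l
    · exact (hS1.2.2.1 _).2 ⟨p, rfl⟩
  have hZ2 : ∀ z : LL B2 b ⊕ P2, ¬ ψ1.X.R (EZ eB eP h (Sum.inr z)) (Sum.inl (Sum.inl u)) := by
    rintro (l | p)
    · exact hL2 l
    · intro h1
      obtain ⟨p1, hp1⟩ := (hS1.2.2.1 _).1 h1
      have := eP.injective hp1
      simp at this
  refine Cfg.ext' ?_ ?_
  · show ψ1.ps = (EL eB h).permCongr (Equiv.sumCongr x y')
    rw [hxy']
    ext l
    simp
  · refine SX.ext' (fun w w' => ?_) (fun w => ?_)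
    · obtain ⟨z, rfl⟩ := (EZ eB eP h).surjective w
      obtain ⟨z', rfl⟩ := (EZ eB eP h).surjective w'
      rw [pm_R]
      rcases z with z | z <;> rcases z' with z' | z'
      · exact ⟨fun _ => SX.sm_ll _ _, fun _ => ψ1.X.R.trans (hZ1 z) (ψ1.X.R.symm (hZ1 z'))⟩
      · refine ⟨fun h1 => (hZ2 z' (ψ1.X.R.trans (ψ1.X.R.symm h1) (hZ1 z))).elim,
          fun h1 => (SX.sm_lr _ _ h1).elim⟩
      · refine ⟨fun h1 => (hZ2 z (ψ1.X.R.trans h1 (hZ1 z'))).elim,
          fun h1 => (SX.sm_rl _ _ h1).elim⟩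
      · rfl
    · obtain ⟨z, rfl⟩ := (EZ eB eP h).surjective w
      rw [pm_x]
      rcases z with z | z
      · rw [SX.sm_xl, ψ1.X.hx _ _ (hZ1 z)]
        have h1 := hS1.2.2.2
        have h2 : ψ1.aT u = a := ψ.act_aT u π _
        have h3 : ψ1.X.x (Sum.inl (Sum.inl u)) - (ψ1.aT u : ℤ) = c := h1
        rw [h2] at h3
        linarith
      · rfl

include u1 in
theorem pm_uni {h h' : k = b + a} {π : Perm (Fin k)} {e : Fin k → Bool} {x x' : Perm (LL B1 a)}
    {y y' : Cfg B2 P2 b} (he : (pm eB eP c h x y).act π e = pm eB eP c h' x' y') :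
    ∃ π1 e1 π2 e2, Perm.sign π = Perm.sign π1 * Perm.sign π2 ∧ x' = act π1 e1 x ∧
      y' = y.act π2 e2 := by
  have hmaps : Set.MapsTo ((ie h).symm.permCongr π) (Set.range Sum.inl) (Set.range Sum.inl) := by
    rintro _ ⟨i, rfl⟩
    have h1 : (ie h).symm.permCongr π (Sum.inl i) = (ie h).symm (π (ie h (Sum.inl i))) := by simp
    rw [h1]
    rcases hz : (ie h).symm (π (ie h (Sum.inl i))) with z | z
    · exact ⟨z, rfl⟩
    · exfalso
      rw [Equiv.symm_apply_eq] at hz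
      have h2 := (Cfg.act_tch (eB (Sum.inl u1)) π e (pm eB eP c h x y) (ie h (Sum.inl i))).2
        ((pm_tch eB eP c u1 h x y (Sum.inl i)).2 trivial)
      rw [he, hz] at h2
      exact (pm_tch eB eP c u1 h' x' y' (Sum.inr z)).1 h2
  obtain ⟨⟨π1, π2⟩, hπ⟩ := Perm.mem_sumCongrHom_range_of_perm_mapsTo_inl hmaps
  have hπ' : Equiv.sumCongr π1 π2 = (ie h).symm.permCongr π := hπ
  have hπ2 : π = ipi h π1 π2 := by
    unfold ipi
    rw [hπ']
    ext i
    simp
  have he2 : e = iex h (fun i => e (ie h (Sum.inl i))) (fun i => e (ie h (Sum.inr i))) := by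
    funext i
    obtain ⟨z, rfl⟩ := (ie h).surjective i
    unfold iex
    rw [Equiv.symm_apply_apply]
    rcases z with z | z <;> rfl
  refine ⟨π1, fun i => e (ie h (Sum.inl i)), π2, fun i => e (ie h (Sum.inr i)), ?_, ?_⟩
  · rw [hπ2, ipi_sign]
  · have h3 := pm_act eB eP c h π1 π2 (fun i => e (ie h (Sum.inl i)))
      (fun i => e (ie h (Sum.inr i))) x y
    rw [← hπ2, ← he2, he] at h3
    have h4 := pm_inj eB eP c h3
    exact ⟨h4.1, h4.2⟩

end prod

end Pool.Agent.W604
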