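import Mathlib
import Pool.Agent.W604.Sep

set_option autoImplicit false
set_option linter.unusedSectionVars false
set_option linter.unusedSimpArgs false
set_option linter.unusedVariables false

/-!
The main induction: exactness of the rows away from the part of rank zero.
-/

namespace Pool.Agent.W604

open Equiv

theorem cyc_pos {L : Type} [Finite L] [Nonempty L] (π : Perm L) : 0 < cyc π := by
  unfold cyc
  have : Nonempty (Quotient (Perm.SameCycle.setoid π)) :=
    ⟨Quotient.mk _ (Classical.arbitrary L)⟩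
  have : Finite (Quotient (Perm.SameCycle.setoid π)) := Quotient.finite _
  exact Nat.card_pos

section free

variable {B P : Type} {k : ℕ} [DecidableEq B] [Finite B]

/-- relabellings act freely -/
theorem Cfg.free {ψ : Cfg B P k} (hg : Good ψ.ps) {π : Perm (Fin k)} {e : Fin k → Bool}
    (h : ψ.act π e = ψ) : π = 1 := by
  have h1 : Pool.Agent.W604.act π e ψ.ps = ψ.ps := congrArg Cfg.ps h
  have h2 : ∀ l, W π e (ψ.ps l) = ψ.ps (W π e l) := by
    intro l
    have := congrArg (fun p : Perm (LL B k) => p (W π e l)) h1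
    simpa [Pool.Agent.W604.act] using this
  have h3 : ∀ (n : ℕ) l, W π e ((ψ.ps ^ n) l) = (ψ.ps ^ n) (W π e l) := by
    intro n
    induction n with
    | zero => intro l; rfl
    | succ n ih =>
      intro l
      rw [pow_succ', Perm.mul_apply, Perm.mul_apply, h2, ih]
  ext i
  obtain ⟨b, hb⟩ := hg (Sum.inr (i, true))
  obtain ⟨n, hn⟩ := exists_pow_sc hb.symm
  have h4 := h3 n (Sum.inl b)
  rw [hn, W_inl, hn, W_inr] at h4
  simp only [Sum.inr.injEq, Prod.mk.injEq] at h4
  rw [h4.1]; rfl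

end free

section prod

variable {B B1 B2 P P1 P2 : Type} [DecidableEq B] [Finite B] [DecidableEq B1] [Finite B1]
  [DecidableEq B2] [Finite B2] (eB : B1 ⊕ B2 ≃ B) (eP : P1 ⊕ P2 ≃ P) (c : ℤ) (u1 : B1)
  (q X : ℤ) {a b k : ℕ} [Finite P] [Finite P1] [Finite P2]

open Classical in
/-- the product data -/
noncomputable def prI [Subsingleton P1] {n1 : ℕ} (hn : (n1 : ℤ) = 2 - c) :
    G.Pr (CS B P) (PS B1) (CS B2 P2) (SFm eB eP c u1 q X) (DF n1)
      (EF B2 P2 (q - (if Nonempty P1 then 0 else 1)) (X - c)) where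
  p a b k h x y := pm eB eP c h x y
  β k ψ := Cfg.bT (eB (Sum.inl u1)) ψ
  β_act k π e ψ := Cfg.act_bT _ π e ψ
  β_p a b k h x y _ _ := pm_bT eB eP c u1 h x y
  β_d k ψ h h' := by
    have := Cfg.del_bT (QK_not_Fr h.1 z1)
    show Cfg.bT (eB (Sum.inl u1)) (Cfg.del ψ) ≤ Cfg.bT (eB (Sum.inl u1)) ψ
    omega
  pa1 a b k h π e := by
    refine ⟨ipi h π 1, iex h e (fun _ => false), ?_, ?_⟩
    · rw [ipi_sign, Perm.sign_one, mul_one]
    · intro x y
      have h1 := pm_act eB eP c h π 1 e (fun _ => false) x y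
      have h2 : y.act 1 (fun _ => false) = y := (CS B2 P2).act_one y
      rw [h2] at h1
      exact h1.symm
  pa2 a b k h π e := by
    refine ⟨ipi h 1 π, iex h (fun _ => false) e, ?_, ?_⟩
    · rw [ipi_sign, Perm.sign_one, one_mul]
    · intro x y
      have h1 := pm_act eB eP c h 1 π (fun _ => false) e x y
      have h2 : act 1 (fun _ => false) x = x := act_one x
      rw [h2] at h1
      exact h1.symm
  hS a b k h x y := SFm_pm eB eP c u1 q X hn h x y
  cov k ψ hψ := SFm_cov eB eP c u1 q X hψ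
  uni a b k h h' π e x y x' y' _ _ he := pm_uni eB eP c u1 he
  dd A _ C hC a b k h x y := pm_dd eB eP c C hC a b k h x y

theorem SFm_conv : G.Conv (CS B P) (SFm eB eP c u1 q X) := by
  intro k (ψ : Cfg B P (k + 2)) h h'
  exact (SFm_del eB eP c u1 q X h).2 (EF_conv q X k ψ h.1.1.1 h'.1.1.1)

theorem SFm_ex [Subsingleton P1] (k : ℕ) (hk : (k : ℤ) < q - X + Nat.card P)
    (hIH : ∀ b ≤ k, ∀ q' X' : ℤ, (b : ℤ) < q' - X' + Nat.card P2 →
      G.Ex (CS B2 P2) (EF B2 P2 q' X') b) :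
    G.Ex (CS B P) (SFm eB eP c u1 q X) k := by
  classical
  have : Nonempty B1 := ⟨u1⟩
  by_cases hc : 1 ≤ 2 - c
  · obtain ⟨n1, hn⟩ : ∃ n1 : ℕ, (n1 : ℤ) = 2 - c := ⟨(2 - c).toNat, by
      rw [Int.toNat_of_nonneg]; linarith⟩
    have hn1 : 1 ≤ n1 := by
      have : (1 : ℤ) ≤ n1 := by rw [hn]; exact hc
      exact_mod_cast this
    have hcard : (Nat.card P : ℤ) = Nat.card P1 + Nat.card P2 := by
      rw [← Nat.card_congr eP, Nat.card_sum]; push_cast; ring
    have hP1 : (Nat.card P1 : ℤ) = 1 - (if Nonempty P1 then 0 else 1) := by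
      by_cases h : Nonempty P1
      · rw [if_pos h]
        have h1 : Nat.card P1 = 1 := Nat.card_eq_one_iff_unique.2 ⟨inferInstance, h⟩
        rw [h1]; norm_num
      · rw [if_neg h]
        have h1 : IsEmpty P1 := not_nonempty_iff.1 h
        rw [Nat.card_of_isEmpty]; norm_num
    refine (prI eB eP c u1 q X hn).ex (SFm_inv eB eP c u1 q X) (SFm_conv eB eP c u1 q X)
      (DF_inv n1) (EF_inv _ _) ?_ (n1 - 1)
      ((q - (if Nonempty P1 then 0 else 1)) - (X - c) + Nat.card P2) ?_ ?_ ?_ ?_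
    · intro b y hy π e he
      exact Cfg.free hy.1.good he
    · intro a ha
      exact Dh' n1 a (by omega)
    · rintro a ha x ⟨_, g, hg⟩
      have : 0 < fc x := cyc_pos _
      omega
    · intro b hb hb'
      exact hIH b hb' _ _ hb
    · have : ((n1 - 1 : ℕ) : ℤ) = n1 - 1 := by
        rw [Nat.cast_sub hn1]; norm_num
      rw [this, hn]
      rw [hcard, hP1] at hk
      linarith
  · apply G.Ex.empty
    intro ψ hψ
    obtain ⟨a, b, h, π, e, x, y, hxy⟩ := SFm_cov eB eP c u1 q X hψ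
    have h1 : SFm eB eP c u1 q X k (pm eB eP c h x y) := by
      rw [← hxy]
      exact (SFm_inv eB eP c u1 q X k π e ψ).2 hψ
    have h2 := (pm_valid eB eP c h x y u1).1 h1.1.1.1.1
    obtain ⟨g, hg⟩ := h2.1.2
    have h3 : 0 < fc x := cyc_pos _
    have h4 : (1 : ℤ) ≤ fc x := by exact_mod_cast h3
    have h5 : (0 : ℤ) ≤ a := Int.natCast_nonneg a
    have h6 : (0 : ℤ) ≤ g := Int.natCast_nonneg g
    linarith

end prod

section ind

variable {B P : Type} [DecidableEq B] [Finite B] [Finite P]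

/-- the part without frozen chords -/
theorem QK0_ex (u : B) (q X : ℤ) (k : ℕ) (hk : (k : ℤ) < q - X + Nat.card P)
    (hIH : ∀ (B' P' : Type) [DecidableEq B'] [Finite B'] [Finite P'],
      Nat.card B' < Nat.card B → ∀ b ≤ k, ∀ q' X' : ℤ, (b : ℤ) < q' - X' + Nat.card P' →
      G.Ex (CS B' P') (EF B' P' q' X') b) :
    G.Ex (CS B P) (QK u q X ∅) k := by
  classical
  refine G.Ex.of_classes (I := Set B × Set P × ℤ)
    (fun k ψ => ({b | Cfg.inT (P := P) u ψ (Sum.inl b)}, ST u (k := k) (P := P) ψ,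
      (ψ : Cfg B P k).X.x (Sum.inl (Sum.inl u)) - Cfg.aT (P := P) u ψ)) ?_ ?_
    (QK_inv u q X ∅) ?_
  · intro k π e (ψ : Cfg B P k)
    have h1 : {b | Cfg.inT u (ψ.act π e) (Sum.inl b)} = {b | ψ.inT u (Sum.inl b)} := by
      ext b
      exact ψ.act_inT u π e (Sum.inl b)
    have h2 : ST u (ψ.act π e) = ST u ψ := ST_act u π e ψ
    show ({b | Cfg.inT u (ψ.act π e) (Sum.inl b)}, ST u (ψ.act π e),
      (ψ.act π e).X.x (Sum.inl (Sum.inl u)) - ((ψ.act π e).aT u : ℤ)) =
      (({b | ψ.inT u (Sum.inl b)}, ST u ψ,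
      ψ.X.x (Sum.inl (Sum.inl u)) - (ψ.aT u : ℤ)) : Set B × Set P × ℤ)
    rw [h1, h2, Cfg.act_aT, Cfg.act_xT]
  · intro k (ψ : Cfg B P (k + 1)) h h'
    have hF := QK_not_Fr h z1
    have h1 : {b | Cfg.inT u ψ.del (Sum.inl b)} = {b | ψ.inT u (Sum.inl b)} := by
      ext b
      exact Cfg.del_inT hF (Sum.inl b)
    have h2 : ST u ψ.del = ST u ψ := by
      ext p
      exact Cfg.del_T hF (Sum.inr p)
    have h3 := Cfg.del_xT hF
    have h4 := Cfg.del_aT hF
    show ({b | Cfg.inT u ψ.del (Sum.inl b)}, ST u ψ.del,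
      ψ.del.X.x (Sum.inl (Sum.inl u)) - (ψ.del.aT u : ℤ)) =
      (({b | ψ.inT u (Sum.inl b)}, ST u ψ,
      ψ.X.x (Sum.inl (Sum.inl u)) - (ψ.aT u : ℤ)) : Set B × Set P × ℤ)
    rw [h1, h2, h3, h4]
    congr 2
    push_cast
    ring
  · rintro ⟨BT, PT, c⟩
    by_cases hu : u ∈ BT
    · by_cases hPT : PT.Nontrivial
      · apply G.Ex.empty
        rintro ψ ⟨h1, h2⟩
        simp only [Prod.mk.injEq] at h2
        apply h1.1.2
        rw [h2.2.1]
        exact hPT
      · have hsub : Subsingleton PT := by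
          rw [Set.not_nontrivial_iff] at hPT
          exact hPT.coe_sort
        set eB : BT ⊕ (BTᶜ : Set B) ≃ B := Equiv.Set.sumCompl BT with heB
        set eP : PT ⊕ (PTᶜ : Set P) ≃ P := Equiv.Set.sumCompl PT with heP
        have hu1 : eB (Sum.inl (⟨u, hu⟩ : BT)) = u := rfl
        have hex := SFm_ex eB eP c (⟨u, hu⟩ : BT) q X k hk (fun b hb q' X' hq =>
          hIH (BTᶜ : Set B) (PTᶜ : Set P)
            (Finite.card_subtype_lt (x := u) (fun h => h hu)) b hb q' X' hq)
        refine G.Ex.congr ?_ hex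
        intro k (ψ : Cfg B P k)
        unfold SFm
        rw [hu1]
        constructor
        · rintro ⟨h1, h2⟩
          simp only [Prod.mk.injEq] at h2
          obtain ⟨h2, h3, h4⟩ := h2
          refine ⟨h1, ?_, ?_, h4⟩
          · intro b
            have : ψ.inT u (Sum.inl b) ↔ b ∈ BT := by rw [← h2]; rfl
            rw [this]
            exact ⟨fun hb => ⟨⟨b, hb⟩, rfl⟩, fun ⟨b1, hb1⟩ => by rw [← hb1]; exact b1.2⟩
          · intro p
            have : ψ.X.R (Sum.inr p) (Sum.inl (Sum.inl u)) ↔ p ∈ PT := by rw [← h3]; rfl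
            rw [this]
            exact ⟨fun hb => ⟨⟨p, hb⟩, rfl⟩, fun ⟨b1, hb1⟩ => by rw [← hb1]; exact b1.2⟩
        · rintro ⟨h1, h2, h3, h4⟩
          refine ⟨h1, ?_⟩
          simp only [Prod.mk.injEq]
          refine ⟨?_, ?_, h4⟩
          · ext b
            refine (h2 b).trans ?_
            exact ⟨fun ⟨b1, hb1⟩ => by rw [← hb1]; exact b1.2, fun hb => ⟨⟨b, hb⟩, rfl⟩⟩
          · ext p
            refine (h3 p).trans ?_
            exact ⟨fun ⟨b1, hb1⟩ => by rw [← hb1]; exact b1.2, fun hb => ⟨⟨p, hb⟩, rfl⟩⟩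
    · apply G.Ex.empty
      rintro (ψ : Cfg B P k) ⟨h1, h2⟩
      simp only [Prod.mk.injEq] at h2
      apply hu
      rw [← h2.1]
      exact ψ.X.R.refl _

end ind

theorem EF_ex_empty (B P : Type) [DecidableEq B] [Finite B] [Finite P] [IsEmpty B] (q X : ℤ)
    (k : ℕ) (hk : (k : ℤ) < q - X + Nat.card P) : G.Ex (CS B P) (EF B P q X) k := by
  apply G.Ex.empty
  rintro (ψ : Cfg B P k) ⟨h1, h2, h3⟩
  cases k with
  | succ k =>
    obtain ⟨b, _⟩ := h1.good (Sum.inr (0, true))
    exact isEmptyElim b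
  | zero =>
    have hL : IsEmpty (LL B 0) := ⟨by
      rintro (b | ⟨i, ε⟩)
      · exact isEmptyElim b
      · exact i.elim0⟩
    have hP : IsEmpty P := ⟨fun p => by
      obtain ⟨l, _⟩ := h1.punct p
      exact hL.elim l⟩
    have hZ : IsEmpty (LL B 0 ⊕ P) := inferInstance
    have hQ : IsEmpty (Quotient ψ.X.R) := ⟨fun c => by
      induction c using Quotient.inductionOn with | h z => exact hZ.elim z⟩
    have h4 : ψ.nu = 0 := by
      unfold Cfg.nu Tsm
      exact finsum_of_isEmpty _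
    have h5 : ψ.sx = 0 := by
      unfold Cfg.sx Tsm
      exact finsum_of_isEmpty _
    have h6 : Nat.card P = 0 := Nat.card_of_isEmpty
    change ψ.nu = q at h2
    change ψ.sx - ((0 : ℕ) : ℤ) = X at h3
    rw [h4] at h2
    rw [h5] at h3
    rw [h6, ← h2, ← h3] at hk
    norm_num at hk

/-- the main theorem -/
theorem IT (k : ℕ) : ∀ (n : ℕ) (B P : Type) [DecidableEq B] [Finite B] [Finite P],
    Nat.card B = n → ∀ q X : ℤ, (k : ℤ) < q - X + Nat.card P →
    G.Ex (CS B P) (EF B P q X) k ∧ ∀ u : B, G.Ex (CS B P) (QF u q X) k := by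
  induction k using Nat.strong_induction_on with
  | _ k ihk =>
  intro n
  induction n using Nat.strong_induction_on with
  | _ n ihn =>
  intro B P _ _ _ hn q X hk
  have hQ : ∀ u : B, G.Ex (CS B P) (QF u q X) k := by
    intro u
    refine QF_of_QK u q X k ?_ (QK0_ex u q X k hk ?_)
    · rintro k' rfl
      refine (ihk k' (Nat.lt_succ_self _) _ (B ⊕ Bool) P rfl q (X + 1) ?_).2 (Sum.inl u)
      push_cast at hk
      linarith
    · intro B' P' _ _ _ hB' b hb q' X' hq
      rcases Nat.lt_or_ge b k with h | h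
      · exact (ihk b h _ B' P' rfl q' X' hq).1
      · obtain rfl : b = k := le_antisymm hb h
        exact (ihn _ (by omega) B' P' rfl q' X' hq).1
  refine ⟨?_, hQ⟩
  rcases isEmpty_or_nonempty B with hB | ⟨⟨u⟩⟩
  · exact EF_ex_empty B P q X k hk
  · exact EF_of_QF u q X k (hQ u)

end Pool.Agent.W604
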