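import Mathlib
import Pool.Agent.W604.It

set_option autoImplicit false
set_option linter.unusedSectionVars false
set_option linter.unusedSimpArgs false
set_option linter.unusedVariables false

/-!
The conditions that a configuration is an arc family in a given surface are stable under
relabelling and under the deletions inside a row.
-/

namespace Pool.Agent.W604

open Equiv

variable {B P : Type} {k : ℕ} [DecidableEq B] [Finite B]

/-- erasing the ends of the chords gives `β` -/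
def Cfg.Bd (β : Perm B) (ψ : Cfg B P k) : Prop := Ind (Sum.inl : B → LL B k) ψ.ps β

/-- the surface is connected -/
def Cfg.Cn (ψ : Cfg B P k) : Prop := ∀ S : Setoid (LL B k ⊕ P), (∀ a b, ψ.X.R a b → S a b) →
  (∀ i, S (Sum.inl (Sum.inr (i, true))) (Sum.inl (Sum.inr (i, false)))) → ∀ a b, S a b

/-- discs without puncture have at least three sides -/
def Cfg.Es (ψ : Cfg B P k) : Prop := ∀ z, ψ.X.x z = 1 → ¬ ψ.Pu z →
  3 ≤ Nat.card {l // ψ.X.R (Sum.inl l) z}

theorem Bd_act_aux {β : Perm B} {ψ : Cfg B P k} (h : ψ.Bd β) (π : Perm (Fin k))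
    (e : Fin k → Bool) : (ψ.act π e).Bd β := by
  have := Ind.conj h (s := W π e) (t := 1) (fun v => rfl)
  rw [one_mul, inv_one, mul_one] at this
  exact this

theorem Cfg.Bd_act (β : Perm B) (π : Perm (Fin k)) (e : Fin k → Bool) (ψ : Cfg B P k) :
    (ψ.act π e).Bd β ↔ ψ.Bd β := by
  refine ⟨fun h => ?_, fun h => Bd_act_aux h π e⟩
  have := Bd_act_aux h π⁻¹ (fun i => e (π⁻¹ i))
  rwa [Cfg.act_inv] at this

theorem Cn_act_aux {ψ : Cfg B P k} (h : ψ.Cn) (π : Perm (Fin k)) (e : Fin k → Bool) :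
    (ψ.act π e).Cn := by
  intro S h1 h2 a b
  obtain ⟨a, rfl⟩ := (WZ P π e).surjective a
  obtain ⟨b, rfl⟩ := (WZ P π e).surjective b
  have := h (Setoid.comap (WZ P π e) S) (fun a b hab => h1 _ _ ((ψ.act_R π e a b).2 hab)) (by
    intro i
    show S (WZ P π e (Sum.inl (Sum.inr (i, true)))) (WZ P π e (Sum.inl (Sum.inr (i, false))))
    rw [WZ_inl, WZ_inl, W_inr, W_inr]
    cases e i
    · exact h2 (π i)
    · exact S.symm (h2 (π i))) a b
  exact this

theorem Cfg.Cn_act (π : Perm (Fin k)) (e : Fin k → Bool) (ψ : Cfg B P k) :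
    (ψ.act π e).Cn ↔ ψ.Cn := by
  refine ⟨fun h => ?_, fun h => Cn_act_aux h π e⟩
  have := Cn_act_aux h π⁻¹ (fun i => e (π⁻¹ i))
  rwa [Cfg.act_inv] at this

theorem Es_act_aux {ψ : Cfg B P k} (h : ψ.Es) (π : Perm (Fin k)) (e : Fin k → Bool) :
    (ψ.act π e).Es := by
  intro z h1 h2
  obtain ⟨z, rfl⟩ := (WZ P π e).surjective z
  rw [Cfg.act_x] at h1
  rw [Cfg.act_Pu] at h2
  have h3 := h z h1 h2
  have h4 : Nat.card {l // ψ.X.R (Sum.inl l) z} =
      Nat.card {l // (ψ.act π e).X.R (Sum.inl l) (WZ P π e z)} := by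
    refine Nat.card_congr (Equiv.subtypeEquiv (W π e) ?_)
    intro l
    exact (ψ.act_R π e (Sum.inl l) z).symm
  rwa [h4] at h3

theorem Cfg.Es_act (π : Perm (Fin k)) (e : Fin k → Bool) (ψ : Cfg B P k) :
    (ψ.act π e).Es ↔ ψ.Es := by
  refine ⟨fun h => ?_, fun h => Es_act_aux h π e⟩
  have := Es_act_aux h π⁻¹ (fun i => e (π⁻¹ i))
  rwa [Cfg.act_inv] at this

/-! ### deletion -/

theorem exists_ind_inl (ψ : Perm (LL B k)) : ∃ β : Perm B, Ind (Sum.inl : B → LL B k) ψ β := by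
  induction k with
  | zero =>
    refine ⟨(Equiv.sumEmpty B (Fin 0 × Bool)).permCongr ψ, ?_⟩
    intro v
    have h1 : ψ (Sum.inl v) =
        Sum.inl ((Equiv.sumEmpty B (Fin 0 × Bool)).permCongr ψ v) := by
      rcases h : ψ (Sum.inl v) with b | ⟨i, _⟩
      · simp [h]
      · exact i.elim0
    rw [h1]
    exact Next.base (j := (Sum.inl : B → LL B 0)) _
  | succ k ih =>
    obtain ⟨β, hβ⟩ := ih (d ψ)
    exact ⟨β, (ind_d ψ).comp j0_inj hβ⟩

theorem Cfg.Bd_del (β : Perm B) (ψ : Cfg B P (k + 1)) : ψ.del.Bd β ↔ ψ.Bd β := by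
  have key : ∀ β, ψ.del.Bd β → ψ.Bd β := fun β h => (ind_d ψ.ps).comp j0_inj h
  refine ⟨key β, fun h => ?_⟩
  obtain ⟨β', hβ'⟩ := exists_ind_inl ψ.del.ps
  have := Ind.unique Sum.inl_injective (key β' hβ') h
  rw [← this]
  exact hβ'

theorem Cfg.Cn_del {ψ : Cfg B P (k + 1)} (hg : Good ψ.ps) : ψ.del.Cn ↔ ψ.Cn := by
  constructor
  · intro h S h1 h2 a b
    have hmg : ∀ a b, mgR ψ.X.R (Sum.inl z1) (Sum.inl z0) a b → S a b :=
      mgR_le.2 ⟨h1, h2 0⟩
    obtain ⟨a', ha⟩ := Cfg.cover hg a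
    obtain ⟨b', hb⟩ := Cfg.cover hg b
    have := h (Setoid.comap JJ S) (fun a b hab => hmg _ _ hab) (fun i => h2 i.succ) a' b'
    exact S.trans (S.symm (hmg _ _ ha)) (S.trans this (hmg _ _ hb))
  · intro h S h1 h2 a b
    choose ρ hρ using Cfg.cover (ψ := ψ) hg
    have key : ∀ x y, mgR ψ.X.R (Sum.inl z1) (Sum.inl z0) x y → S (ρ x) (ρ y) := by
      intro x y hxy
      apply h1
      exact (mgR _ _ _).trans (hρ x) ((mgR _ _ _).trans hxy ((mgR _ _ _).symm (hρ y)))
    have hJ : ∀ z, S (ρ (JJ z)) z := fun z => h1 _ _ (hρ (JJ z))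
    have := h (Setoid.comap ρ S) (fun x y hxy => key x y (mgR_of hxy)) (by
      intro i
      refine Fin.cases ?_ (fun i => ?_) i
      · exact key _ _ (mgR_pq _ _ _)
      · exact S.trans (hJ (Sum.inl (Sum.inr (i, true)))) (S.trans (h2 i)
          (S.symm (hJ (Sum.inl (Sum.inr (i, false))))))) (JJ a) (JJ b)
    exact S.trans (S.symm (hJ a)) (S.trans this (hJ b))

theorem Tsm_ge {Z : Type} [Finite Z] (R : Setoid Z) {w : Z → ℤ} (hw : CF R w)
    (h : ∀ z, 0 ≤ w z) (z : Z) : w z ≤ Tsm R w := by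
  classical
  have hw0 : CF R (fun y => if R y z then 0 else w y) := by
    intro a b hab
    have : R a z ↔ R b z := ⟨fun h => R.trans (R.symm hab) h, fun h => R.trans hab h⟩
    simp only [this, hw a b hab]
  have h1 := Tsm_upd R z hw0 hw (fun y hy => by simp [hy])
  have h2 : 0 ≤ Tsm R (fun y => if R y z then 0 else w y) := by
    apply Tsm_nonneg
    intro y
    split_ifs
    · exact le_refl _
    · exact h y
  rw [if_pos (R.refl z)] at h1
  linarith

theorem Cfg.f_pos (ψ : Cfg B P k) (l : LL B k) : 1 ≤ ψ.f (Sum.inl l) := by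
  classical
  have h := Tsm_ge (Perm.SameCycle.setoid (ψ.ps * bar)) (ψ.ind_CF (Sum.inl l))
    (fun z => by split_ifs <;> simp) l
  rw [if_pos (ψ.X.R.refl _)] at h
  exact h

variable [Finite P]

theorem Cfg.Es_del {ψ : Cfg B P (k + 1)} (hv : ψ.Valid) (hK : ψ.K2) : ψ.del.Es ↔ ψ.Es := by
  have hcard : ∀ z : LL B k ⊕ P, ¬ ψ.M (JJ z) →
      Nat.card {l // ψ.del.X.R (Sum.inl l) z} = Nat.card {l // ψ.X.R (Sum.inl l) (JJ z)} := by
    intro z hz
    have h1 : ∀ l, ψ.del.X.R (Sum.inl l) z ↔ ψ.X.R (Sum.inl (j0 l)) (JJ z) := by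
      intro l
      constructor
      · rintro (h | ⟨_, h⟩)
        · exact h
        · exact absurd h hz
      · exact mgR_of
    refine Nat.card_congr (Equiv.ofBijective
      (fun l => (⟨j0 l.1, (h1 l.1).1 l.2⟩ : {l // ψ.X.R (Sum.inl l) (JJ z)})) ⟨?_, ?_⟩)
    · intro l l' h
      apply Subtype.ext
      exact j0_inj (congrArg Subtype.val h)
    · rintro ⟨l, hl⟩
      rcases j0_cases l with ⟨ε, rfl⟩ | ⟨v, rfl⟩
      · exfalso
        apply hz
        cases ε
        · exact Or.inr (ψ.X.R.symm hl)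
        · exact Or.inl (ψ.X.R.symm hl)
      · exact ⟨⟨v, (h1 v).2 hl⟩, rfl⟩
  constructor
  · intro h z hx hP
    by_cases hM : ψ.M z
    · have hIn : ψ.In := by
        rcases hK with hK | ⟨h1, h2⟩
        · exact hK
        · exfalso
          rcases hM with hM | hM
          · exact hP ((ψ.Pu_congr hM).2 h1)
          · exact hP ((ψ.Pu_congr hM).2 h2)
      have hz1 : ψ.X.R (Sum.inl z1) z := by
        rcases hM with hM | hM
        · exact ψ.X.R.symm hM
        · exact ψ.X.R.trans hIn (ψ.X.R.symm hM)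
      have hz0 : ψ.X.R (Sum.inl z0) z := ψ.X.R.trans (ψ.X.R.symm hIn) hz1
      have hzε : ∀ ε : Bool, ψ.X.R (Sum.inl (Sum.inr (0, ε))) z := by
        intro ε; cases ε
        · exact hz0
        · exact hz1
      obtain ⟨v, hv'⟩ : ∃ v, ψ.X.R (Sum.inl (j0 v)) z := by
        have hb : ∀ ε : Bool, (ψ.ps * bar : Perm (LL B (k + 1))) (Sum.inr (0, !ε)) =
            ψ.ps (Sum.inr (0, ε)) := by
          intro ε; rw [Perm.mul_apply, bar_inr, Bool.not_not]
        rcases hv.good.ni.next true with ⟨v, h1⟩ | ⟨_, v, h1⟩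
        · refine ⟨v, ?_⟩
          have h2 := ψ.hR (Sum.inr (0, !true))
          rw [hb, h1] at h2
          exact ψ.X.R.trans h2 (hzε _)
        · refine ⟨v, ?_⟩
          have h2 := ψ.hR (Sum.inr (0, !(!true)))
          rw [hb, h1] at h2
          exact ψ.X.R.trans h2 (hzε _)
      -- three letters
      have hinj : Function.Injective (fun i : Fin 3 =>
          (![⟨z1, hz1⟩, ⟨z0, hz0⟩, ⟨j0 v, hv'⟩] : Fin 3 → {l // ψ.X.R (Sum.inl l) z}) i) := by
        have e1 : (z1 : LL B (k + 1)) ≠ z0 := by simp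
        have e2 : ∀ ε : Bool, (Sum.inr (0, ε) : LL B (k + 1)) ≠ j0 v := by
          intro ε
          rcases v with b | ⟨i, ε'⟩
          · simp [j0]
          · simp only [j0, ne_eq, Sum.inr.injEq, Prod.mk.injEq, not_and]
            intro h; exact absurd h.symm (Fin.succ_ne_zero _)
        intro i j hij
        fin_cases i <;> fin_cases j <;> simp at hij ⊢
        · exact absurd hij (e2 true)
        · exact absurd hij (e2 false)
        · exact absurd hij.symm (e2 true)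
        · exact absurd hij.symm (e2 false)
      have := Nat.card_le_card_of_injective _ hinj
      simpa using this
    · obtain ⟨z', rfl⟩ : ∃ z', z = JJ z' := by
        rcases z with l | p
        · rcases j0_cases l with ⟨ε, rfl⟩ | ⟨v, rfl⟩
          · exfalso
            apply hM
            cases ε
            · exact Or.inr (ψ.X.R.refl _)
            · exact Or.inl (ψ.X.R.refl _)
          · exact ⟨Sum.inl v, rfl⟩
        · exact ⟨Sum.inr p, rfl⟩
      rw [← hcard z' hM]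
      apply h
      · have : ψ.del.X.x z' = ψ.X.x (JJ z') := SX.mg_x_of_not hM
        rw [this]; exact hx
      · rw [Cfg.del_Pu, Cfg.Pu'_of_not hM]; exact hP
  · intro h z hx hP
    by_cases hM : ψ.M (JJ z)
    · exfalso
      rw [Cfg.del_Pu, Cfg.Pu'_of hM] at hP
      by_cases hIn : ψ.In
      · have h1 : ψ.del.X.x z = ψ.X.x (Sum.inl z1) - 1 := SX.mg_x_of hM hIn
        obtain ⟨g, hg⟩ := hv.genus z1
        have h2 := ψ.f_pos z1
        have h3 : (0 : ℤ) ≤ g := Int.natCast_nonneg g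
        linarith
      · rcases hK with hK | ⟨h1, _⟩
        · exact hIn hK
        · exact hP (Or.inl h1)
    · rw [hcard z hM]
      apply h
      · have : ψ.del.X.x z = ψ.X.x (JJ z) := SX.mg_x_of_not hM
        rw [← this]; exact hx
      · rw [Cfg.del_Pu, Cfg.Pu'_of_not hM] at hP; exact hP

/-! ### the rank -/

/-- the rank of the first homology of the complement -/
noncomputable def Cfg.rk (ψ : Cfg B P k) : ℤ :=
  ∑ᶠ c : Quotient ψ.X.R, (1 - ψ.X.x c.out) +
    ((Nat.card P : ℤ) - Nat.card {c : Quotient ψ.X.R // ∃ p : P, Quotient.mk _ (Sum.inr p) = c})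

theorem Cfg.rk_eq (ψ : Cfg B P k) : ψ.rk = ψ.nu - ψ.sx + Nat.card P := by
  classical
  have h1 : ∑ᶠ c : Quotient ψ.X.R, (1 - ψ.X.x c.out) = Tsm ψ.X.R (fun _ => 1) - ψ.sx := by
    have := Tsm_sub ψ.X.R (w := fun _ => 1) (w' := ψ.X.x)
    exact this
  have h2 : Tsm ψ.X.R (fun _ => 1) = ψ.nu +
      Nat.card {c : Quotient ψ.X.R // ∃ p : P, Quotient.mk _ (Sum.inr p) = c} := by
    unfold Cfg.nu Tsm
    let _ : Fintype (Quotient ψ.X.R) := Fintype.ofFinite _
    rw [finsum_eq_sum_of_fintype, finsum_eq_sum_of_fintype, Nat.card_eq_fintype_card,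
      Fintype.card_subtype, Finset.card_filter]
    push_cast
    rw [← Finset.sum_add_distrib]
    refine Finset.sum_congr rfl fun c _ => ?_
    have h3 : (∃ p : P, Quotient.mk _ (Sum.inr p) = c) ↔ ψ.Pu c.out := by
      constructor
      · rintro ⟨p, rfl⟩
        exact ⟨p, ψ.X.R.symm (Quotient.mk_out (s := ψ.X.R) _)⟩
      · rintro ⟨p, hp⟩
        refine ⟨p, ?_⟩
        rw [← Quotient.out_eq c]
        exact Quotient.sound hp
    unfold Cfg.u
    simp only [h3]
    split_ifs <;> simp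
  unfold Cfg.rk
  rw [h1, h2]
  ring

open Classical in
theorem Cfg.rk_del {ψ : Cfg B P (k + 1)} (h : Good ψ.ps) :
    ψ.del.rk = ψ.rk + (if ψ.K2 then 1 else 0) := by
  rw [Cfg.rk_eq, Cfg.rk_eq, Cfg.del_nu h, Cfg.del_sx h]
  split_ifs <;> ring

theorem Cfg.rk_act (π : Perm (Fin k)) (e : Fin k → Bool) (ψ : Cfg B P k) :
    (ψ.act π e).rk = ψ.rk := by
  rw [Cfg.rk_eq, Cfg.rk_eq, Cfg.act_nu, Cfg.act_sx]

theorem Cfg.rk_nonneg {ψ : Cfg B P k} (h : ψ.Valid) : 0 ≤ ψ.rk := by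
  have hx : ∀ z, ψ.X.x z ≤ 1 := by
    have h1 : ∀ l, ψ.X.x (Sum.inl l) ≤ 1 := by
      intro l
      obtain ⟨g, hg⟩ := h.genus l
      have h2 := ψ.f_pos l
      have h3 : (0 : ℤ) ≤ g := Int.natCast_nonneg g
      linarith
    rintro (l | p)
    · exact h1 l
    · obtain ⟨l, hl⟩ := h.punct p
      rw [← ψ.X.hx _ _ hl]
      exact h1 l
  unfold Cfg.rk
  have h1 : 0 ≤ ∑ᶠ c : Quotient ψ.X.R, (1 - ψ.X.x c.out) := by
    apply finsum_nonneg
    intro c
    have := hx c.out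
    linarith
  have h2 : Nat.card {c : Quotient ψ.X.R // ∃ p : P, Quotient.mk _ (Sum.inr p) = c} ≤
      Nat.card P := by
    refine Nat.card_le_card_of_surjective (fun p : P =>
      (⟨Quotient.mk _ (Sum.inr p), p, rfl⟩ :
        {c : Quotient ψ.X.R // ∃ p : P, Quotient.mk _ (Sum.inr p) = c})) ?_
    rintro ⟨c, p, hp⟩
    exact ⟨p, Subtype.ext hp⟩
  have h3 : (Nat.card {c : Quotient ψ.X.R // ∃ p : P, Quotient.mk _ (Sum.inr p) = c} : ℤ) ≤
      Nat.card P := by exact_mod_cast h2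
  linarith

/-! ### the rows of a surface -/

/-- arc families in the row -/
def RF (β : Perm B) (q X : ℤ) : G.Fam (CS B P) := fun k ψ =>
  EF B P q X k ψ ∧ (Cfg.Bd (P := P) β ψ ∧ Cfg.Cn (P := P) ψ ∧ Cfg.Es (P := P) ψ)

theorem RQ_inv (β : Perm B) : G.Inv (CS B P) (fun k ψ =>
    Cfg.Bd (P := P) β ψ ∧ Cfg.Cn (P := P) ψ ∧ Cfg.Es (P := P) ψ) := by
  intro k π e (ψ : Cfg B P k)
  exact Iff.and (Cfg.Bd_act β π e ψ) (Iff.and (Cfg.Cn_act π e ψ) (Cfg.Es_act π e ψ))

theorem RF_inv (β : Perm B) (q X : ℤ) : G.Inv (CS B P) (RF β q X) := by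
  intro k π e ψ
  exact Iff.and (EF_inv q X k π e ψ) (RQ_inv β k π e ψ)

theorem RF_del {β : Perm B} {q X : ℤ} {ψ : Cfg B P (k + 1)} (h : RF β q X (k + 1) ψ) :
    RF β q X k ψ.del ↔ ψ.K2 := by
  constructor
  · intro h'; exact (EF_del h.1).1 h'.1
  · intro hK
    exact ⟨(EF_del h.1).2 hK, (Cfg.Bd_del β ψ).2 h.2.1, (Cfg.Cn_del h.1.1.good).2 h.2.2.1,
      (Cfg.Es_del h.1.1 hK).2 h.2.2.2⟩

theorem RF_ex (β : Perm B) (q X : ℤ) (k : ℕ) (hk : (k : ℤ) < q - X + Nat.card P) :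
    G.Ex (CS B P) (RF β q X) k := by
  refine G.Ex.restrict (RQ_inv β) ?_ (EF_inv q X) (IT k _ B P rfl q X hk).1
  intro k (ψ : Cfg B P (k + 1)) h h'
  have hK := (EF_del h).1 h'
  exact Iff.and (Cfg.Bd_del β ψ) (Iff.and (Cfg.Cn_del h.1.good) (Cfg.Es_del h.1 hK))

end Pool.Agent.W604
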