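import Mathlib
import Pool.Agent.W604.Inv
import Pool.Agent.W604.Def1

set_option autoImplicit false

/-! Lemmas for the definitions of relabelling and deletion. -/

namespace Pool.Agent.W604.ArcSS

open Equiv Pool.Agent.W604

variable {F : Surf} {k : ℕ}

theorem op_eq : (op : Perm (Lt F k)) = bar := by
  apply Equiv.ext
  rintro (b | ⟨i, ε⟩)
  · rfl
  · rw [bar_inr]; rfl

theorem ren_eq (π : Perm (Fin k)) (τ : Fin k → Perm Bool) :
    (ren π τ : Perm (Lt F k)) = W π (fun i => τ i false) := by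
  apply Equiv.ext
  rintro (b | ⟨i, ε⟩)
  · rfl
  · rw [W_inr]
    have : ∀ (σ : Perm Bool) (ε : Bool), σ ε = xor ε (σ false) := by decide
    show Sum.inr (π i, τ i ε) = _
    rw [this (τ i) ε]

theorem relabel_face (π : Perm (Fin k)) (τ : Fin k → Perm Bool) (D : Sys F k) (l : Lt F k) :
    D.R (Sum.inl ((ren π τ).symm ((ren π τ * D.w * (ren π τ)⁻¹ : Perm _) (op l))))
      (Sum.inl ((ren π τ).symm l)) := by
  have h1 : (ren π τ)⁻¹ (op l) = op ((ren π τ).symm l) := by
    obtain ⟨l, rfl⟩ := (ren π τ).surjective l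
    rw [Perm.inv_eq_iff_eq, symm_apply_apply, op_eq, ren_eq]
    exact (Equiv.congr_fun (bar_comm_W π (fun i => τ i false)) l).symm
  have h2 : (ren π τ).symm ((ren π τ * D.w * (ren π τ)⁻¹ : Perm _) (op l)) =
      D.w (op ((ren π τ).symm l)) := by
    rw [Perm.mul_apply, Perm.mul_apply, symm_apply_apply, h1]
  rw [h2]
  exact D.face _

/-- the configuration -/
def toC (D : Sys F k) : Cfg F.B (Fin F.s) k where
  ps := D.w
  X := ⟨D.R, D.χ, D.cls⟩
  hR l := by rw [← op_eq]; exact D.face l

/-- the configuration, back -/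
def ofC (ψ : Cfg F.B (Fin F.s) k) : Sys F k where
  w := ψ.ps
  R := ψ.X.R
  χ := ψ.X.x
  cls := ψ.X.hx
  face l := by rw [op_eq]; exact ψ.hR l

theorem toC_ofC (ψ : Cfg F.B (Fin F.s) k) : toC (ofC ψ) = ψ := rfl
theorem ofC_toC (D : Sys F k) : ofC (toC D) = D := rfl

theorem next_iff {L L' : Type} {j : L' → L} {w : Perm L} {x : L} {v : L'} :
    Next j w x v ↔ ∃ n : ℕ, (w ^ n) x = j v ∧ ∀ m < n, (w ^ m) x ∉ Set.range j := by
  constructor
  · intro h
    induction h with
    | base v => exact ⟨0, rfl, by simp⟩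
    | step x v h h2 ih =>
      obtain ⟨n, h3, h4⟩ := ih
      refine ⟨n + 1, by rw [pow_succ, Perm.mul_apply]; exact h3, ?_⟩
      intro m hm
      cases m with
      | zero => exact h
      | succ m => rw [pow_succ, Perm.mul_apply]; exact h4 m (by omega)
  · rintro ⟨n, h1, h2⟩
    induction n generalizing x with
    | zero =>
      have : x = j v := h1
      rw [this]; exact Next.base v
    | succ n ih =>
      refine Next.step _ _ (h2 0 (by omega)) (ih ?_ ?_)
      · rw [← Perm.mul_apply, ← pow_succ]; exact h1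
      · intro m hm
        rw [← Perm.mul_apply, ← pow_succ]
        exact h2 (m + 1) (by omega)

theorem erases_iff {L L' : Type} {j : L' → L} {w : Perm L} {w' : Perm L'} :
    Erases j w w' ↔ Ind j w w' := by
  unfold Erases Ind
  refine forall_congr' fun v => ?_
  rw [next_iff]
  simp only [pow_succ, Perm.mul_apply]

theorem W_skip (i : Fin (k + 1)) (l : Lt F k) :
    W i.cycleRange (fun _ => false) (skip i l) = j0 l := by
  rcases l with b | ⟨a, ε⟩
  · rfl
  · show W i.cycleRange (fun _ => false) (Sum.inr (i.succAbove a, ε)) = _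
    rw [W_inr, Fin.cycleRange_succAbove]
    simp [j0]

theorem next_conj {L L' : Type} {j j' : L' → L} {w s : Perm L} (h : ∀ v, s (j v) = j' v)
    {x : L} {v : L'} (h1 : Next j' (s * w * s⁻¹) (s x) v) : Next j w x v := by
  generalize hy : s x = y at h1
  induction h1 generalizing x with
  | base v =>
    rw [← h] at hy
    rw [s.injective hy]
    exact Next.base v
  | step y v h2 h3 ih =>
    subst hy
    refine Next.step _ _ ?_ (ih ?_)
    · rintro ⟨a, rfl⟩
      exact h2 ⟨a, (h a).symm⟩
    · simp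

theorem erases_drop (D : Sys F (k + 1)) (i : Fin (k + 1)) :
    Erases (skip i) D.w ((toC D).act i.cycleRange (fun _ => false)).del.ps := by
  rw [erases_iff]
  intro v
  have h := ind_d ((toC D).act i.cycleRange (fun _ => false)).ps v
  refine next_conj (s := W i.cycleRange (fun _ => false)) (W_skip i) ?_
  have h2 : (((toC D).act i.cycleRange (fun _ => false)).ps) (j0 v) =
      W i.cycleRange (fun _ => false) (D.w (skip i v)) := by
    show (W _ _ * D.w * (W _ _)⁻¹ : Perm _) (j0 v) = _
    rw [← W_skip i v, Perm.mul_apply, Perm.mul_apply]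
    simp
  rw [h2] at h
  exact h

theorem exists_erases (D : Sys F (k + 1)) (i : Fin (k + 1)) :
    ∃ w' : Perm (Lt F k), Erases (skip i) D.w w' := ⟨_, erases_drop D i⟩

theorem skip_inj (i : Fin (k + 1)) : Function.Injective (skip i : Lt F k → Lt F (k + 1)) := by
  intro a b h
  have := W_skip i a
  rw [h, W_skip] at this
  exact (j0_inj this).symm

theorem erases_unique {i : Fin (k + 1)} {w : Perm (Lt F (k + 1))} {w' w'' : Perm (Lt F k)}
    (h : Erases (skip i) w w') (h' : Erases (skip i) w w'') : w' = w'' :=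
  Ind.unique (skip_inj i) (erases_iff.1 h) (erases_iff.1 h')

theorem merge_eq (D : Sys F k) (i : Fin k) : D.merge i =
    mgR D.R (Sum.inl (Sum.inr (i, true))) (Sum.inl (Sum.inr (i, false))) := by
  apply le_antisymm
  · apply sInf_le
    exact ⟨fun a b h => mgR_of h, mgR_pq _ _ _⟩
  · apply le_sInf
    rintro S ⟨h1, h2⟩
    intro a b h
    exact mgR_le.2 ⟨fun a b h => h1 h, h2⟩ a b h

theorem chi_eq (D : Sys F k) (i : Fin k) (z : Lt F k ⊕ Fin F.s) : D.chi i z =
    ((toC D).X.mg (Sum.inl (Sum.inr (i, true))) (Sum.inl (Sum.inr (i, false)))).x z := by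
  have h : D.merge i z (Sum.inl (Sum.inr (i, true))) ↔
      (D.R z (Sum.inl (Sum.inr (i, true))) ∨ D.R z (Sum.inl (Sum.inr (i, false)))) := by
    rw [merge_eq]
    constructor
    · rintro (h | ⟨h, _⟩)
      · exact Or.inl h
      · exact h
    · intro h
      exact Or.inr ⟨h, Or.inl (D.R.refl _)⟩
  unfold Sys.chi
  by_cases h1 : D.R z (Sum.inl (Sum.inr (i, true))) ∨ D.R z (Sum.inl (Sum.inr (i, false)))
  · rw [if_pos (h.2 h1)]
    by_cases h2 : D.R (Sum.inl (Sum.inr (i, true))) (Sum.inl (Sum.inr (i, false)))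
    · rw [if_pos h2]
      exact (SX.mg_x_of (X := (toC D).X) h1 h2).symm
    · rw [if_neg h2]
      exact (SX.mg_x_of' (X := (toC D).X) h1 h2).symm
  · rw [if_neg (fun h2 => h1 (h.1 h2))]
    exact (SX.mg_x_of_not (X := (toC D).X) h1).symm

theorem X_drop (D : Sys F (k + 1)) (i : Fin (k + 1)) :
    ((toC D).act i.cycleRange (fun _ => false)).del.X =
      ((toC D).X.mg (Sum.inl (Sum.inr (i, true))) (Sum.inl (Sum.inr (i, false)))).comap
        (Sum.map (skip i) id) := by
  show (((toC D).X.comap _).mg _ _).comap _ = _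
  rw [← SX.comap_mg, SX.comap_comap]
  have h : ∀ ε, (WZ (Fin F.s) i.cycleRange (fun _ => false))⁻¹ (Sum.inl (Sum.inr (0, ε))) =
      (Sum.inl (Sum.inr (i, ε)) : Lt F (k + 1) ⊕ Fin F.s) := by
    intro ε
    rw [WZ_inv_inl]
    congr 1
    rw [Perm.inv_eq_iff_eq, W_inr, Fin.cycleRange_self]
    simp
  rw [h, h]
  congr 1
  funext z
  rcases z with l | p
  · show (WZ (Fin F.s) i.cycleRange (fun _ => false))⁻¹ (Sum.inl (j0 l)) = Sum.inl (skip i l)
    rw [WZ_inv_inl]
    congr 1
    rw [Perm.inv_eq_iff_eq, W_skip]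
  · rfl

theorem drop_cls (D : Sys F (k + 1)) (i : Fin (k + 1)) (a b : Lt F k ⊕ Fin F.s)
    (h : Setoid.comap (Sum.map (skip i) id) (D.merge i) a b) :
    D.chi i (Sum.map (skip i) id a) = D.chi i (Sum.map (skip i) id b) := by
  rw [chi_eq, chi_eq]
  rw [merge_eq] at h
  exact SX.hx _ _ _ h

theorem drop_face (D : Sys F (k + 1)) (i : Fin (k + 1)) (l : Lt F k) :
    Setoid.comap (Sum.map (skip i) id) (D.merge i)
      (Sum.inl ((Classical.choose (exists_erases D i)) (op l))) (Sum.inl l) := by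
  rw [erases_unique (Classical.choose_spec (exists_erases D i)) (erases_drop D i), op_eq]
  have h := ((toC D).act i.cycleRange (fun _ => false)).del.hR l
  rw [X_drop] at h
  rw [merge_eq]
  exact h

end Pool.Agent.W604.ArcSS
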