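import Mathlib
import Pool.Agent.W604.Lem1

set_option autoImplicit false

/-! Relabelling, deletion of an arc, chains, and the boundary of a cell. -/

namespace Pool.Agent.W604.ArcSS

open Equiv

variable {F : Surf} {k : ℕ}

/-- Renumbering the arcs and changing their orientations. -/
def Sys.relabel (π : Perm (Fin k)) (τ : Fin k → Perm Bool) (D : Sys F k) : Sys F k where
  w := ren π τ * D.w * (ren π τ)⁻¹
  R := Setoid.comap (Sum.map (ren π τ).symm id) D.R
  χ z := D.χ (Sum.map (ren π τ).symm id z)
  cls _ _ h := D.cls _ _ h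
  face l := relabel_face π τ D l

/-- Deletion of arc `i`. -/
noncomputable def Sys.drop (D : Sys F (k + 1)) (i : Fin (k + 1)) : Sys F k where
  w := Classical.choose (exists_erases D i)
  R := Setoid.comap (Sum.map (skip i) id) (D.merge i)
  χ z := D.chi i (Sum.map (skip i) id z)
  cls := drop_cls D i
  face := drop_face D i

/-- The relations between the oriented cells: renumbering the arcs multiplies by the sign. -/
def Rel (F : Surf) : AddSubgroup (FreeAbelianGroup (Σ k, Sys F k)) :=
  AddSubgroup.closure {c | ∃ (k : ℕ) (D : Sys F k) (π : Perm (Fin k)) (τ : Fin k → Perm Bool),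
    c = FreeAbelianGroup.of ⟨k, D.relabel π τ⟩ - Perm.sign π • FreeAbelianGroup.of ⟨k, D⟩}

/-- Chains. -/
abbrev Chain (F : Surf) : Type := FreeAbelianGroup (Σ k, Sys F k) ⧸ Rel F

/-- The oriented cell of `D`. -/
def cell (D : Sys F k) : Chain F := QuotientAddGroup.mk (FreeAbelianGroup.of ⟨k, D⟩)

/-- The part `∂²` of the boundary of a cell with `k` arcs: the alternating sum of the faces for
which the rank of `H_1` changes (no faces if there is only one arc). -/
noncomputable def bd2 : (Σ k, Sys F k) → Chain F
  | ⟨0, _⟩ => 0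
  | ⟨1, _⟩ => 0
  | ⟨k + 2, D⟩ => ∑ i : Fin (k + 2),
      if (D.drop i).rk ≠ D.rk then (-1 : ℤ) ^ (i : ℕ) • cell (D.drop i) else 0

end Pool.Agent.W604.ArcSS
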