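import Mathlib
import Pool.Agent.W604.Def2

set_option autoImplicit false

/-! The boundary is compatible with relabelling. -/

namespace Pool.Agent.W604.ArcSS

open Equiv Pool.Agent.W604

variable {F : Surf} {k : ℕ}

theorem toC_relabel (π : Perm (Fin k)) (τ : Fin k → Perm Bool) (D : Sys F k) :
    toC (D.relabel π τ) = (toC D).act π (fun i => τ i false) := by
  refine Cfg.ext' ?_ ?_
  · show ren π τ * D.w * (ren π τ)⁻¹ = W π _ * D.w * (W π _)⁻¹
    rw [ren_eq]
  · have : (Sum.map (ren π τ).symm id : Lt F k ⊕ Fin F.s → _) =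
        ((WZ (Fin F.s) π (fun i => τ i false))⁻¹ : Perm _) := by
      funext z
      rcases z with l | p
      · rw [WZ_inv_inl, ← ren_eq]; rfl
      · rfl
    refine SX.ext' (fun a b => ?_) (fun a => ?_)
    · show D.R (Sum.map (ren π τ).symm id a) (Sum.map (ren π τ).symm id b) ↔ _
      rw [this]
      rfl
    · show D.χ (Sum.map (ren π τ).symm id a) = _
      rw [this]
      rfl

theorem toC_drop (D : Sys F (k + 1)) (i : Fin (k + 1)) :
    toC (D.drop i) = ((toC D).act i.cycleRange (fun _ => false)).del := by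
  refine Cfg.ext' ?_ ?_
  · exact erases_unique (Classical.choose_spec (exists_erases D i)) (erases_drop D i)
  · rw [X_drop]
    refine SX.ext' (fun a b => ?_) (fun a => ?_)
    · show Setoid.comap (Sum.map (skip i) id) (D.merge i) a b ↔ _
      rw [merge_eq]
      rfl
    · exact chi_eq D i _

theorem rk_toC (D : Sys F k) : D.rk = (toC D).rk := by
  unfold Sys.rk Cfg.rk
  rw [Nat.card_fin]
  rfl

theorem cell_relabel (D : Sys F k) (π : Perm (Fin k)) (τ : Fin k → Perm Bool) :
    cell (D.relabel π τ) = Perm.sign π • cell D := by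
  unfold cell
  have h : FreeAbelianGroup.of (⟨k, D.relabel π τ⟩ : Σ k, Sys F k) -
      Perm.sign π • FreeAbelianGroup.of (⟨k, D⟩ : Σ k, Sys F k) ∈ Rel F :=
    AddSubgroup.subset_closure ⟨k, D, π, τ, rfl⟩
  have h2 := (QuotientAddGroup.eq_zero_iff (N := Rel F) _).2 h
  rw [QuotientAddGroup.mk_sub, sub_eq_zero] at h2
  rw [h2]
  rcases Int.units_eq_one_or (Perm.sign π) with h3 | h3
  · rw [h3, one_smul, one_smul]
  · rw [h3, Units.neg_smul, Units.neg_smul, one_smul, one_smul]
    rfl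

theorem rel_act (e : Fin k → Bool) :
    ∃ τ : Fin k → Perm Bool, (fun i => τ i false) = e := by
  refine ⟨fun i => if e i then boolNot else 1, ?_⟩
  funext i
  cases h : e i
  · show (if e i = true then boolNot else (1 : Perm Bool)) false = false
    rw [h]; rfl
  · show (if e i = true then boolNot else (1 : Perm Bool)) false = true
    rw [h]; rfl

theorem cell_as : G.AS (CS F.B (Fin F.s)) (fun ψ : Cfg F.B (Fin F.s) k => cell (ofC ψ)) := by
  intro π e ψ
  obtain ⟨τ, rfl⟩ := rel_act e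
  have h1 : ofC (Cfg.act π (fun i => τ i false) ψ) = (ofC ψ).relabel π τ :=
    congrArg ofC (toC_relabel π τ (ofC ψ)).symm
  show cell (ofC (Cfg.act π (fun i => τ i false) ψ)) = _
  rw [h1]
  exact cell_relabel (ofC ψ) π τ

open Classical in
/-- the cells of rank different from `r` -/
noncomputable def cr (F : Surf) (k : ℕ) (r : ℤ) (ψ : Cfg F.B (Fin F.s) k) : Chain F :=
  if ψ.rk ≠ r then cell (ofC ψ) else 0

theorem cr_as (r : ℤ) : G.AS (CS F.B (Fin F.s)) (cr F k r) := by
  intro π e (ψ : Cfg F.B (Fin F.s) k)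
  have h1 : cr F k r (ψ.act π e) = Perm.sign π • cr F k r ψ := by
    unfold cr
    rw [Cfg.rk_act]
    have h := cell_as π e ψ
    split_ifs
    · exact h
    · rw [smul_zero]
  exact h1

theorem sign_eq (i : Fin (k + 1)) {A : Type} [AddCommGroup A] (x : A) :
    (-1 : ℤ) ^ (i : ℕ) • x = Perm.sign i.cycleRange • x := by
  rw [Fin.sign_cycleRange]
  rcases Nat.even_or_odd (i : ℕ) with h | h
  · rw [h.neg_one_pow, h.neg_one_pow, one_smul, one_smul]
  · rw [h.neg_one_pow, h.neg_one_pow, neg_smul, one_smul, Units.neg_smul, one_smul]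

theorem dl_eq {A : Type} [AddCommGroup A] {c : (CS F.B (Fin F.s)).X k → A}
    (hc : G.AS (CS F.B (Fin F.s)) c) (D : Sys F (k + 1)) :
    G.dl (CS F.B (Fin F.s)) c (toC D) = ∑ i : Fin (k + 1), (-1 : ℤ) ^ (i : ℕ) • c (toC (D.drop i)) := by
  unfold G.dl
  refine Finset.sum_congr rfl fun i _ => ?_
  rw [G.term_indep hc (toC D) i i.cycleRange (fun _ => false) (Fin.cycleRange_self i), sign_eq,
    toC_drop]
  rfl

theorem bd2_eq (D : Sys F (k + 2)) :
    bd2 ⟨k + 2, D⟩ = G.dl (CS F.B (Fin F.s)) (cr F (k + 1) D.rk) (toC D) := by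
  rw [dl_eq (cr_as D.rk)]
  show (∑ i : Fin (k + 2), if (D.drop i).rk ≠ D.rk then (-1 : ℤ) ^ (i : ℕ) • cell (D.drop i)
    else 0) = _
  refine Finset.sum_congr rfl fun i _ => ?_
  unfold cr
  rw [← rk_toC, ofC_toC]
  split_ifs
  · rfl
  · rw [smul_zero]

theorem bd2_relabel (D : Sys F k) (π : Perm (Fin k)) (τ : Fin k → Perm Bool) :
    bd2 ⟨k, D.relabel π τ⟩ = Perm.sign π • bd2 ⟨k, D⟩ := by
  rcases k with _ | _ | k
  · show (0 : Chain F) = _ • (0 : Chain F)
    rw [smul_zero]
  · show (0 : Chain F) = _ • (0 : Chain F)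
    rw [smul_zero]
  · rw [bd2_eq, bd2_eq, rk_toC, toC_relabel, Cfg.rk_act, ← rk_toC]
    exact (cr_as D.rk).dl π (fun i => τ i false) (toC D)

theorem bd2_rel : Rel F ≤ (FreeAbelianGroup.lift (bd2 (F := F))).ker := by
  unfold Rel
  rw [AddSubgroup.closure_le]
  rintro _ ⟨k, D, π, τ, rfl⟩
  show FreeAbelianGroup.lift bd2 _ = 0
  rw [map_sub, FreeAbelianGroup.lift_apply_of, bd2_relabel, sub_eq_zero]
  rcases Int.units_eq_one_or (Perm.sign π) with h3 | h3
  · rw [h3, one_smul, one_smul, FreeAbelianGroup.lift_apply_of]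
  · rw [h3, Units.neg_smul, Units.neg_smul, one_smul, one_smul, map_neg,
      FreeAbelianGroup.lift_apply_of]

end Pool.Agent.W604.ArcSS
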