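import Mathlib
import Pool.Agent.W604.Lem2

set_option autoImplicit false

/-! The differential of the spectral sequence and its first two pages. -/

namespace Pool.Agent.W604.ArcSS

open Equiv

variable {F : Surf} {k : ℕ}

/-- The differential `∂²`. -/
noncomputable def d2 : Chain F →+ Chain F :=
  QuotientAddGroup.lift (Rel F) (FreeAbelianGroup.lift bd2) bd2_rel

/-- `E⁰_{u,v}`: generated by the cells of the arc families with `p + 1` arcs (cells of dimension
`p`), where `p = u + v`, such that the rank of `H_1 (F_α)` is `- v`. -/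
def E0 (F : Surf) (u v : ℤ) : AddSubgroup (Chain F) :=
  AddSubgroup.closure {c | ∃ (p : ℕ) (D : Sys F (p + 1)),
    D.In ∧ (p : ℤ) = u + v ∧ D.rk = - v ∧ c = cell D}

/-- `E¹_{u,v}`: the homology of `∂²` at `E⁰_{u,v}`. -/
abbrev E1 (F : Surf) (u v : ℤ) : Type :=
  ↥(E0 F u v ⊓ d2.ker) ⧸ ((E0 F u (v + 1)).map d2).addSubgroupOf (E0 F u v ⊓ d2.ker)

/-- `v` is the index of the top horizontal row. -/
def Top (F : Surf) (v : ℤ) : Prop :=
  (∃ u, E0 F u v ≠ ⊥) ∧ ∀ u' v', E0 F u' v' ≠ ⊥ → v' ≤ v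

end Pool.Agent.W604.ArcSS
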