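import Mathlib
import Pool.Agent.W604.Def3

set_option autoImplicit false

/-! Proof of the collapse. -/

namespace Pool.Agent.W604.ArcSS

open Equiv Pool.Agent.W604

variable {F : Surf} {k : ℕ}

theorem d2_cell (D : Sys F k) : d2 (cell D) = bd2 ⟨k, D⟩ := by
  show FreeAbelianGroup.lift bd2 _ = _
  rw [FreeAbelianGroup.lift_apply_of]

/-! ### arc families and the rows -/

theorem curves_eq (D : Sys F k) (z : Lt F k ⊕ Fin F.s) : (D.curves z : ℤ) = (toC D).f z := by
  classical
  unfold Sys.curves Cfg.f Tsm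
  rw [op_eq]
  have h0 : ∀ c : Quotient (Perm.SameCycle.setoid (D.w * bar)),
      (∃ l, Quotient.mk _ l = c ∧ D.R (Sum.inl l) z) ↔ D.R (Sum.inl c.out) z := by
    intro c
    constructor
    · rintro ⟨l, rfl, h⟩
      have h2 : (D.w * bar).SameCycle
          (Quotient.mk (Perm.SameCycle.setoid (D.w * bar)) l).out l :=
        Quotient.mk_out (s := Perm.SameCycle.setoid (D.w * bar)) l
      exact D.R.trans ((toC D).rel_SF h2) h
    · intro h
      exact ⟨c.out, Quotient.out_eq c, h⟩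
  let _ : Fintype (Quotient (Perm.SameCycle.setoid (D.w * bar))) := Fintype.ofFinite _
  let _ : Fintype (Quotient (Perm.SameCycle.setoid ((toC D).ps * bar))) :=
    inferInstanceAs (Fintype (Quotient (Perm.SameCycle.setoid (D.w * bar))))
  rw [finsum_eq_sum_of_fintype, Nat.card_eq_fintype_card, Fintype.card_subtype,
    Finset.card_filter]
  push_cast
  refine Finset.sum_congr rfl fun c _ => ?_
  simp only [h0]
  rfl

/-- the row of the complex that contains `E⁰_{u,v}` -/
def SR (F : Surf) (u : ℤ) : G.Fam (CS F.B (Fin F.s)) :=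
  RF F.next (u + 1 - F.s + (2 - 2 * F.g - F.r)) (2 - 2 * F.g - F.r)

theorem SR_iff (D : Sys F k) (u : ℤ) :
    SR F u k (toC D) ↔ D.In ∧ D.rk = u + 1 - k := by
  have hrk := (toC D).rk_eq
  rw [← rk_toC, Nat.card_fin] at hrk
  constructor
  · rintro ⟨⟨⟨h1, h2, h3⟩, h4, h5⟩, h6, h7, h8⟩
    refine ⟨⟨?_, h2, erases_iff.2 h6, fun e => h3 _, h7, h5, h8⟩, ?_⟩
    · intro l
      obtain ⟨h, hh⟩ := h1 l
      refine ⟨h, ?_⟩
      rw [curves_eq]
      change D.χ (Sum.inl l) + _ + _ = _ at hh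
      linarith
    · rw [hrk]
      have h5' : (toC D).sx - k = 2 - 2 * F.g - F.r := h5
      have h4' : (toC D).nu = u + 1 - F.s + (2 - 2 * F.g - F.r) := h4
      rw [h4']
      linarith
  · rintro ⟨⟨h1, h2, h6, h3, h7, h5, h8⟩, h9⟩
    have h5' : (toC D).sx - k = 2 - 2 * F.g - F.r := h5
    refine ⟨⟨⟨?_, h2, ?_⟩, ?_, h5'⟩, erases_iff.1 h6, h7, h8⟩
    · intro l
      obtain ⟨h, hh⟩ := h1 l
      refine ⟨h, ?_⟩
      rw [curves_eq] at hh
      show D.χ (Sum.inl l) + _ + _ = _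
      linarith
    · rintro (b | e)
      · exact ⟨b, Perm.SameCycle.refl _ _⟩
      · exact h3 e
    · show (toC D).nu = _
      linarith

theorem mem_E0 {p : ℕ} {u v : ℤ} (hp : (p : ℤ) = u + v) {D : Sys F (p + 1)}
    (h : SR F u (p + 1) (toC D)) : cell D ∈ E0 F u v := by
  obtain ⟨h1, h2⟩ := (SR_iff D u).1 h
  refine AddSubgroup.subset_closure ⟨p, D, h1, hp, ?_, rfl⟩
  rw [h2]
  push_cast
  linarith

theorem E0_le {u v : ℤ} {H : AddSubgroup (Chain F)}
    (h : ∀ (p : ℕ) (D : Sys F (p + 1)), (p : ℤ) = u + v → SR F u (p + 1) (toC D) → cell D ∈ H) :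
    E0 F u v ≤ H := by
  unfold E0
  rw [AddSubgroup.closure_le]
  rintro _ ⟨p, D, h1, h2, h3, rfl⟩
  refine h p D h2 ((SR_iff D u).2 ⟨h1, ?_⟩)
  rw [h3]
  push_cast
  linarith

theorem E0_nonpos {u v : ℤ} (h : E0 F u v ≠ ⊥) : v ≤ 0 := by
  by_contra hv
  apply h
  rw [eq_bot_iff]
  apply E0_le
  intro p D h1 h2
  exfalso
  have h3 := ((SR_iff D u).1 h2).2
  have h4 := Cfg.rk_nonneg h2.1.1
  rw [← rk_toC, h3] at h4
  push_cast at h4
  linarith

theorem SR_inv (u : ℤ) : G.Inv (CS F.B (Fin F.s)) (SR F u) := RF_inv _ _ _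

/-- the faces inside a row are the faces of the second kind -/
theorem SR_drop {u : ℤ} {D : Sys F (k + 1)} (h : SR F u (k + 1) (toC D)) (i : Fin (k + 1)) :
    SR F u k (toC (D.drop i)) ↔ (D.drop i).rk ≠ D.rk := by
  classical
  have h1 : SR F u (k + 1) ((toC D).act i.cycleRange (fun _ => false)) :=
    (SR_inv u (k + 1) i.cycleRange (fun _ => false) (toC D)).2 h
  rw [toC_drop]
  have h2 := RF_del h1
  have h3 := Cfg.rk_del h1.1.1.good
  rw [Cfg.rk_act, ← rk_toC, ← toC_drop, ← rk_toC] at h3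
  rw [← toC_drop] at h2 ⊢
  rw [h3]
  refine Iff.trans h2 ?_
  split_ifs with h4
  · simp [h4]
  · simp [h4]

open Classical in
/-- coboundary of a cochain of the row, in terms of the faces of the second kind -/
theorem dl_row {A : Type} [AddCommGroup A] {u : ℤ} {c : (CS F.B (Fin F.s)).X k → A}
    (hc : G.AS (CS F.B (Fin F.s)) c) (hs : G.Supp (CS F.B (Fin F.s)) (SR F u) c)
    {D : Sys F (k + 1)} (h : SR F u (k + 1) (toC D)) :
    G.dl (CS F.B (Fin F.s)) c (toC D) = ∑ i : Fin (k + 1),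
      if (D.drop i).rk ≠ D.rk then (-1 : ℤ) ^ (i : ℕ) • c (toC (D.drop i)) else 0 := by
  rw [dl_eq hc]
  refine Finset.sum_congr rfl fun i _ => ?_
  split_ifs with h1
  · rfl
  · rw [hs _ (fun h2 => h1 ((SR_drop h i).1 h2)), smul_zero]

/-- homomorphism given by a cochain -/
theorem exists_hom {A : Type} [AddCommGroup A] {w : (CS F.B (Fin F.s)).X k → A}
    (hw : G.AS (CS F.B (Fin F.s)) w) :
    ∃ f : Chain F →+ A, ∀ D : Sys F k, f (cell D) = w (toC D) := by
  let f0 : FreeAbelianGroup (Σ k, Sys F k) →+ A :=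
    FreeAbelianGroup.lift fun x => G.sg w x.1 (toC x.2)
  have h0 : Rel F ≤ f0.ker := by
    unfold Rel
    rw [AddSubgroup.closure_le]
    rintro _ ⟨j, D, π, τ, rfl⟩
    show f0 _ = 0
    have h1 : f0 (FreeAbelianGroup.of ⟨j, D.relabel π τ⟩) =
        Perm.sign π • f0 (FreeAbelianGroup.of ⟨j, D⟩) := by
      simp only [f0, FreeAbelianGroup.lift_apply_of]
      rw [toC_relabel]
      exact (G.ASG.sg hw) j π _ (toC D)
    rw [map_sub, h1, sub_eq_zero]
    rcases Int.units_eq_one_or (Perm.sign π) with h3 | h3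
    · rw [h3, one_smul, one_smul]
    · rw [h3, Units.neg_smul, Units.neg_smul, one_smul, one_smul, map_neg]
  refine ⟨QuotientAddGroup.lift (Rel F) f0 h0, fun D => ?_⟩
  show f0 _ = _
  simp only [f0, FreeAbelianGroup.lift_apply_of]
  exact G.sg_self w (toC D)

/-- the cells of the row -/
noncomputable def cS (F : Surf) (u : ℤ) (k : ℕ) : (CS F.B (Fin F.s)).X k → Chain F :=
  G.cut (SR F u) (fun ψ : Cfg F.B (Fin F.s) k => cell (ofC ψ))

theorem cS_as (u : ℤ) : G.AS (CS F.B (Fin F.s)) (cS F u k) := cell_as.cut (SR_inv u)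

theorem cS_supp (u : ℤ) : G.Supp (CS F.B (Fin F.s)) (SR F u) (cS F u k) := G.supp_cut _ _

theorem cS_of {u : ℤ} {D : Sys F k} (h : SR F u k (toC D)) : cS F u k (toC D) = cell D :=
  G.cut_of h

theorem d2_row {u : ℤ} {D : Sys F (k + 2)} (h : SR F u (k + 2) (toC D)) :
    d2 (cell D) = G.dl (CS F.B (Fin F.s)) (cS F u (k + 1)) (toC D) := by
  classical
  rw [d2_cell, dl_row (cS_as u) (cS_supp u) h]
  show (∑ i : Fin (k + 2), if (D.drop i).rk ≠ D.rk then (-1 : ℤ) ^ (i : ℕ) • cell (D.drop i)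
    else 0) = _
  refine Finset.sum_congr rfl fun i _ => ?_
  split_ifs with h1
  · rw [cS_of ((SR_drop h i).2 h1)]
  · rfl

theorem main {u v : ℤ} (hv : v < 0) (huv : u + v ≠ 0) :
    E0 F u v ⊓ d2.ker ≤ (E0 F u (v + 1)).map d2 := by
  rcases lt_or_gt_of_ne huv with h0 | h0
  · have : E0 F u v = ⊥ := by
      rw [eq_bot_iff]
      apply E0_le
      intro p D h1 _
      exfalso
      have : (0 : ℤ) ≤ p := Int.natCast_nonneg p
      linarith
    rw [this, bot_inf_eq]
    exact bot_le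
  · obtain ⟨p, hp⟩ : ∃ p : ℕ, ((p + 1 : ℕ) : ℤ) = u + v := by
      refine ⟨(u + v - 1).toNat, ?_⟩
      rw [Nat.cast_add, Int.toNat_of_nonneg (by linarith)]
      push_cast
      ring
    set H := (E0 F u (v + 1)).map d2 with hH
    have hex : G.Ex (CS F.B (Fin F.s)) (SR F u) (p + 2) := by
      apply RF_ex
      rw [Nat.card_fin]
      push_cast at hp ⊢
      linarith
    let q : Chain F →+ Chain F ⧸ H := QuotientAddGroup.mk' H
    have hq : ∀ x, q x = 0 ↔ x ∈ H := fun x => QuotientAddGroup.eq_zero_iff x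
    let c : (CS F.B (Fin F.s)).X (p + 2) → Chain F ⧸ H := fun ψ => q (cS F u (p + 2) ψ)
    have hc_as : G.AS (CS F.B (Fin F.s)) c := by
      intro π e ψ
      simp only [c]
      rw [cS_as u π e ψ]
      rcases Int.units_eq_one_or (Perm.sign π) with h3 | h3
      · rw [h3, one_smul, one_smul]
      · rw [h3, Units.neg_smul, Units.neg_smul, one_smul, one_smul, map_neg]
    have hc_supp : G.Supp (CS F.B (Fin F.s)) (SR F u) c := by
      intro ψ h
      simp only [c]
      rw [cS_supp u ψ h, map_zero]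
    have hc : G.Coc (CS F.B (Fin F.s)) (SR F u) c := by
      refine ⟨hc_as, hc_supp, ?_⟩
      intro (ψ : Cfg F.B (Fin F.s) (p + 3)) h
      have h1 : G.dl (CS F.B (Fin F.s)) c (toC (ofC ψ)) =
          q (G.dl (CS F.B (Fin F.s)) (cS F u (p + 2)) (toC (ofC ψ))) := by
        rw [dl_eq hc_as, dl_eq (cS_as u), map_sum]
        refine Finset.sum_congr rfl fun i _ => ?_
        rw [map_zsmul]
      have h2 : d2 (cell (ofC ψ)) = G.dl (CS F.B (Fin F.s)) (cS F u (p + 2)) (toC (ofC ψ)) :=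
        d2_row (k := p + 1) h
      rw [← h2] at h1
      have h3 : d2 (cell (ofC ψ)) ∈ H :=
        AddSubgroup.mem_map_of_mem _ (mem_E0 (p := p + 2) (by push_cast at hp ⊢; linarith) h)
      exact h1.trans ((hq _).2 h3)
    obtain ⟨w, hw1, hw2, hw3⟩ := hex _ c hc
    obtain ⟨f, hf⟩ := exists_hom hw1
    have key : E0 F u v ≤ (q - f.comp d2).ker := by
      apply E0_le
      intro p' D h1 h2
      obtain rfl : p' = p + 1 := by
        have : (p' : ℤ) = ((p + 1 : ℕ) : ℤ) := by rw [h1, hp]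
        exact_mod_cast this
      rw [AddMonoidHom.mem_ker, AddMonoidHom.sub_apply, sub_eq_zero]
      have h3 := hw3 (toC D) h2
      have h4 : c (toC D) = q (cell D) := by
        simp only [c]
        rw [cS_of h2]
      rw [← h4, h3, AddMonoidHom.comp_apply, d2_row h2, dl_eq hw1, dl_eq (cS_as u), map_sum]
      refine Finset.sum_congr rfl fun i _ => ?_
      rw [map_zsmul]
      congr 1
      by_cases h5 : SR F u (p + 1) (toC (D.drop i))
      · rw [cS_of h5, hf]
      · rw [cS_supp u _ h5, hw2 _ h5, map_zero]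
    rintro z ⟨h1, h2⟩
    have h3 := key h1
    rw [AddMonoidHom.mem_ker, AddMonoidHom.sub_apply, AddMonoidHom.comp_apply, sub_eq_zero] at h3
    have h4 : d2 z = 0 := h2
    rw [h4, map_zero] at h3
    exact (hq z).1 h3

/-- The spectral sequence collapses at `E¹` onto its top horizontal row, except in dimension
zero. -/
theorem collapse (F : Surf) (u v : ℤ) (hv : ¬ Top F v) (huv : u + v ≠ 0) :
    Subsingleton (E1 F u v) := by
  have h : (E0 F u v ⊓ d2.ker) ≤ (E0 F u (v + 1)).map d2 := by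
    by_cases h1 : E0 F u v = ⊥
    · rw [h1, bot_inf_eq]
      exact bot_le
    · refine main ?_ huv
      by_contra h2
      apply hv
      refine ⟨⟨u, h1⟩, fun u' v' h' => ?_⟩
      have := E0_nonpos h'
      linarith
  rw [← AddSubgroup.addSubgroupOf_eq_top] at h
  unfold E1
  rw [h]
  exact QuotientAddGroup.subsingleton_quotient_top

end Pool.Agent.W604.ArcSS
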